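import Mathlib
import Pool.Agent.H383.RR

/-!
Pairs of Gaussian integers of the same norm.
-/

open Set Filter Topology
open Pool.Agent.H383.Gauss

namespace Pool.Agent.W2helper20.GC

/-- canonical generator of a principal ideal -/
noncomputable def gn (G : GaussianInt) : GaussianInt := Submodule.IsPrincipal.generator (Ideal.span {G})

lemma gn_span (G : GaussianInt) : Ideal.span {gn G} = Ideal.span {G} :=
  Ideal.span_singleton_generator (Ideal.span {G})

lemma gn_assoc (G : GaussianInt) : Associated (gn G) G := Ideal.span_singleton_eq_span_singleton.mp (gn_span G)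

lemma norm_unit {u : GaussianInt} (hu : IsUnit u) : u.norm = 1 := by
  have h1 : u.norm.natAbs = 1 := Zsqrtd.norm_eq_one_iff.mpr hu
  have h0 : 0 ≤ u.norm := by rw [norm_eq]; positivity
  omega

lemma norm_assoc {x y : GaussianInt} (h : Associated x y) : x.norm = y.norm := by
  obtain ⟨u, rfl⟩ := h
  rw [Zsqrtd.norm_mul, norm_unit u.isUnit, mul_one]

lemma norm_star (a : GaussianInt) : (star a).norm = a.norm := by
  simp [Zsqrtd.norm, Zsqrtd.re_star, Zsqrtd.im_star]

lemma cg_eq_gn {z w G : GaussianInt} (h : Ideal.span {z, w} = Ideal.span {G}) : cg z w = gn G := by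
  unfold cg gn
  simp only [h]

/-- the ideal generated by the pair -/
lemma span_pair {G a : GaussianInt} (hc : IsCoprime a (star a)) : Ideal.span {gn G * a, G * star a} = Ideal.span {G} := by
  apply le_antisymm
  · rw [Ideal.span_le]
    intro x hx
    simp only [Set.mem_insert_iff, Set.mem_singleton_iff] at hx
    rw [SetLike.mem_coe]
    rcases hx with rfl | rfl
    · rw [← gn_span G]
      exact Ideal.mul_mem_right _ _ (Ideal.mem_span_singleton_self _)
    · exact Ideal.mul_mem_right _ _ (Ideal.mem_span_singleton_self _)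
  · rw [Ideal.span_le]
    intro x hx
    simp only [Set.mem_singleton_iff] at hx
    rw [hx, SetLike.mem_coe]
    obtain ⟨p, q, hpq⟩ := hc
    obtain ⟨u, hu⟩ := gn_assoc G
    have e : G = (p * (u : GaussianInt)) * (gn G * a) + q * (G * star a) := by
      calc G = G * (p * a + q * star a) := by rw [hpq, mul_one]
        _ = p * a * G + q * (G * star a) := by ring
        _ = p * a * (gn G * u) + q * (G * star a) := by rw [hu]
        _ = _ := by ring
    have h1 : gn G * a ∈ Ideal.span {gn G * a, G * star a} := Ideal.subset_span (by simp)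
    have h2 : G * star a ∈ Ideal.span {gn G * a, G * star a} := Ideal.subset_span (by simp)
    have h3 := Ideal.add_mem _ (Ideal.mul_mem_left _ (p * (u : GaussianInt)) h1) (Ideal.mul_mem_left _ q h2)
    rw [← e] at h3
    exact h3

/-- the structure of pairs of equal norm -/
lemma key_pair' {m : ℕ} (hm : 1 ≤ m) {z w : GaussianInt} (hz : z ∈ A m) (hw : w ∈ A m) :
    ∃ G a : GaussianInt, IsCoprime a (star a) ∧ z = gn G * a ∧ w = G * star a := by
  obtain ⟨a, ha⟩ := cg_dvd_left z w
  obtain ⟨b, hb⟩ := cg_dvd_right z w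
  set g := cg z w with hg
  rw [mem_A] at hz hw
  have hm0 : (m:ℤ) ≠ 0 := by exact_mod_cast (by omega : m ≠ 0)
  have hg0 : g ≠ 0 := by
    intro h
    rw [h, zero_mul] at ha
    rw [ha] at hz
    simp at hz
    omega
  have hcop : IsCoprime a b := by
    have h1 : g ∈ Ideal.span {z, w} := by
      rw [← cg_span]; exact Ideal.subset_span (by simp [hg])
    rw [Ideal.mem_span_pair] at h1
    obtain ⟨x, y, hxy⟩ := h1
    refine ⟨x, y, ?_⟩
    have h2 : g * (x * a + y * b) = g * 1 := by
      rw [mul_one]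
      nth_rewrite 2 [← hxy]
      rw [ha, hb]; ring
    exact mul_left_cancel₀ hg0 h2
  have hna : a.norm = b.norm := by
    have h1 : g.norm * a.norm = g.norm * b.norm := by
      rw [← Zsqrtd.norm_mul, ← Zsqrtd.norm_mul, ← ha, ← hb, hz, hw]
    have h2 : g.norm ≠ 0 := by
      intro h
      rw [ha, Zsqrtd.norm_mul, h, zero_mul] at hz
      exact hm0 hz.symm
    exact mul_left_cancel₀ h2 h1
  have ha0 : a.norm ≠ 0 := by
    intro h
    rw [ha, Zsqrtd.norm_mul, h, mul_zero] at hz
    exact hm0 hz.symm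
  have hdvd : a ∣ b * star b := by
    rw [mul_star_eq, ← hna, ← mul_star_eq]
    exact Dvd.intro _ rfl
  have hdvd2 : a ∣ star b := hcop.dvd_of_dvd_mul_left hdvd
  obtain ⟨v, hv⟩ := hdvd2
  have hvn : v.norm = 1 := by
    have h1 : (star b).norm = a.norm * v.norm := by rw [hv, Zsqrtd.norm_mul]
    rw [norm_star, ← hna] at h1
    have h3 : a.norm * v.norm = a.norm * 1 := by rw [← h1, mul_one]
    exact mul_left_cancel₀ ha0 h3
  have hvu : IsUnit v := by
    rw [← Zsqrtd.norm_eq_one_iff, hvn]; rfl
  have hsu : IsUnit (star v) := hvu.map (starRingEnd GaussianInt)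
  have hb2 : b = star a * star v := by
    have := congrArg star hv
    rw [star_star, star_mul] at this
    rw [this]; ring
  have hcc : IsCoprime a (star a) := by
    rw [hb2] at hcop
    exact hcop.of_mul_right_left
  refine ⟨g * star v, a, hcc, ?_, ?_⟩
  · have e : gn (g * star v) = g := by
      rw [hg]
      symm
      rw [← hg]
      have h1 : Ideal.span {z, w} = Ideal.span {g * star v} := by
        rw [← cg_span, ← hg]
        rw [Ideal.span_singleton_eq_span_singleton]
        obtain ⟨u, hu⟩ := hsu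
        exact ⟨u, by rw [hu]⟩
      exact cg_eq_gn h1
    rw [e]; exact ha
  · nth_rewrite 1 [hb]
    rw [hb2]; ring

/-- norm-`n` Gaussian integers as a finite set -/
noncomputable def As (n : ℕ) : Finset GaussianInt := (A_finite n).toFinset

lemma mem_As {n : ℕ} {z : GaussianInt} : z ∈ As n ↔ z.norm = n := by
  unfold As
  rw [Set.Finite.mem_toFinset, mem_A]

lemma As_card (n : ℕ) : ((As n).card : ℝ) = rA n := by
  unfold rA As
  rw [Set.ncard_eq_toFinset_card _ (A_finite n)]

open Classical in
/-- those coprime to their conjugate -/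
noncomputable def Cs (n : ℕ) : Finset GaussianInt := (As n).filter (fun a => IsCoprime a (star a))

lemma mem_Cs {n : ℕ} {z : GaussianInt} : z ∈ Cs n ↔ z.norm = n ∧ IsCoprime z (star z) := by
  classical
  unfold Cs
  rw [Finset.mem_filter, mem_As]

/-- the number of them -/
noncomputable def rp (n : ℕ) : ℝ := ((Cs n).card : ℝ)

lemma star_ne_zero' {a : GaussianInt} (h : a.norm ≠ 0) : star a ≠ 0 := by
  intro h0
  apply h
  rw [← norm_star, h0]; rfl

lemma norm_nn (a : GaussianInt) : 0 ≤ a.norm := by rw [norm_eq]; positivity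

/-- `Ψ` is injective -/
lemma psi_inj {G a G' a' : GaussianInt} (hc : IsCoprime a (star a)) (hc' : IsCoprime a' (star a')) (hG : G.norm ≠ 0) (ha : a.norm ≠ 0)
    (h1 : gn G * a = gn G' * a') (h2 : G * star a = G' * star a') : G = G' ∧ a = a' := by
  have e1 : cg (gn G * a) (G * star a) = gn G := cg_eq_gn (span_pair hc)
  have e2 : cg (gn G' * a') (G' * star a') = gn G' := cg_eq_gn (span_pair hc')
  have e3 : gn G = gn G' := by rw [← e1, ← e2, h1, h2]
  have hg0 : gn G ≠ 0 := by
    intro h0
    have := norm_assoc (gn_assoc G)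
    rw [h0] at this
    exact hG this.symm
  have e4 : a = a' := by
    rw [e3] at h1 hg0
    exact mul_left_cancel₀ hg0 h1
  refine ⟨?_, e4⟩
  rw [← e4] at h2
  exact mul_right_cancel₀ (star_ne_zero' ha) h2

open Classical in
theorem rA_sq {m : ℕ} (hm : 1 ≤ m) : (rA m)^2 = ∑ x ∈ m.divisorsAntidiagonal, rA x.1 * rp x.2 := by
  have h : (As m ×ˢ As m).card = (m.divisorsAntidiagonal.sigma (fun x => As x.1 ×ˢ Cs x.2)).card := by
    symm
    apply Finset.card_bij (fun x _ => (gn x.2.1 * x.2.2, x.2.1 * star x.2.2))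
    · rintro ⟨⟨x, y⟩, G, a⟩ h
      rw [Finset.mem_sigma, Nat.mem_divisorsAntidiagonal, Finset.mem_product, mem_As, mem_Cs] at h
      obtain ⟨⟨hxy, -⟩, hG, ha, -⟩ := h
      simp only at hxy hG ha
      rw [Finset.mem_product, mem_As, mem_As]
      simp only
      rw [Zsqrtd.norm_mul, Zsqrtd.norm_mul, norm_star, norm_assoc (gn_assoc G), hG, ha]
      exact ⟨by exact_mod_cast hxy, by exact_mod_cast hxy⟩
    · rintro ⟨⟨x, y⟩, G, a⟩ h ⟨⟨x', y'⟩, G', a'⟩ h' he
      rw [Finset.mem_sigma, Nat.mem_divisorsAntidiagonal, Finset.mem_product, mem_As, mem_Cs] at h h'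
      obtain ⟨⟨hxy, hm0⟩, hG, ha, hc⟩ := h
      obtain ⟨⟨hxy', -⟩, hG', ha', hc'⟩ := h'
      simp only at hxy hG ha hc hxy' hG' ha' hc' he
      rw [Prod.mk.injEq] at he
      have hx0 : x ≠ 0 := by rintro rfl; rw [zero_mul] at hxy; exact hm0 hxy.symm
      have hy0 : y ≠ 0 := by rintro rfl; rw [mul_zero] at hxy; exact hm0 hxy.symm
      obtain ⟨e1, e2⟩ := psi_inj hc hc' (by rw [hG]; exact_mod_cast hx0) (by rw [ha]; exact_mod_cast hy0) he.1 he.2
      subst e1 e2
      have e3 : x = x' := by rw [hG] at hG'; exact_mod_cast hG'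
      have e4 : y = y' := by rw [ha] at ha'; exact_mod_cast ha'
      subst e3 e4
      rfl
    · rintro ⟨z, w⟩ hzw
      rw [Finset.mem_product, mem_As, mem_As] at hzw
      obtain ⟨hz, hw⟩ := hzw
      simp only at hz hw
      obtain ⟨G, a, hc, h1, h2⟩ := key_pair' hm (mem_A.mpr hz) (mem_A.mpr hw)
      refine ⟨⟨(G.norm.toNat, a.norm.toNat), G, a⟩, ?_, ?_⟩
      · rw [Finset.mem_sigma, Nat.mem_divisorsAntidiagonal, Finset.mem_product, mem_As, mem_Cs]
        simp only
        have hn : G.norm * a.norm = m := by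
          rw [h2, Zsqrtd.norm_mul, norm_star] at hw; exact hw
        refine ⟨⟨?_, by omega⟩, (Int.toNat_of_nonneg (norm_nn G)).symm, (Int.toNat_of_nonneg (norm_nn a)).symm, hc⟩
        have : (((G.norm.toNat * a.norm.toNat : ℕ)) : ℤ) = m := by
          push_cast
          rw [Int.toNat_of_nonneg (norm_nn G), Int.toNat_of_nonneg (norm_nn a)]; exact hn
        exact_mod_cast this
      · simp only
        rw [← h1, ← h2]
  rw [Finset.card_product, Finset.card_sigma] at h
  have h' : ((As m).card : ℝ) * (As m).card = ∑ x ∈ m.divisorsAntidiagonal, (((As x.1).card : ℝ) * ((Cs x.2).card : ℝ)) := by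
    have h2 : (((As m).card * (As m).card : ℕ) : ℝ) = ((∑ x ∈ m.divisorsAntidiagonal, (As x.1 ×ˢ Cs x.2).card : ℕ) : ℝ) := by
      exact_mod_cast h
    push_cast at h2
    rw [h2]
    apply Finset.sum_congr rfl
    intro x _
    rw [Finset.card_product]; push_cast; rfl
  rw [sq, ← As_card, h']
  apply Finset.sum_congr rfl
  intro x _
  rw [As_card]; rfl

open Classical in
theorem rA_of_sq {k : ℕ} (hk : 1 ≤ k) : rA (k^2) = ∑ d ∈ k.divisors, rp d := by
  have hk0 : (k:ℤ) ≠ 0 := by exact_mod_cast (by omega : k ≠ 0)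
  have h : (As (k^2)).card = (k.divisors.sigma (fun d => Cs d)).card := by
    symm
    apply Finset.card_bij (fun x _ => gn (((k / x.1 : ℕ) : GaussianInt) * x.2) * x.2)
    · rintro ⟨d, a⟩ h
      rw [Finset.mem_sigma, Nat.mem_divisors, mem_Cs] at h
      obtain ⟨⟨⟨q, hq⟩, -⟩, ha, -⟩ := h
      simp only at hq ha
      have hd0 : 0 < d := by
        rcases Nat.eq_zero_or_pos d with h | h
        · rw [h, zero_mul] at hq; omega
        · exact h
      rw [mem_As]
      simp only
      rw [Zsqrtd.norm_mul, norm_assoc (gn_assoc _), Zsqrtd.norm_mul, ha, hq, Nat.mul_div_cancel_left _ hd0, Zsqrtd.norm_natCast]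
      push_cast; ring
    · rintro ⟨d, a⟩ h ⟨d', a'⟩ h' he
      rw [Finset.mem_sigma, Nat.mem_divisors, mem_Cs] at h h'
      obtain ⟨⟨⟨q, hq⟩, hk1⟩, ha, hc⟩ := h
      obtain ⟨⟨⟨q', hq'⟩, -⟩, ha', hc'⟩ := h'
      simp only at hq ha hc hq' ha' hc' he
      have hd0 : 0 < d := by
        rcases Nat.eq_zero_or_pos d with h | h
        · rw [h, zero_mul] at hq; exact absurd hq hk1
        · exact h
      have hd0' : 0 < d' := by
        rcases Nat.eq_zero_or_pos d' with h | h
        · rw [h, zero_mul] at hq'; exact absurd hq' hk1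
        · exact h
      have hq0 : q ≠ 0 := by rintro rfl; rw [mul_zero] at hq; exact hk1 hq
      have e5 : k / d = q := by rw [hq, Nat.mul_div_cancel_left _ hd0]
      have e5' : k / d' = q' := by rw [hq', Nat.mul_div_cancel_left _ hd0']
      rw [e5, e5'] at he
      have hmul : ∀ {d q : ℕ} {a : GaussianInt}, k = d * q → a.norm = d → ((q:GaussianInt) * a) * star a = (k : GaussianInt) := by
        intro d q a hq ha
        rw [mul_assoc, mul_star_eq, ha, hq]; push_cast; ring
      obtain ⟨-, e2⟩ := psi_inj (G := (q:GaussianInt) * a) (G' := (q':GaussianInt) * a') hc hc' (by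
        rw [Zsqrtd.norm_mul, ha, Zsqrtd.norm_natCast]
        have : (d:ℤ) ≠ 0 := by exact_mod_cast hd0.ne'
        have : (q:ℤ) ≠ 0 := by exact_mod_cast hq0
        positivity) (by rw [ha]; exact_mod_cast hd0.ne') he (by rw [hmul hq ha, hmul hq' ha'])
      subst e2
      have e4 : d = d' := by rw [ha] at ha'; exact_mod_cast ha'
      subst e4
      rfl
    · intro z hz
      rw [mem_As] at hz
      obtain ⟨G, a, hc, h1, h2⟩ := key_pair' (m := k^2) (Nat.one_le_pow _ _ hk) (w := (k:GaussianInt)) (mem_A.mpr hz)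
        (mem_A.mpr (by rw [Zsqrtd.norm_natCast]; push_cast; ring))
      -- a divides k / star a ...
      have h3 : star a ∣ (k:GaussianInt) := ⟨G, by rw [h2]; ring⟩
      have h4 : a ∣ (k:GaussianInt) := by
        obtain ⟨x, hx⟩ := h3
        refine ⟨star x, ?_⟩
        have := congrArg star hx
        rw [star_mul, star_star] at this
        rw [star_natCast] at this
        rw [this]; ring
      have h5 : a * star a ∣ (k:GaussianInt) := hc.mul_dvd h4 h3
      rw [mul_star_eq] at h5
      have h6 : a.norm ∣ (k:ℤ) := by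
        have h7 : ((a.norm : ℤ) : GaussianInt) ∣ ((k:ℤ) : GaussianInt) := by exact_mod_cast h5
        exact (Zsqrtd.intCast_dvd_intCast _ _).mp h7
      set d := a.norm.toNat with hd
      have hdn : (d:ℤ) = a.norm := Int.toNat_of_nonneg (norm_nn a)
      have h8 : d ∣ k := by
        rw [← hdn] at h6
        exact_mod_cast h6
      obtain ⟨q, hq⟩ := h8
      have hd0 : 0 < d := by
        rcases Nat.eq_zero_or_pos d with h | h
        · rw [h, zero_mul] at hq; omega
        · exact h
      have ha0 : a.norm ≠ 0 := by rw [← hdn]; exact_mod_cast hd0.ne'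
      refine ⟨⟨d, a⟩, ?_, ?_⟩
      · rw [Finset.mem_sigma, Nat.mem_divisors, mem_Cs]
        exact ⟨⟨⟨q, hq⟩, by omega⟩, hdn.symm, hc⟩
      · simp only
        have e5 : k / d = q := by rw [hq, Nat.mul_div_cancel_left _ hd0]
        rw [e5]
        have e6 : (q:GaussianInt) * a = G := by
          apply mul_right_cancel₀ (star_ne_zero' ha0)
          rw [← h2, mul_assoc, mul_star_eq, ← hdn, hq]; push_cast; ring
        rw [e6, ← h1]
  rw [Finset.card_sigma] at h
  rw [← As_card, h]
  push_cast
  rfl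

end Pool.Agent.W2helper20.GC
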