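import Mathlib
import Pool.Agent.N48.Ann.NT4
import Pool.Agent.W2helper20.GC.NTa

/-!
Gaussian integers coprime to their conjugate: counting.
-/

open Filter Topology
open Pool.Agent.H383.Gauss Pool.Agent.N48.Ann

namespace Pool.Agent.W2helper20.GC

lemma cop_of {a : GaussianInt} (h : IsCoprime a (star a)) : IsCoprime a.re a.im ∧ (a.re + a.im) % 2 = 1 := by
  constructor
  · rw [Int.isCoprime_iff_gcd_eq_one]
    set g := Int.gcd a.re a.im with hg
    have h1 : ((g:ℤ) : GaussianInt) ∣ a := by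
      rw [Zsqrtd.intCast_dvd]
      exact ⟨Int.gcd_dvd_left _ _, Int.gcd_dvd_right _ _⟩
    have h2 : ((g:ℤ) : GaussianInt) ∣ star a := by
      rw [Zsqrtd.intCast_dvd]
      rw [Zsqrtd.re_star, Zsqrtd.im_star]
      exact ⟨Int.gcd_dvd_left _ _, (Int.gcd_dvd_right _ _).neg_right⟩
    have h3 := h.isUnit_of_dvd' h1 h2
    have h4 := norm_unit h3
    rw [Zsqrtd.norm_intCast] at h4
    have h5 : (g:ℤ) = 1 ∨ (g:ℤ) = -1 := by
      have := Int.isUnit_iff.mp (IsUnit.of_mul_eq_one _ h4)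
      exact this
    omega
  · by_contra hne
    have h0 : (a.re + a.im) % 2 = 0 := by omega
    have h1 : (⟨1, 1⟩ : GaussianInt) ∣ a := by
      refine ⟨⟨(a.re + a.im) / 2, (a.im - a.re) / 2⟩, ?_⟩
      ext
      · simp only [Zsqrtd.re_mul]; omega
      · simp only [Zsqrtd.im_mul]; omega
    have h2 : (⟨1, 1⟩ : GaussianInt) ∣ star a := by
      refine ⟨⟨(a.re - a.im) / 2, (-a.im - a.re) / 2⟩, ?_⟩
      ext
      · simp only [Zsqrtd.re_mul, Zsqrtd.re_star]; omega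
      · simp only [Zsqrtd.im_mul, Zsqrtd.im_star]; omega
    have h3 := norm_unit (h.isUnit_of_dvd' h1 h2)
    simp [Zsqrtd.norm] at h3

lemma of_cop {a : GaussianInt} (h : IsCoprime a.re a.im) (h2 : (a.re + a.im) % 2 = 1) : IsCoprime a (star a) := by
  obtain ⟨x, y, hxy⟩ := h
  obtain ⟨t, ht⟩ : ∃ t : ℤ, a.re^2 + a.im^2 = 2 * t + 1 := by
    refine ⟨(a.re^2 + a.im^2) / 2, ?_⟩
    have h3 : (a.re^2 + a.im^2) % 2 = 1 := by
      rcases Int.emod_two_eq_zero_or_one a.re with h | h <;> rcases Int.emod_two_eq_zero_or_one a.im with h' | h'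
      · omega
      · have e1 : a.re^2 % 2 = 0 := by rw [sq, Int.mul_emod, h]; norm_num
        have e2 : a.im^2 % 2 = 1 := by rw [sq, Int.mul_emod, h']; norm_num
        omega
      · have e1 : a.re^2 % 2 = 1 := by rw [sq, Int.mul_emod, h]; norm_num
        have e2 : a.im^2 % 2 = 0 := by rw [sq, Int.mul_emod, h']; norm_num
        omega
      · omega
    omega
  refine ⟨⟨a.re - t * x, -a.im + t * y⟩, ⟨-(t * x), -(t * y)⟩, ?_⟩
  ext
  · simp only [Zsqrtd.re_add, Zsqrtd.re_mul, Zsqrtd.re_star, Zsqrtd.im_star, Zsqrtd.re_one]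
    linear_combination ht - 2 * t * hxy
  · simp only [Zsqrtd.im_add, Zsqrtd.im_mul, Zsqrtd.re_star, Zsqrtd.im_star, Zsqrtd.im_one]
    ring

lemma cop_iff {a : GaussianInt} : IsCoprime a (star a) ↔ IsCoprime a.re a.im ∧ (a.re + a.im) % 2 = 1 :=
  ⟨cop_of, fun h => of_cop h.1 h.2⟩

/-- the summatory function -/
noncomputable def Rp (Y : ℕ) : ℝ := ∑ y ∈ Finset.Icc 1 Y, rp y

open Classical in
/-- all of them up to norm `Y` -/
noncomputable def GY (Y : ℕ) : Finset GaussianInt := (Finset.Icc 1 Y).biUnion Cs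

lemma mem_GY {Y : ℕ} {z : GaussianInt} : z ∈ GY Y ↔ (1 ≤ z.norm ∧ z.norm ≤ Y) ∧ IsCoprime z (star z) := by
  classical
  unfold GY
  rw [Finset.mem_biUnion]
  constructor
  · rintro ⟨y, hy, hz⟩
    rw [Finset.mem_Icc] at hy
    rw [mem_Cs] at hz
    refine ⟨⟨?_, ?_⟩, hz.2⟩
    · rw [hz.1]; exact_mod_cast hy.1
    · rw [hz.1]; exact_mod_cast hy.2
  · rintro ⟨⟨h1, h2⟩, h3⟩
    refine ⟨z.norm.toNat, ?_, ?_⟩
    · rw [Finset.mem_Icc]; omega
    · rw [mem_Cs]; exact ⟨by omega, h3⟩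

lemma GY_card (Y : ℕ) : ((GY Y).card : ℝ) = Rp Y := by
  classical
  unfold GY Rp rp
  rw [Finset.card_biUnion]
  · push_cast; rfl
  · intro x _ y _ hxy
    rw [Function.onFun, Finset.disjoint_left]
    intro z hz hz'
    rw [mem_Cs] at hz hz'
    apply hxy
    have := hz.1.symm.trans hz'.1
    exact_mod_cast this

/-- sign -/
def sg (s : Bool) (n : ℕ) : ℤ := if s then (n:ℤ) else -(n:ℤ)

lemma sg_natAbs (s : Bool) (n : ℕ) : (sg s n).natAbs = n := by
  unfold sg; cases s <;> simp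

lemma sg_sq (s : Bool) (n : ℕ) : (sg s n)^2 = (n:ℤ)^2 := by
  unfold sg; cases s <;> simp

lemma sg_inj {s s' : Bool} {n n' : ℕ} (hn : 1 ≤ n) (h : sg s n = sg s' n') : s = s' ∧ n = n' := by
  have h1 : n = n' := by rw [← sg_natAbs s n, ← sg_natAbs s' n', h]
  subst h1
  refine ⟨?_, rfl⟩
  unfold sg at h
  cases s <;> cases s' <;> simp at h <;> first | rfl | omega

/-- coprime points of mixed parity in the open quadrant -/
def Qd (Y : ℕ) : Finset (ℕ × ℕ) := Qp 1 0 Y ∪ Qp 0 1 Y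

lemma mem_Qd {Y : ℕ} {p : ℕ × ℕ} : p ∈ Qd Y ↔ (1 ≤ p.1 ∧ 1 ≤ p.2 ∧ p.1^2 + p.2^2 ≤ Y) ∧ (p.1 + p.2) % 2 = 1 ∧ Nat.Coprime p.1 p.2 := by
  unfold Qd
  rw [Finset.mem_union, mem_Qp, mem_Qp]
  constructor
  · rintro (⟨⟨h1, h2, h3⟩, h4⟩ | ⟨⟨h1, h2, h3⟩, h4⟩)
    · exact ⟨h1, by omega, h4⟩
    · exact ⟨h1, by omega, h4⟩
  · rintro ⟨h1, h2, h3⟩
    rcases Nat.mod_two_eq_zero_or_one p.1 with h | h
    · right; exact ⟨⟨h1, h, by omega⟩, h3⟩
    · left; exact ⟨⟨h1, h, by omega⟩, h3⟩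

lemma Qd_card (Y : ℕ) : (Qd Y).card = (Qp 1 0 Y).card + (Qp 0 1 Y).card := by
  unfold Qd
  apply Finset.card_union_of_disjoint
  rw [Finset.disjoint_left]
  intro p h1 h2
  rw [mem_Qp] at h1 h2
  omega

open Classical in
lemma GY_quad (Y : ℕ) : ((GY Y).filter (fun z => z.re ≠ 0 ∧ z.im ≠ 0)).card = 4 * (Qd Y).card := by
  have h : ((Finset.univ : Finset (Bool × Bool)) ×ˢ Qd Y).card = ((GY Y).filter (fun z => z.re ≠ 0 ∧ z.im ≠ 0)).card := by
    apply Finset.card_bij (fun x _ => (⟨sg x.1.1 x.2.1, sg x.1.2 x.2.2⟩ : GaussianInt))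
    · rintro ⟨⟨s, t⟩, u, v⟩ h
      rw [Finset.mem_product, mem_Qd] at h
      obtain ⟨-, ⟨hu, hv, hle⟩, hpar, hcop⟩ := h
      simp only at hu hv hle hpar hcop
      rw [Finset.mem_filter, mem_GY, norm_eq, cop_iff]
      simp only
      rw [sg_sq, sg_sq]
      have hu' := sg_natAbs s u
      have hv' := sg_natAbs t v
      refine ⟨⟨⟨?_, ?_⟩, ?_, ?_⟩, ?_, ?_⟩
      · have : 1 ≤ u^2 := Nat.one_le_pow _ _ hu
        have : 1 ≤ u^2 + v^2 := by omega
        exact_mod_cast this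
      · exact_mod_cast hle
      · rw [Int.isCoprime_iff_gcd_eq_one, Int.gcd, hu', hv']; exact hcop
      · omega
      · omega
      · omega
    · rintro ⟨⟨s, t⟩, u, v⟩ h ⟨⟨s', t'⟩, u', v'⟩ h' he
      rw [Finset.mem_product, mem_Qd] at h h'
      simp only [Zsqrtd.mk.injEq] at he
      obtain ⟨e1, e2⟩ := sg_inj h.2.1.1 he.1
      obtain ⟨e3, e4⟩ := sg_inj h.2.1.2.1 he.2
      simp only at e1 e2 e3 e4
      subst e1 e2 e3 e4
      rfl
    · intro z hz
      rw [Finset.mem_filter, mem_GY, norm_eq, cop_iff] at hz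
      obtain ⟨⟨⟨h1, h2⟩, h3, h4⟩, h5, h6⟩ := hz
      refine ⟨((decide (0 < z.re), decide (0 < z.im)), (z.re.natAbs, z.im.natAbs)), ?_, ?_⟩
      · rw [Finset.mem_product, mem_Qd]
        refine ⟨Finset.mem_univ _, ⟨?_, ?_, ?_⟩, ?_, ?_⟩
        · simp only; omega
        · simp only; omega
        · simp only
          have e1 : ((z.re.natAbs ^ 2 + z.im.natAbs ^ 2 : ℕ) : ℤ) = z.re^2 + z.im^2 := by
            push_cast; rw [sq_abs, sq_abs]
          have : ((z.re.natAbs ^ 2 + z.im.natAbs ^ 2 : ℕ) : ℤ) ≤ Y := by rw [e1]; exact h2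
          exact_mod_cast this
        · simp only; omega
        · rw [Int.isCoprime_iff_gcd_eq_one] at h3; exact h3
      · ext
        · simp only
          unfold sg
          split_ifs with hs
          · rw [decide_eq_true_eq] at hs; omega
          · rw [decide_eq_true_eq] at hs; omega
        · simp only
          unfold sg
          split_ifs with hs
          · rw [decide_eq_true_eq] at hs; omega
          · rw [decide_eq_true_eq] at hs; omega
  rw [← h, Finset.card_product]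
  simp

open Classical in
lemma GY_axis (Y : ℕ) : ((GY Y).filter (fun z => ¬ (z.re ≠ 0 ∧ z.im ≠ 0))).card ≤ 4 := by
  have h : (GY Y).filter (fun z => ¬ (z.re ≠ 0 ∧ z.im ≠ 0)) ⊆ {⟨0, 1⟩, ⟨0, -1⟩, ⟨1, 0⟩, ⟨-1, 0⟩} := by
    intro z hz
    rw [Finset.mem_filter, mem_GY, cop_iff] at hz
    obtain ⟨⟨-, h3, -⟩, h5⟩ := hz
    simp only [Finset.mem_insert, Finset.mem_singleton]
    rcases Decidable.not_and_iff_or_not.mp h5 with h | h
    · have h0 : z.re = 0 := not_not.mp h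
      rw [h0, isCoprime_zero_left, Int.isUnit_iff] at h3
      rcases h3 with h3 | h3
      · left; ext <;> simp [h0, h3]
      · right; left; ext <;> simp [h0, h3]
    · have h0 : z.im = 0 := not_not.mp h
      rw [h0, isCoprime_zero_right, Int.isUnit_iff] at h3
      rcases h3 with h3 | h3
      · right; right; left; ext <;> simp [h0, h3]
      · right; right; right; ext <;> simp [h0, h3]
  refine (Finset.card_le_card h).trans ?_
  refine (Finset.card_insert_le _ _).trans ?_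
  have h1 : (({⟨0, -1⟩, ⟨1, 0⟩, ⟨-1, 0⟩} : Finset GaussianInt)).card ≤ 3 := Finset.card_le_three
  omega

lemma Rp_Qd (Y : ℕ) : |Rp Y - 4 * ((Qd Y).card : ℝ)| ≤ 4 := by
  classical
  have h1 := Finset.card_filter_add_card_filter_not (s := GY Y) (fun z => z.re ≠ 0 ∧ z.im ≠ 0)
  rw [GY_quad] at h1
  have h2 := GY_axis Y
  rw [← GY_card]
  have h3 : ((4 * (Qd Y).card + ((GY Y).filter (fun z => ¬ (z.re ≠ 0 ∧ z.im ≠ 0))).card : ℕ) : ℝ) = ((GY Y).card : ℝ) := by
    exact_mod_cast h1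
  push_cast at h3
  rw [← h3]
  have h4 : (((GY Y).filter (fun z => ¬ (z.re ≠ 0 ∧ z.im ≠ 0))).card : ℝ) ≤ 4 := by exact_mod_cast h2
  rw [abs_le]
  constructor
  · have : (0:ℝ) ≤ (((GY Y).filter (fun z => ¬ (z.re ≠ 0 ∧ z.im ≠ 0))).card : ℝ) := Nat.cast_nonneg _
    linarith
  · linarith

end Pool.Agent.W2helper20.GC
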