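import Mathlib
import Pool.Agent.N48.Ann.NT10
import Pool.Agent.W2helper20.GC.NTb

/-!
Asymptotics of the counting function `Rp`.
-/

open Filter Topology
open Pool.Agent.H383.Gauss Pool.Agent.N48.Ann

namespace Pool.Agent.W2helper20.GC

lemma sum_inv_le (n : ℕ) (_hn : 1 ≤ n) : ∑ e ∈ Finset.Icc 1 n, (1:ℝ) / (e:ℝ) ≤ 1 + Real.log n := by
  have h := harmonic_le_one_add_log n
  rw [harmonic_eq_sum_Icc] at h
  push_cast at h
  simpa [one_div] using h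

lemma log_le_quarter {x : ℝ} (hx : 1 ≤ x) : 1 + Real.log x ≤ 5 * x ^ (1/4:ℝ) := by
  have h1 := Real.log_le_rpow_div (show 0 ≤ x by linarith) (show (0:ℝ) < 1/4 by norm_num)
  have h2 : 1 ≤ x ^ (1/4:ℝ) := Real.one_le_rpow hx (by norm_num)
  linarith

lemma Qp_asymp {a b : ℕ} (ha : a < 2) (hb : b < 2) (hab : a + b ≠ 0) {n : ℕ} (hn : 1 ≤ n) :
    |((Qp a b n).card : ℝ) - 1 / (2 * Real.pi) * n| ≤ 120 * (n:ℝ) ^ (3/4:ℝ) := by
  have hpi := Real.pi_gt_three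
  have hpi4 := Real.pi_lt_four
  set E := Nat.sqrt n with hE
  have hE1 : 1 ≤ E := Nat.sqrt_pos.mpr hn
  have hn1 : (1:ℝ) ≤ n := by exact_mod_cast hn
  have hn0 : (0:ℝ) < n := by linarith
  have hE0 : (0:ℝ) < E := by exact_mod_cast hE1
  have hsE : √(n:ℝ) ≤ 2 * E := by
    have h1 : n < (E+1)^2 := Nat.lt_succ_sqrt' n
    have h2 : (n:ℝ) < ((E:ℝ)+1)^2 := by exact_mod_cast h1
    have h3 : √(n:ℝ) ≤ (E:ℝ) + 1 := by
      rw [Real.sqrt_le_left (by positivity)]; exact h2.le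
    have h4 : (1:ℝ) ≤ E := by exact_mod_cast hE1
    linarith
  have hEs : (E:ℝ) ≤ √(n:ℝ) := Real.le_sqrt_of_sq_le (by exact_mod_cast Nat.sqrt_le' n)
  have hs0 : 0 < √(n:ℝ) := Real.sqrt_pos.mpr hn0
  have hs1 : 1 ≤ √(n:ℝ) := by rw [Real.one_le_sqrt]; exact hn1
  rw [Qp_sieve ha hb hab n (le_refl E)]
  set I := (Finset.Icc 1 E).filter (fun e => e % 2 = 1) with hI
  have hmain : ∑ e ∈ I, ((ArithmeticFunction.moebius e : ℤ) : ℝ) * ((Qc a b (n / e ^ 2)).card : ℝ) - 1 / (2 * Real.pi) * n =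
      ∑ e ∈ I, ((ArithmeticFunction.moebius e : ℤ) : ℝ) * (((Qc a b (n / e ^ 2)).card : ℝ) - Real.pi / 16 * ((n:ℝ) / (e:ℝ)^2)) +
      Real.pi / 16 * n * (∑ e ∈ I, ((ArithmeticFunction.moebius e : ℤ) : ℝ) / (e:ℝ)^2 - 8 / Real.pi^2) := by
    have e1 : Real.pi / 16 * n * (8 / Real.pi^2) = 1 / (2 * Real.pi) * n := by
      field_simp; norm_num
    rw [mul_sub, e1, Finset.mul_sum]
    simp only [mul_sub, Finset.sum_sub_distrib]
    have e2 : ∑ e ∈ I, ((ArithmeticFunction.moebius e : ℤ) : ℝ) * (Real.pi / 16 * ((n:ℝ) / (e:ℝ)^2)) =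
        ∑ e ∈ I, Real.pi / 16 * n * (((ArithmeticFunction.moebius e : ℤ) : ℝ) / (e:ℝ)^2) := by
      apply Finset.sum_congr rfl
      intro e _
      ring
    rw [e2]; ring
  rw [hmain]
  have hA : |∑ e ∈ I, ((ArithmeticFunction.moebius e : ℤ) : ℝ) * (((Qc a b (n / e ^ 2)).card : ℝ) - Real.pi / 16 * ((n:ℝ) / (e:ℝ)^2))| ≤
      20 * √(n:ℝ) * (1 + Real.log n) + √(n:ℝ) := by
    refine (Finset.abs_sum_le_sum_abs _ _).trans ?_
    calc ∑ e ∈ I, |((ArithmeticFunction.moebius e : ℤ) : ℝ) * (((Qc a b (n / e ^ 2)).card : ℝ) - Real.pi / 16 * ((n:ℝ) / (e:ℝ)^2))|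
        ≤ ∑ e ∈ I, (20 * √(n:ℝ) * (1 / (e:ℝ)) + 1) := by
          apply Finset.sum_le_sum
          intro e he
          rw [hI, Finset.mem_filter, Finset.mem_Icc] at he
          have he0 : (0:ℝ) < e := by exact_mod_cast he.1.1
          rw [abs_mul]
          have hmu : |((ArithmeticFunction.moebius e : ℤ) : ℝ)| ≤ 1 := by
            rw [← Int.cast_abs]
            exact_mod_cast ArithmeticFunction.abs_moebius_le_one
          have h1 := Qc_asymp ha hb (n / e^2)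
          have h2 : ((n / e^2 : ℕ) : ℝ) ≤ (n:ℝ) / (e:ℝ)^2 := by
            have := @Nat.cast_div_le ℝ _ _ _ n (e^2)
            push_cast at this
            exact this
          have h3 : (n:ℝ) / (e:ℝ)^2 - 1 ≤ ((n / e^2 : ℕ) : ℝ) := by
            have h4 : n < e^2 * (n / e^2) + e^2 := by
              have q1 := Nat.div_add_mod n (e^2)
              have q2 := Nat.mod_lt n (show 0 < e^2 from Nat.pow_pos (by omega))
              omega
            have h5 : (n:ℝ) < (e:ℝ)^2 * ((n / e^2 : ℕ) : ℝ) + (e:ℝ)^2 := by exact_mod_cast h4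
            rw [sub_le_iff_le_add, div_le_iff₀ (by positivity)]
            linarith
          have h6 : √((n / e^2 : ℕ) : ℝ) ≤ √(n:ℝ) / e := by
            calc √((n / e^2 : ℕ) : ℝ) ≤ √((n:ℝ) / (e:ℝ)^2) := Real.sqrt_le_sqrt h2
              _ = √(n:ℝ) / e := by rw [Real.sqrt_div hn0.le, Real.sqrt_sq he0.le]
          have h7 : |((Qc a b (n / e ^ 2)).card : ℝ) - Real.pi / 16 * ((n:ℝ) / (e:ℝ)^2)| ≤ 20 * √(n:ℝ) * (1 / (e:ℝ)) + 1 := by
            obtain ⟨g1, g2⟩ := abs_le.mp h1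
            have h8 : 20 * √((n / e^2 : ℕ) : ℝ) ≤ 20 * √(n:ℝ) * (1 / (e:ℝ)) := by
              calc 20 * √((n / e^2 : ℕ) : ℝ) ≤ 20 * (√(n:ℝ) / e) := by gcongr
                _ = _ := by ring
            rw [abs_le]
            constructor
            · nlinarith
            · nlinarith
          calc _ ≤ 1 * (20 * √(n:ℝ) * (1 / (e:ℝ)) + 1) := mul_le_mul hmu h7 (abs_nonneg _) (by norm_num)
            _ = _ := one_mul _
      _ ≤ ∑ e ∈ Finset.Icc 1 E, (20 * √(n:ℝ) * (1 / (e:ℝ)) + 1) :=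
          Finset.sum_le_sum_of_subset_of_nonneg (Finset.filter_subset _ _) (fun _ _ _ => by positivity)
      _ = 20 * √(n:ℝ) * ∑ e ∈ Finset.Icc 1 E, 1 / (e:ℝ) + E := by
          rw [Finset.sum_add_distrib, ← Finset.mul_sum]
          simp
      _ ≤ 20 * √(n:ℝ) * (1 + Real.log n) + √(n:ℝ) := by
          have h1 := sum_inv_le E hE1
          have h2 : Real.log E ≤ Real.log n := by
            apply Real.log_le_log hE0
            have : E ≤ n := Nat.sqrt_le_self n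
            exact_mod_cast this
          gcongr
          linarith
  have hB : |Real.pi / 16 * n * (∑ e ∈ I, ((ArithmeticFunction.moebius e : ℤ) : ℝ) / (e:ℝ)^2 - 8 / Real.pi^2)| ≤ √(n:ℝ) := by
    rw [abs_mul, abs_of_pos (by positivity : 0 < Real.pi / 16 * n)]
    have h1 := mu_tail hE1
    calc Real.pi / 16 * n * |∑ e ∈ I, ((ArithmeticFunction.moebius e : ℤ) : ℝ) / (e:ℝ)^2 - 8 / Real.pi^2| ≤ Real.pi / 16 * n * (1 / E) := by
          gcongr
      _ ≤ (1/4) * n * (2 / √(n:ℝ)) := by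
          have h2 : 1 / (E:ℝ) ≤ 2 / √(n:ℝ) := by
            rw [div_le_div_iff₀ hE0 hs0]; linarith
          have h3 : Real.pi / 16 ≤ 1/4 := by linarith
          gcongr
      _ = (1/2) * √(n:ℝ) := by
          have h4 : √(n:ℝ) * √(n:ℝ) = n := Real.mul_self_sqrt hn0.le
          field_simp
          nlinarith
      _ ≤ √(n:ℝ) := by linarith
  have hq := log_le_quarter hn1
  have h34 : √(n:ℝ) * (n:ℝ) ^ (1/4:ℝ) = (n:ℝ) ^ (3/4:ℝ) := by
    rw [Real.sqrt_eq_rpow, ← Real.rpow_add hn0]; norm_num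
  have h12 : √(n:ℝ) ≤ (n:ℝ) ^ (3/4:ℝ) := by
    rw [Real.sqrt_eq_rpow]
    exact Real.rpow_le_rpow_of_exponent_le hn1 (by norm_num)
  have h5 : 20 * √(n:ℝ) * (1 + Real.log n) ≤ 100 * (n:ℝ) ^ (3/4:ℝ) := by
    calc 20 * √(n:ℝ) * (1 + Real.log n) ≤ 20 * √(n:ℝ) * (5 * (n:ℝ) ^ (1/4:ℝ)) := by gcongr
      _ = 100 * (n:ℝ) ^ (3/4:ℝ) := by rw [← h34]; ring
  refine (abs_add_le _ _).trans ?_
  linarith

theorem Rp_asymp {Y : ℕ} (hY : 1 ≤ Y) : |Rp Y - 4 / Real.pi * Y| ≤ 1000 * (Y:ℝ) ^ (3/4:ℝ) := by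
  have hpi := Real.pi_gt_three
  have h1 := Rp_Qd Y
  have h2 := Qp_asymp (a := 1) (b := 0) (by norm_num) (by norm_num) (by norm_num) hY
  have h3 := Qp_asymp (a := 0) (b := 1) (by norm_num) (by norm_num) (by norm_num) hY
  rw [Qd_card] at h1
  push_cast at h1
  have hY1 : (1:ℝ) ≤ (Y:ℝ) ^ (3/4:ℝ) := Real.one_le_rpow (by exact_mod_cast hY) (by norm_num)
  obtain ⟨a1, a2⟩ := abs_le.mp h1
  obtain ⟨b1, b2⟩ := abs_le.mp h2
  obtain ⟨c1, c2⟩ := abs_le.mp h3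
  have e : 4 / Real.pi * (Y:ℝ) = 8 * (1 / (2 * Real.pi) * Y) := by field_simp; norm_num
  rw [e, abs_le]
  constructor <;> linarith

lemma Rp_nonneg (Y : ℕ) : 0 ≤ Rp Y := Finset.sum_nonneg (fun _ _ => Nat.cast_nonneg _)

lemma rp_nonneg (n : ℕ) : 0 ≤ rp n := Nat.cast_nonneg _

lemma Rp_le {Y : ℕ} (hY : 1 ≤ Y) : Rp Y ≤ 1002 * Y := by
  have hpi := Real.pi_gt_three
  have h1 := (abs_le.mp (Rp_asymp hY)).2
  have hY1 : (1:ℝ) ≤ Y := by exact_mod_cast hY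
  have h2 : (Y:ℝ) ^ (3/4:ℝ) ≤ Y := by
    nth_rewrite 2 [← Real.rpow_one (Y:ℝ)]
    exact Real.rpow_le_rpow_of_exponent_le hY1 (by norm_num)
  have h3 : 4 / Real.pi * (Y:ℝ) ≤ 2 * Y := by
    apply mul_le_mul_of_nonneg_right _ (by linarith)
    rw [div_le_iff₀ (by linarith)]; linarith
  linarith

end Pool.Agent.W2helper20.GC
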