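import Mathlib
import Pool.Agent.N48.Ann.AN4
import Pool.Agent.W2helper20.GC.NTc

/-!
The mean square of `r(m)`.
-/

open Filter Topology
open Pool.Agent.H383 Pool.Agent.H383.Gauss Pool.Agent.N48.Ann

namespace Pool.Agent.W2helper20.GC

lemma dir_sum (f g : ℕ → ℝ) (X : ℕ) : ∑ m ∈ Finset.Icc 1 X, ∑ x ∈ m.divisorsAntidiagonal, f x.1 * g x.2 =
    ∑ x ∈ Finset.Icc 1 X, f x * ∑ y ∈ Finset.Icc 1 (X/x), g y := by
  simp_rw [Finset.mul_sum]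
  rw [Finset.sum_sigma', Finset.sum_sigma']
  apply Finset.sum_bij' (fun z _ => (⟨z.2.1, z.2.2⟩ : (_ : ℕ) × ℕ)) (fun z _ => (⟨z.1*z.2, (z.1, z.2)⟩ : (_ : ℕ) × (ℕ × ℕ)))
  · rintro ⟨m, x, y⟩ h
    rw [Finset.mem_sigma, Finset.mem_Icc, Nat.mem_divisorsAntidiagonal] at h
    obtain ⟨⟨h1, h2⟩, h3, h4⟩ := h
    simp only at h1 h2 h3
    rw [Finset.mem_sigma, Finset.mem_Icc, Finset.mem_Icc]
    simp only
    have hx : 0 < x := by
      rcases Nat.eq_zero_or_pos x with h | h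
      · rw [h, zero_mul] at h3; omega
      · exact h
    have hy : 0 < y := by
      rcases Nat.eq_zero_or_pos y with h | h
      · rw [h, mul_zero] at h3; omega
      · exact h
    refine ⟨⟨hx, ?_⟩, hy, ?_⟩
    · calc x ≤ x * y := Nat.le_mul_of_pos_right _ hy
        _ ≤ X := by omega
    · rw [Nat.le_div_iff_mul_le hx, mul_comm]; omega
  · rintro ⟨x, y⟩ h
    rw [Finset.mem_sigma, Finset.mem_Icc, Finset.mem_Icc] at h
    obtain ⟨⟨h1, h2⟩, h3, h4⟩ := h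
    simp only at h1 h2 h3 h4
    rw [Finset.mem_sigma, Finset.mem_Icc, Nat.mem_divisorsAntidiagonal]
    simp only
    rw [Nat.le_div_iff_mul_le (by omega)] at h4
    refine ⟨⟨Nat.mul_pos h1 h3, by rw [mul_comm]; exact h4⟩, trivial, (Nat.mul_pos h1 h3).ne'⟩
  · rintro ⟨m, x, y⟩ h
    rw [Finset.mem_sigma, Finset.mem_Icc, Nat.mem_divisorsAntidiagonal] at h
    obtain ⟨-, h3, -⟩ := h
    simp only at h3 ⊢
    subst h3
    rfl
  · rintro ⟨x, y⟩ _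
    rfl
  · rintro ⟨m, x, y⟩ _
    rfl

/-- Abel summation with a general bound -/
lemma abelB {D f B : ℕ → ℝ} (hP : ∀ X : ℕ, 1 ≤ X → |∑ k ∈ Finset.Icc 1 X, D k| ≤ B X) {K : ℕ} (hK : 1 ≤ K) :
    |∑ k ∈ Finset.Icc 1 K, D k * f k| ≤ B K * |f K| + ∑ k ∈ Finset.Icc 1 (K-1), B k * |f k - f (k+1)| := by
  have key : ∀ K : ℕ, 1 ≤ K → ∑ k ∈ Finset.Icc 1 K, D k * f k = (∑ k ∈ Finset.Icc 1 K, D k) * f K +
      ∑ k ∈ Finset.Icc 1 (K-1), (∑ j ∈ Finset.Icc 1 k, D j) * (f k - f (k+1)) := by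
    intro K hK
    induction K, hK using Nat.le_induction with
    | base => simp
    | succ n hn ih =>
      rw [Finset.sum_Icc_succ_top (by omega), ih, Finset.sum_Icc_succ_top (by omega : 1 ≤ n + 1) D, Nat.add_sub_cancel]
      have h1 : Finset.Icc 1 n = insert n (Finset.Icc 1 (n-1)) := by
        ext x; rw [Finset.mem_insert, Finset.mem_Icc, Finset.mem_Icc]; omega
      have h2 : n ∉ Finset.Icc 1 (n-1) := by rw [Finset.mem_Icc]; omega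
      have h3 : ∑ k ∈ Finset.Icc 1 n, (∑ j ∈ Finset.Icc 1 k, D j) * (f k - f (k+1)) =
          (∑ j ∈ Finset.Icc 1 n, D j) * (f n - f (n+1)) + ∑ k ∈ Finset.Icc 1 (n-1), (∑ j ∈ Finset.Icc 1 k, D j) * (f k - f (k+1)) := by
        nth_rewrite 1 [h1]
        rw [Finset.sum_insert h2]
      rw [h3]; ring
  rw [key K hK]
  refine (abs_add_le _ _).trans (add_le_add ?_ ?_)
  · rw [abs_mul]; exact mul_le_mul_of_nonneg_right (hP K hK) (abs_nonneg _)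
  · refine (Finset.abs_sum_le_sum_abs _ _).trans ?_
    apply Finset.sum_le_sum
    intro k hk
    rw [Finset.mem_Icc] at hk
    rw [abs_mul]
    exact mul_le_mul_of_nonneg_right (hP k hk.1) (abs_nonneg _)

/-- the summatory function of `r` -/
noncomputable def Sr (X : ℕ) : ℝ := ∑ m ∈ Finset.Icc 1 X, rA m

lemma Sr_mono {X Y : ℕ} (h : X ≤ Y) : Sr X ≤ Sr Y :=
  Finset.sum_le_sum_of_subset_of_nonneg (Finset.Icc_subset_Icc_right h) (fun _ _ _ => rA_nonneg _)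

lemma Sr_sq (Y : ℕ) : Sr (Y^2) = F Y - 1 := by
  have h := group_sum Y (fun _ => 1)
  simp only [Finset.sum_const, nsmul_eq_mul, mul_one] at h
  have h0 : (0 : ℤ × ℤ) ∈ ballS (Y:ℝ) := by
    rw [mem_ballS (Nat.cast_nonneg Y)]; simp
  rw [Finset.card_erase_of_mem h0] at h
  have hc : 1 ≤ (ballS (Y:ℝ)).card := Finset.card_pos.mpr ⟨_, h0⟩
  rw [Nat.cast_sub hc] at h
  rw [F_eq_card (Nat.cast_nonneg Y)]
  unfold Sr
  have h2 : (((ballS (Y:ℝ)).card : ℝ) - 1 : ℝ) = ∑ m ∈ Finset.Icc 1 (Y^2), rA m := by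
    have : (((((ballS (Y:ℝ)).card : ℝ) - 1 : ℝ)) : ℂ) = ((∑ m ∈ Finset.Icc 1 (Y^2), rA m : ℝ) : ℂ) := by
      push_cast; push_cast at h; exact h
    exact_mod_cast this
  exact h2.symm

theorem Sr_asymp : ∃ C : ℝ, 0 < C ∧ ∀ X : ℕ, 1 ≤ X → |Sr X - Real.pi * X| ≤ C * (X:ℝ) ^ (3/4:ℝ) := by
  obtain ⟨C, hC, h⟩ := En_pt
  have hpi := Real.pi_gt_three
  have hpi4 := Real.pi_lt_four
  have hF : ∀ Y : ℕ, 4 ≤ Y → |F Y - Real.pi * (Y:ℝ)^2| ≤ C * ((Y:ℝ) * √(Y:ℝ)) := by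
    intro Y hY
    have hY4 : (4:ℝ) ≤ Y := by exact_mod_cast hY
    have h1 := h Y hY4
    rw [← sqrt_mul_En (show (0:ℝ) < Y by linarith), abs_mul, abs_of_nonneg (Real.sqrt_nonneg _)]
    calc √(Y:ℝ) * |En Y| ≤ √(Y:ℝ) * (C * Y) := by gcongr
      _ = _ := by ring
  refine ⟨3 * C + 21 + F 5, by
    have : 0 ≤ F 5 := by unfold F; positivity
    positivity, ?_⟩
  intro X hX
  have hF5 : 0 ≤ F 5 := by unfold F; positivity
  have hX1 : (1:ℝ) ≤ X := by exact_mod_cast hX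
  have hX0 : (0:ℝ) < X := by linarith
  have hX34 : 1 ≤ (X:ℝ) ^ (3/4:ℝ) := Real.one_le_rpow hX1 (by norm_num)
  have hX12 : √(X:ℝ) ≤ (X:ℝ) ^ (3/4:ℝ) := by
    rw [Real.sqrt_eq_rpow]
    exact Real.rpow_le_rpow_of_exponent_le hX1 (by norm_num)
  rcases lt_or_ge X 16 with hlt | hge
  · have h1 : Sr X ≤ F 5 := by
      have h2 := Sr_mono (show X ≤ 5^2 by omega)
      rw [Sr_sq] at h2
      have : F ((5:ℕ):ℝ) = F 5 := by norm_num
      rw [this] at h2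
      linarith
    have h0 : 0 ≤ Sr X := Finset.sum_nonneg (fun _ _ => rA_nonneg _)
    have h3 : Real.pi * X ≤ 4 * X := by gcongr
    have h4 : (X:ℝ) ≤ 4 * √(X:ℝ) := by
      have h5 : √(X:ℝ) ≤ 4 := by
        rw [Real.sqrt_le_left (by norm_num)]
        have : (X:ℝ) < 16 := by exact_mod_cast hlt
        linarith
      calc (X:ℝ) = √(X:ℝ) * √(X:ℝ) := (Real.mul_self_sqrt hX0.le).symm
        _ ≤ 4 * √(X:ℝ) := by gcongr
    have h6 : 0 ≤ Real.pi * X := by positivity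
    rw [abs_le]
    constructor
    · nlinarith
    · nlinarith
  · set Y := Nat.sqrt X with hY
    have hY4 : 4 ≤ Y := by rw [hY, Nat.le_sqrt]; omega
    have hlo : Y^2 ≤ X := Nat.sqrt_le' X
    have hhi : X ≤ (Y+1)^2 := (Nat.lt_succ_sqrt' X).le
    have hY0 : (4:ℝ) ≤ Y := by exact_mod_cast hY4
    have hYs : (Y:ℝ) ≤ √(X:ℝ) := Real.le_sqrt_of_sq_le (by exact_mod_cast hlo)
    have hY1s : (Y:ℝ) + 1 ≤ 2 * √(X:ℝ) := by linarith
    have hlo' : (Y:ℝ)^2 ≤ X := by exact_mod_cast hlo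
    have hhi' : (X:ℝ) ≤ ((Y:ℝ)+1)^2 := by exact_mod_cast hhi
    have a1 := hF Y hY4
    have a2 := hF (Y+1) (by omega)
    push_cast at a2
    have b1 := Sr_mono hlo
    have b2 := Sr_mono hhi
    rw [Sr_sq] at b1 b2
    push_cast at b2
    have hq : √(X:ℝ) * √(√(X:ℝ)) = (X:ℝ) ^ (3/4:ℝ) := by
      rw [Real.sqrt_eq_rpow, Real.sqrt_eq_rpow, ← Real.rpow_mul hX0.le, ← Real.rpow_add hX0]; norm_num
    have c1 : (Y:ℝ) * √(Y:ℝ) ≤ (X:ℝ) ^ (3/4:ℝ) := by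
      rw [← hq]
      exact mul_le_mul hYs (Real.sqrt_le_sqrt hYs) (Real.sqrt_nonneg _) (Real.sqrt_nonneg _)
    have c2 : ((Y:ℝ)+1) * √((Y:ℝ)+1) ≤ 3 * (X:ℝ) ^ (3/4:ℝ) := by
      have h5 : √(2 * √(X:ℝ)) ≤ (3/2) * √(√(X:ℝ)) := by
        rw [Real.sqrt_mul (by norm_num)]
        gcongr
        rw [Real.sqrt_le_left (by norm_num)]; norm_num
      calc ((Y:ℝ)+1) * √((Y:ℝ)+1) ≤ (2 * √(X:ℝ)) * ((3/2) * √(√(X:ℝ))) :=
            mul_le_mul hY1s ((Real.sqrt_le_sqrt hY1s).trans h5) (Real.sqrt_nonneg _) (by positivity)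
        _ = 3 * (√(X:ℝ) * √(√(X:ℝ))) := by ring
        _ = _ := by rw [hq]
    obtain ⟨d1, d2⟩ := abs_le.mp a1
    obtain ⟨d3, d4⟩ := abs_le.mp a2
    have e1 : C * ((Y:ℝ) * √(Y:ℝ)) ≤ C * (X:ℝ) ^ (3/4:ℝ) := by gcongr
    have e2 : C * (((Y:ℝ)+1) * √((Y:ℝ)+1)) ≤ C * (3 * (X:ℝ) ^ (3/4:ℝ)) := by gcongr
    have e3 : Real.pi * ((Y:ℝ)+1)^2 ≤ Real.pi * X + 4 * (3 * √(X:ℝ)) := by
      have : ((Y:ℝ)+1)^2 ≤ X + 3 * √(X:ℝ) := by nlinarith
      nlinarith [Real.sqrt_nonneg (X:ℝ)]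
    have e4 : Real.pi * X ≤ Real.pi * (Y:ℝ)^2 + 4 * (3 * √(X:ℝ)) := by
      have : (X:ℝ) ≤ (Y:ℝ)^2 + 3 * √(X:ℝ) := by nlinarith
      nlinarith [Real.sqrt_nonneg (X:ℝ)]
    have e5 : 0 ≤ C * (X:ℝ) ^ (3/4:ℝ) := by positivity
    have e6 : 0 ≤ F 5 * (X:ℝ) ^ (3/4:ℝ) := by positivity
    have e7 : (3 * C + 21 + F 5) * (X:ℝ) ^ (3/4:ℝ) = 3 * (C * (X:ℝ) ^ (3/4:ℝ)) + 21 * (X:ℝ) ^ (3/4:ℝ) + F 5 * (X:ℝ) ^ (3/4:ℝ) := by ring
    rw [e7, abs_le]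
    constructor
    · linarith
    · linarith

lemma Sr_le : ∃ C : ℝ, 0 < C ∧ ∀ X : ℕ, 1 ≤ X → Sr X ≤ C * X := by
  obtain ⟨C, hC, h⟩ := Sr_asymp
  refine ⟨C + 4, by positivity, ?_⟩
  intro X hX
  have hX1 : (1:ℝ) ≤ X := by exact_mod_cast hX
  have h1 := (abs_le.mp (h X hX)).2
  have h2 : (X:ℝ) ^ (3/4:ℝ) ≤ X := by
    nth_rewrite 2 [← Real.rpow_one (X:ℝ)]
    exact Real.rpow_le_rpow_of_exponent_le hX1 (by norm_num)
  have h3 := Real.pi_lt_four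
  have h4 : C * (X:ℝ) ^ (3/4:ℝ) ≤ C * X := by gcongr
  nlinarith

lemma inv_asymp (X : ℕ) (hX : 1 ≤ X) : |∑ x ∈ Finset.Icc 1 X, (1:ℝ) / x - Real.log X| ≤ 1 := by
  have hX0 : (0:ℝ) < X := by exact_mod_cast hX
  have h1 := sum_inv_le X hX
  have h3 : (harmonic X : ℝ) = ∑ x ∈ Finset.Icc 1 X, (1:ℝ) / x := by
    rw [harmonic_eq_sum_Icc]; push_cast; simp [one_div]
  have h4 : Real.log (X + 1) ≤ ∑ x ∈ Finset.Icc 1 X, (1:ℝ) / x := by
    rw [← h3]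
    have := log_add_one_le_harmonic X
    push_cast at this
    exact this
  have h5 : Real.log X ≤ Real.log (X + 1) := Real.log_le_log hX0 (by linarith)
  rw [abs_le]
  constructor <;> linarith

theorem Sr_log : ∃ C : ℝ, 0 < C ∧ ∀ X : ℕ, 1 ≤ X → |∑ x ∈ Finset.Icc 1 X, rA x / x - Real.pi * Real.log X| ≤ C := by
  obtain ⟨C, hC, h⟩ := Sr_asymp
  have hpi := Real.pi_gt_three
  have hpi4 := Real.pi_lt_four
  refine ⟨6 * C + 4, by positivity, ?_⟩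
  intro X hX
  have hX1 : (1:ℝ) ≤ X := by exact_mod_cast hX
  have hX0 : (0:ℝ) < X := by linarith
  have hA := abelB (D := fun k => rA k - Real.pi) (f := fun k => 1 / (k:ℝ)) (B := fun k => C * (k:ℝ) ^ (3/4:ℝ)) (by
    intro Y hY
    have h1 := h Y hY
    unfold Sr at h1
    rw [Finset.sum_sub_distrib, Finset.sum_const, Nat.card_Icc, Nat.add_sub_cancel, nsmul_eq_mul]
    rw [mul_comm (Y:ℝ) Real.pi]; exact h1) hX
  have h1 : ∑ k ∈ Finset.Icc 1 X, (rA k - Real.pi) * (1 / (k:ℝ)) = ∑ x ∈ Finset.Icc 1 X, rA x / x - Real.pi * ∑ x ∈ Finset.Icc 1 X, (1:ℝ) / x := by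
    rw [Finset.mul_sum, ← Finset.sum_sub_distrib]
    apply Finset.sum_congr rfl
    intro k _; ring
  rw [h1] at hA
  have h2 : C * (X:ℝ) ^ (3/4:ℝ) * |1 / (X:ℝ)| ≤ C := by
    have h3 : (X:ℝ) ^ (3/4:ℝ) ≤ X := by
      nth_rewrite 2 [← Real.rpow_one (X:ℝ)]
      exact Real.rpow_le_rpow_of_exponent_le hX1 (by norm_num)
    rw [abs_of_pos (by positivity), mul_one_div, div_le_iff₀ hX0]
    gcongr
  have h3 : ∑ k ∈ Finset.Icc 1 (X-1), C * (k:ℝ) ^ (3/4:ℝ) * |1 / (k:ℝ) - 1 / ((k+1:ℕ):ℝ)| ≤ 5 * C := by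
    have h4 : ∀ k ∈ Finset.Icc 1 (X-1), C * (k:ℝ) ^ (3/4:ℝ) * |1 / (k:ℝ) - 1 / ((k+1:ℕ):ℝ)| ≤ C * (k:ℝ) ^ (-(5/4):ℝ) := by
      intro k hk
      rw [Finset.mem_Icc] at hk
      have hk0 : (0:ℝ) < k := by exact_mod_cast hk.1
      have h5 : |1 / (k:ℝ) - 1 / ((k+1:ℕ):ℝ)| ≤ (k:ℝ) ^ (-2:ℝ) := by
        have e : 1 / (k:ℝ) - 1 / ((k+1:ℕ):ℝ) = 1 / (k * (k+1)) := by push_cast; field_simp; ring
        rw [e, abs_of_pos (by positivity), Real.rpow_neg hk0.le, one_div]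
        apply inv_anti₀ (by positivity)
        have : (k:ℝ) ^ (2:ℝ) = (k:ℝ)^2 := by exact_mod_cast Real.rpow_natCast (k:ℝ) 2
        rw [this]; nlinarith
      calc C * (k:ℝ) ^ (3/4:ℝ) * |1 / (k:ℝ) - 1 / ((k+1:ℕ):ℝ)| ≤ C * (k:ℝ) ^ (3/4:ℝ) * (k:ℝ) ^ (-2:ℝ) := by gcongr
        _ = C * (k:ℝ) ^ (-(5/4):ℝ) := by rw [mul_assoc, ← Real.rpow_add hk0]; norm_num
    refine (Finset.sum_le_sum h4).trans ?_
    rw [← Finset.mul_sum, mul_comm]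
    apply mul_le_mul_of_nonneg_right _ hC.le
    have h5 := tail_rpow (s := 5/4) (by norm_num) (n := 1) le_rfl (X-1)
    rcases Nat.lt_or_ge (X-1) 1 with h6 | h6
    · have : Finset.Icc 1 (X-1) = ∅ := by rw [Finset.Icc_eq_empty]; omega
      rw [this]; simp
    · have e : Finset.Icc 1 (X-1) = insert 1 (Finset.Ioc 1 (X-1)) := by
        ext x; rw [Finset.mem_insert, Finset.mem_Icc, Finset.mem_Ioc]; omega
      rw [e, Finset.sum_insert (by simp)]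
      norm_num at h5 ⊢
      linarith
  have h4 := inv_asymp X hX
  have e : ∑ x ∈ Finset.Icc 1 X, rA x / x - Real.pi * Real.log X = (∑ x ∈ Finset.Icc 1 X, rA x / x - Real.pi * ∑ x ∈ Finset.Icc 1 X, (1:ℝ) / x) +
      Real.pi * (∑ x ∈ Finset.Icc 1 X, (1:ℝ) / x - Real.log X) := by ring
  rw [e]
  refine (abs_add_le _ _).trans ?_
  have h5 : |Real.pi * (∑ x ∈ Finset.Icc 1 X, (1:ℝ) / x - Real.log X)| ≤ 4 * 1 := by
    rw [abs_mul, abs_of_pos (by linarith)]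
    exact mul_le_mul hpi4.le h4 (abs_nonneg _) (by norm_num)
  linarith

/-- **the mean square of the number of representations** -/
theorem r_sq_asymp : ∃ C : ℝ, 0 < C ∧ ∀ X : ℕ, 1 ≤ X →
    |∑ m ∈ Finset.Icc 1 X, (rA m)^2 - 4 * (X * Real.log X)| ≤ C * X := by
  obtain ⟨C1, hC1, h1⟩ := Sr_log
  obtain ⟨C2, hC2, h2⟩ := Sr_le
  have hpi := Real.pi_gt_three
  refine ⟨4 * C2 * 1002 + 2 * C1, by positivity, ?_⟩
  intro X hX
  have hX1 : (1:ℝ) ≤ X := by exact_mod_cast hX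
  have hX0 : (0:ℝ) < X := by linarith
  have e1 : ∑ m ∈ Finset.Icc 1 X, (rA m)^2 = ∑ x ∈ Finset.Icc 1 X, rA x * Rp (X/x) := by
    have h3 : ∀ m ∈ Finset.Icc 1 X, (rA m)^2 = ∑ x ∈ m.divisorsAntidiagonal, rA x.1 * rp x.2 := by
      intro m hm
      rw [Finset.mem_Icc] at hm
      exact rA_sq hm.1
    rw [Finset.sum_congr rfl h3, dir_sum]
    rfl
  have e2 : ∑ m ∈ Finset.Icc 1 X, (rA m)^2 - 4 * (X * Real.log X) =
      ∑ x ∈ Finset.Icc 1 X, rA x * (Rp (X/x) - 4 / Real.pi * ((X:ℝ)/x)) +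
      4 / Real.pi * X * (∑ x ∈ Finset.Icc 1 X, rA x / x - Real.pi * Real.log X) := by
    rw [e1, mul_sub (4 / Real.pi * (X:ℝ))]
    have e3 : 4 / Real.pi * X * (Real.pi * Real.log X) = 4 * (X * Real.log X) := by field_simp
    rw [e3]
    simp only [mul_sub, Finset.sum_sub_distrib]
    have e4 : ∑ x ∈ Finset.Icc 1 X, rA x * (4 / Real.pi * ((X:ℝ)/x)) = 4 / Real.pi * X * ∑ x ∈ Finset.Icc 1 X, rA x / x := by
      rw [Finset.mul_sum]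
      apply Finset.sum_congr rfl
      intro x _; ring
    rw [e4]; ring
  rw [e2]
  have hA : |∑ x ∈ Finset.Icc 1 X, rA x * (Rp (X/x) - 4 / Real.pi * ((X:ℝ)/x))| ≤ 4 * C2 * 1002 * X := by
    refine (Finset.abs_sum_le_sum_abs _ _).trans ?_
    have h3 : ∀ x ∈ Finset.Icc 1 X, |rA x * (Rp (X/x) - 4 / Real.pi * ((X:ℝ)/x))| ≤ 1002 * (X:ℝ) ^ (3/4:ℝ) * (rA x * (x:ℝ) ^ (-(3/4):ℝ)) := by
      intro x hx
      rw [Finset.mem_Icc] at hx
      have hx0 : (0:ℝ) < x := by exact_mod_cast hx.1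
      have hq1 : 1 ≤ X / x := (Nat.one_le_div_iff hx.1).mpr hx.2
      have h4 := Rp_asymp hq1
      have h5 : ((X / x : ℕ) : ℝ) ≤ (X:ℝ) / x := Nat.cast_div_le
      have h6 : (X:ℝ) / x - 1 ≤ ((X / x : ℕ) : ℝ) := by
        have q1 := Nat.div_add_mod X x
        have q2 := Nat.mod_lt X hx.1
        have q3 : (X:ℝ) < (x:ℝ) * ((X / x : ℕ) : ℝ) + x := by
          have : X < x * (X / x) + x := by omega
          exact_mod_cast this
        rw [sub_le_iff_le_add, div_le_iff₀ hx0]; linarith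
      have h7 : (1:ℝ) ≤ (X:ℝ) / x := by
        rw [le_div_iff₀ hx0, one_mul]; exact_mod_cast hx.2
      have h8 : 1 ≤ ((X:ℝ) / x) ^ (3/4:ℝ) := Real.one_le_rpow h7 (by norm_num)
      have h9 : (((X / x : ℕ) : ℝ)) ^ (3/4:ℝ) ≤ ((X:ℝ) / x) ^ (3/4:ℝ) := Real.rpow_le_rpow (Nat.cast_nonneg _) h5 (by norm_num)
      have h10 : 4 / Real.pi ≤ 2 := by rw [div_le_iff₀ (by linarith)]; linarith
      have h11 : 0 < 4 / Real.pi := by positivity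
      have h12 : |Rp (X/x) - 4 / Real.pi * ((X:ℝ)/x)| ≤ 1002 * ((X:ℝ) / x) ^ (3/4:ℝ) := by
        obtain ⟨g1, g2⟩ := abs_le.mp h4
        rw [abs_le]
        constructor
        · nlinarith
        · nlinarith
      rw [abs_mul, abs_of_nonneg (rA_nonneg x)]
      calc rA x * |Rp (X/x) - 4 / Real.pi * ((X:ℝ)/x)| ≤ rA x * (1002 * ((X:ℝ) / x) ^ (3/4:ℝ)) := by
            gcongr
            exact rA_nonneg x
        _ = _ := by
            rw [Real.div_rpow hX0.le hx0.le, Real.rpow_neg hx0.le]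
            field_simp
    refine (Finset.sum_le_sum h3).trans ?_
    rw [← Finset.mul_sum]
    have h4 : ∑ x ∈ Finset.Icc 1 X, rA x * (x:ℝ) ^ (-(3/4):ℝ) ≤ ∑ x ∈ Finset.Icc 1 X, C2 * (x:ℝ) ^ (-(3/4):ℝ) := by
      apply abel_cmp (u := rA) (v := fun _ => C2) (f := fun x : ℕ => (x:ℝ) ^ (-(3/4):ℝ))
      · intro m _; positivity
      · intro m hm
        have hm0 : (0:ℝ) < m := by exact_mod_cast hm
        apply Real.rpow_le_rpow_of_nonpos hm0 _ (by norm_num)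
        push_cast; linarith
      · intro Y hY
        have := h2 Y hY
        unfold Sr at this
        simp only [Finset.sum_const, Nat.card_Icc, Nat.add_sub_cancel, nsmul_eq_mul]
        linarith
    have h5 := head_rpow (s := 3/4) (by norm_num) (by norm_num) X
    rw [← Finset.mul_sum] at h4
    have h6 : ∑ x ∈ Finset.Icc 1 X, rA x * (x:ℝ) ^ (-(3/4):ℝ) ≤ C2 * (4 * (X:ℝ) ^ (1/4:ℝ)) := by
      refine h4.trans ?_
      apply mul_le_mul_of_nonneg_left _ hC2.le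
      refine h5.trans (le_of_eq ?_)
      norm_num; ring
    calc 1002 * (X:ℝ) ^ (3/4:ℝ) * ∑ x ∈ Finset.Icc 1 X, rA x * (x:ℝ) ^ (-(3/4):ℝ) ≤ 1002 * (X:ℝ) ^ (3/4:ℝ) * (C2 * (4 * (X:ℝ) ^ (1/4:ℝ))) := by gcongr
      _ = 4 * C2 * 1002 * ((X:ℝ) ^ (3/4:ℝ) * (X:ℝ) ^ (1/4:ℝ)) := by ring
      _ = _ := by rw [← Real.rpow_add hX0]; norm_num
  have hB : |4 / Real.pi * X * (∑ x ∈ Finset.Icc 1 X, rA x / x - Real.pi * Real.log X)| ≤ 2 * C1 * X := by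
    rw [abs_mul, abs_of_pos (by positivity)]
    have h10 : 4 / Real.pi ≤ 2 := by rw [div_le_iff₀ (by linarith)]; linarith
    calc 4 / Real.pi * X * |∑ x ∈ Finset.Icc 1 X, rA x / x - Real.pi * Real.log X| ≤ 2 * X * C1 := by
          gcongr
          exact h1 X hX
      _ = _ := by ring
  refine (abs_add_le _ _).trans ?_
  linarith

end Pool.Agent.W2helper20.GC
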