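import Mathlib
import Pool.Agent.W2helper20.GC.NTd

/-!
The resonant sum, with error `O(√t)`.
-/

open Filter Topology
open Pool.Agent.H383 Pool.Agent.H383.Gauss Pool.Agent.N48.Ann

namespace Pool.Agent.W2helper20.GC

lemma dir_sum2 (H : ℕ → ℕ → ℝ) (X : ℕ) : ∑ m ∈ Finset.Icc 1 X, ∑ x ∈ m.divisorsAntidiagonal, H x.1 x.2 =
    ∑ x ∈ Finset.Icc 1 X, ∑ y ∈ Finset.Icc 1 (X/x), H x y := by
  rw [Finset.sum_sigma', Finset.sum_sigma']
  apply Finset.sum_bij' (fun z _ => (⟨z.2.1, z.2.2⟩ : (_ : ℕ) × ℕ)) (fun z _ => (⟨z.1*z.2, (z.1, z.2)⟩ : (_ : ℕ) × (ℕ × ℕ)))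
  · rintro ⟨m, x, y⟩ h
    rw [Finset.mem_sigma, Finset.mem_Icc, Nat.mem_divisorsAntidiagonal] at h
    obtain ⟨⟨h1, h2⟩, h3, h4⟩ := h
    simp only at h1 h2 h3
    rw [Finset.mem_sigma, Finset.mem_Icc, Finset.mem_Icc]
    simp only
    have hx : 0 < x := by
      rcases Nat.eq_zero_or_pos x with h | h
      · rw [h, zero_mul] at h3; omega
      · exact h
    have hy : 0 < y := by
      rcases Nat.eq_zero_or_pos y with h | h
      · rw [h, mul_zero] at h3; omega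
      · exact h
    refine ⟨⟨hx, ?_⟩, hy, ?_⟩
    · calc x ≤ x * y := Nat.le_mul_of_pos_right _ hy
        _ ≤ X := by omega
    · rw [Nat.le_div_iff_mul_le hx, mul_comm]; omega
  · rintro ⟨x, y⟩ h
    rw [Finset.mem_sigma, Finset.mem_Icc, Finset.mem_Icc] at h
    obtain ⟨⟨h1, h2⟩, h3, h4⟩ := h
    simp only at h1 h2 h3 h4
    rw [Finset.mem_sigma, Finset.mem_Icc, Nat.mem_divisorsAntidiagonal]
    simp only
    rw [Nat.le_div_iff_mul_le (by omega)] at h4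
    refine ⟨⟨Nat.mul_pos h1 h3, by rw [mul_comm]; exact h4⟩, trivial, (Nat.mul_pos h1 h3).ne'⟩
  · rintro ⟨m, x, y⟩ h
    rw [Finset.mem_sigma, Finset.mem_Icc, Nat.mem_divisorsAntidiagonal] at h
    obtain ⟨-, h3, -⟩ := h
    simp only at h3 ⊢
    subst h3
    rfl
  · rintro ⟨x, y⟩ _
    rfl
  · rintro ⟨m, x, y⟩ _
    rfl

theorem Rp_log : ∃ C : ℝ, 0 < C ∧ ∀ X : ℕ, 1 ≤ X → |∑ x ∈ Finset.Icc 1 X, rp x / x - 4 / Real.pi * Real.log X| ≤ C := by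
  have hpi := Real.pi_gt_three
  have h4pi : 4 / Real.pi ≤ 2 := by rw [div_le_iff₀ (by linarith)]; linarith
  refine ⟨6 * 1000 + 2, by positivity, ?_⟩
  intro X hX
  have hX1 : (1:ℝ) ≤ X := by exact_mod_cast hX
  have hX0 : (0:ℝ) < X := by linarith
  have hA := abelB (D := fun k => rp k - 4 / Real.pi) (f := fun k => 1 / (k:ℝ)) (B := fun k => 1000 * (k:ℝ) ^ (3/4:ℝ)) (by
    intro Y hY
    have h1 := Rp_asymp hY
    unfold Rp at h1
    rw [Finset.sum_sub_distrib, Finset.sum_const, Nat.card_Icc, Nat.add_sub_cancel, nsmul_eq_mul]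
    rw [mul_comm (Y:ℝ) (4 / Real.pi)]; exact h1) hX
  have h1 : ∑ k ∈ Finset.Icc 1 X, (rp k - 4 / Real.pi) * (1 / (k:ℝ)) = ∑ x ∈ Finset.Icc 1 X, rp x / x - 4 / Real.pi * ∑ x ∈ Finset.Icc 1 X, (1:ℝ) / x := by
    rw [Finset.mul_sum, ← Finset.sum_sub_distrib]
    apply Finset.sum_congr rfl
    intro k _; ring
  rw [h1] at hA
  have h2 : 1000 * (X:ℝ) ^ (3/4:ℝ) * |1 / (X:ℝ)| ≤ 1000 := by
    have h3 : (X:ℝ) ^ (3/4:ℝ) ≤ X := by
      nth_rewrite 2 [← Real.rpow_one (X:ℝ)]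
      exact Real.rpow_le_rpow_of_exponent_le hX1 (by norm_num)
    rw [abs_of_pos (by positivity), mul_one_div, div_le_iff₀ hX0]
    gcongr
  have h3 : ∑ k ∈ Finset.Icc 1 (X-1), 1000 * (k:ℝ) ^ (3/4:ℝ) * |1 / (k:ℝ) - 1 / ((k+1:ℕ):ℝ)| ≤ 5 * 1000 := by
    have h4 : ∀ k ∈ Finset.Icc 1 (X-1), 1000 * (k:ℝ) ^ (3/4:ℝ) * |1 / (k:ℝ) - 1 / ((k+1:ℕ):ℝ)| ≤ 1000 * (k:ℝ) ^ (-(5/4):ℝ) := by
      intro k hk
      rw [Finset.mem_Icc] at hk
      have hk0 : (0:ℝ) < k := by exact_mod_cast hk.1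
      have h5 : |1 / (k:ℝ) - 1 / ((k+1:ℕ):ℝ)| ≤ (k:ℝ) ^ (-2:ℝ) := by
        have e : 1 / (k:ℝ) - 1 / ((k+1:ℕ):ℝ) = 1 / (k * (k+1)) := by push_cast; field_simp; ring
        rw [e, abs_of_pos (by positivity), Real.rpow_neg hk0.le, one_div]
        apply inv_anti₀ (by positivity)
        have : (k:ℝ) ^ (2:ℝ) = (k:ℝ)^2 := by exact_mod_cast Real.rpow_natCast (k:ℝ) 2
        rw [this]; nlinarith
      calc 1000 * (k:ℝ) ^ (3/4:ℝ) * |1 / (k:ℝ) - 1 / ((k+1:ℕ):ℝ)| ≤ 1000 * (k:ℝ) ^ (3/4:ℝ) * (k:ℝ) ^ (-2:ℝ) := by gcongr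
        _ = 1000 * (k:ℝ) ^ (-(5/4):ℝ) := by rw [mul_assoc, ← Real.rpow_add hk0]; norm_num
    refine (Finset.sum_le_sum h4).trans ?_
    rw [← Finset.mul_sum, mul_comm]
    apply mul_le_mul_of_nonneg_right _ (by norm_num)
    have h5 := tail_rpow (s := 5/4) (by norm_num) (n := 1) le_rfl (X-1)
    rcases Nat.lt_or_ge (X-1) 1 with h6 | h6
    · have : Finset.Icc 1 (X-1) = ∅ := by rw [Finset.Icc_eq_empty]; omega
      rw [this]; simp
    · have e : Finset.Icc 1 (X-1) = insert 1 (Finset.Ioc 1 (X-1)) := by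
        ext x; rw [Finset.mem_insert, Finset.mem_Icc, Finset.mem_Ioc]; omega
      rw [e, Finset.sum_insert (by simp)]
      norm_num at h5 ⊢
      linarith
  have h4 := inv_asymp X hX
  have e : ∑ x ∈ Finset.Icc 1 X, rp x / x - 4 / Real.pi * Real.log X = (∑ x ∈ Finset.Icc 1 X, rp x / x - 4 / Real.pi * ∑ x ∈ Finset.Icc 1 X, (1:ℝ) / x) +
      4 / Real.pi * (∑ x ∈ Finset.Icc 1 X, (1:ℝ) / x - Real.log X) := by ring
  rw [e]
  refine (abs_add_le _ _).trans ?_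
  have h5 : |4 / Real.pi * (∑ x ∈ Finset.Icc 1 X, (1:ℝ) / x - Real.log X)| ≤ 2 * 1 := by
    rw [abs_mul, abs_of_pos (by positivity)]
    exact mul_le_mul h4pi h4 (abs_nonneg _) (by norm_num)
  linarith

/-- comparison with constant weights -/
lemma rp_cmp {f : ℕ → ℝ} (hf0 : ∀ m, 1 ≤ m → 0 ≤ f m) (hf : ∀ m, 1 ≤ m → f (m+1) ≤ f m) (N : ℕ) :
    ∑ m ∈ Finset.Icc 1 N, rp m * f m ≤ 1002 * ∑ m ∈ Finset.Icc 1 N, f m := by
  rw [Finset.mul_sum]
  apply abel_cmp (u := rp) (v := fun _ => 1002) hf0 hf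
  intro Y hY
  have := Rp_le hY
  unfold Rp at this
  simp only [Finset.sum_const, Nat.card_Icc, Nat.add_sub_cancel, nsmul_eq_mul]
  linarith

lemma rp_head (N : ℕ) : ∑ m ∈ Finset.Icc 1 N, rp m * (m:ℝ) ^ (-(1/2):ℝ) ≤ 2004 * √(N:ℝ) := by
  refine (rp_cmp (f := fun m : ℕ => (m:ℝ) ^ (-(1/2):ℝ)) (fun m _ => by positivity) (fun m hm => ?_) N).trans ?_
  · have hm0 : (0:ℝ) < m := by exact_mod_cast hm
    apply Real.rpow_le_rpow_of_nonpos hm0 _ (by norm_num)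
    push_cast; linarith
  · have h := head_rpow (s := 1/2) (by norm_num) (by norm_num) N
    have e : (N:ℝ) ^ (1 - 1/2:ℝ) / (1 - 1/2) = 2 * √(N:ℝ) := by
      rw [Real.sqrt_eq_rpow]; norm_num; ring
    rw [e] at h
    linarith

lemma rp_tail {D : ℕ} (hD : 1 ≤ D) (N : ℕ) : ∑ m ∈ Finset.Ioc D N, rp m * (m:ℝ) ^ (-(3/2):ℝ) ≤ 3006 * (D:ℝ) ^ (-(1/2):ℝ) := by
  have hD0 : (0:ℝ) < D := by exact_mod_cast hD
  rcases le_total N D with h | h
  · rw [Finset.Ioc_eq_empty (by omega)]; simp; positivity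
  set f : ℕ → ℝ := fun m => ((max m D : ℕ) : ℝ) ^ (-(3/2):ℝ) with hf
  have h1 := rp_cmp (f := f) (fun m _ => by positivity) (fun m hm => by
    simp only [hf]
    have hpos : (0:ℝ) < ((max m D : ℕ):ℝ) := by
      have : 0 < max m D := lt_of_lt_of_le hD (le_max_right _ _)
      exact_mod_cast this
    apply Real.rpow_le_rpow_of_nonpos hpos _ (by norm_num)
    have : max m D ≤ max (m+1) D := by omega
    exact_mod_cast this) N
  have h2 : ∑ m ∈ Finset.Ioc D N, rp m * (m:ℝ) ^ (-(3/2):ℝ) ≤ ∑ m ∈ Finset.Icc 1 N, rp m * f m := by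
    calc ∑ m ∈ Finset.Ioc D N, rp m * (m:ℝ) ^ (-(3/2):ℝ) = ∑ m ∈ Finset.Ioc D N, rp m * f m := by
          apply Finset.sum_congr rfl
          intro m hm
          rw [Finset.mem_Ioc] at hm
          simp only [hf]
          rw [max_eq_left hm.1.le]
      _ ≤ _ := by
          apply Finset.sum_le_sum_of_subset_of_nonneg
          · intro m hm
            rw [Finset.mem_Ioc] at hm; rw [Finset.mem_Icc]; omega
          · intro m _ _
            exact mul_nonneg (rp_nonneg m) (by positivity)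
  have h3 : ∑ m ∈ Finset.Icc 1 N, f m ≤ 3 * (D:ℝ) ^ (-(1/2):ℝ) := by
    have e : ∑ m ∈ Finset.Icc 1 N, f m = ∑ m ∈ Finset.Icc 1 D, f m + ∑ m ∈ Finset.Ioc D N, f m := by
      rw [← Finset.sum_union]
      · congr 1
        ext x; simp only [Finset.mem_union, Finset.mem_Icc, Finset.mem_Ioc]; omega
      · rw [Finset.disjoint_left]
        intro x hx hy
        rw [Finset.mem_Icc] at hx; rw [Finset.mem_Ioc] at hy; omega
    have e1 : ∑ m ∈ Finset.Icc 1 D, f m = (D:ℝ) ^ (-(1/2):ℝ) := by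
      have : ∀ m ∈ Finset.Icc 1 D, f m = (D:ℝ) ^ (-(3/2):ℝ) := by
        intro m hm
        rw [Finset.mem_Icc] at hm
        simp only [hf]
        rw [max_eq_right hm.2]
      rw [Finset.sum_congr rfl this, Finset.sum_const, Nat.card_Icc, Nat.add_sub_cancel, nsmul_eq_mul]
      nth_rewrite 1 [← Real.rpow_one (D:ℝ)]
      rw [← Real.rpow_add hD0]; norm_num
    have e2 : ∑ m ∈ Finset.Ioc D N, f m ≤ 2 * (D:ℝ) ^ (-(1/2):ℝ) := by
      have h4 := tail_rpow (s := 3/2) (by norm_num) hD N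
      have : ∀ m ∈ Finset.Ioc D N, f m = (m:ℝ) ^ (-(3/2):ℝ) := by
        intro m hm
        rw [Finset.mem_Ioc] at hm
        simp only [hf]
        rw [max_eq_left hm.1.le]
      rw [Finset.sum_congr rfl this]
      refine h4.trans (le_of_eq ?_)
      norm_num; ring
    rw [e, e1]; linarith
  linarith

lemma ff_scale (φ t : ℝ) {d : ℕ} (hd : 1 ≤ d) (j : ℕ) : ff φ t ((d * j : ℕ):ℝ) = (d:ℝ) ^ (-(3/2):ℝ) * ff φ (d * t) j := by
  have hd0 : (0:ℝ) < d := by exact_mod_cast hd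
  unfold ff
  push_cast
  rw [Real.mul_rpow hd0.le (Nat.cast_nonneg j)]
  rw [show (d:ℝ) * j * t = j * (d * t) by ring]
  ring

lemma gz_eq {k : ℕ} (hk : 1 ≤ k) : gz k = ∑ d ∈ k.divisors, rp d := by
  rw [← rA_Zk]; exact rA_of_sq hk

lemma resum (φ t : ℝ) (N : ℕ) : ∑ k ∈ Finset.Icc 1 N, gz k * ff φ t k =
    ∑ d ∈ Finset.Icc 1 N, rp d * ((d:ℝ) ^ (-(3/2):ℝ) * ∑ j ∈ Finset.Icc 1 (N/d), ff φ (d * t) j) := by
  have h1 : ∀ k ∈ Finset.Icc 1 N, gz k * ff φ t k = ∑ x ∈ k.divisorsAntidiagonal, rp x.1 * ff φ t ((x.1 * x.2 : ℕ):ℝ) := by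
    intro k hk
    rw [Finset.mem_Icc] at hk
    rw [gz_eq hk.1, Finset.sum_mul]
    rw [← Nat.sum_divisorsAntidiagonal (fun d _ => rp d * ff φ t (k:ℝ))]
    apply Finset.sum_congr rfl
    intro x hx
    rw [Nat.mem_divisorsAntidiagonal] at hx
    rw [hx.1]
  rw [Finset.sum_congr rfl h1, dir_sum2 (fun d j => rp d * ff φ t ((d * j : ℕ):ℝ))]
  apply Finset.sum_congr rfl
  intro d hd
  rw [Finset.mem_Icc] at hd
  rw [Finset.mul_sum, Finset.mul_sum]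
  apply Finset.sum_congr rfl
  intro j _
  rw [ff_scale φ t hd.1 j]

lemma ff_sum_le (φ t : ℝ) (K : ℕ) : |∑ j ∈ Finset.Icc 1 K, ff φ t j| ≤ 6 := by
  refine (Finset.abs_sum_le_sum_abs _ _).trans ?_
  have h1 : ∀ j ∈ Finset.Icc 1 K, |ff φ t j| ≤ 2 * (j:ℝ) ^ (-(3/2):ℝ) := by
    intro j hj
    rw [Finset.mem_Icc] at hj
    exact ff_le2 φ (by exact_mod_cast hj.1)
  refine (Finset.sum_le_sum h1).trans ?_
  rw [← Finset.mul_sum]
  have h5 := tail_rpow (s := 3/2) (by norm_num) (n := 1) le_rfl K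
  rcases Nat.lt_or_ge K 1 with h6 | h6
  · have : Finset.Icc 1 K = ∅ := by rw [Finset.Icc_eq_empty]; omega
    rw [this]; simp
  · have e : Finset.Icc 1 K = insert 1 (Finset.Ioc 1 K) := by
      ext x; rw [Finset.mem_insert, Finset.mem_Icc, Finset.mem_Ioc]; omega
    rw [e, Finset.sum_insert (by simp)]
    norm_num at h5 ⊢
    linarith

/-- **the resonant sum, with error `O(√t)`** -/
theorem B_sharp : ∃ C : ℝ, 0 < C ∧ ∀ φ t : ℝ, 0 < t → t ≤ 1 → ∀ N : ℕ, 1 / t^2 ≤ N →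
    |∑ k ∈ Finset.Icc 1 N, gz k * ff φ t k - 4 / Real.pi * Real.log (1 / t) * (2 * √(Real.pi * t) * Real.cos (φ + Real.pi / 4))| ≤ C * √t := by
  obtain ⟨C1, hC1, hR⟩ := Rp_log
  have hpi := Real.pi_gt_three
  have hpi4 := Real.pi_lt_four
  refine ⟨20040 + 8 * (C1 + 6) + 6 * 3006 * 2 + 4 * (C1 + 2), by positivity, ?_⟩
  intro φ t ht ht1 N hN
  set c := Real.cos (φ + Real.pi / 4) with hc
  have hc1 : |c| ≤ 1 := Real.abs_cos_le_one _
  set D := ⌊1/t⌋₊ with hD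
  have h1t : 1 ≤ 1/t := by rw [one_le_div ht]; exact ht1
  have hDl : (D:ℝ) ≤ 1/t := Nat.floor_le (by positivity)
  have hDu : 1/t < (D:ℝ) + 1 := Nat.lt_floor_add_one _
  have hD1 : 1 ≤ D := Nat.one_le_floor_iff (1/t) |>.mpr h1t
  have hD1' : (1:ℝ) ≤ D := by exact_mod_cast hD1
  have hD0 : (0:ℝ) < D := by linarith
  have hDh : 1/t ≤ 2 * D := by linarith
  have hN1 : 1/t ≤ N := by
    refine le_trans ?_ hN
    rw [div_le_div_iff₀ ht (by positivity)]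
    nlinarith
  have hDN : D ≤ N := by
    have : (D:ℝ) ≤ N := hDl.trans hN1
    exact_mod_cast this
  have hN0 : (0:ℝ) < N := by linarith
  have hst : 0 < √t := Real.sqrt_pos.mpr ht
  have hsD : √(D:ℝ) ≤ 1 / √t := by
    calc √(D:ℝ) ≤ √(1/t) := Real.sqrt_le_sqrt hDl
      _ = 1/√t := by rw [Real.sqrt_div zero_le_one, Real.sqrt_one]
  have htt : t = √t * √t := (Real.mul_self_sqrt ht.le).symm
  have hDneg : (D:ℝ) ^ (-(1/2):ℝ) ≤ 2 * √t := by
    have h1 : (D:ℝ) ^ (-(1/2):ℝ) ≤ (1/(2*t)) ^ (-(1/2):ℝ) := by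
      apply Real.rpow_le_rpow_of_nonpos (by positivity) _ (by norm_num)
      have e : 1/(2*t) = (1/t)/2 := by field_simp
      rw [e]; linarith
    have h2 : (1/(2*t)) ^ (-(1/2):ℝ) = √(2*t) := by
      rw [one_div, Real.inv_rpow (by positivity), ← Real.rpow_neg (by positivity), neg_neg, ← Real.sqrt_eq_rpow]
    rw [h2, Real.sqrt_mul (by norm_num)] at h1
    have h3 : √2 ≤ 2 := by rw [Real.sqrt_le_left (by norm_num)]; norm_num
    nlinarith
  have hNneg : (N:ℝ) ^ (-(1/2):ℝ) ≤ t := by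
    calc (N:ℝ) ^ (-(1/2):ℝ) ≤ (1/t^2) ^ (-(1/2):ℝ) := Real.rpow_le_rpow_of_nonpos (by positivity) hN (by norm_num)
      _ = t := by
          rw [one_div, Real.inv_rpow (by positivity), ← Real.rpow_neg (by positivity), neg_neg, ← Real.sqrt_eq_rpow, Real.sqrt_sq ht.le]
  have hlog0 : 0 ≤ Real.log (1/t) := Real.log_nonneg h1t
  have hslog : √t * Real.log (1/t) ≤ 2 := sqrt_log_le ht
  have hlogD : |Real.log D - Real.log (1/t)| ≤ 1 := by
    have h1 : Real.log D ≤ Real.log (1/t) := Real.log_le_log hD0 hDl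
    have h2 : Real.log (1/t) ≤ Real.log (2 * D) := Real.log_le_log (by positivity) hDh
    rw [Real.log_mul (by norm_num) hD0.ne'] at h2
    have := Real.log_two_lt_d9
    rw [abs_le]
    constructor <;> linarith
  -- the sum of rp d / d
  have hS := hR D hD1
  have hSle : ∑ x ∈ Finset.Icc 1 D, rp x / x ≤ C1 + 2 * (1 + Real.log (1/t)) := by
    have h4pi : 4 / Real.pi ≤ 2 := by rw [div_le_iff₀ (by linarith)]; linarith
    have h1 := (abs_le.mp hS).2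
    have h2 := (abs_le.mp hlogD).2
    have h3 : 4 / Real.pi * Real.log D ≤ 2 * (1 + Real.log (1/t)) := by
      have h5 : 0 ≤ Real.log D := Real.log_nonneg hD1'
      calc 4 / Real.pi * Real.log D ≤ 2 * Real.log D := by gcongr
        _ ≤ _ := by linarith
    linarith
  have hS0 : 0 ≤ ∑ x ∈ Finset.Icc 1 D, rp x / x := Finset.sum_nonneg (fun x _ => div_nonneg (rp_nonneg x) (Nat.cast_nonneg x))
  rw [resum]
  have hsplit : ∑ d ∈ Finset.Icc 1 N, rp d * ((d:ℝ) ^ (-(3/2):ℝ) * ∑ j ∈ Finset.Icc 1 (N/d), ff φ (d * t) j) =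
      ∑ d ∈ Finset.Icc 1 D, rp d * ((d:ℝ) ^ (-(3/2):ℝ) * ∑ j ∈ Finset.Icc 1 (N/d), ff φ (d * t) j) +
      ∑ d ∈ Finset.Ioc D N, rp d * ((d:ℝ) ^ (-(3/2):ℝ) * ∑ j ∈ Finset.Icc 1 (N/d), ff φ (d * t) j) := by
    rw [← Finset.sum_union]
    · congr 1
      ext x; simp only [Finset.mem_union, Finset.mem_Icc, Finset.mem_Ioc]; omega
    · rw [Finset.disjoint_left]
      intro x hx hy
      rw [Finset.mem_Icc] at hx; rw [Finset.mem_Ioc] at hy; omega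
  rw [hsplit]
  -- the large d
  have hbig : |∑ d ∈ Finset.Ioc D N, rp d * ((d:ℝ) ^ (-(3/2):ℝ) * ∑ j ∈ Finset.Icc 1 (N/d), ff φ (d * t) j)| ≤ 6 * 3006 * 2 * √t := by
    refine (Finset.abs_sum_le_sum_abs _ _).trans ?_
    calc ∑ d ∈ Finset.Ioc D N, |rp d * ((d:ℝ) ^ (-(3/2):ℝ) * ∑ j ∈ Finset.Icc 1 (N/d), ff φ (d * t) j)|
        ≤ ∑ d ∈ Finset.Ioc D N, 6 * (rp d * (d:ℝ) ^ (-(3/2):ℝ)) := by
          apply Finset.sum_le_sum
          intro d _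
          rw [abs_mul, abs_mul, abs_of_nonneg (rp_nonneg d), abs_of_nonneg (show 0 ≤ (d:ℝ) ^ (-(3/2):ℝ) by positivity)]
          have h1 := ff_sum_le φ (d * t) (N/d)
          have h2 : 0 ≤ (d:ℝ) ^ (-(3/2):ℝ) := by positivity
          calc rp d * ((d:ℝ) ^ (-(3/2):ℝ) * |∑ j ∈ Finset.Icc 1 (N/d), ff φ (d * t) j|) ≤ rp d * ((d:ℝ) ^ (-(3/2):ℝ) * 6) := by
                apply mul_le_mul_of_nonneg_left _ (rp_nonneg d)
                exact mul_le_mul_of_nonneg_left h1 h2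
            _ = _ := by ring
      _ = 6 * ∑ d ∈ Finset.Ioc D N, rp d * (d:ℝ) ^ (-(3/2):ℝ) := by rw [Finset.mul_sum]
      _ ≤ 6 * (3006 * (D:ℝ) ^ (-(1/2):ℝ)) := by gcongr; exact rp_tail hD1 N
      _ ≤ 6 * (3006 * (2 * √t)) := by gcongr
      _ = _ := by ring
  -- the small d
  have hsm : |∑ d ∈ Finset.Icc 1 D, rp d * ((d:ℝ) ^ (-(3/2):ℝ) * ∑ j ∈ Finset.Icc 1 (N/d), ff φ (d * t) j) -
      2 * √(Real.pi * t) * c * ∑ d ∈ Finset.Icc 1 D, rp d / d| ≤ (20040 + 8 * (C1 + 6)) * √t := by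
    have e : ∑ d ∈ Finset.Icc 1 D, rp d * ((d:ℝ) ^ (-(3/2):ℝ) * ∑ j ∈ Finset.Icc 1 (N/d), ff φ (d * t) j) -
      2 * √(Real.pi * t) * c * ∑ d ∈ Finset.Icc 1 D, rp d / d =
        ∑ d ∈ Finset.Icc 1 D, rp d * ((d:ℝ) ^ (-(3/2):ℝ) * (∑ j ∈ Finset.Icc 1 (N/d), ff φ (d * t) j - 2 * √(Real.pi * (d * t)) * c)) := by
      rw [Finset.mul_sum, ← Finset.sum_sub_distrib]
      apply Finset.sum_congr rfl
      intro d hd
      rw [Finset.mem_Icc] at hd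
      have hd0 : (0:ℝ) < d := by exact_mod_cast hd.1
      have h1 : √(Real.pi * (d * t)) = √(d:ℝ) * √(Real.pi * t) := by
        rw [← Real.sqrt_mul hd0.le]; congr 1; ring
      have h2 : (d:ℝ) ^ (-(3/2):ℝ) * √(d:ℝ) = 1 / d := by
        have e1 : (1:ℝ) / d = (d:ℝ) ^ (-1:ℝ) := by rw [Real.rpow_neg_one, one_div]
        rw [e1, Real.sqrt_eq_rpow, ← Real.rpow_add hd0]; norm_num
      rw [h1]
      have h3 : rp d * ((d:ℝ) ^ (-(3/2):ℝ) * (2 * (√(d:ℝ) * √(Real.pi * t)) * c)) = 2 * √(Real.pi * t) * c * (rp d / d) := by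
        calc _ = 2 * √(Real.pi * t) * c * (rp d * ((d:ℝ) ^ (-(3/2):ℝ) * √(d:ℝ))) := by ring
          _ = _ := by rw [h2]; ring
      rw [mul_sub, mul_sub, h3]
    rw [e]
    refine (Finset.abs_sum_le_sum_abs _ _).trans ?_
    calc ∑ d ∈ Finset.Icc 1 D, |rp d * ((d:ℝ) ^ (-(3/2):ℝ) * (∑ j ∈ Finset.Icc 1 (N/d), ff φ (d * t) j - 2 * √(Real.pi * (d * t)) * c))|
        ≤ ∑ d ∈ Finset.Icc 1 D, (10 * t * (rp d * (d:ℝ) ^ (-(1/2):ℝ)) + 8 * (N:ℝ) ^ (-(1/2):ℝ) * (rp d / d)) := by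
          apply Finset.sum_le_sum
          intro d hd
          rw [Finset.mem_Icc] at hd
          have hd0 : (0:ℝ) < d := by exact_mod_cast hd.1
          have hdN : d ≤ N := hd.2.trans hDN
          have hq1 : 1 ≤ N / d := (Nat.one_le_div_iff hd.1).mpr hdN
          have h1 := sum_ff φ (t := d * t) (by positivity) hq1
          rw [abs_mul, abs_mul, abs_of_nonneg (rp_nonneg d), abs_of_nonneg (show 0 ≤ (d:ℝ) ^ (-(3/2):ℝ) by positivity)]
          have h2 : ((N/d : ℕ):ℝ) ^ (-(1/2):ℝ) ≤ 2 * ((N:ℝ) ^ (-(1/2):ℝ) * √(d:ℝ)) := by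
            have h3 : (N:ℝ) / (2 * d) ≤ ((N/d : ℕ):ℝ) := by
              have q1 := Nat.div_add_mod N d
              have q2 := Nat.mod_lt N hd.1
              have q3 : N < d * (N/d) + d := by omega
              have q4 : N ≤ 2 * (d * (N/d)) := by
                have : d ≤ d * (N/d) := Nat.le_mul_of_pos_right _ hq1
                omega
              rw [div_le_iff₀ (by positivity)]
              have q5 : (N:ℝ) ≤ 2 * (d * ((N/d : ℕ):ℝ)) := by exact_mod_cast q4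
              linarith
            calc ((N/d : ℕ):ℝ) ^ (-(1/2):ℝ) ≤ ((N:ℝ) / (2 * d)) ^ (-(1/2):ℝ) := Real.rpow_le_rpow_of_nonpos (by positivity) h3 (by norm_num)
              _ = (N:ℝ) ^ (-(1/2):ℝ) * √(2 * d) := by
                  rw [Real.div_rpow hN0.le (by positivity), Real.rpow_neg (show (0:ℝ) ≤ 2 * d by positivity), ← Real.sqrt_eq_rpow, div_inv_eq_mul]
              _ ≤ (N:ℝ) ^ (-(1/2):ℝ) * (2 * √(d:ℝ)) := by
                  gcongr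
                  rw [Real.sqrt_mul (by norm_num)]
                  gcongr
                  rw [Real.sqrt_le_left (by norm_num)]; norm_num
              _ = _ := by ring
          have e1 : (d:ℝ) ^ (-(3/2):ℝ) * √(d:ℝ) = 1 / d := by
            have e1 : (1:ℝ) / d = (d:ℝ) ^ (-1:ℝ) := by rw [Real.rpow_neg_one, one_div]
            rw [e1, Real.sqrt_eq_rpow, ← Real.rpow_add hd0]; norm_num
          have e2 : (d:ℝ) ^ (-(3/2):ℝ) * d = (d:ℝ) ^ (-(1/2):ℝ) := by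
            nth_rewrite 2 [← Real.rpow_one (d:ℝ)]
            rw [← Real.rpow_add hd0]; norm_num
          have h3d : 0 ≤ (d:ℝ) ^ (-(3/2):ℝ) := by positivity
          calc rp d * ((d:ℝ) ^ (-(3/2):ℝ) * |∑ j ∈ Finset.Icc 1 (N/d), ff φ (d * t) j - 2 * √(Real.pi * (d * t)) * c|)
              ≤ rp d * ((d:ℝ) ^ (-(3/2):ℝ) * (10 * (d * t) + 4 * (2 * ((N:ℝ) ^ (-(1/2):ℝ) * √(d:ℝ))))) := by
                apply mul_le_mul_of_nonneg_left _ (rp_nonneg d)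
                apply mul_le_mul_of_nonneg_left _ h3d
                linarith
            _ = 10 * t * (rp d * ((d:ℝ) ^ (-(3/2):ℝ) * d)) + 8 * (N:ℝ) ^ (-(1/2):ℝ) * (rp d * ((d:ℝ) ^ (-(3/2):ℝ) * √(d:ℝ))) := by ring
            _ = _ := by rw [e1, e2]; ring
      _ = 10 * t * ∑ d ∈ Finset.Icc 1 D, rp d * (d:ℝ) ^ (-(1/2):ℝ) + 8 * (N:ℝ) ^ (-(1/2):ℝ) * ∑ d ∈ Finset.Icc 1 D, rp d / d := by
          rw [Finset.sum_add_distrib, ← Finset.mul_sum, ← Finset.mul_sum]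
      _ ≤ 10 * t * (2004 * (1/√t)) + 8 * t * (C1 + 2 * (1 + Real.log (1/t))) := by
          have h1 := rp_head D
          have h2 : ∑ d ∈ Finset.Icc 1 D, rp d * (d:ℝ) ^ (-(1/2):ℝ) ≤ 2004 * (1/√t) := h1.trans (by gcongr)
          gcongr
      _ = 20040 * √t + 8 * √t * (√t * (C1 + 2) + 2 * (√t * Real.log (1/t))) := by
          have e1 : t * (1/√t) = √t := by
            nth_rewrite 1 [htt]; field_simp
          calc _ = 20040 * (t * (1/√t)) + 8 * t * (C1 + 2 + 2 * Real.log (1/t)) := by ring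
            _ = 20040 * √t + 8 * (√t * √t) * (C1 + 2 + 2 * Real.log (1/t)) := by rw [e1, ← htt]
            _ = _ := by ring
      _ ≤ 20040 * √t + 8 * √t * ((C1 + 2) + 2 * 2) := by
          have h1 : √t ≤ 1 := by rw [Real.sqrt_le_left (by norm_num)]; linarith
          have h2 : √t * (C1 + 2) ≤ C1 + 2 := by nlinarith
          gcongr
      _ ≤ _ := by nlinarith
  -- conclusion
  have hmain : |2 * √(Real.pi * t) * c * ∑ d ∈ Finset.Icc 1 D, rp d / d - 4 / Real.pi * Real.log (1 / t) * (2 * √(Real.pi * t) * c)| ≤ 4 * (C1 + 2) * √t := by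
    have e : 2 * √(Real.pi * t) * c * ∑ d ∈ Finset.Icc 1 D, rp d / d - 4 / Real.pi * Real.log (1 / t) * (2 * √(Real.pi * t) * c) =
        2 * √(Real.pi * t) * c * (∑ d ∈ Finset.Icc 1 D, rp d / d - 4 / Real.pi * Real.log (1/t)) := by ring
    rw [e, abs_mul, abs_mul, abs_of_nonneg (show 0 ≤ 2 * √(Real.pi * t) by positivity)]
    have h1 : |∑ d ∈ Finset.Icc 1 D, rp d / d - 4 / Real.pi * Real.log (1/t)| ≤ C1 + 2 := by
      have h2 : ∑ d ∈ Finset.Icc 1 D, rp d / d - 4 / Real.pi * Real.log (1/t) =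
          (∑ d ∈ Finset.Icc 1 D, rp d / d - 4 / Real.pi * Real.log D) + 4 / Real.pi * (Real.log D - Real.log (1/t)) := by ring
      rw [h2]
      refine (abs_add_le _ _).trans (add_le_add hS ?_)
      rw [abs_mul, abs_of_pos (by positivity)]
      have h4pi : 4 / Real.pi ≤ 2 := by rw [div_le_iff₀ (by linarith)]; linarith
      calc 4 / Real.pi * |Real.log D - Real.log (1/t)| ≤ 2 * 1 := mul_le_mul h4pi hlogD (abs_nonneg _) (by norm_num)
        _ = 2 := by norm_num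
    have h3 : √(Real.pi * t) ≤ 2 * √t := by
      rw [Real.sqrt_mul (by positivity)]
      gcongr
      rw [Real.sqrt_le_left (by norm_num)]; linarith
    calc 2 * √(Real.pi * t) * |c| * |∑ d ∈ Finset.Icc 1 D, rp d / d - 4 / Real.pi * Real.log (1/t)|
        ≤ 2 * (2 * √t) * 1 * (C1 + 2) := by gcongr
      _ = _ := by ring
  have e : ∑ d ∈ Finset.Icc 1 D, rp d * ((d:ℝ) ^ (-(3/2):ℝ) * ∑ j ∈ Finset.Icc 1 (N/d), ff φ (d * t) j) +
      ∑ d ∈ Finset.Ioc D N, rp d * ((d:ℝ) ^ (-(3/2):ℝ) * ∑ j ∈ Finset.Icc 1 (N/d), ff φ (d * t) j) -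
      4 / Real.pi * Real.log (1 / t) * (2 * √(Real.pi * t) * c) =
      (∑ d ∈ Finset.Icc 1 D, rp d * ((d:ℝ) ^ (-(3/2):ℝ) * ∑ j ∈ Finset.Icc 1 (N/d), ff φ (d * t) j) -
      2 * √(Real.pi * t) * c * ∑ d ∈ Finset.Icc 1 D, rp d / d) +
      ∑ d ∈ Finset.Ioc D N, rp d * ((d:ℝ) ^ (-(3/2):ℝ) * ∑ j ∈ Finset.Icc 1 (N/d), ff φ (d * t) j) +
      (2 * √(Real.pi * t) * c * ∑ d ∈ Finset.Icc 1 D, rp d / d - 4 / Real.pi * Real.log (1 / t) * (2 * √(Real.pi * t) * c)) := by ring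
  rw [e]
  refine (abs_add_le _ _).trans ?_
  have := abs_add_le (∑ d ∈ Finset.Icc 1 D, rp d * ((d:ℝ) ^ (-(3/2):ℝ) * ∑ j ∈ Finset.Icc 1 (N/d), ff φ (d * t) j) -
      2 * √(Real.pi * t) * c * ∑ d ∈ Finset.Icc 1 D, rp d / d)
      (∑ d ∈ Finset.Ioc D N, rp d * ((d:ℝ) ^ (-(3/2):ℝ) * ∑ j ∈ Finset.Icc 1 (N/d), ff φ (d * t) j))
  linarith

end Pool.Agent.W2helper20.GC
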