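import Mathlib
import Pool.Agent.N48.Ann.AN3
import Pool.Agent.W2helper20.GC.NTh

open MeasureTheory Filter Topology
open Pool.Agent.H383 Pool.Agent.H383.AP Pool.Agent.H383.Gauss Pool.Agent.H383.Gen Pool.Agent.H383.GW
open Pool.Agent.N48.Ann

namespace Pool.Agent.W2helper20.GC

/-- **the resonant terms of the increments, with error `O(√ρ)`** -/
theorem BM_sharp : ∃ C : ℝ, 0 < C ∧ ∀ ρ : ℝ, 0 < ρ → ρ ≤ 1/10 → ∀ p M : ℕ, 1 / ρ^2 ≤ M →
    |BM Circ.ag (3 * Real.pi/4) p (p + ρ) M - lead ρ| ≤ C * √ρ ∧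
    |BM Circ.ag (3 * Real.pi/4) (p - ρ) p M| ≤ C * √ρ := by
  obtain ⟨C, hC, h⟩ := B_sharp
  have hpi := Real.pi_gt_three
  have hpi2 := Real.pi_lt_d2
  refine ⟨C * 3 + 20, by positivity, ?_⟩
  intro ρ hρ hρ1 p M hM
  set t : ℝ := 2 * Real.pi * ρ with ht
  have ht0 : 0 < t := by positivity
  have ht1 : t ≤ 1 := by rw [ht]; nlinarith
  have hρt : ρ ≤ t := by rw [ht]; nlinarith
  have hlog : Real.log (1 / t) = Real.log (1 / ρ) - Real.log (2 * Real.pi) := by
    rw [ht, one_div, one_div, Real.log_inv, Real.log_inv, Real.log_mul (by positivity) hρ.ne']; ring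
  have hl2pi : 0 ≤ Real.log (2 * Real.pi) := Real.log_nonneg (by linarith)
  have hl2pi' : Real.log (2 * Real.pi) ≤ 2 := by
    rw [Real.log_le_iff_le_exp (by positivity)]
    have h1 : (2.7:ℝ) < Real.exp 1 := by have := Real.exp_one_gt_d9; linarith
    have h2 : Real.exp 2 = Real.exp 1 * Real.exp 1 := by rw [← Real.exp_add]; norm_num
    rw [h2]; nlinarith
  have hNc : 1 / t^2 ≤ M := by
    refine le_trans ?_ hM
    gcongr
  have hs : √t ≤ 3 * √ρ := by
    have e : 3 * √ρ = √(9 * ρ) := by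
      rw [Real.sqrt_mul (show (0:ℝ) ≤ 9 by norm_num) ρ,
        show √(9:ℝ) = 3 by rw [show (9:ℝ) = 3^2 by norm_num, Real.sqrt_sq (by norm_num)]]
    rw [e]
    apply Real.sqrt_le_sqrt
    rw [ht]; nlinarith
  have hS0 : 0 ≤ √ρ := Real.sqrt_nonneg _
  have hCs : C * √t ≤ C * (3 * √ρ) := mul_le_mul_of_nonneg_left hs hC.le
  have hinv : |-(1 / Real.pi)| ≤ 1 := by
    rw [abs_neg, abs_of_pos (by positivity), div_le_one (by positivity)]; linarith
  have hinv' : |1 / Real.pi| ≤ 1 := by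
    rw [abs_of_pos (by positivity), div_le_one (by positivity)]; linarith
  constructor
  · rw [BM_outer, ← ht]
    have h1 := h (3 * Real.pi/4) t ht0 ht1 M hNc
    have e1 : 3 * Real.pi/4 + Real.pi/4 = Real.pi := by ring
    rw [e1, Real.cos_pi] at h1
    have e2 : -(1 / Real.pi) * (4 / Real.pi * Real.log (1 / t) * (2 * √(Real.pi * t) * -1)) = 8 * √2 / Real.pi * √ρ * Real.log (1 / t) := by
      have : √(Real.pi * t) = Real.pi * (√2 * √ρ) := by
        rw [ht, show Real.pi * (2 * Real.pi * ρ) = Real.pi^2 * (2 * ρ) by ring, Real.sqrt_mul (by positivity),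
          Real.sqrt_sq (by positivity), Real.sqrt_mul (by norm_num)]
      rw [this]; field_simp; ring
    have e3 : -(1 / Real.pi) * ∑ k ∈ Finset.Icc 1 M, gz k * ff (3 * Real.pi/4) t k - lead ρ =
        -(1 / Real.pi) * (∑ k ∈ Finset.Icc 1 M, gz k * ff (3 * Real.pi/4) t k - 4 / Real.pi * Real.log (1 / t) * (2 * √(Real.pi * t) * -1)) -
        8 * √2 / Real.pi * √ρ * Real.log (2 * Real.pi) := by
      rw [mul_sub, e2, lead, hlog]; ring
    rw [e3]
    refine (abs_sub _ _).trans ?_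
    rw [abs_mul]
    have h2 : |-(1 / Real.pi)| * |∑ k ∈ Finset.Icc 1 M, gz k * ff (3 * Real.pi/4) t k - 4 / Real.pi * Real.log (1 / t) * (2 * √(Real.pi * t) * -1)| ≤
        1 * (C * (3 * √ρ)) := mul_le_mul hinv (h1.trans hCs) (abs_nonneg _) (by norm_num)
    have h3 : |8 * √2 / Real.pi * √ρ * Real.log (2 * Real.pi)| ≤ 20 * √ρ := by
      rw [abs_of_nonneg (by positivity)]
      have hr2 : √2 ≤ 2 := by rw [Real.sqrt_le_left (by norm_num)]; norm_num
      have h4 : 8 * √2 / Real.pi ≤ 6 := by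
        rw [div_le_iff₀ (by positivity)]
        nlinarith
      calc 8 * √2 / Real.pi * √ρ * Real.log (2 * Real.pi) ≤ 6 * √ρ * 2 := by gcongr
        _ ≤ 20 * √ρ := by linarith
    linarith
  · rw [BM_inner, ← ht]
    have h1 := h (-(3 * Real.pi/4)) t ht0 ht1 M hNc
    have e1 : -(3 * Real.pi/4) + Real.pi/4 = -(Real.pi/2) := by ring
    rw [e1, Real.cos_neg, Real.cos_pi_div_two, mul_zero, mul_zero, sub_zero] at h1
    rw [abs_mul]
    have h2 : |1 / Real.pi| * |∑ k ∈ Finset.Icc 1 M, gz k * ff (-(3 * Real.pi/4)) t k| ≤ 1 * (C * (3 * √ρ)) :=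
      mul_le_mul hinv' (h1.trans hCs) (abs_nonneg _) (by norm_num)
    linarith

/-- the bias at position `s` -/
noncomputable def bias (ρ s : ℝ) : ℝ := 8 * √2 / Real.pi * √(ρ * max s 0) * Real.log (1 / ρ)

/-- for fixed `s` -/
theorem BM_fix (s : ℝ) : ∃ C : ℝ, 0 < C ∧ ∃ ρ0 : ℝ, 0 < ρ0 ∧ ∀ ρ : ℝ, 0 < ρ → ρ ≤ ρ0 → ∀ M : ℕ, 1 / ρ^3 ≤ M →
    |BM Circ.ag (3 * Real.pi/4) 0 (ρ * s) M - bias ρ s| ≤ C * √ρ := by
  obtain ⟨C, hC, h⟩ := BM_sharp
  rcases lt_trichotomy s 0 with hs | hs | hs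
  · -- negative
    have hs' : 0 < |s| := abs_pos.mpr hs.ne
    have hs2 : 0 < s^2 := by nlinarith
    refine ⟨C * √|s|, by positivity, min (s^2) (1/(10*|s|)), lt_min hs2 (by positivity), ?_⟩
    intro ρ hρ hρ1 M hM
    have h1 : ρ ≤ s^2 := hρ1.trans (min_le_left _ _)
    have h2 : ρ ≤ 1/(10*|s|) := hρ1.trans (min_le_right _ _)
    have h3 : ρ * |s| ≤ 1/10 := by
      rw [le_div_iff₀ (by positivity)] at h2
      linarith
    have hM' : 1 / (ρ * |s|)^2 ≤ M := by
      refine le_trans ?_ hM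
      rw [mul_pow, sq_abs]
      apply one_div_le_one_div_of_le (by positivity)
      calc ρ^3 = ρ^2 * ρ := by ring
        _ ≤ ρ^2 * s^2 := by gcongr
    have h4 := (h (ρ * |s|) (by positivity) h3 0 M hM').2
    have e1 : bias ρ s = 0 := by
      unfold bias
      rw [max_eq_right hs.le]; simp
    have e2 : BM Circ.ag (3 * Real.pi/4) 0 (ρ * s) M = - BM Circ.ag (3 * Real.pi/4) (((0:ℕ):ℝ) - ρ * |s|) ((0:ℕ):ℝ) M := by
      unfold BM
      rw [← Finset.sum_neg_distrib]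
      apply Finset.sum_congr rfl
      intro k _
      rw [abs_of_neg hs]
      push_cast
      rw [show (0:ℝ) - ρ * -s = ρ * s by ring]
      ring
    rw [e1, e2, sub_zero, abs_neg]
    refine h4.trans (le_of_eq ?_)
    rw [Real.sqrt_mul hρ.le]; ring
  · subst hs
    refine ⟨1, one_pos, 1, one_pos, ?_⟩
    intro ρ hρ hρ1 M hM
    have e1 : bias ρ 0 = 0 := by
      unfold bias; simp
    have e2 : BM Circ.ag (3 * Real.pi/4) 0 (ρ * 0) M = 0 := by
      unfold BM
      rw [mul_zero]; simp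
    rw [e1, e2]; simp
  · have hs1 : 0 < √s := Real.sqrt_pos.mpr hs
    refine ⟨C * √s + 8 * √2 / Real.pi * √s * |Real.log s|, by positivity, min (s^2) (1/(10*s)), by positivity, ?_⟩
    intro ρ hρ hρ1 M hM
    have h1 : ρ ≤ s^2 := hρ1.trans (min_le_left _ _)
    have h2 : ρ ≤ 1/(10*s) := hρ1.trans (min_le_right _ _)
    have h3 : ρ * s ≤ 1/10 := by
      rw [le_div_iff₀ (by positivity)] at h2
      linarith
    have hM' : 1 / (ρ * s)^2 ≤ M := by
      refine le_trans ?_ hM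
      rw [mul_pow]
      apply one_div_le_one_div_of_le (by positivity)
      calc ρ^3 = ρ^2 * ρ := by ring
        _ ≤ ρ^2 * s^2 := by gcongr
    have h4 := (h (ρ * s) (by positivity) h3 0 M hM').1
    rw [Nat.cast_zero, zero_add] at h4
    have e1 : lead (ρ * s) - bias ρ s = - (8 * √2 / Real.pi * √s * Real.log s) * √ρ := by
      unfold lead bias
      rw [max_eq_left hs.le, Real.sqrt_mul hρ.le, one_div, one_div, Real.log_inv, Real.log_inv, Real.log_mul hρ.ne' hs.ne']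
      ring
    have e2 : BM Circ.ag (3 * Real.pi/4) 0 (ρ * s) M - bias ρ s =
        (BM Circ.ag (3 * Real.pi/4) 0 (ρ * s) M - lead (ρ * s)) + (lead (ρ * s) - bias ρ s) := by ring
    rw [e2]
    refine (abs_add_le _ _).trans ?_
    rw [e1, abs_mul, abs_neg, abs_mul, abs_of_nonneg (Real.sqrt_nonneg ρ), abs_of_nonneg (show 0 ≤ 8 * √2 / Real.pi * √s by positivity)]
    rw [Real.sqrt_mul hρ.le] at h4
    calc |BM Circ.ag (3 * Real.pi/4) 0 (ρ * s) M - lead (ρ * s)| + 8 * √2 / Real.pi * √s * |Real.log s| * √ρ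
        ≤ C * (√ρ * √s) + 8 * √2 / Real.pi * √s * |Real.log s| * √ρ := by gcongr
      _ = _ := by ring

end Pool.Agent.W2helper20.GC
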