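import Mathlib

/-!
Integer linear combinations of square roots stay away from integers.
-/

open Polynomial

namespace Pool.Agent.W2helper20.GC

/-- the ring map -/
noncomputable abbrev ir : ℤ →+* ℝ := Int.castRingHom ℝ

lemma shift_pm (P : ℤ[X]) (m : ℕ) : ∃ A B : ℤ[X],
    (P.map ir).comp (X + C (√(m:ℝ))) = A.map ir + C (√(m:ℝ)) * B.map ir ∧
    (P.map ir).comp (X - C (√(m:ℝ))) = A.map ir - C (√(m:ℝ)) * B.map ir := by
  have hsq : (C (√(m:ℝ)) : ℝ[X]) * C (√(m:ℝ)) = (C (m:ℤ) : ℤ[X]).map ir := by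
    rw [← C_mul, Real.mul_self_sqrt (Nat.cast_nonneg m), map_C]; simp
  induction P using Polynomial.induction_on' with
  | add p q hp hq =>
    obtain ⟨A, B, h1, h2⟩ := hp
    obtain ⟨A', B', h1', h2'⟩ := hq
    refine ⟨A + A', B + B', ?_, ?_⟩
    · rw [Polynomial.map_add, add_comp, h1, h1', Polynomial.map_add, Polynomial.map_add]; ring
    · rw [Polynomial.map_add, add_comp, h2, h2', Polynomial.map_add, Polynomial.map_add]; ring
  | monomial n a =>
    induction n with
    | zero =>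
      refine ⟨C a, 0, ?_, ?_⟩ <;> simp
    | succ n ih =>
      obtain ⟨A, B, h1, h2⟩ := ih
      refine ⟨A * X + C (m:ℤ) * B, A + B * X, ?_, ?_⟩
      · have e : (monomial (n+1) a : ℤ[X]) = monomial n a * X := by rw [monomial_mul_X]
        rw [e, Polynomial.map_mul, mul_comp, h1, map_X, X_comp, Polynomial.map_add, Polynomial.map_mul, Polynomial.map_mul, map_X,
          Polynomial.map_add, Polynomial.map_mul, map_X, ← hsq]
        ring
      · have e : (monomial (n+1) a : ℤ[X]) = monomial n a * X := by rw [monomial_mul_X]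
        rw [e, Polynomial.map_mul, mul_comp, h2, map_X, X_comp, Polynomial.map_add, Polynomial.map_mul, Polynomial.map_mul, map_X,
          Polynomial.map_add, Polynomial.map_mul, map_X, ← hsq]
        ring

lemma shift_mul (P : ℤ[X]) (m : ℕ) : ∃ Q : ℤ[X],
    (P.map ir).comp (X - C (√(m:ℝ))) * (P.map ir).comp (X + C (√(m:ℝ))) = Q.map ir := by
  obtain ⟨A, B, h1, h2⟩ := shift_pm P m
  have hsq : (C (√(m:ℝ)) : ℝ[X]) * C (√(m:ℝ)) = (C (m:ℤ) : ℤ[X]).map ir := by
    rw [← C_mul, Real.mul_self_sqrt (Nat.cast_nonneg m), map_C]; simp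
  refine ⟨A * A - C (m:ℤ) * (B * B), ?_⟩
  rw [h1, h2, Polynomial.map_sub, Polynomial.map_mul, Polynomial.map_mul, Polynomial.map_mul, ← hsq]
  ring

/-- sums of `k` signed square roots of elements of `T` -/
def Th (T : Set ℕ) : ℕ → Set ℝ
  | 0 => {0}
  | k+1 => {θ | ∃ θ' ∈ Th T k, ∃ m ∈ T, θ = θ' + √(m:ℝ) ∨ θ = θ' - √(m:ℝ)}

lemma Th_poly {T : Set ℕ} {D : ℝ} (hD : ∀ m ∈ T, √(m:ℝ) ≤ D) (k : ℕ) : ∀ θ ∈ Th T k, ∀ a : ℤ,
    ∃ (P : ℤ[X]) (R : Multiset ℝ), P.map ir = (R.map (fun r => X - C r)).prod ∧ R.card = 2^k ∧ θ + a ∈ R ∧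
      ∀ r ∈ R, |r| ≤ k * D + |(a:ℝ)| := by
  induction k with
  | zero =>
    intro θ hθ a
    have h0 : θ = 0 := hθ
    refine ⟨X - C a, {(a:ℝ)}, ?_, by simp, by simp [h0], ?_⟩
    · rw [Polynomial.map_sub, map_X, map_C]; simp
    · intro r hr
      rw [Multiset.mem_singleton] at hr
      rw [hr]; simp
  | succ k ih =>
    rintro θ ⟨θ', hθ', m, hm, hθ⟩ a
    obtain ⟨P, R, h1, h2, h3, h4⟩ := ih θ' hθ' a
    obtain ⟨Q, hQ⟩ := shift_mul P m
    refine ⟨Q, R.map (fun r => r + √(m:ℝ)) + R.map (fun r => r - √(m:ℝ)), ?_, ?_, ?_, ?_⟩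
    · rw [← hQ, h1, Multiset.map_add, Multiset.prod_add, Multiset.map_map, Multiset.map_map,
        multiset_prod_comp, multiset_prod_comp, Multiset.map_map, Multiset.map_map]
      congr 2
      · apply Multiset.map_congr rfl
        intro r _
        simp only [Function.comp, sub_comp, X_comp, C_comp, C_add]
        ring
      · apply Multiset.map_congr rfl
        intro r _
        simp only [Function.comp, sub_comp, X_comp, C_comp, C_sub]
        ring
    · rw [Multiset.card_add, Multiset.card_map, Multiset.card_map, h2]; ring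
    · rw [Multiset.mem_add, Multiset.mem_map, Multiset.mem_map]
      rcases hθ with h | h
      · left; exact ⟨_, h3, by rw [h]; ring⟩
      · right; exact ⟨_, h3, by rw [h]; ring⟩
    · intro r hr
      have hmD := hD m hm
      have hm0 : 0 ≤ √(m:ℝ) := Real.sqrt_nonneg _
      rw [Multiset.mem_add, Multiset.mem_map, Multiset.mem_map] at hr
      push_cast
      rcases hr with ⟨r', hr', rfl⟩ | ⟨r', hr', rfl⟩
      · have := abs_add_le r' (√(m:ℝ))
        rw [abs_of_nonneg hm0] at this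
        have h5 := h4 r' hr'
        linarith
      · have := abs_sub r' (√(m:ℝ))
        rw [abs_of_nonneg hm0] at this
        have h5 := h4 r' hr'
        linarith

lemma prod_abs_le {R : Multiset ℝ} {B : ℝ} (hB : 1 ≤ B) (h : ∀ r ∈ R, |r| ≤ B) : |R.prod| ≤ B ^ R.card := by
  induction R using Multiset.induction_on with
  | empty => simp
  | cons a R ih =>
    rw [Multiset.prod_cons, Multiset.card_cons, abs_mul, pow_succ, mul_comm]
    exact mul_le_mul (ih (fun r hr => h r (Multiset.mem_cons_of_mem hr))) (h a (Multiset.mem_cons_self a R))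
      (abs_nonneg _) (by positivity)

/-- nonzero values are not small -/
theorem Th_lower {T : Set ℕ} {D : ℝ} (hD : ∀ m ∈ T, √(m:ℝ) ≤ D) {k : ℕ} {θ : ℝ} (hθ : θ ∈ Th T k) (a : ℤ)
    (hne : θ + a ≠ 0) {B : ℝ} (hB1 : 1 ≤ B) (hB : k * D + |(a:ℝ)| ≤ B) : 1 ≤ |θ + a| * B ^ (2^k) := by
  obtain ⟨P, R, h1, h2, h3, h4⟩ := Th_poly hD k θ hθ a
  -- remove the zero roots
  set R0 := R.filter (fun r => r ≠ 0) with hR0
  set j := (R.filter (fun r => ¬ r ≠ 0)).card with hj
  have hsplit : R = R0 + R.filter (fun r => ¬ r ≠ 0) := (Multiset.filter_add_not _ R).symm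
  have hz : R.filter (fun r => ¬ r ≠ 0) = Multiset.replicate j 0 := by
    rw [Multiset.eq_replicate]
    refine ⟨rfl, ?_⟩
    intro b hb
    have := (Multiset.mem_filter.mp hb).2
    exact not_not.mp this
  have h5 : P.map ir = X^j * (R0.map (fun r => X - C r)).prod := by
    rw [h1]
    nth_rewrite 1 [hsplit]
    rw [Multiset.map_add, Multiset.prod_add, hz, Multiset.map_replicate, Multiset.prod_replicate, C_0, sub_zero, mul_comm]
  have h6 : X^j ∣ P := by
    rw [X_pow_dvd_iff]
    intro d hd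
    have h7 : X^j ∣ P.map ir := ⟨_, h5⟩
    rw [X_pow_dvd_iff] at h7
    have h8 := h7 d hd
    rw [coeff_map] at h8
    have : ((P.coeff d : ℤ) : ℝ) = 0 := h8
    exact_mod_cast this
  obtain ⟨Q, hQ⟩ := h6
  have h7 : Q.map ir = (R0.map (fun r => X - C r)).prod := by
    have h8 : X^j * Q.map ir = X^j * (R0.map (fun r => X - C r)).prod := by
      rw [← h5, hQ, Polynomial.map_mul, Polynomial.map_pow, map_X]
    exact mul_left_cancel₀ (pow_ne_zero _ X_ne_zero) h8
  have h8 : ((Q.eval 0 : ℤ) : ℝ) = (R0.map (fun r => -r)).prod := by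
    have h9 : (Q.map ir).eval 0 = ((Q.eval 0 : ℤ) : ℝ) := by
      have := Polynomial.eval_intCast_map ir Q 0
      simpa using this
    rw [← h9, h7, eval_multiset_prod, Multiset.map_map]
    congr 1
    apply Multiset.map_congr rfl
    intro r _
    simp
  have h9 : (R0.map (fun r => -r)).prod ≠ 0 := by
    rw [Ne, Multiset.prod_eq_zero_iff, Multiset.mem_map]
    rintro ⟨r, hr, hr0⟩
    have := (Multiset.mem_filter.mp hr).2
    exact this (neg_eq_zero.mp hr0)
  have h10 : 1 ≤ |(R0.map (fun r => -r)).prod| := by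
    rw [← h8, ← Int.cast_abs]
    have : Q.eval 0 ≠ 0 := by
      intro h0
      rw [h0, Int.cast_zero] at h8
      exact h9 h8.symm
    exact_mod_cast Int.one_le_abs this
  have hmem : θ + a ∈ R0 := Multiset.mem_filter.mpr ⟨h3, hne⟩
  obtain ⟨R1, hR1⟩ := Multiset.exists_cons_of_mem hmem
  rw [hR1, Multiset.map_cons, Multiset.prod_cons, abs_mul, abs_neg] at h10
  refine h10.trans ?_
  apply mul_le_mul_of_nonneg_left _ (abs_nonneg _)
  have h11 : |(R1.map (fun r => -r)).prod| ≤ B ^ (R1.map (fun r => -r)).card := by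
    apply prod_abs_le hB1
    intro r hr
    rw [Multiset.mem_map] at hr
    obtain ⟨r', hr', rfl⟩ := hr
    rw [abs_neg]
    have : r' ∈ R := by
      have : r' ∈ R0 := by rw [hR1]; exact Multiset.mem_cons_of_mem hr'
      exact (Multiset.mem_filter.mp this).1
    exact (h4 r' this).trans hB
  refine h11.trans ?_
  apply pow_le_pow_right₀ hB1
  rw [Multiset.card_map]
  have h12 : R0.card ≤ R.card := Multiset.card_le_card (Multiset.filter_le _ _)
  rw [hR1, Multiset.card_cons, h2] at h12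
  omega

end Pool.Agent.W2helper20.GC
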