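import Mathlib

/-!
Taylor polynomials of `exp (i x)`.
-/

open Finset

namespace Pool.Agent.W2helper20.GC

/-- remainder -/
noncomputable def rem (n : ℕ) (x : ℝ) : ℂ := Complex.exp ((x:ℂ) * Complex.I) -
  ∑ k ∈ Finset.range n, ((x:ℂ) * Complex.I) ^ k / (k.factorial : ℂ)

lemma rem_deriv (n : ℕ) (x : ℝ) : HasDerivAt (rem (n+1)) (Complex.I * rem n x) x := by
  unfold rem
  have h1 : HasDerivAt (fun x : ℝ => ((x:ℂ) * Complex.I)) Complex.I x := by
    have := (Complex.ofRealCLM.hasDerivAt (x := x)).mul_const Complex.I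
    simpa using this
  have h2 := h1.cexp
  have h3 : ∀ k ∈ Finset.range (n+1), HasDerivAt (fun x : ℝ => ((x:ℂ) * Complex.I) ^ k / (k.factorial : ℂ))
      ((k:ℂ) * ((x:ℂ) * Complex.I) ^ (k-1) * Complex.I / (k.factorial : ℂ)) x := by
    intro k _
    exact (h1.pow k).div_const _
  have h4 := HasDerivAt.fun_sum h3
  refine (h2.sub h4).congr_deriv ?_
  rw [Finset.sum_range_succ', mul_sub, Finset.mul_sum]
  simp only [Nat.cast_zero, zero_mul, zero_div, add_zero]
  congr 1
  · ring
  · apply Finset.sum_congr rfl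
    intro k _
    rw [Nat.add_sub_cancel, Nat.factorial_succ]
    have hk : (k.factorial : ℂ) ≠ 0 := by exact_mod_cast k.factorial_ne_zero
    have hk1 : ((k:ℂ) + 1) ≠ 0 := by exact_mod_cast Nat.succ_ne_zero k
    push_cast
    field_simp

lemma rem_zero (n : ℕ) : rem (n+1) 0 = 0 := by
  unfold rem
  rw [Finset.sum_range_succ']
  simp

lemma rem_nonneg_le (n : ℕ) : ∀ x : ℝ, 0 ≤ x → ‖rem n x‖ ≤ x ^ n / n.factorial := by
  induction n with
  | zero =>
    intro x _
    unfold rem
    simp [Complex.norm_exp_ofReal_mul_I]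
  | succ n ih =>
    intro x hx
    have hc : ContinuousOn (rem (n+1)) (Set.Icc 0 x) := fun y _ => (rem_deriv n y).continuousAt.continuousWithinAt
    have hB : ∀ y : ℝ, HasDerivAt (fun y : ℝ => y ^ (n+1) / ((n+1).factorial : ℝ)) (y ^ n / (n.factorial : ℝ)) y := by
      intro y
      refine ((hasDerivAt_pow (n+1) y).div_const ((n+1).factorial : ℝ)).congr_deriv ?_
      rw [Nat.factorial_succ, Nat.add_sub_cancel]
      push_cast
      have hk : (n.factorial : ℝ) ≠ 0 := by exact_mod_cast n.factorial_ne_zero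
      field_simp
    have h := image_norm_le_of_norm_deriv_right_le_deriv_boundary (f := rem (n+1)) (f' := fun y => Complex.I * rem n y)
      (a := 0) (b := x) (B := fun y : ℝ => y ^ (n+1) / ((n+1).factorial : ℝ)) (B' := fun y => y ^ n / (n.factorial : ℝ))
      hc (fun y _ => (rem_deriv n y).hasDerivWithinAt) (by rw [rem_zero]; simp) hB
      (by
        intro y hy
        rw [norm_mul, Complex.norm_I, one_mul]
        exact ih y hy.1)
    exact h (Set.right_mem_Icc.mpr hx)

lemma rem_neg (n : ℕ) (x : ℝ) : rem n (-x) = (starRingEnd ℂ) (rem n x) := by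
  unfold rem
  rw [map_sub, map_sum, ← Complex.exp_conj]
  congr 1
  · congr 1
    rw [map_mul, Complex.conj_ofReal, Complex.conj_I]; push_cast; ring
  · apply Finset.sum_congr rfl
    intro k _
    rw [map_div₀, map_pow, map_mul, Complex.conj_ofReal, Complex.conj_I, map_natCast]
    congr 2
    push_cast; ring

/-- Taylor bound -/
theorem rem_le (n : ℕ) (x : ℝ) : ‖rem n x‖ ≤ |x| ^ n / n.factorial := by
  rcases le_total 0 x with h | h
  · rw [abs_of_nonneg h]; exact rem_nonneg_le n x h
  · have h1 := rem_nonneg_le n (-x) (by linarith)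
    rw [rem_neg, RCLike.norm_conj] at h1
    rw [abs_of_nonpos h]; exact h1

end Pool.Agent.W2helper20.GC
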