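import Mathlib
import Pool.Agent.H383.UC
import Pool.Agent.W2helper20.GC.Dio
import Pool.Agent.W2helper20.GC.Taylor

/-!
Averages of powers and exponentials of trigonometric polynomials with frequencies `√m` over a finite set.
-/

open Filter Topology
open Pool.Agent.H383.AP

namespace Pool.Agent.W2helper20.GC

/-- the trigonometric polynomial -/
noncomputable def Zc (b : ℕ → ℂ) (T : Finset ℕ) (n : ℕ) : ℝ := (∑ m ∈ T, b m * chr (√(m:ℝ)) n).re

/-- sum of the absolute values of the coefficients -/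
noncomputable def sB (b : ℕ → ℂ) (T : Finset ℕ) : ℝ := ∑ m ∈ T, ‖b m‖

lemma sB_nonneg (b : ℕ → ℂ) (T : Finset ℕ) : 0 ≤ sB b T := Finset.sum_nonneg (fun _ _ => norm_nonneg _)

lemma abs_Zc_le (b : ℕ → ℂ) (T : Finset ℕ) (n : ℕ) : |Zc b T n| ≤ sB b T := by
  unfold Zc sB
  refine (Complex.abs_re_le_norm _).trans ((norm_sum_le _ _).trans (le_of_eq ?_))
  apply Finset.sum_congr rfl
  intro m _
  rw [norm_mul, norm_chr, mul_one]

/-- the terms -/
noncomputable def Fc (b : ℕ → ℂ) (m : ℕ) : ℕ → ℂ := (b m / 2) • chr (√(m:ℝ)) + ((starRingEnd ℂ) (b m) / 2) • chr (-√(m:ℝ))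

lemma Zc_trig (b : ℕ → ℂ) (T : Finset ℕ) : (fun n : ℕ => ((Zc b T n : ℝ) : ℂ)) = ∑ m ∈ T, Fc b m := by
  funext n
  rw [Finset.sum_apply]
  unfold Zc
  set z := ∑ m ∈ T, b m * chr (√(m:ℝ)) n with hz
  have h1 : (z.re : ℂ) = (z + (starRingEnd ℂ) z) / 2 := by
    rw [Complex.add_conj]
    push_cast
    ring
  rw [h1, hz, map_sum, ← Finset.sum_add_distrib, Finset.sum_div]
  apply Finset.sum_congr rfl
  intro m _
  unfold Fc
  simp only [Pi.add_apply, Pi.smul_apply, smul_eq_mul]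
  rw [← chr_conj, map_mul]
  ring

lemma Zc_TG {b : ℕ → ℂ} {T : Finset ℕ} {Γ : AddSubgroup ℝ} (h : ∀ m ∈ T, √(m:ℝ) ∈ Γ) :
    (fun n : ℕ => ((Zc b T n : ℝ) : ℂ)) ∈ TG Γ := by
  rw [Zc_trig]
  apply Submodule.sum_mem
  intro m hm
  exact (TG Γ).add_mem ((TG Γ).smul_mem _ (chr_mem_TG (h m hm)))
    ((TG Γ).smul_mem _ (chr_mem_TG (Γ.neg_mem (h m hm))))

lemma Zc_top (b : ℕ → ℂ) (T : Finset ℕ) : (fun n : ℕ => ((Zc b T n : ℝ) : ℂ)) ∈ TG ⊤ :=
  Zc_TG (fun _ _ => AddSubgroup.mem_top _)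

/-- expansion of the powers -/
lemma Zc_pow (b : ℕ → ℂ) (T : Finset ℕ) (k : ℕ) : ∃ (ι : Type) (_ : Fintype ι) (c : ι → ℂ) (θ : ι → ℝ),
    (fun n : ℕ => ((Zc b T n : ℝ) : ℂ)) ^ k = ∑ i, c i • chr (θ i) ∧ (∀ i, θ i ∈ Th (T : Set ℕ) k) ∧
    ∑ i, ‖c i‖ ≤ sB b T ^ k := by
  classical
  induction k with
  | zero =>
    refine ⟨Unit, inferInstance, fun _ => 1, fun _ => 0, ?_, fun _ => rfl, ?_⟩
    · rw [pow_zero, Finset.univ_unique, Finset.sum_singleton, one_smul, chr_zero]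
    · simp
  | succ k ih =>
    obtain ⟨ι, hι, c, θ, h1, h2, h3⟩ := ih
    refine ⟨ι × ({m // m ∈ T} × Bool), inferInstance,
      fun x => c x.1 * (if x.2.2 then b x.2.1 / 2 else (starRingEnd ℂ) (b x.2.1) / 2),
      fun x => θ x.1 + (if x.2.2 then √((x.2.1 : ℕ):ℝ) else -√((x.2.1 : ℕ):ℝ)), ?_, ?_, ?_⟩
    · rw [pow_succ, h1, Zc_trig]
      have e : ∑ m ∈ T, Fc b m = ∑ y : {m // m ∈ T} × Bool, (if y.2 then b y.1 / 2 else (starRingEnd ℂ) (b y.1) / 2) •
          chr (if y.2 then √((y.1 : ℕ):ℝ) else -√((y.1 : ℕ):ℝ)) := by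
        rw [← Finset.sum_coe_sort, Fintype.sum_prod_type]
        apply Finset.sum_congr rfl
        intro m _
        rw [Fintype.sum_bool]
        rfl
      rw [e, Finset.sum_mul_sum, Fintype.sum_prod_type]
      apply Finset.sum_congr rfl
      intro i _
      apply Finset.sum_congr rfl
      intro y _
      rw [smul_mul_smul_comm, chr_mul]
    · rintro ⟨i, ⟨m, hm⟩, s⟩
      refine ⟨θ i, h2 i, m, hm, ?_⟩
      cases s
      · right; simp; ring
      · left; simp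
    · calc ∑ x : ι × ({m // m ∈ T} × Bool), ‖c x.1 * (if x.2.2 then b x.2.1 / 2 else (starRingEnd ℂ) (b x.2.1) / 2)‖
          = (∑ i, ‖c i‖) * sB b T := by
            rw [Fintype.sum_prod_type, Finset.sum_mul]
            apply Finset.sum_congr rfl
            intro i _
            unfold sB
            rw [Fintype.sum_prod_type, ← Finset.sum_coe_sort T (fun m => ‖b m‖), Finset.mul_sum]
            apply Finset.sum_congr rfl
            intro m _
            rw [Fintype.sum_bool]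
            simp only [if_true, Bool.false_eq_true, if_false]
            rw [norm_mul, norm_mul, norm_div, norm_div, RCLike.norm_conj]
            have : ‖(2:ℂ)‖ = 2 := by norm_num
            rw [this]; ring
        _ ≤ sB b T ^ k * sB b T := mul_le_mul_of_nonneg_right h3 (sB_nonneg b T)
        _ = _ := (pow_succ _ _).symm

/-- averages over a finite set -/
noncomputable def av (S : Finset ℕ) (f : ℕ → ℂ) : ℂ := (∑ n ∈ S, f n) / S.card

lemma av_add (S : Finset ℕ) (f g : ℕ → ℂ) : av S (f + g) = av S f + av S g := by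
  unfold av
  simp only [Pi.add_apply, Finset.sum_add_distrib, add_div]

lemma av_smul (S : Finset ℕ) (c : ℂ) (f : ℕ → ℂ) : av S (c • f) = c * av S f := by
  unfold av
  simp only [Pi.smul_apply, smul_eq_mul, ← Finset.mul_sum]
  ring

lemma av_sum {ι : Type*} (S : Finset ℕ) (s : Finset ι) (f : ι → ℕ → ℂ) : av S (∑ i ∈ s, f i) = ∑ i ∈ s, av S (f i) := by
  classical
  induction s using Finset.induction_on with
  | empty => simp [av]
  | insert a s ha ih => rw [Finset.sum_insert ha, Finset.sum_insert ha, av_add, ih]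

/-- the set `S` does not see the characters with frequencies in `Θ` -/
def Blind (S : Finset ℕ) (Θ : Set ℝ) (δ : ℝ) : Prop := ∀ θ ∈ Θ, (∃ a : ℤ, θ = a) ∨ ‖av S (chr θ)‖ ≤ δ

lemma chr_int {θ : ℝ} (h : ∃ a : ℤ, θ = a) (n : ℕ) : chr θ n = 1 := by
  obtain ⟨a, rfl⟩ := h
  unfold chr
  rw [Complex.exp_eq_one_iff]
  exact ⟨n * a, by push_cast; ring⟩

lemma av_chr {S : Finset ℕ} (hS : S.Nonempty) {Θ : Set ℝ} {δ : ℝ} (hδ : 0 ≤ δ) (h : Blind S Θ δ) {θ : ℝ} (hθ : θ ∈ Θ) :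
    ‖av S (chr θ) - mc θ‖ ≤ δ := by
  have hc : (0:ℝ) < S.card := by exact_mod_cast hS.card_pos
  by_cases hi : ∃ a : ℤ, θ = a
  · have e : av S (chr θ) = 1 := by
      unfold av
      rw [Finset.sum_congr rfl (fun n _ => chr_int hi n), Finset.sum_const, nsmul_eq_mul, mul_one, div_self]
      exact_mod_cast hc.ne'
    rw [e, mc, if_pos hi, sub_self, norm_zero]; exact hδ
  · rw [mc, if_neg hi, sub_zero]
    exact (h θ hθ).resolve_left hi

lemma pow_transfer {S : Finset ℕ} (hS : S.Nonempty) {b : ℕ → ℂ} {T : Finset ℕ} {k : ℕ} {δ : ℝ} (hδ : 0 ≤ δ)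
    (h : Blind S (Th (T : Set ℕ) k) δ) :
    ‖av S ((fun n : ℕ => ((Zc b T n : ℝ) : ℂ)) ^ k) - mn ((fun n : ℕ => ((Zc b T n : ℝ) : ℂ)) ^ k)‖ ≤ δ * sB b T ^ k := by
  obtain ⟨ι, hι, c, θ, h1, h2, h3⟩ := Zc_pow b T k
  rw [h1, av_sum]
  have e : mn (∑ i, c i • chr (θ i)) = ∑ i, c i * mc (θ i) :=
    (HasMean.sum Finset.univ (fun i => c i • chr (θ i)) (fun i => c i * mc (θ i)) (fun i _ => (chr_mean (θ i)).smul (c i))).mn_eq
  rw [e, ← Finset.sum_sub_distrib]
  calc ‖∑ i, (av S (c i • chr (θ i)) - c i * mc (θ i))‖ ≤ ∑ i, ‖av S (c i • chr (θ i)) - c i * mc (θ i)‖ := norm_sum_le _ _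
    _ ≤ ∑ i, ‖c i‖ * δ := by
        apply Finset.sum_le_sum
        intro i _
        rw [av_smul, ← mul_sub, norm_mul]
        exact mul_le_mul_of_nonneg_left (av_chr hS hδ h (h2 i)) (norm_nonneg _)
    _ = (∑ i, ‖c i‖) * δ := (Finset.sum_mul _ _ _).symm
    _ ≤ sB b T ^ k * δ := mul_le_mul_of_nonneg_right h3 hδ
    _ = _ := mul_comm _ _

/-- real averages -/
noncomputable def ra (S : Finset ℕ) (f : ℕ → ℝ) : ℝ := (∑ n ∈ S, f n) / S.card

lemma av_ofReal (S : Finset ℕ) (f : ℕ → ℝ) : av S (fun n => (f n : ℂ)) = ((ra S f : ℝ) : ℂ) := by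
  unfold av ra; push_cast; rfl

lemma ra_mono {S : Finset ℕ} {f g : ℕ → ℝ} (h : ∀ n, f n ≤ g n) : ra S f ≤ ra S g := by
  unfold ra
  exact div_le_div_of_nonneg_right (Finset.sum_le_sum (fun n _ => h n)) (Nat.cast_nonneg _)

lemma norm_av_le (S : Finset ℕ) (f : ℕ → ℂ) : ‖av S f‖ ≤ ra S (fun n => ‖f n‖) := by
  unfold av ra
  rw [norm_div, Complex.norm_natCast]
  exact div_le_div_of_nonneg_right (norm_sum_le _ _) (Nat.cast_nonneg _)

lemma av_sub (S : Finset ℕ) (f g : ℕ → ℂ) : av S f - av S g = av S (f - g) := by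
  unfold av
  simp only [Pi.sub_apply, Finset.sum_sub_distrib, sub_div]

/-- means of real sequences -/
lemma mn_re_mono {f g : ℕ → ℝ} {A B : ℝ} (hf : HasMean (fun n => (f n : ℂ)) (A:ℂ)) (hg : HasMean (fun n => (g n : ℂ)) (B:ℂ))
    (h : ∀ n, f n ≤ g n) : A ≤ B := by
  have h1 : Tendsto (rm f) atTop (𝓝 A) := by
    have := (Complex.continuous_re.tendsto _).comp hf
    rw [Complex.ofReal_re] at this
    refine this.congr (fun N => ?_)
    rw [Function.comp, cm_ofReal, Complex.ofReal_re]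
  have h2 : Tendsto (rm g) atTop (𝓝 B) := by
    have := (Complex.continuous_re.tendsto _).comp hg
    rw [Complex.ofReal_re] at this
    refine this.congr (fun N => ?_)
    rw [Function.comp, cm_ofReal, Complex.ofReal_re]
  exact le_of_tendsto_of_tendsto' h1 h2 (fun N => rm_mono h N)

/-- the mean of a real sequence is real -/
lemma mn_real {f : ℕ → ℝ} {L : ℂ} (hf : HasMean (fun n => (f n : ℂ)) L) : L = (L.re : ℂ) := by
  have h1 : Tendsto (fun N => (cm (fun n => (f n : ℂ)) N).im) atTop (𝓝 L.im) := (Complex.continuous_im.tendsto _).comp hf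
  have h2 : L.im = 0 := by
    apply tendsto_nhds_unique h1
    have : (fun N => (cm (fun n => (f n : ℂ)) N).im) = fun _ => (0:ℝ) := by
      funext N; rw [cm_ofReal, Complex.ofReal_im]
    rw [this]; exact tendsto_const_nhds
  exact Complex.ext rfl (by rw [h2]; simp)

lemma pow_le_cosh {K : ℕ} (x : ℝ) : x ^ (2*K) / ((2*K).factorial : ℝ) ≤ Real.cosh x := by
  have h := Real.hasSum_cosh x
  have h2 := h.summable.le_tsum K (fun i _ => by rw [pow_mul]; positivity)
  rw [h.tsum_eq] at h2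
  exact h2

/-- the exponentials -/
noncomputable def Ez (b : ℕ → ℂ) (z : ℂ) (T : Finset ℕ) : ℕ → ℂ := fun n => Complex.exp (z * ((Zc b T n : ℝ) : ℂ))

lemma Ez_UC {b : ℕ → ℂ} {T : Finset ℕ} {Γ : AddSubgroup ℝ} (h : ∀ m ∈ T, √(m:ℝ) ∈ Γ) (z : ℂ) : Ez b z T ∈ UC Γ :=
  UC_exp (Zc_TG h) z

lemma Ez_top (b : ℕ → ℂ) (z : ℂ) (T : Finset ℕ) : Ez b z T ∈ UC ⊤ := UC_exp (Zc_top b T) z

/-- **transfer of the characteristic function** -/
theorem exp_transfer {S : Finset ℕ} (hS : S.Nonempty) {b : ℕ → ℂ} {T : Finset ℕ} {δ : ℝ} (hδ : 0 ≤ δ) (K : ℕ)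
    (h : ∀ k : ℕ, k ≤ 2 * K → Blind S (Th (T : Set ℕ) k) δ) {G : ℝ} (hG1 : (mn (Ez b 2 T)).re ≤ G) (hG2 : (mn (Ez b (-2) T)).re ≤ G) :
    ‖av S (Ez b Complex.I T) - mn (Ez b Complex.I T)‖ ≤ δ * ((2 * K + 1) * (1 + sB b T) ^ (2 * K)) + 2 * (G / 4 ^ K) := by
  set Z : ℕ → ℝ := fun n => Zc b T n with hZ
  set ZC : ℕ → ℂ := fun n => ((Zc b T n : ℝ) : ℂ) with hZC
  have hT : ZC ∈ Trig := TG_le_Trig ⊤ (Zc_top b T)
  set B := sB b T with hB
  have hB0 : 0 ≤ B := sB_nonneg b T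
  -- the polynomial part
  set q : ℕ → ℂ := ∑ k ∈ Finset.range (2*K), (Complex.I ^ k / (k.factorial : ℂ)) • ZC ^ k with hq
  have hqn : ∀ n, q n = ∑ k ∈ Finset.range (2*K), ((Z n : ℂ) * Complex.I) ^ k / (k.factorial : ℂ) := by
    intro n
    rw [hq, Finset.sum_apply]
    apply Finset.sum_congr rfl
    intro k _
    simp only [Pi.smul_apply, Pi.pow_apply, smul_eq_mul, hZC, hZ]
    rw [mul_pow]; ring
  have hqm : HasMean q (∑ k ∈ Finset.range (2*K), (Complex.I ^ k / (k.factorial : ℂ)) * mn (ZC ^ k)) :=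
    HasMean.sum _ _ _ (fun k _ => (Trig_hasMean (Trig_pow hT k)).smul _)
  have hrem : ∀ n, ‖Ez b Complex.I T n - q n‖ ≤ Z n ^ (2*K) / ((2*K).factorial : ℝ) := by
    intro n
    have h1 := rem_le (2*K) (Z n)
    unfold rem at h1
    rw [hqn]
    have e : Ez b Complex.I T n = Complex.exp ((Z n : ℂ) * Complex.I) := by
      unfold Ez; rw [mul_comm]
    rw [e]
    refine h1.trans (le_of_eq ?_)
    rw [pow_mul, sq_abs, pow_mul]
  -- the even power
  set V : ℂ := mn (ZC ^ (2*K)) with hV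
  have hVm : HasMean (fun n => ((Z n ^ (2*K) : ℝ) : ℂ)) V := by
    have := Trig_hasMean (Trig_pow hT (2*K))
    have e : (fun n => ((Z n ^ (2*K) : ℝ) : ℂ)) = ZC ^ (2*K) := by
      funext n; simp [hZC, hZ]
    rw [e]; exact this
  have hVr := mn_real hVm
  have hcosh : V.re / ((2*K).factorial : ℝ) ≤ G / 4 ^ K := by
    have g1 := UC_hasMean (Ez_top b 2 T)
    have g2 := UC_hasMean (Ez_top b (-2) T)
    have g3 := (g1.add g2).smul ((1/2 : ℝ) / 4 ^ K : ℝ)
    have e1 : (((1/2 : ℝ) / 4 ^ K : ℝ) : ℂ) • (Ez b 2 T + Ez b (-2) T) = fun n => ((Real.cosh (2 * Z n) / 4 ^ K : ℝ) : ℂ) := by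
      funext n
      simp only [Pi.smul_apply, Pi.add_apply, smul_eq_mul, Ez, hZ]
      rw [Real.cosh_eq]
      push_cast
      rw [show -(2 * ((Zc b T n : ℝ) : ℂ)) = -2 * ((Zc b T n : ℝ) : ℂ) by ring]
      ring
    rw [e1] at g3
    have g4 := mn_real g3
    rw [g4] at g3
    have hfac : (0:ℝ) < ((2*K).factorial : ℝ) := by positivity
    have g5 : HasMean (fun n => ((Z n ^ (2*K) / ((2*K).factorial : ℝ) : ℝ) : ℂ)) ((V.re / ((2*K).factorial : ℝ) : ℝ) : ℂ) := by
      have := hVm.smul ((1 / ((2*K).factorial : ℝ) : ℝ) : ℂ)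
      rw [hVr] at this
      have e2 : (((1 / ((2*K).factorial : ℝ) : ℝ) : ℂ) • fun n => ((Z n ^ (2*K) : ℝ) : ℂ)) =
          (fun n => ((Z n ^ (2*K) / ((2*K).factorial : ℝ) : ℝ) : ℂ)) := by
        funext n
        simp only [Pi.smul_apply, smul_eq_mul]
        push_cast; ring
      rw [e2] at this
      have e3 : (((1 / ((2*K).factorial : ℝ) : ℝ) : ℂ) * (V.re : ℂ)) = ((V.re / ((2*K).factorial : ℝ) : ℝ) : ℂ) := by
        push_cast; ring
      rw [e3] at this
      exact this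
    have g6 := mn_re_mono g5 g3 (fun n => by
      have h1 := pow_le_cosh (K := K) (2 * Z n)
      have e3 : (2 * Z n) ^ (2*K) = 4 ^ K * Z n ^ (2*K) := by
        rw [mul_pow, pow_mul (2:ℝ) 2 K]; norm_num
      rw [e3] at h1
      rw [div_le_div_iff₀ hfac (by positivity)]
      rw [div_le_iff₀ hfac] at h1
      linarith)
    refine g6.trans ?_
    have e4 : ((((1/2 : ℝ) / 4 ^ K : ℝ) : ℂ) * (mn (Ez b 2 T) + mn (Ez b (-2) T))).re =
        (1/2 : ℝ) / 4 ^ K * ((mn (Ez b 2 T)).re + (mn (Ez b (-2) T)).re) := by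
      rw [Complex.re_ofReal_mul, Complex.add_re]
    rw [e4]
    rw [div_mul_eq_mul_div]
    apply div_le_div_of_nonneg_right _ (by positivity)
    linarith
  -- the three errors
  have hfac : (0:ℝ) < ((2*K).factorial : ℝ) := by positivity
  have a1 : ‖av S (Ez b Complex.I T) - av S q‖ ≤ V.re / ((2*K).factorial : ℝ) + δ * B ^ (2*K) := by
    rw [av_sub]
    refine (norm_av_le _ _).trans ?_
    have h1 : ra S (fun n => ‖(Ez b Complex.I T - q) n‖) ≤ ra S (fun n => Z n ^ (2*K) / ((2*K).factorial : ℝ)) :=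
      ra_mono (fun n => hrem n)
    refine h1.trans ?_
    have h2 : ra S (fun n => Z n ^ (2*K) / ((2*K).factorial : ℝ)) = ra S (fun n => Z n ^ (2*K)) / ((2*K).factorial : ℝ) := by
      unfold ra; rw [← Finset.sum_div]; ring
    rw [h2]
    have h3 := pow_transfer (b := b) hS hδ (h (2*K) le_rfl)
    have e : ((fun n : ℕ => ((Zc b T n : ℝ) : ℂ)) ^ (2*K)) = (fun n => ((Z n ^ (2*K) : ℝ) : ℂ)) := by
      funext n; simp [hZ]
    rw [e, av_ofReal, hVm.mn_eq, hVr, ← Complex.ofReal_sub, Complex.norm_real, Real.norm_eq_abs] at h3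
    have h4 := (abs_le.mp h3).2
    have h5 : ra S (fun n => Z n ^ (2*K)) ≤ V.re + δ * B ^ (2*K) := by linarith
    have hf1 : (1:ℝ) ≤ ((2*K).factorial : ℝ) := by exact_mod_cast Nat.one_le_iff_ne_zero.mpr (Nat.factorial_ne_zero _)
    calc ra S (fun n => Z n ^ (2*K)) / ((2*K).factorial : ℝ) ≤ (V.re + δ * B ^ (2*K)) / ((2*K).factorial : ℝ) :=
          div_le_div_of_nonneg_right h5 hfac.le
      _ = V.re / ((2*K).factorial : ℝ) + δ * B ^ (2*K) / ((2*K).factorial : ℝ) := add_div _ _ _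
      _ ≤ _ := by
          gcongr
          exact div_le_self (by positivity) hf1
  have a2 : ‖av S q - mn q‖ ≤ δ * (2 * K * (1 + B) ^ (2*K)) := by
    rw [hqm.mn_eq, hq, av_sum, ← Finset.sum_sub_distrib]
    refine (norm_sum_le _ _).trans ?_
    calc ∑ k ∈ Finset.range (2*K), ‖av S ((Complex.I ^ k / (k.factorial : ℂ)) • ZC ^ k) - (Complex.I ^ k / (k.factorial : ℂ)) * mn (ZC ^ k)‖
        ≤ ∑ k ∈ Finset.range (2*K), δ * (1 + B) ^ (2*K) := by
          apply Finset.sum_le_sum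
          intro k hk
          rw [Finset.mem_range] at hk
          rw [av_smul, ← mul_sub, norm_mul]
          have h1 : ‖Complex.I ^ k / (k.factorial : ℂ)‖ ≤ 1 := by
            rw [norm_div, norm_pow, Complex.norm_I, one_pow, Complex.norm_natCast]
            rw [div_le_one (by positivity)]
            exact_mod_cast Nat.one_le_iff_ne_zero.mpr (Nat.factorial_ne_zero _)
          have h2 := pow_transfer (b := b) hS hδ (h k (by omega))
          have h3 : B ^ k ≤ (1 + B) ^ (2*K) := by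
            calc B ^ k ≤ (1 + B) ^ k := by gcongr; linarith
              _ ≤ (1 + B) ^ (2*K) := pow_le_pow_right₀ (by linarith) (by omega)
          calc ‖Complex.I ^ k / (k.factorial : ℂ)‖ * ‖av S (ZC ^ k) - mn (ZC ^ k)‖ ≤ 1 * (δ * B ^ k) :=
                mul_le_mul h1 h2 (norm_nonneg _) (by norm_num)
            _ = δ * B ^ k := one_mul _
            _ ≤ _ := mul_le_mul_of_nonneg_left h3 hδ
      _ = _ := by rw [Finset.sum_const, Finset.card_range, nsmul_eq_mul]; push_cast; ring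
  have a3 : ‖mn q - mn (Ez b Complex.I T)‖ ≤ V.re / ((2*K).factorial : ℝ) := by
    have hx : ∀ ε : ℝ, 0 < ε → ‖mn q - mn (Ez b Complex.I T)‖ ≤ V.re / ((2*K).factorial : ℝ) + ε := by
      intro ε hε
      apply mean_close (Trig_hasMean (by
        rw [hq]; exact Submodule.sum_mem _ (fun k _ => Submodule.smul_mem _ _ (Trig_pow hT k)))) (UC_hasMean (Ez_top b Complex.I T))
      have g5 : Tendsto (rm (fun n => Z n ^ (2*K) / ((2*K).factorial : ℝ))) atTop (𝓝 (V.re / ((2*K).factorial : ℝ))) := by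
        have g6 : Tendsto (rm (fun n => Z n ^ (2*K))) atTop (𝓝 V.re) := by
          have := (Complex.continuous_re.tendsto _).comp hVm
          refine this.congr (fun N => ?_)
          rw [Function.comp, cm_ofReal, Complex.ofReal_re]
        have g7 := g6.div_const ((2*K).factorial : ℝ)
        refine g7.congr (fun N => ?_)
        unfold rm; rw [← Finset.sum_div]; ring
      have g8 := g5.eventually (gt_mem_nhds (show V.re / ((2*K).factorial : ℝ) < V.re / ((2*K).factorial : ℝ) + ε by linarith))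
      rw [eventually_atTop] at g8
      obtain ⟨N0, hN0⟩ := g8
      refine ⟨N0, fun N hN => ?_⟩
      refine (norm_cm_sub_le _ _ N).trans ?_
      refine (rm_mono (fun n => ?_) N).trans (hN0 N hN).le
      rw [norm_sub_rev]; exact hrem n
    exact le_of_forall_pos_le_add hx
  have hBp : B ^ (2*K) ≤ (1 + B) ^ (2*K) := by gcongr; linarith
  calc ‖av S (Ez b Complex.I T) - mn (Ez b Complex.I T)‖
      = ‖(av S (Ez b Complex.I T) - av S q) + (av S q - mn q) + (mn q - mn (Ez b Complex.I T))‖ := by congr 1; ring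
    _ ≤ (V.re / ((2*K).factorial : ℝ) + δ * B ^ (2*K)) + δ * (2 * K * (1 + B) ^ (2*K)) + V.re / ((2*K).factorial : ℝ) :=
        (norm_add_le _ _).trans (add_le_add ((norm_add_le _ _).trans (add_le_add a1 a2)) a3)
    _ ≤ (G / 4 ^ K + δ * (1 + B) ^ (2*K)) + δ * (2 * K * (1 + B) ^ (2*K)) + G / 4 ^ K := by gcongr
    _ = _ := by ring

end Pool.Agent.W2helper20.GC
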