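import Mathlib
import Pool.Agent.H383.Exc
import Pool.Agent.H383.Blk
import Pool.Agent.W2helper20.GC.Poly

/-!
The model: independence of the blocks `√(s t²)`, and the central limit theorem for many small blocks.
-/

open Filter Topology
open Pool.Agent.H383.AP Pool.Agent.H383.Gauss

namespace Pool.Agent.W2helper20.GC

/-- the variance -/
noncomputable def vb (b : ℕ → ℂ) (T : Finset ℕ) : ℝ := (1/2) * ∑ m ∈ T, ‖b m‖^2

lemma vb_nonneg (b : ℕ → ℂ) (T : Finset ℕ) : 0 ≤ vb b T := by unfold vb; positivity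

lemma vb_le (b : ℕ → ℂ) (T : Finset ℕ) : vb b T ≤ (sB b T)^2 / 2 := by
  have h1 : ∑ m ∈ T, ‖b m‖^2 ≤ (sB b T)^2 := by
    unfold sB
    have : ∀ m ∈ T, ‖b m‖^2 ≤ ‖b m‖ * ∑ m ∈ T, ‖b m‖ := by
      intro m hm
      rw [sq]
      apply mul_le_mul_of_nonneg_left _ (norm_nonneg _)
      exact Finset.single_le_sum (f := fun m => ‖b m‖) (fun i _ => norm_nonneg _) hm
    refine (Finset.sum_le_sum this).trans ?_
    rw [← Finset.sum_mul, sq]
  unfold vb
  linarith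

/-- only the class of `1` is resonant -/
lemma good_one : GoodS 1 {1} := by
  intro s hs hs1 c y hy hk
  obtain ⟨k, hk⟩ := hk
  have hs1' : s ≠ 1 := by simpa using hs1
  have h1 := Gr_span one_pos hs hy
  rw [div_one] at h1
  have h2 : (k:ℝ) ∈ Submodule.span ℚ (bs '' {⟨s, hs⟩}ᶜ) := by
    have e : (k:ℝ) = (k:ℚ) • bs ⟨1, squarefree_one⟩ := by
      unfold bs; rw [Rat.smul_def]; simp
    rw [e]
    apply Submodule.smul_mem
    apply Submodule.subset_span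
    refine ⟨_, ?_, rfl⟩
    intro h
    have : (1:ℕ) = s := congrArg Subtype.val h
    exact hs1' this.symm
  have h3 : (c:ℝ) * √(s:ℝ) ∈ Submodule.span ℚ (bs '' {⟨s, hs⟩}ᶜ) := by
    have e : (c:ℝ) * √(s:ℝ) = (k:ℝ) - y := by rw [← hk]; ring
    rw [e]; exact Submodule.sub_mem _ h2 h1
  by_contra hne
  have h4 := sf_indep.notMem_span_image (s := {⟨s, hs⟩}ᶜ) (x := ⟨s, hs⟩) (by simp)
  apply h4
  have hc : ((c : ℚ)) ≠ 0 := by exact_mod_cast hne
  have e : √((((⟨s, hs⟩ : {s : ℕ // Squarefree s}) : ℕ)):ℝ) = ((c : ℚ)⁻¹) • ((c:ℝ) * √(s:ℝ)) := by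
    rw [Rat.smul_def]
    have : (c : ℝ) ≠ 0 := by exact_mod_cast hne
    push_cast
    field_simp
  rw [e]
  exact Submodule.smul_mem _ _ h3

lemma nonres' {s : ℕ} (hs : Squarefree s) (hs1 : s ≠ 1) {c : ℤ} (hc : c ≠ 0) : ¬ ∃ k : ℤ, c * √(s:ℝ) = k := by
  rintro ⟨k, hk⟩
  exact hc (good_one s hs (by simpa using hs1) c 0 (Gr 1 s).zero_mem ⟨k, by rw [add_zero, one_mul]; exact hk⟩)

lemma mc_zero {θ : ℝ} (h : ¬ ∃ k : ℤ, θ = k) : mc θ = 0 := by
  unfold mc; rw [if_neg h]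

lemma inC_pos {s t m : ℕ} (hm : 1 ≤ m) (h : m = s * t^2) : 0 < t ∧ √(m:ℝ) = t * √(s:ℝ) := by
  constructor
  · rcases Nat.eq_zero_or_pos t with h' | h'
    · rw [h'] at h; simp at h; omega
    · exact h'
  · rw [h]; push_cast
    rw [Real.sqrt_mul (Nat.cast_nonneg s), Real.sqrt_sq (Nat.cast_nonneg t)]; ring

lemma Fc_mean (b : ℕ → ℂ) {s : ℕ} (hs : Squarefree s) (hs1 : s ≠ 1) {m : ℕ} (hm : 1 ≤ m) (hc : InC s m) :
    HasMean (Fc b m) 0 := by
  obtain ⟨t, ht⟩ := hc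
  obtain ⟨ht0, e⟩ := inC_pos hm ht
  have ht0' : (t:ℤ) ≠ 0 := by exact_mod_cast ht0.ne'
  have h1 := nonres' hs hs1 ht0'
  have h2 := nonres' hs hs1 (neg_ne_zero.mpr ht0')
  have h3 := ((chr_mean (√(m:ℝ))).smul (b m / 2)).add
      ((chr_mean (-√(m:ℝ))).smul ((starRingEnd ℂ) (b m) / 2))
  rw [mc_zero (θ := √(m:ℝ)) (by rw [e]; exact_mod_cast h1),
    mc_zero (θ := -√(m:ℝ)) (by
      rw [e]
      have : -((t:ℝ) * √(s:ℝ)) = ((-(t:ℤ) : ℤ) : ℝ) * √(s:ℝ) := by push_cast; ring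
      rw [this]; exact h2)] at h3
  unfold Fc
  simpa using h3

lemma Fc_mul_mean (b : ℕ → ℂ) {s : ℕ} (hs : Squarefree s) (hs1 : s ≠ 1) {m m' : ℕ} (hm : 1 ≤ m) (hc : InC s m)
    (hm' : 1 ≤ m') (hc' : InC s m') :
    HasMean (Fc b m * Fc b m') (if m = m' then (((1/2) * ‖b m‖^2 : ℝ) : ℂ) else 0) := by
  obtain ⟨t, ht⟩ := hc
  obtain ⟨t', ht'⟩ := hc'
  obtain ⟨ht0, e⟩ := inC_pos hm ht
  obtain ⟨ht0', e'⟩ := inC_pos hm' ht'
  set A := b m with hA
  set A' := b m' with hA'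
  have hexp : Fc b m * Fc b m' =
      ((A * A' / 4) • chr (√(m:ℝ) + √(m':ℝ)) +
      (A * (starRingEnd ℂ) A' / 4) • chr (√(m:ℝ) + -√(m':ℝ))) +
      (((starRingEnd ℂ) A * A' / 4) • chr (-√(m:ℝ) + √(m':ℝ)) +
      ((starRingEnd ℂ) A * (starRingEnd ℂ) A' / 4) • chr (-√(m:ℝ) + -√(m':ℝ))) := by
    unfold Fc
    rw [← chr_mul, ← chr_mul, ← chr_mul, ← chr_mul]
    funext n
    simp only [Pi.add_apply, Pi.mul_apply, Pi.smul_apply, smul_eq_mul]
    ring
  rw [hexp]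
  have c1 : mc (√(m:ℝ) + √(m':ℝ)) = 0 := by
    apply mc_zero
    have h1 := nonres' hs hs1 (c := (t:ℤ) + t') (by positivity)
    rw [e, e']
    have : (t:ℝ) * √(s:ℝ) + t' * √(s:ℝ) = (((t:ℤ) + t' : ℤ) : ℝ) * √(s:ℝ) := by push_cast; ring
    rw [this]; exact h1
  have c4 : mc (-√(m:ℝ) + -√(m':ℝ)) = 0 := by
    apply mc_zero
    have h1 := nonres' hs hs1 (c := -((t:ℤ) + t')) (by
      rw [neg_ne_zero]; positivity)
    rw [e, e']
    have : -((t:ℝ) * √(s:ℝ)) + -(t' * √(s:ℝ)) = ((-((t:ℤ) + t') : ℤ) : ℝ) * √(s:ℝ) := by push_cast; ring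
    rw [this]; exact h1
  have hlim := ((((chr_mean (√(m:ℝ) + √(m':ℝ))).smul (A * A' / 4)).add
    ((chr_mean (√(m:ℝ) + -√(m':ℝ))).smul (A * (starRingEnd ℂ) A' / 4)))).add
    (((chr_mean (-√(m:ℝ) + √(m':ℝ))).smul ((starRingEnd ℂ) A * A' / 4)).add
    ((chr_mean (-√(m:ℝ) + -√(m':ℝ))).smul ((starRingEnd ℂ) A * (starRingEnd ℂ) A' / 4)))
  rw [c1, c4] at hlim
  by_cases hmm : m = m'
  · subst hmm
    rw [if_pos rfl]
    have c2 : mc (√(m:ℝ) + -√(m:ℝ)) = 1 := by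
      rw [add_neg_cancel, ← mn_chr, chr_zero, mn_one]
    have c3 : mc (-√(m:ℝ) + √(m:ℝ)) = 1 := by
      rw [neg_add_cancel, ← mn_chr, chr_zero, mn_one]
    rw [c2, c3] at hlim
    have h5 : A * (starRingEnd ℂ) A = ((‖b m‖^2 : ℝ) : ℂ) := by
      rw [Complex.mul_conj, Complex.normSq_eq_norm_sq, hA]
    have h6 : A * A' / 4 * 0 + A * (starRingEnd ℂ) A' / 4 * 1 +
        ((starRingEnd ℂ) A * A' / 4 * 1 + (starRingEnd ℂ) A * (starRingEnd ℂ) A' / 4 * 0) =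
        (((1/2) * ‖b m‖^2 : ℝ) : ℂ) := by
      have : A' = A := rfl
      rw [this]
      have e1 : (starRingEnd ℂ) A * A = A * (starRingEnd ℂ) A := mul_comm _ _
      rw [mul_zero, mul_zero, zero_add, add_zero, mul_one, mul_one, e1, h5]
      push_cast; ring
    rw [h6] at hlim
    exact hlim
  · rw [if_neg hmm]
    have htt : t ≠ t' := by
      rintro rfl
      exact hmm (ht.trans ht'.symm)
    have c2 : mc (√(m:ℝ) + -√(m':ℝ)) = 0 := by
      apply mc_zero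
      have h1 := nonres' hs hs1 (c := (t:ℤ) - t') (by
        intro h; apply htt; omega)
      rw [e, e']
      have : (t:ℝ) * √(s:ℝ) + -(t' * √(s:ℝ)) = (((t:ℤ) - t' : ℤ) : ℝ) * √(s:ℝ) := by push_cast; ring
      rw [this]; exact h1
    have c3 : mc (-√(m:ℝ) + √(m':ℝ)) = 0 := by
      apply mc_zero
      have h1 := nonres' hs hs1 (c := (t':ℤ) - t) (by
        intro h; apply htt; omega)
      rw [e, e']
      have : -((t:ℝ) * √(s:ℝ)) + t' * √(s:ℝ) = (((t':ℤ) - t : ℤ) : ℝ) * √(s:ℝ) := by push_cast; ring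
      rw [this]; exact h1
    rw [c2, c3] at hlim
    simpa using hlim

variable {b : ℕ → ℂ} {T : Finset ℕ} {s : ℕ}

lemma Zc_mean (hs : Squarefree s) (hs1 : s ≠ 1) (hT : ∀ m ∈ T, 1 ≤ m ∧ InC s m) :
    HasMean (fun n : ℕ => ((Zc b T n : ℝ) : ℂ)) 0 := by
  rw [Zc_trig]
  have h := HasMean.sum T (fun m => Fc b m) (fun _ => 0)
    (fun m hm => Fc_mean b hs hs1 (hT m hm).1 (hT m hm).2)
  rw [Finset.sum_const_zero] at h
  exact h

lemma Zc_sq_mean (hs : Squarefree s) (hs1 : s ≠ 1) (hT : ∀ m ∈ T, 1 ≤ m ∧ InC s m) :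
    HasMean (fun n : ℕ => (((Zc b T n)^2 : ℝ) : ℂ)) ((vb b T : ℝ) : ℂ) := by
  have e : (fun n : ℕ => (((Zc b T n)^2 : ℝ) : ℂ)) = ∑ m ∈ T, ∑ m' ∈ T, Fc b m * Fc b m' := by
    rw [← Finset.sum_mul_sum]
    have h1 := Zc_trig b T
    funext n
    have h2 := congrFun h1 n
    rw [Pi.mul_apply, sq]
    push_cast
    rw [h2]
  rw [e]
  have h := HasMean.sum T (fun m => ∑ m' ∈ T, Fc b m * Fc b m')
    (fun m => ∑ m' ∈ T, if m = m' then (((1/2) * ‖b m‖^2 : ℝ) : ℂ) else 0)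
    (fun m hm => HasMean.sum T _ _ (fun m' hm' => Fc_mul_mean b hs hs1 (hT m hm).1 (hT m hm).2 (hT m' hm').1 (hT m' hm').2))
  have e2 : ∑ m ∈ T, ∑ m' ∈ T, (if m = m' then (((1/2) * ‖b m‖^2 : ℝ) : ℂ) else 0) = ((vb b T : ℝ) : ℂ) := by
    unfold vb
    rw [Finset.mul_sum]
    push_cast
    apply Finset.sum_congr rfl
    intro m hm
    rw [Finset.sum_ite_eq, if_pos hm]
  rw [e2] at h
  exact h

lemma rm_of_mean {f : ℕ → ℝ} {A : ℝ} (h : HasMean (fun n => (f n : ℂ)) (A : ℂ)) : Tendsto (rm f) atTop (𝓝 A) := by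
  have := (Complex.continuous_re.tendsto _).comp h
  rw [Complex.ofReal_re] at this
  refine this.congr (fun N => ?_)
  rw [Function.comp, cm_ofReal, Complex.ofReal_re]

lemma mn_close_of {f g : ℕ → ℂ} {L : ℂ} (hf : f ∈ UC ⊤) (hg : HasMean g L) {c : ℝ} {h : ℕ → ℝ} {A : ℝ}
    (hh : HasMean (fun n => (h n : ℂ)) (A : ℂ)) (hpt : ∀ n, ‖f n - g n‖ ≤ c * h n) : ‖mn f - L‖ ≤ c * A := by
  have hx : ∀ ε : ℝ, 0 < ε → ‖mn f - L‖ ≤ c * A + ε := by
    intro ε hε
    apply mean_close (UC_hasMean hf) hg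
    have h1 := (rm_of_mean hh).const_mul c
    have h2 := h1.eventually (gt_mem_nhds (show c * A < c * A + ε by linarith))
    rw [eventually_atTop] at h2
    obtain ⟨N0, hN0⟩ := h2
    refine ⟨N0, fun N hN => ?_⟩
    refine (norm_cm_sub_le _ _ N).trans ?_
    refine (rm_mono hpt N).trans ?_
    have e : rm (fun n : ℕ => c * h n) N = c * rm h N := rm_mul _ _ _
    rw [e]
    exact (hN0 N hN).le
  exact le_of_forall_pos_le_add hx

/-- one block, characteristic function -/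
theorem blk1 (hs : Squarefree s) (hs1 : s ≠ 1) (hT : ∀ m ∈ T, 1 ≤ m ∧ InC s m) {η : ℝ} (hη : sB b T ≤ η) (hη1 : η ≤ 1) :
    ‖mn (Ez b Complex.I T) - ((Real.exp (-(vb b T / 2)) : ℝ) : ℂ)‖ ≤ η * vb b T := by
  set V := vb b T with hV
  have hV0 : 0 ≤ V := vb_nonneg b T
  have hη0 : 0 ≤ η := (sB_nonneg b T).trans hη
  set g : ℕ → ℂ := fun n => 1 + Complex.I * ((Zc b T n : ℝ) : ℂ) + (-(1/2:ℂ)) * (((Zc b T n)^2 : ℝ) : ℂ) with hg
  have hgm : HasMean g ((1 - V / 2 : ℝ) : ℂ) := by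
    have h1 := ((hasMean_const (1:ℂ)).add ((Zc_mean (b := b) hs hs1 hT).smul (Complex.I))).add
      ((Zc_sq_mean (b := b) hs hs1 hT).smul (-(1/2:ℂ)))
    have e : (1:ℂ) + Complex.I * 0 + -(1/2:ℂ) * ((vb b T : ℝ) : ℂ) = ((1 - V / 2 : ℝ) : ℂ) := by
      push_cast; ring
    rw [e] at h1
    exact h1
  have hpt : ∀ n, ‖Ez b Complex.I T n - g n‖ ≤ (η / 6) * (Zc b T n)^2 := by
    intro n
    set y := Zc b T n with hy
    have hy1 : |y| ≤ η := (abs_Zc_le b T n).trans hη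
    have h1 := rem_le 3 y
    have e : Ez b Complex.I T n - g n = rem 3 y := by
      unfold Ez rem
      rw [hg, Finset.sum_range_succ, Finset.sum_range_succ, Finset.sum_range_one]
      simp only [pow_zero, pow_one, Nat.factorial, Nat.cast_one, div_one, ← hy]
      rw [mul_comm Complex.I (y:ℂ)]
      have hI : Complex.I ^ 2 = -1 := Complex.I_sq
      push_cast
      linear_combination ((y:ℂ)^2 / 2) * hI
    rw [e]
    refine h1.trans ?_
    have h3 : ((3:ℕ).factorial : ℝ) = 6 := by norm_num [Nat.factorial]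
    rw [h3]
    have h4 : |y|^3 ≤ η * y^2 := by
      calc |y|^3 = |y| * y^2 := by rw [pow_succ, sq_abs]; ring
        _ ≤ η * y^2 := by gcongr
    linarith
  have h1 := mn_close_of (Ez_top b Complex.I T) hgm (Zc_sq_mean (b := b) hs hs1 hT) hpt
  have h2 : |(1 - V / 2) - Real.exp (-(V / 2))| ≤ (V/2)^2 := by
    have hV1 : V ≤ 1 := by
      have := vb_le b T
      have h0 := sB_nonneg b T
      nlinarith
    have := Real.abs_exp_sub_one_sub_id_le (x := -(V/2)) (by rw [abs_neg, abs_of_nonneg (by linarith)]; linarith)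
    rw [abs_sub_comm] at this
    rw [abs_sub_comm]
    have e : Real.exp (-(V/2)) - (1 - V/2) = Real.exp (-(V/2)) - 1 - -(V/2) := by ring
    rw [e, abs_sub_comm]
    refine this.trans (le_of_eq ?_)
    ring
  have h3 : V^2 ≤ η * V / 2 := by
    have h4 := vb_le b T
    have h0 := sB_nonneg b T
    have h5 : V ≤ η / 2 := by nlinarith
    nlinarith
  calc ‖mn (Ez b Complex.I T) - ((Real.exp (-(V / 2)) : ℝ) : ℂ)‖
      = ‖(mn (Ez b Complex.I T) - ((1 - V / 2 : ℝ) : ℂ)) + (((1 - V / 2) - Real.exp (-(V / 2)) : ℝ) : ℂ)‖ := by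
        congr 1; push_cast; ring
    _ ≤ (η / 6) * V + (V/2)^2 := by
        refine (norm_add_le _ _).trans (add_le_add h1 ?_)
        rw [Complex.norm_real, Real.norm_eq_abs]; exact h2
    _ ≤ _ := by nlinarith

/-- one block, moment generating function -/
theorem blk2 (hs : Squarefree s) (hs1 : s ≠ 1) (hT : ∀ m ∈ T, 1 ≤ m ∧ InC s m) {l : ℝ} (hl : |l| * sB b T ≤ 1) :
    ‖mn (Ez b (l:ℂ) T)‖ ≤ Real.exp (l^2 * vb b T) := by
  set g : ℕ → ℂ := fun n => 1 + (l:ℂ) * ((Zc b T n : ℝ) : ℂ) with hg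
  have hgm : HasMean g 1 := by
    have h1 := (hasMean_const (1:ℂ)).add ((Zc_mean (b := b) hs hs1 hT).smul (l:ℂ))
    rw [mul_zero, add_zero] at h1
    exact h1
  have hpt : ∀ n, ‖Ez b (l:ℂ) T n - g n‖ ≤ l^2 * (Zc b T n)^2 := by
    intro n
    set y := Zc b T n with hy
    have hx1 : |l * y| ≤ 1 := by
      rw [abs_mul]
      exact (mul_le_mul_of_nonneg_left (abs_Zc_le b T n) (abs_nonneg _)).trans hl
    have h2 := Real.abs_exp_sub_one_sub_id_le hx1
    have e : Ez b (l:ℂ) T n - g n = ((Real.exp (l * y) - 1 - l * y : ℝ) : ℂ) := by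
      unfold Ez
      rw [hg]
      simp only [← hy]
      push_cast
      ring
    rw [e, Complex.norm_real, Real.norm_eq_abs, ← mul_pow]
    exact h2
  have h1 := mn_close_of (Ez_top b (l:ℂ) T) hgm (Zc_sq_mean (b := b) hs hs1 hT) hpt
  calc ‖mn (Ez b (l:ℂ) T)‖ = ‖(mn (Ez b (l:ℂ) T) - 1) + 1‖ := by rw [sub_add_cancel]
    _ ≤ l^2 * vb b T + 1 := by
        refine (norm_add_le _ _).trans (add_le_add h1 (by simp))
    _ ≤ _ := Real.add_one_le_exp _

open Classical in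
lemma Ez_split (z : ℂ) (T : Finset ℕ) (p : ℕ → Prop) :
    Ez b z T = Ez b z (T.filter p) * Ez b z (T.filter (fun m => ¬ p m)) := by
  funext n
  rw [Pi.mul_apply]
  unfold Ez
  rw [← Complex.exp_add, ← mul_add, ← Complex.ofReal_add]
  congr 3
  unfold Zc
  rw [← Complex.add_re, Finset.sum_filter_add_sum_filter_not]

open Classical in
theorem prod_form (z : ℂ) {T : Finset ℕ} (hT : ∀ m ∈ T, 1 ≤ m)
    (Q : Finset ℕ) (hQ : ∀ s ∈ Q, Squarefree s ∧ s ≠ 1) :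
    mn (Ez b z T) = (∏ s ∈ Q, mn (Ez b z (T.filter (InC s)))) *
      mn (Ez b z (T.filter (fun m => ∀ s ∈ Q, ¬ InC s m))) := by
  induction Q using Finset.induction_on with
  | empty =>
    have e : T.filter (fun m => ∀ s ∈ (∅ : Finset ℕ), ¬ InC s m) = T := by
      apply Finset.filter_true_of_mem
      intro m _ s hs
      simp at hs
    rw [Finset.prod_empty, one_mul, e]
  | insert s Q hs ih =>
    have ih' := ih (fun s' hs' => hQ s' (Finset.mem_insert_of_mem hs'))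
    obtain ⟨hsf, hs0⟩ := hQ s (Finset.mem_insert_self s Q)
    rw [ih', Finset.prod_insert hs]
    set T' := T.filter (fun m => ∀ s ∈ Q, ¬ InC s m) with hT'
    have e1 : T'.filter (InC s) = T.filter (InC s) := by
      ext m
      rw [Finset.mem_filter, hT', Finset.mem_filter, Finset.mem_filter]
      constructor
      · rintro ⟨⟨h1, -⟩, h2⟩; exact ⟨h1, h2⟩
      · rintro ⟨h1, h2⟩
        refine ⟨⟨h1, fun s' hs' hc => ?_⟩, h2⟩
        have := Pool.Agent.H383.Gen.inC_unique hsf (hQ s' (Finset.mem_insert_of_mem hs')).1 (hT m h1) h2 hc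
        exact hs (this ▸ hs')
    have e2 : T'.filter (fun m => ¬ InC s m) = T.filter (fun m => ∀ s' ∈ insert s Q, ¬ InC s' m) := by
      ext m
      rw [Finset.mem_filter, hT', Finset.mem_filter, Finset.mem_filter]
      constructor
      · rintro ⟨⟨h1, h2⟩, h3⟩
        refine ⟨h1, fun s' hs' => ?_⟩
        rw [Finset.mem_insert] at hs'
        rcases hs' with rfl | hs'
        · exact h3
        · exact h2 s' hs'
      · rintro ⟨h1, h2⟩
        exact ⟨⟨h1, fun s' hs' => h2 s' (Finset.mem_insert_of_mem hs')⟩, h2 s (Finset.mem_insert_self s Q)⟩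
    have h1 : mn (Ez b z T') = mn (Ez b z (T.filter (InC s))) *
        mn (Ez b z (T.filter (fun m => ∀ s' ∈ insert s Q, ¬ InC s' m))) := by
      rw [Ez_split z T' (InC s), e1, e2]
      apply mn_mul (ind_of_good good_one hsf (by simpa using hs0))
      · apply Ez_UC
        intro m hm
        have := Pool.Agent.H383.Gen.inC_Gs (α := 1) (Finset.mem_filter.mp hm).2
        rwa [one_mul] at this
      · apply Ez_UC
        intro m hm
        rw [Finset.mem_filter] at hm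
        have := Pool.Agent.H383.Gen.not_inC_Gr (α := 1) (hT m hm.1) (hm.2 s (Finset.mem_insert_self s Q))
        rwa [one_mul] at this
    rw [h1]; ring

/-- squarefree part -/
noncomputable def sf (m : ℕ) : ℕ := (Nat.sq_mul_squarefree m).choose

lemma sf_spec (m : ℕ) : Squarefree (sf m) ∧ InC (sf m) m := by
  obtain ⟨t, h1, h2⟩ := (Nat.sq_mul_squarefree m).choose_spec
  refine ⟨h2, t, ?_⟩
  rw [mul_comm]
  exact h1.symm

lemma sf_ne_one {m : ℕ} (h : ¬ IsSquare m) : sf m ≠ 1 := by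
  intro h1
  obtain ⟨t, ht⟩ := (sf_spec m).2
  apply h
  rw [h1] at ht
  exact ⟨t, by rw [ht]; ring⟩

lemma sf_eq {s m : ℕ} (hs : Squarefree s) (hm : 1 ≤ m) (h : InC s m) : sf m = s :=
  Pool.Agent.H383.Gen.inC_unique (sf_spec m).1 hs hm (sf_spec m).2 h

open Classical in
/-- full product formula -/
lemma prod_all (z : ℂ) {T : Finset ℕ} (hT : ∀ m ∈ T, 1 ≤ m ∧ ¬ IsSquare m) :
    mn (Ez b z T) = ∏ s ∈ T.image sf, mn (Ez b z (T.filter (InC s))) := by
  rw [prod_form z (fun m hm => (hT m hm).1) (T.image sf) (by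
    intro s hs
    rw [Finset.mem_image] at hs
    obtain ⟨m, hm, rfl⟩ := hs
    exact ⟨(sf_spec m).1, sf_ne_one (hT m hm).2⟩)]
  have e : T.filter (fun m => ∀ s ∈ T.image sf, ¬ InC s m) = ∅ := by
    rw [Finset.filter_eq_empty_iff]
    intro m hm h
    exact h (sf m) (Finset.mem_image_of_mem sf hm) (sf_spec m).2
  rw [e]
  have e2 : Ez b z ∅ = 1 := by
    funext n; simp [Ez, Zc]
  rw [e2, mn_one, mul_one]

open Classical in
/-- blocks of classes: splitting -/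
lemma prod_two (z : ℂ) {T0 T1 : Finset ℕ} (h0 : ∀ m ∈ T0, 1 ≤ m) (h1 : ∀ m ∈ T1, 1 ≤ m ∧ ¬ IsSquare m)
    (hd : ∀ m ∈ T0, ∀ m' ∈ T1, sf m ≠ sf m') : mn (Ez b z (T0 ∪ T1)) = mn (Ez b z T0) * mn (Ez b z T1) := by
  have hT : ∀ m ∈ T0 ∪ T1, 1 ≤ m := by
    intro m hm
    rcases Finset.mem_union.mp hm with h | h
    · exact h0 m h
    · exact (h1 m h).1
  rw [prod_form z hT (T1.image sf) (by
    intro s hs
    rw [Finset.mem_image] at hs
    obtain ⟨m, hm, rfl⟩ := hs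
    exact ⟨(sf_spec m).1, sf_ne_one (h1 m hm).2⟩), prod_all z h1, mul_comm]
  congr 1
  · congr 2
    ext m
    rw [Finset.mem_filter, Finset.mem_union]
    constructor
    · rintro ⟨h | h, h2⟩
      · exact h
      · exact absurd (sf_spec m).2 (h2 (sf m) (Finset.mem_image_of_mem sf h))
    · intro h
      refine ⟨Or.inl h, ?_⟩
      intro s hs hc
      rw [Finset.mem_image] at hs
      obtain ⟨m', hm', rfl⟩ := hs
      exact hd m h m' hm' (sf_eq (sf_spec m').1 (h0 m h) hc)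
  · apply Finset.prod_congr rfl
    intro s hs
    rw [Finset.mem_image] at hs
    obtain ⟨m', hm', rfl⟩ := hs
    congr 2
    ext m
    rw [Finset.mem_filter, Finset.mem_filter, Finset.mem_union]
    constructor
    · rintro ⟨h | h, h2⟩
      · exact absurd (sf_eq (sf_spec m').1 (h0 m h) h2) (hd m h m' hm')
      · exact ⟨h, h2⟩
    · rintro ⟨h, h2⟩; exact ⟨Or.inr h, h2⟩

lemma prod_diff {ι : Type*} (Q : Finset ι) (x y : ι → ℂ) (hx : ∀ i ∈ Q, ‖x i‖ ≤ 1) (hy : ∀ i ∈ Q, ‖y i‖ ≤ 1) :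
    ‖∏ i ∈ Q, x i - ∏ i ∈ Q, y i‖ ≤ ∑ i ∈ Q, ‖x i - y i‖ := by
  classical
  induction Q using Finset.induction_on with
  | empty => simp
  | insert a Q ha ih =>
    rw [Finset.prod_insert ha, Finset.prod_insert ha, Finset.sum_insert ha]
    have ih' := ih (fun i hi => hx i (Finset.mem_insert_of_mem hi)) (fun i hi => hy i (Finset.mem_insert_of_mem hi))
    have hp : ‖∏ i ∈ Q, x i‖ ≤ 1 := by
      rw [norm_prod]
      exact Finset.prod_le_one (fun _ _ => norm_nonneg _) (fun i hi => hx i (Finset.mem_insert_of_mem hi))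
    have hya := hy a (Finset.mem_insert_self a Q)
    have e : x a * ∏ i ∈ Q, x i - y a * ∏ i ∈ Q, y i = (x a - y a) * ∏ i ∈ Q, x i + y a * (∏ i ∈ Q, x i - ∏ i ∈ Q, y i) := by ring
    rw [e]
    calc _ ≤ ‖x a - y a‖ * ‖∏ i ∈ Q, x i‖ + ‖y a‖ * ‖∏ i ∈ Q, x i - ∏ i ∈ Q, y i‖ := by
          refine (norm_add_le _ _).trans ?_
          rw [norm_mul, norm_mul]
      _ ≤ ‖x a - y a‖ * 1 + 1 * ‖∏ i ∈ Q, x i - ∏ i ∈ Q, y i‖ := by gcongr
      _ ≤ _ := by linarith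

lemma norm_mn_I_le (b : ℕ → ℂ) (T : Finset ℕ) : ‖mn (Ez b Complex.I T)‖ ≤ 1 := by
  apply mn_norm_le (Ez_top b Complex.I T) zero_le_one
  intro n
  unfold Ez
  rw [mul_comm, Complex.norm_exp_ofReal_mul_I]

open Classical in
lemma vb_sum {T : Finset ℕ} (hT : ∀ m ∈ T, 1 ≤ m) (b : ℕ → ℂ) : ∑ s ∈ T.image sf, vb b (T.filter (InC s)) = vb b T := by
  unfold vb
  rw [← Finset.mul_sum]
  congr 1
  have h : ∀ s ∈ T.image sf, T.filter (InC s) = T.filter (fun m => sf m = s) := by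
    intro s hs
    rw [Finset.mem_image] at hs
    obtain ⟨m', hm', rfl⟩ := hs
    ext m
    rw [Finset.mem_filter, Finset.mem_filter]
    constructor
    · rintro ⟨h1, h2⟩; exact ⟨h1, sf_eq (sf_spec m').1 (hT m h1) h2⟩
    · rintro ⟨h1, h2⟩; exact ⟨h1, h2 ▸ (sf_spec m).2⟩
  rw [Finset.sum_congr rfl (fun s hs => by rw [h s hs])]
  exact Finset.sum_fiberwise_of_maps_to (fun m hm => Finset.mem_image_of_mem sf hm) (fun m => ‖b m‖^2)

open Classical in
/-- **central limit theorem for the model** -/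
theorem model_clt {T : Finset ℕ} (hT : ∀ m ∈ T, 1 ≤ m ∧ ¬ IsSquare m) {η : ℝ} (hη1 : η ≤ 1)
    (hB : ∀ s ∈ T.image sf, sB b (T.filter (InC s)) ≤ η) :
    ‖mn (Ez b Complex.I T) - ((Real.exp (-(vb b T / 2)) : ℝ) : ℂ)‖ ≤ η * vb b T := by
  have e1 : ((Real.exp (-(vb b T / 2)) : ℝ) : ℂ) = ∏ s ∈ T.image sf, ((Real.exp (-(vb b (T.filter (InC s)) / 2)) : ℝ) : ℂ) := by
    rw [← Complex.ofReal_prod, ← Real.exp_sum]
    congr 2
    rw [Finset.sum_neg_distrib, ← Finset.sum_div, vb_sum (fun m hm => (hT m hm).1)]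
  rw [prod_all Complex.I hT, e1]
  refine (prod_diff _ _ _ (fun s _ => norm_mn_I_le _ _) (fun s _ => ?_)).trans ?_
  · rw [Complex.norm_real, Real.norm_eq_abs, abs_of_pos (Real.exp_pos _), Real.exp_le_one_iff]
    have := vb_nonneg b (T.filter (InC s))
    linarith
  · rw [← vb_sum (fun m hm => (hT m hm).1) b, Finset.mul_sum]
    apply Finset.sum_le_sum
    intro s hs
    have hs' := hs
    rw [Finset.mem_image] at hs'
    obtain ⟨m, hm, rfl⟩ := hs'
    apply blk1 (sf_spec m).1 (sf_ne_one (hT m hm).2) _ (hB _ hs) hη1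
    intro m' hm'
    rw [Finset.mem_filter] at hm'
    exact ⟨(hT m' hm'.1).1, hm'.2⟩

open Classical in
/-- exponential moments of the model -/
theorem model_mgf {T : Finset ℕ} (hT : ∀ m ∈ T, 1 ≤ m ∧ ¬ IsSquare m) {l : ℝ}
    (hB : ∀ s ∈ T.image sf, |l| * sB b (T.filter (InC s)) ≤ 1) :
    ‖mn (Ez b (l:ℂ) T)‖ ≤ Real.exp (l^2 * vb b T) := by
  rw [prod_all (l:ℂ) hT, norm_prod, ← vb_sum (fun m hm => (hT m hm).1) b, Finset.mul_sum, Real.exp_sum]
  apply Finset.prod_le_prod (fun _ _ => norm_nonneg _)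
  intro s hs
  have hs' := hs
  rw [Finset.mem_image] at hs'
  obtain ⟨m, hm, rfl⟩ := hs'
  apply blk2 (sf_spec m).1 (sf_ne_one (hT m hm).2) _ (hB _ hs)
  intro m' hm'
  rw [Finset.mem_filter] at hm'
  exact ⟨(hT m' hm'.1).1, hm'.2⟩

end Pool.Agent.W2helper20.GC
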