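import Mathlib
import Pool.Agent.W2helper20.GC.NTd

/-!
The variance sum `∑ r(m)² m^{-3/2} (1 - cos (2π δ √m))`.
-/

open Filter Topology
open Pool.Agent.H383 Pool.Agent.H383.Gauss Pool.Agent.N48.Ann

namespace Pool.Agent.W2helper20.GC

/-- the variance sum -/
noncomputable def Wd (δ : ℝ) (K : ℕ) : ℝ := ∑ m ∈ Finset.Icc 1 K, (rA m)^2 * ((m:ℝ) ^ (-(3/2):ℝ) * (1 - Real.cos (2 * Real.pi * (δ * √(m:ℝ)))))

/-- the exact sum over squares -/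
lemma cos_series {δ : ℝ} (h0 : 0 ≤ δ) (h1 : δ ≤ 1) :
    HasSum (fun k : ℕ => 1 / (k:ℝ)^2 * (1 - Real.cos (2 * Real.pi * (δ * k)))) (Real.pi^2 * (δ - δ^2)) := by
  have a := hasSum_one_div_nat_pow_mul_cos (k := 1) one_ne_zero (x := δ) ⟨h0, h1⟩
  have b := hasSum_zeta_two
  have c := b.sub a
  have e : (Real.pi ^ 2 / 6 - (-1 : ℝ) ^ (1 + 1) * (2 * Real.pi) ^ (2 * 1) / 2 / (((2 * 1).factorial : ℕ) : ℝ) *
        (Polynomial.map (algebraMap ℚ ℝ) (Polynomial.bernoulli (2 * 1))).eval δ) = Real.pi^2 * (δ - δ^2) := by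
    have hb : (Polynomial.map (algebraMap ℚ ℝ) (Polynomial.bernoulli (2 * 1))).eval δ = δ^2 - δ + 1/6 := by
      rw [mul_one]
      rw [Polynomial.bernoulli_def]
      simp [Finset.sum_range_succ, bernoulli, bernoulli'_two, bernoulli'_one, bernoulli'_zero]
      norm_num [Nat.choose]
      ring
    rw [hb]
    norm_num [Nat.factorial]
    ring
  rw [e] at c
  have e2 : (fun k : ℕ => 1 / (k:ℝ)^2 * (1 - Real.cos (2 * Real.pi * (δ * k)))) =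
      fun b : ℕ => 1 / (b:ℝ)^2 - 1 / (b:ℝ)^(2*1) * Real.cos (2 * Real.pi * b * δ) := by
    funext k
    rw [mul_one, mul_sub, mul_one, show 2 * Real.pi * (δ * k) = 2 * Real.pi * k * δ by ring]
  rw [e2]
  exact c

lemma gcos_nonneg (u : ℝ) : 0 ≤ 1 - Real.cos u := by linarith [Real.cos_le_one u]

lemma gcos_two (u : ℝ) : 1 - Real.cos u ≤ 2 := by linarith [Real.neg_one_le_cos u]

lemma gcos_sq (u : ℝ) : 1 - Real.cos u ≤ u^2 / 2 := by
  have := Real.one_sub_sq_div_two_le_cos (x := u)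
  linarith

lemma gcos_min {x : ℝ} (hx : 0 ≤ x) : 1 - Real.cos (2 * Real.pi * x) ≤ 20 * (x * min 1 x) := by
  have hpi := Real.pi_gt_three
  have hpi2 := Real.pi_lt_d2
  rcases le_total x 1 with h | h
  · rw [min_eq_right h]
    refine (gcos_sq _).trans ?_
    have e : (2 * Real.pi * x)^2 / 2 = 2 * Real.pi^2 * (x * x) := by ring
    rw [e]
    apply mul_le_mul_of_nonneg_right _ (by positivity)
    nlinarith
  · rw [min_eq_left h]
    have := gcos_two (2 * Real.pi * x)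
    linarith

lemma cos_diff {a b : ℝ} (ha : 0 ≤ b) (hab : b ≤ a) : |Real.cos a - Real.cos b| ≤ (a - b) * min 1 a := by
  rw [Real.cos_sub_cos, abs_mul, abs_mul, abs_neg, abs_of_pos (by norm_num : (0:ℝ) < 2)]
  have h1 : |Real.sin ((a - b)/2)| ≤ (a - b)/2 := by
    have := Real.abs_sin_le_abs (x := (a-b)/2)
    rwa [abs_of_nonneg (show 0 ≤ (a-b)/2 by linarith)] at this
  have h2 : |Real.sin ((a + b)/2)| ≤ min 1 a := by
    apply le_min (Real.abs_sin_le_one _)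
    have := Real.abs_sin_le_abs (x := (a+b)/2)
    rw [abs_of_nonneg (show 0 ≤ (a+b)/2 by linarith)] at this
    linarith
  have h3 : 0 ≤ min 1 a := le_min zero_le_one (by linarith)
  calc 2 * |Real.sin ((a + b)/2)| * |Real.sin ((a - b)/2)| ≤ 2 * min 1 a * ((a - b)/2) := by gcongr
    _ = _ := by ring

/-- the weight -/
noncomputable def fw (δ : ℝ) (m : ℕ) : ℝ := (m:ℝ) ^ (-(3/2):ℝ) * (1 - Real.cos (2 * Real.pi * (δ * √(m:ℝ))))

lemma fw_nonneg (δ : ℝ) (m : ℕ) : 0 ≤ fw δ m := mul_nonneg (by positivity) (gcos_nonneg _)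

lemma fw_le (δ : ℝ) (m : ℕ) : fw δ m ≤ 2 * (m:ℝ) ^ (-(3/2):ℝ) := by
  unfold fw
  rw [mul_comm]
  exact mul_le_mul_of_nonneg_right (gcos_two _) (by positivity)

lemma fw_diff {δ : ℝ} (hδ : 0 < δ) {m : ℕ} (hm : 1 ≤ m) :
    |fw δ m - fw δ (m+1)| ≤ 100 * (δ * ((m:ℝ) ^ (-2:ℝ) * min 1 (δ * √(m:ℝ)))) := by
  have hpi := Real.pi_gt_three
  have hpi2 := Real.pi_lt_d2
  have hm1 : (1:ℝ) ≤ m := by exact_mod_cast hm
  have hm0 : (0:ℝ) < m := by linarith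
  set x := δ * √(m:ℝ) with hx
  set x' := δ * √((m+1:ℕ):ℝ) with hx'
  have hs0 : 0 < √(m:ℝ) := Real.sqrt_pos.mpr hm0
  have hx0 : 0 < x := by positivity
  have hss : √(m:ℝ) ≤ √((m+1:ℕ):ℝ) := Real.sqrt_le_sqrt (by push_cast; linarith)
  have hxx : x ≤ x' := by rw [hx, hx']; gcongr
  have hsd : √((m+1:ℕ):ℝ) - √(m:ℝ) ≤ 1 / (2 * √(m:ℝ)) := by
    rw [le_div_iff₀ (by positivity)]
    have h1 : √((m+1:ℕ):ℝ) * √((m+1:ℕ):ℝ) = m + 1 := by
      rw [Real.mul_self_sqrt (Nat.cast_nonneg _)]; push_cast; ring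
    have h2 : √(m:ℝ) * √(m:ℝ) = m := Real.mul_self_sqrt hm0.le
    nlinarith
  have hs2 : √((m+1:ℕ):ℝ) ≤ 2 * √(m:ℝ) := by
    have h3 : 1 / (2 * √(m:ℝ)) ≤ √(m:ℝ) := by
      rw [div_le_iff₀ (by positivity)]
      have h2 : √(m:ℝ) * √(m:ℝ) = m := Real.mul_self_sqrt hm0.le
      nlinarith
    linarith
  have e : fw δ m - fw δ (m+1) = ((m:ℝ) ^ (-(3/2):ℝ) - ((m+1:ℕ):ℝ) ^ (-(3/2):ℝ)) * (1 - Real.cos (2 * Real.pi * x)) +
      ((m+1:ℕ):ℝ) ^ (-(3/2):ℝ) * (Real.cos (2 * Real.pi * x') - Real.cos (2 * Real.pi * x)) := by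
    unfold fw; ring
  obtain ⟨p1, p2⟩ := pow_diff hm1 (x := ((m+1:ℕ):ℝ)) (by push_cast; linarith) (by push_cast; linarith)
  have hpm : ((m+1:ℕ):ℝ) ^ (-(3/2):ℝ) ≤ (m:ℝ) ^ (-(3/2):ℝ) := by linarith
  have hmin0 : 0 ≤ min 1 x := le_min zero_le_one hx0.le
  have q52 : (m:ℝ) ^ (-(3/2):ℝ) / m * √(m:ℝ) = (m:ℝ) ^ (-2:ℝ) := by
    rw [Real.sqrt_eq_rpow, ← Real.rpow_sub_one hm0.ne', ← Real.rpow_add hm0]; norm_num
  have q2 : (m:ℝ) ^ (-(3/2):ℝ) / √(m:ℝ) = (m:ℝ) ^ (-2:ℝ) := by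
    rw [Real.sqrt_eq_rpow, ← Real.rpow_sub hm0]; norm_num
  have t1 : |((m:ℝ) ^ (-(3/2):ℝ) - ((m+1:ℕ):ℝ) ^ (-(3/2):ℝ)) * (1 - Real.cos (2 * Real.pi * x))| ≤
      30 * (δ * ((m:ℝ) ^ (-2:ℝ) * min 1 x)) := by
    rw [abs_mul, abs_of_nonneg p1, abs_of_nonneg (gcos_nonneg _)]
    calc ((m:ℝ) ^ (-(3/2):ℝ) - ((m+1:ℕ):ℝ) ^ (-(3/2):ℝ)) * (1 - Real.cos (2 * Real.pi * x))
        ≤ ((3/2) * ((m:ℝ) ^ (-(3/2):ℝ) / m)) * (20 * (x * min 1 x)) := mul_le_mul p2 (gcos_min hx0.le) (gcos_nonneg _) (by positivity)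
      _ = 30 * (δ * (((m:ℝ) ^ (-(3/2):ℝ) / m * √(m:ℝ)) * min 1 x)) := by rw [hx]; ring
      _ = _ := by rw [q52]
  have t2 : |((m+1:ℕ):ℝ) ^ (-(3/2):ℝ) * (Real.cos (2 * Real.pi * x') - Real.cos (2 * Real.pi * x))| ≤
      70 * (δ * ((m:ℝ) ^ (-2:ℝ) * min 1 x)) := by
    rw [abs_mul, abs_of_pos (by positivity)]
    have h1 := cos_diff (a := 2 * Real.pi * x') (b := 2 * Real.pi * x) (by positivity) (by gcongr)
    have h2 : 2 * Real.pi * x' - 2 * Real.pi * x ≤ 4 * (δ / √(m:ℝ)) := by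
      have h3 : x' - x ≤ δ * (1 / (2 * √(m:ℝ))) := by
        rw [hx, hx', ← mul_sub]; gcongr
      calc 2 * Real.pi * x' - 2 * Real.pi * x = 2 * Real.pi * (x' - x) := by ring
        _ ≤ 2 * Real.pi * (δ * (1 / (2 * √(m:ℝ)))) := by gcongr
        _ = Real.pi * (δ / √(m:ℝ)) := by field_simp
        _ ≤ 4 * (δ / √(m:ℝ)) := by gcongr; linarith
    have h4 : min 1 (2 * Real.pi * x') ≤ 14 * min 1 x := by
      have h5 : x' ≤ 2 * x := by rw [hx, hx']; nlinarith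
      rcases le_total x 1 with h | h
      · rw [min_eq_right h]
        refine (min_le_right _ _).trans ?_
        nlinarith
      · rw [min_eq_left h]
        refine (min_le_left _ _).trans ?_
        norm_num
    calc ((m+1:ℕ):ℝ) ^ (-(3/2):ℝ) * |Real.cos (2 * Real.pi * x') - Real.cos (2 * Real.pi * x)|
        ≤ (m:ℝ) ^ (-(3/2):ℝ) * ((4 * (δ / √(m:ℝ))) * (14 * min 1 x)) := by
          apply mul_le_mul hpm _ (abs_nonneg _) (by positivity)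
          refine h1.trans ?_
          apply mul_le_mul h2 h4 (le_min zero_le_one (by positivity)) (by positivity)
      _ = 56 * (δ * (((m:ℝ) ^ (-(3/2):ℝ) / √(m:ℝ)) * min 1 x)) := by ring
      _ = 56 * (δ * ((m:ℝ) ^ (-2:ℝ) * min 1 x)) := by rw [q2]
      _ ≤ _ := by
          have : 0 ≤ δ * ((m:ℝ) ^ (-2:ℝ) * min 1 x) := by positivity
          linarith
  rw [e]
  refine (abs_add_le _ _).trans ?_
  linarith

end Pool.Agent.W2helper20.GC
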