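import Mathlib
import Pool.Agent.W2helper20.GC.NTe

/-!
Asymptotics of the variance sum.
-/

open Filter Topology
open Pool.Agent.H383 Pool.Agent.H383.Gauss Pool.Agent.N48.Ann

namespace Pool.Agent.W2helper20.GC

open Classical in
lemma sum_squares (g : ℕ → ℝ) (X : ℕ) : ∑ m ∈ Finset.Icc 1 X, (if IsSquare m then g m else 0) = ∑ k ∈ Finset.Icc 1 (Nat.sqrt X), g (k^2) := by
  rw [← Finset.sum_filter]
  have e : (Finset.Icc 1 X).filter (fun m => IsSquare m) = (Finset.Icc 1 (Nat.sqrt X)).image (fun k => k^2) := by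
    ext m
    rw [Finset.mem_filter, Finset.mem_Icc, Finset.mem_image]
    constructor
    · rintro ⟨⟨h1, h2⟩, k, hk⟩
      refine ⟨k, ?_, by rw [hk]; ring⟩
      rw [Finset.mem_Icc, Nat.le_sqrt]
      refine ⟨?_, by omega⟩
      rcases Nat.eq_zero_or_pos k with h | h
      · rw [h] at hk; omega
      · exact h
    · rintro ⟨k, hk, rfl⟩
      rw [Finset.mem_Icc, Nat.le_sqrt] at hk
      refine ⟨⟨Nat.one_le_pow _ _ hk.1, by rw [sq]; exact hk.2⟩, k, by ring⟩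
  rw [e, Finset.sum_image (fun a _ b _ h => Nat.pow_left_injective (by norm_num) h)]

/-- the comparison weights, supported on the squares -/
noncomputable def vv (L : ℝ) (m : ℕ) : ℝ := by
  classical exact if IsSquare m then 16 * L * √(m:ℝ) else 0

lemma vv_sum (L : ℝ) (X : ℕ) (hX : 1 ≤ X) (hL : 0 ≤ L) : |∑ m ∈ Finset.Icc 1 X, vv L m - 8 * L * X| ≤ 16 * L * √(X:ℝ) := by
  classical
  have hX1 : (1:ℝ) ≤ X := by exact_mod_cast hX
  have e : ∑ m ∈ Finset.Icc 1 X, vv L m = 8 * L * ((Nat.sqrt X : ℝ) * ((Nat.sqrt X : ℝ) + 1)) := by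
    have h1 := sum_squares (fun m => 16 * L * √(m:ℝ)) X
    have h2 : ∑ m ∈ Finset.Icc 1 X, vv L m = ∑ m ∈ Finset.Icc 1 X, (if IsSquare m then 16 * L * √(m:ℝ) else 0) := by
      apply Finset.sum_congr rfl
      intro m _
      unfold vv
      congr
    rw [h2, h1]
    have h3 : ∀ n : ℕ, ∑ k ∈ Finset.Icc 1 n, 16 * L * √((k^2 : ℕ):ℝ) = 8 * L * ((n:ℝ) * (n + 1)) := by
      intro n
      induction n with
      | zero => simp
      | succ n ih =>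
        rw [Finset.sum_Icc_succ_top (by omega), ih]
        have : √(((n+1)^2 : ℕ):ℝ) = (n:ℝ) + 1 := by
          push_cast; exact Real.sqrt_sq (by positivity)
        rw [this]; push_cast; ring
    exact h3 _
  rw [e]
  set s : ℝ := (Nat.sqrt X : ℝ) with hs
  have hs0 : 0 ≤ s := Nat.cast_nonneg _
  have h1 : s^2 ≤ X := by rw [hs]; exact_mod_cast Nat.sqrt_le' X
  have h2 : (X:ℝ) ≤ (s+1)^2 := by
    rw [hs]
    have := (Nat.lt_succ_sqrt' X).le
    rw [Nat.succ_eq_add_one] at this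
    exact_mod_cast this
  have h3 : s ≤ √(X:ℝ) := Real.le_sqrt_of_sq_le h1
  have h4 : 1 ≤ √(X:ℝ) := by rw [Real.one_le_sqrt]; exact hX1
  have e2 : 8 * L * (s * (s+1)) - 8 * L * X = 8 * L * (s * (s+1) - X) := by ring
  rw [e2, abs_mul, abs_of_nonneg (by positivity)]
  have h5 : |s * (s+1) - X| ≤ 2 * √(X:ℝ) := by
    rw [abs_le]
    constructor <;> nlinarith
  calc 8 * L * |s * (s+1) - X| ≤ 8 * L * (2 * √(X:ℝ)) := by gcongr
    _ = _ := by ring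

lemma Dsum : ∃ C : ℝ, 0 < C ∧ ∀ δ : ℝ, 0 < δ → δ ≤ 1/10 → ∀ X : ℕ, 1 ≤ X →
    |∑ m ∈ Finset.Icc 1 X, ((rA m)^2 - vv (Real.log (1/δ)) m)| ≤
      4 * X * |Real.log (X * δ^2)| + C * X + 16 * Real.log (1/δ) * √(X:ℝ) := by
  obtain ⟨C, hC, h⟩ := r_sq_asymp
  refine ⟨C, hC, ?_⟩
  intro δ hδ hδ1 X hX
  have hX0 : (0:ℝ) < X := by exact_mod_cast hX
  have hL := log_ge hδ hδ1
  have h1 := h X hX
  have h2 := vv_sum (Real.log (1/δ)) X hX (by linarith)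
  have e : Real.log (X * δ^2) = Real.log X - 2 * Real.log (1/δ) := by
    rw [Real.log_mul hX0.ne' (by positivity), Real.log_pow, one_div, Real.log_inv]; push_cast; ring
  have e2 : ∑ m ∈ Finset.Icc 1 X, ((rA m)^2 - vv (Real.log (1/δ)) m) =
      (∑ m ∈ Finset.Icc 1 X, (rA m)^2 - 4 * (X * Real.log X)) + 4 * X * Real.log (X * δ^2) -
      (∑ m ∈ Finset.Icc 1 X, vv (Real.log (1/δ)) m - 8 * Real.log (1/δ) * X) := by
    rw [Finset.sum_sub_distrib, e]; ring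
  rw [e2]
  refine (abs_sub _ _).trans ?_
  have h3 := abs_add_le (∑ m ∈ Finset.Icc 1 X, (rA m)^2 - 4 * (X * Real.log X)) (4 * X * Real.log (X * δ^2))
  rw [abs_mul (4 * (X:ℝ)), abs_of_pos (by positivity : 0 < 4 * (X:ℝ))] at h3
  linarith

lemma log_min {x A : ℝ} (hx : 0 < x) (hA : 1 ≤ A) (hxA : x ≤ 2 * A) :
    |Real.log x| * min 1 √x ≤ 4 * (1 + Real.log A) * min 1 (x ^ (1/4:ℝ)) := by
  have hlA : 0 ≤ Real.log A := Real.log_nonneg hA
  rcases le_total x 1 with h | h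
  · have h1 : min 1 √x = √x := min_eq_right (by rw [Real.sqrt_le_left (by norm_num)]; linarith)
    have h2 : min 1 (x ^ (1/4:ℝ)) = x ^ (1/4:ℝ) := min_eq_right (Real.rpow_le_one hx.le h (by norm_num))
    rw [h1, h2]
    have h3 : |Real.log x| ≤ 4 * x ^ (-(1/4):ℝ) := by
      rw [abs_of_nonpos (Real.log_nonpos hx.le h), ← Real.log_inv]
      have := Real.log_le_rpow_div (show 0 ≤ x⁻¹ by positivity) (show (0:ℝ) < 1/4 by norm_num)
      rw [Real.inv_rpow hx.le, ← Real.rpow_neg hx.le] at this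
      linarith
    calc |Real.log x| * √x ≤ (4 * x ^ (-(1/4):ℝ)) * √x := by gcongr
      _ = 4 * x ^ (1/4:ℝ) := by
          rw [Real.sqrt_eq_rpow, mul_assoc, ← Real.rpow_add hx]; norm_num
      _ ≤ 4 * (1 + Real.log A) * x ^ (1/4:ℝ) := by
          have : 0 < x ^ (1/4:ℝ) := by positivity
          nlinarith
  · have h1 : min 1 √x = 1 := min_eq_left (by rw [Real.one_le_sqrt]; exact h)
    have h2 : min 1 (x ^ (1/4:ℝ)) = 1 := min_eq_left (Real.one_le_rpow h (by norm_num))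
    rw [h1, h2, mul_one, mul_one, abs_of_nonneg (Real.log_nonneg h)]
    have h3 : Real.log x ≤ Real.log (2 * A) := Real.log_le_log hx hxA
    rw [Real.log_mul (by norm_num) (by positivity)] at h3
    have h4 : Real.log 2 ≤ 1 := by
      have := Real.log_two_lt_d9; linarith
    linarith

lemma sum_inv_Ioc {a b : ℕ} (ha : 1 ≤ a) (hab : a ≤ b) : ∑ m ∈ Finset.Ioc a b, (1:ℝ) / m ≤ Real.log ((b:ℝ)/a) + 2 := by
  have h1 := (abs_le.mp (inv_asymp b (ha.trans hab))).2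
  have h2 := (abs_le.mp (inv_asymp a ha)).1
  have ha0 : (0:ℝ) < a := by exact_mod_cast ha
  have hb0 : (0:ℝ) < b := by exact_mod_cast (ha.trans hab)
  rw [Real.log_div hb0.ne' ha0.ne']
  have e : ∑ m ∈ Finset.Icc 1 b, (1:ℝ) / m = ∑ m ∈ Finset.Icc 1 a, (1:ℝ) / m + ∑ m ∈ Finset.Ioc a b, (1:ℝ) / m := by
    rw [← Finset.sum_union]
    · congr 1
      ext x; simp only [Finset.mem_union, Finset.mem_Icc, Finset.mem_Ioc]; omega
    · rw [Finset.disjoint_left]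
      intro x hx hy
      rw [Finset.mem_Icc] at hx; rw [Finset.mem_Ioc] at hy; omega
  linarith

lemma min_sum {δ : ℝ} (hδ : 0 < δ) (hδ1 : δ ≤ 1/10) {A : ℝ} (hA : 1 ≤ A) {K : ℕ} (hK : (K:ℝ) ≤ 2 * A / δ^2) :
    ∑ m ∈ Finset.Icc 1 K, min 1 (((m:ℝ) * δ^2) ^ (1/4:ℝ)) * (1 / (m:ℝ)) ≤ 8 + Real.log A := by
  have hlA : 0 ≤ Real.log A := Real.log_nonneg hA
  set n0 := ⌈1/δ^2⌉₊ with hn0
  have hn0l : 1/δ^2 ≤ n0 := Nat.le_ceil _
  have hn01 : 1 ≤ n0 := by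
    have : (1:ℝ) ≤ n0 := by
      refine le_trans ?_ hn0l
      rw [le_div_iff₀ (by positivity)]; nlinarith
    exact_mod_cast this
  have hn0u : (n0:ℝ) ≤ 2/δ^2 := by
    have := Nat.ceil_lt_add_one (show 0 ≤ 1/δ^2 by positivity)
    rw [← hn0] at this
    have h1 : 1 ≤ 1/δ^2 := by rw [le_div_iff₀ (by positivity)]; nlinarith
    have e : 2/δ^2 = 1/δ^2 + 1/δ^2 := by ring
    linarith
  have hn00 : (0:ℝ) < n0 := by exact_mod_cast hn01
  have hsp := split_le (f := fun m : ℕ => min 1 (((m:ℝ) * δ^2) ^ (1/4:ℝ)) * (1 / (m:ℝ))) (fun m => by positivity) n0 K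
  refine hsp.trans ?_
  have h1 : ∑ m ∈ Finset.Icc 1 n0, min 1 (((m:ℝ) * δ^2) ^ (1/4:ℝ)) * (1 / (m:ℝ)) ≤ 5 := by
    calc ∑ m ∈ Finset.Icc 1 n0, min 1 (((m:ℝ) * δ^2) ^ (1/4:ℝ)) * (1 / (m:ℝ)) ≤ ∑ m ∈ Finset.Icc 1 n0, √δ * (m:ℝ) ^ (-(3/4):ℝ) := by
          apply Finset.sum_le_sum
          intro m hm
          rw [Finset.mem_Icc] at hm
          have hm0 : (0:ℝ) < m := by exact_mod_cast hm.1
          have e : ((m:ℝ) * δ^2) ^ (1/4:ℝ) * (1 / (m:ℝ)) = √δ * (m:ℝ) ^ (-(3/4):ℝ) := by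
            rw [Real.mul_rpow hm0.le (by positivity), ← Real.rpow_natCast δ 2, ← Real.rpow_mul hδ.le, Real.sqrt_eq_rpow]
            have : (m:ℝ) ^ (-(3/4):ℝ) = (m:ℝ) ^ (1/4:ℝ) * (1 / m) := by
              have e1 : (1:ℝ) / m = (m:ℝ) ^ (-1:ℝ) := by rw [Real.rpow_neg_one, one_div]
              rw [e1, ← Real.rpow_add hm0]; norm_num
            rw [this]
            norm_num
            ring
          rw [← e]
          exact mul_le_mul_of_nonneg_right (min_le_right _ _) (by positivity)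
      _ = √δ * ∑ m ∈ Finset.Icc 1 n0, (m:ℝ) ^ (-(3/4):ℝ) := by rw [Finset.mul_sum]
      _ ≤ √δ * (4 * (n0:ℝ) ^ (1/4:ℝ)) := by
          apply mul_le_mul_of_nonneg_left _ (Real.sqrt_nonneg _)
          refine (head_rpow (s := 3/4) (by norm_num) (by norm_num) n0).trans (le_of_eq ?_)
          norm_num; ring
      _ ≤ √δ * (4 * ((2/δ^2) ^ (1/4:ℝ))) := by gcongr
      _ = 4 * 2 ^ (1/4:ℝ) := by
          rw [Real.div_rpow (by norm_num) (by positivity), ← Real.rpow_natCast δ 2, ← Real.rpow_mul hδ.le, Real.sqrt_eq_rpow]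
          norm_num
          field_simp
      _ ≤ 5 := by
          have h2 : (2:ℝ) ^ (1/4:ℝ) ≤ 5/4 := by
            rw [← Real.rpow_le_rpow_iff (z := 4) (by positivity) (by norm_num) (by norm_num), ← Real.rpow_mul (by norm_num)]
            norm_num
          linarith
  have h2 : ∑ m ∈ Finset.Ioc n0 K, min 1 (((m:ℝ) * δ^2) ^ (1/4:ℝ)) * (1 / (m:ℝ)) ≤ 3 + Real.log A := by
    rcases le_total K n0 with h | h
    · rw [Finset.Ioc_eq_empty (by omega)]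
      simp; linarith
    · calc ∑ m ∈ Finset.Ioc n0 K, min 1 (((m:ℝ) * δ^2) ^ (1/4:ℝ)) * (1 / (m:ℝ)) ≤ ∑ m ∈ Finset.Ioc n0 K, 1 / (m:ℝ) := by
            apply Finset.sum_le_sum
            intro m _
            exact mul_le_of_le_one_left (by positivity) (min_le_left _ _)
        _ ≤ Real.log ((K:ℝ)/n0) + 2 := sum_inv_Ioc hn01 h
        _ ≤ Real.log (2 * A) + 2 := by
            have hK0 : (0:ℝ) < K := lt_of_lt_of_le hn00 (by exact_mod_cast h)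
            gcongr
            rw [div_le_iff₀ hn00]
            calc (K:ℝ) ≤ 2 * A / δ^2 := hK
              _ = 2 * A * (1/δ^2) := by ring
              _ ≤ 2 * A * n0 := by gcongr
        _ ≤ _ := by
            rw [Real.log_mul (by norm_num) (by positivity)]
            have := Real.log_two_lt_d9
            linarith
  linarith

lemma head_part : ∃ C : ℝ, 0 < C ∧ ∀ δ : ℝ, 0 < δ → δ ≤ 1/10 → ∀ A : ℝ, 1 ≤ A → ∀ K : ℕ, A / δ^2 ≤ K → (K:ℝ) ≤ 2 * A / δ^2 →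
    |∑ m ∈ Finset.Icc 1 K, ((rA m)^2 - vv (Real.log (1/δ)) m) * fw δ m| ≤ C * (δ * (1 + Real.log A)^2) := by
  obtain ⟨C, hC, hD⟩ := Dsum
  refine ⟨100 * ((16 + C) * 8 + 160) + 2 * (4 + C) + 32, by positivity, ?_⟩
  intro δ hδ hδ1 A hA K hKl hKu
  have hL := log_ge hδ hδ1
  set L := Real.log (1/δ) with hLdef
  have hlA : 0 ≤ Real.log A := Real.log_nonneg hA
  have hδδ : 1 ≤ 1/δ^2 := by rw [le_div_iff₀ (by positivity)]; nlinarith
  have hK1' : (1:ℝ) ≤ K := by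
    refine le_trans ?_ hKl
    calc (1:ℝ) ≤ 1/δ^2 := hδδ
      _ ≤ A/δ^2 := by gcongr
  have hK1 : 1 ≤ K := by exact_mod_cast hK1'
  have hK0 : (0:ℝ) < K := by linarith
  have hδL : δ * L ≤ 1 := by
    have h1 := Real.log_le_sub_one_of_pos (show 0 < 1/δ by positivity)
    have h2 : δ * L ≤ δ * (1/δ - 1) := by gcongr
    have h3 : δ * (1/δ - 1) = 1 - δ := by field_simp
    linarith
  have hab := abelB (D := fun m => (rA m)^2 - vv L m) (f := fw δ)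
    (B := fun m => 4 * (m:ℝ) * |Real.log (m * δ^2)| + C * m + 16 * L * √(m:ℝ)) (fun X hX => hD δ hδ hδ1 X hX) hK1
  refine hab.trans ?_
  -- pointwise
  have hpt : ∀ m ∈ Finset.Icc 1 (K-1), (4 * (m:ℝ) * |Real.log (m * δ^2)| + C * m + 16 * L * √(m:ℝ)) * |fw δ m - fw δ (m+1)| ≤
      100 * δ * ((16 * (1 + Real.log A) + C) * (min 1 (((m:ℝ) * δ^2) ^ (1/4:ℝ)) * (1 / (m:ℝ))) + 16 * L * (√δ * (m:ℝ) ^ (-(5/4):ℝ))) := by
    intro m hm
    rw [Finset.mem_Icc] at hm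
    have hm0 : (0:ℝ) < m := by exact_mod_cast hm.1
    have hmK : (m:ℝ) ≤ K := by
      have : m ≤ K := by omega
      exact_mod_cast this
    have hd := fw_diff hδ hm.1
    set x := (m:ℝ) * δ^2 with hx
    have hx0 : 0 < x := by positivity
    have hxA : x ≤ 2 * A := by
      calc x ≤ K * δ^2 := by rw [hx]; gcongr
        _ ≤ (2 * A / δ^2) * δ^2 := by gcongr
        _ = 2 * A := by field_simp
    have hxs : δ * √(m:ℝ) = √x := by
      rw [hx, Real.sqrt_mul hm0.le, Real.sqrt_sq hδ.le]; ring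
    rw [hxs] at hd
    have hmin0 : 0 ≤ min 1 √x := by positivity
    have h1 := log_min hx0 hA hxA
    have h2 : min 1 √x ≤ min 1 (x ^ (1/4:ℝ)) := by
      apply le_min (min_le_left _ _)
      rcases le_total x 1 with h | h
      · refine (min_le_right _ _).trans ?_
        rw [Real.sqrt_eq_rpow]
        exact Real.rpow_le_rpow_of_exponent_ge hx0 h (by norm_num)
      · exact (min_le_left _ _).trans (Real.one_le_rpow h (by norm_num))
    have h3 : min 1 √x ≤ √δ * (m:ℝ) ^ (1/4:ℝ) := by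
      have e : √δ * (m:ℝ) ^ (1/4:ℝ) = x ^ (1/4:ℝ) := by
        rw [hx, Real.mul_rpow hm0.le (by positivity), ← Real.rpow_natCast δ 2, ← Real.rpow_mul hδ.le, Real.sqrt_eq_rpow]
        norm_num
        ring
      rw [e]
      exact h2.trans (min_le_right _ _)
    have em2 : (m:ℝ) ^ (-2:ℝ) * m = 1 / (m:ℝ) := by
      have e1 : (1:ℝ) / m = (m:ℝ) ^ (-1:ℝ) := by rw [Real.rpow_neg_one, one_div]
      rw [e1]
      nth_rewrite 2 [← Real.rpow_one (m:ℝ)]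
      rw [← Real.rpow_add hm0]; norm_num
    have em3 : (m:ℝ) ^ (-2:ℝ) * √(m:ℝ) * (m:ℝ) ^ (1/4:ℝ) = (m:ℝ) ^ (-(5/4):ℝ) := by
      rw [Real.sqrt_eq_rpow, ← Real.rpow_add hm0, ← Real.rpow_add hm0]; norm_num
    have hB0 : 0 ≤ 4 * (m:ℝ) * |Real.log x| + C * m + 16 * L * √(m:ℝ) := by positivity
    calc (4 * (m:ℝ) * |Real.log x| + C * m + 16 * L * √(m:ℝ)) * |fw δ m - fw δ (m+1)|
        ≤ (4 * (m:ℝ) * |Real.log x| + C * m + 16 * L * √(m:ℝ)) * (100 * (δ * ((m:ℝ) ^ (-2:ℝ) * min 1 √x))) := by gcongr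
      _ = 100 * δ * (4 * (|Real.log x| * min 1 √x) * ((m:ℝ) ^ (-2:ℝ) * m) + C * min 1 √x * ((m:ℝ) ^ (-2:ℝ) * m) +
            16 * L * ((m:ℝ) ^ (-2:ℝ) * √(m:ℝ)) * min 1 √x) := by ring
      _ ≤ 100 * δ * (4 * (4 * (1 + Real.log A) * min 1 (x ^ (1/4:ℝ))) * ((m:ℝ) ^ (-2:ℝ) * m) + C * min 1 (x ^ (1/4:ℝ)) * ((m:ℝ) ^ (-2:ℝ) * m) +
            16 * L * ((m:ℝ) ^ (-2:ℝ) * √(m:ℝ)) * (√δ * (m:ℝ) ^ (1/4:ℝ))) := by gcongr
      _ = 100 * δ * ((16 * (1 + Real.log A) + C) * (min 1 (x ^ (1/4:ℝ)) * ((m:ℝ) ^ (-2:ℝ) * m)) +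
            16 * L * (√δ * ((m:ℝ) ^ (-2:ℝ) * √(m:ℝ) * (m:ℝ) ^ (1/4:ℝ)))) := by ring
      _ = _ := by rw [em2, em3]
  have hsum : ∑ m ∈ Finset.Icc 1 (K-1), (4 * (m:ℝ) * |Real.log (m * δ^2)| + C * m + 16 * L * √(m:ℝ)) * |fw δ m - fw δ (m+1)| ≤
      100 * δ * ((16 * (1 + Real.log A) + C) * (8 + Real.log A) + 160) := by
    refine (Finset.sum_le_sum hpt).trans ?_
    rw [← Finset.mul_sum]
    apply mul_le_mul_of_nonneg_left _ (by positivity)
    rw [Finset.sum_add_distrib, ← Finset.mul_sum, ← Finset.mul_sum, ← Finset.mul_sum]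
    have hK1u : ((K-1:ℕ):ℝ) ≤ 2 * A / δ^2 := by
      refine le_trans ?_ hKu
      have : K - 1 ≤ K := Nat.sub_le _ _
      exact_mod_cast this
    have g1 := min_sum hδ hδ1 hA hK1u
    have g2 : ∑ m ∈ Finset.Icc 1 (K-1), (m:ℝ) ^ (-(5/4):ℝ) ≤ 5 := by
      rcases Nat.lt_or_ge (K-1) 1 with h6 | h6
      · have : Finset.Icc 1 (K-1) = ∅ := by rw [Finset.Icc_eq_empty]; omega
        rw [this]; simp
      · have e : Finset.Icc 1 (K-1) = insert 1 (Finset.Ioc 1 (K-1)) := by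
          ext x; rw [Finset.mem_insert, Finset.mem_Icc, Finset.mem_Ioc]; omega
        have h5 := tail_rpow (s := 5/4) (by norm_num) (n := 1) le_rfl (K-1)
        rw [e, Finset.sum_insert (by simp)]
        norm_num at h5 ⊢
        linarith
    have g3 : √δ * L ≤ 2 := sqrt_log_le hδ
    have g4 : 16 * L * (√δ * ∑ m ∈ Finset.Icc 1 (K-1), (m:ℝ) ^ (-(5/4):ℝ)) ≤ 160 := by
      calc 16 * L * (√δ * ∑ m ∈ Finset.Icc 1 (K-1), (m:ℝ) ^ (-(5/4):ℝ)) ≤ 16 * L * (√δ * 5) := by gcongr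
        _ = 80 * (√δ * L) := by ring
        _ ≤ 160 := by linarith
    have g5 : (16 * (1 + Real.log A) + C) * ∑ m ∈ Finset.Icc 1 (K-1), min 1 (((m:ℝ) * δ^2) ^ (1/4:ℝ)) * (1 / (m:ℝ)) ≤
        (16 * (1 + Real.log A) + C) * (8 + Real.log A) := mul_le_mul_of_nonneg_left g1 (by positivity)
    linarith
  have hend : (4 * (K:ℝ) * |Real.log (K * δ^2)| + C * K + 16 * L * √(K:ℝ)) * |fw δ K| ≤ (2 * (4 * (1 + Real.log A) + C) + 32) * δ := by
    rw [abs_of_nonneg (fw_nonneg δ K)]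
    have h1 := fw_le δ K
    have hsK : 0 < √(K:ℝ) := Real.sqrt_pos.mpr hK0
    have h2 : |Real.log (K * δ^2)| ≤ 1 + Real.log A := by
      have h3 : 1 ≤ (K:ℝ) * δ^2 := by
        calc (1:ℝ) ≤ A := hA
          _ = A / δ^2 * δ^2 := by field_simp
          _ ≤ K * δ^2 := by gcongr
      rw [abs_of_nonneg (Real.log_nonneg h3)]
      have h4 : (K:ℝ) * δ^2 ≤ 2 * A := by
        calc (K:ℝ) * δ^2 ≤ (2 * A / δ^2) * δ^2 := by gcongr
          _ = 2 * A := by field_simp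
      have h5 : Real.log (K * δ^2) ≤ Real.log (2 * A) := Real.log_le_log (by linarith) h4
      have h6 : Real.log (2 * A) = Real.log 2 + Real.log A := Real.log_mul (by norm_num) (by positivity)
      have := Real.log_two_lt_d9
      rw [h6] at h5
      linarith
    have h3 : (K:ℝ) ^ (-(1/2):ℝ) ≤ δ := by
      have h4 : (1/δ^2 : ℝ) ≤ K := le_trans (by gcongr) hKl
      calc (K:ℝ) ^ (-(1/2):ℝ) ≤ (1/δ^2 : ℝ) ^ (-(1/2):ℝ) := Real.rpow_le_rpow_of_nonpos (by positivity) h4 (by norm_num)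
        _ = δ := by
            rw [one_div, Real.inv_rpow (by positivity), ← Real.rpow_neg (by positivity), neg_neg, ← Real.sqrt_eq_rpow, Real.sqrt_sq hδ.le]
    have h4 : (K:ℝ) ^ (-1:ℝ) ≤ δ^2 := by
      have e : (K:ℝ) ^ (-1:ℝ) = ((K:ℝ) ^ (-(1/2):ℝ))^2 := by
        rw [← Real.rpow_natCast, ← Real.rpow_mul hK0.le]; norm_num
      rw [e]
      exact pow_le_pow_left₀ (by positivity) h3 2
    have e1 : (K:ℝ) * (K:ℝ) ^ (-(3/2):ℝ) = (K:ℝ) ^ (-(1/2):ℝ) := by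
      nth_rewrite 1 [← Real.rpow_one (K:ℝ)]
      rw [← Real.rpow_add hK0]; norm_num
    have e2 : √(K:ℝ) * (K:ℝ) ^ (-(3/2):ℝ) = (K:ℝ) ^ (-1:ℝ) := by
      rw [Real.sqrt_eq_rpow, ← Real.rpow_add hK0]; norm_num
    calc (4 * (K:ℝ) * |Real.log (K * δ^2)| + C * K + 16 * L * √(K:ℝ)) * fw δ K
        ≤ (4 * (K:ℝ) * |Real.log (K * δ^2)| + C * K + 16 * L * √(K:ℝ)) * (2 * (K:ℝ) ^ (-(3/2):ℝ)) := by gcongr
      _ = 2 * (4 * |Real.log (K * δ^2)| + C) * ((K:ℝ) * (K:ℝ) ^ (-(3/2):ℝ)) + 32 * L * (√(K:ℝ) * (K:ℝ) ^ (-(3/2):ℝ)) := by ring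
      _ = 2 * (4 * |Real.log (K * δ^2)| + C) * (K:ℝ) ^ (-(1/2):ℝ) + 32 * L * (K:ℝ) ^ (-1:ℝ) := by rw [e1, e2]
      _ ≤ 2 * (4 * (1 + Real.log A) + C) * δ + 32 * L * δ^2 := by gcongr
      _ = 2 * (4 * (1 + Real.log A) + C) * δ + 32 * (δ * L) * δ := by ring
      _ ≤ 2 * (4 * (1 + Real.log A) + C) * δ + 32 * 1 * δ := by gcongr
      _ = _ := by ring
  have hfin : (2 * (4 * (1 + Real.log A) + C) + 32) * δ + 100 * δ * ((16 * (1 + Real.log A) + C) * (8 + Real.log A) + 160) ≤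
      (100 * ((16 + C) * 8 + 160) + 2 * (4 + C) + 32) * (δ * (1 + Real.log A)^2) := by
    set a := Real.log A with ha
    have h1 : (16 * (1 + a) + C) * (8 + a) ≤ (16 + C) * 8 * (1 + a)^2 := by nlinarith [mul_nonneg hC.le hlA, sq_nonneg a, mul_nonneg hC.le (sq_nonneg a)]
    have h2 : (160:ℝ) ≤ 160 * (1 + a)^2 := by nlinarith [sq_nonneg a]
    have h3 : 2 * (4 * (1 + a) + C) + 32 ≤ (2 * (4 + C) + 32) * (1 + a)^2 := by nlinarith [mul_nonneg hC.le hlA, sq_nonneg a, mul_nonneg hC.le (sq_nonneg a)]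
    have h4 : 2 * (4 * (1 + a) + C) + 32 + 100 * ((16 * (1 + a) + C) * (8 + a) + 160) ≤
        (100 * ((16 + C) * 8 + 160) + 2 * (4 + C) + 32) * (1 + a)^2 := by linarith
    calc (2 * (4 * (1 + a) + C) + 32) * δ + 100 * δ * ((16 * (1 + a) + C) * (8 + a) + 160)
        = δ * (2 * (4 * (1 + a) + C) + 32 + 100 * ((16 * (1 + a) + C) * (8 + a) + 160)) := by ring
      _ ≤ δ * ((100 * ((16 + C) * 8 + 160) + 2 * (4 + C) + 32) * (1 + a)^2) := by gcongr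
      _ = _ := by ring
  linarith

end Pool.Agent.W2helper20.GC
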