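import Mathlib
import Pool.Agent.W2helper20.GC.NTf

/-!
Asymptotics of the variance sum: the final statement.
-/

open Filter Topology
open Pool.Agent.H383 Pool.Agent.H383.Gauss Pool.Agent.N48.Ann

namespace Pool.Agent.W2helper20.GC

lemma vv_head {L δ : ℝ} (hL : 0 ≤ L) (hδ : 0 < δ) (K : ℕ) (hK : 1 ≤ Nat.sqrt K) (hδ1 : δ ≤ 1) :
    |∑ m ∈ Finset.Icc 1 K, vv L m * fw δ m - 16 * L * (Real.pi^2 * (δ - δ^2))| ≤ 32 * L * (1 / (Nat.sqrt K : ℝ)) := by
  classical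
  set s := Nat.sqrt K with hs
  have e : ∑ m ∈ Finset.Icc 1 K, vv L m * fw δ m = 16 * L * ∑ k ∈ Finset.range (s+1), 1 / (k:ℝ)^2 * (1 - Real.cos (2 * Real.pi * (δ * k))) := by
    have h1 := sum_squares (fun m => 16 * L * √(m:ℝ) * fw δ m) K
    have h2 : ∑ m ∈ Finset.Icc 1 K, vv L m * fw δ m = ∑ m ∈ Finset.Icc 1 K, (if IsSquare m then 16 * L * √(m:ℝ) * fw δ m else 0) := by
      apply Finset.sum_congr rfl
      intro m _
      unfold vv
      split_ifs <;> simp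
    rw [h2, h1, Finset.mul_sum, Finset.sum_range_succ', ← hs]
    simp only [Nat.cast_zero, ne_eq, OfNat.ofNat_ne_zero, not_false_eq_true, zero_pow, div_zero, zero_mul, mul_zero, add_zero]
    rw [Finset.range_eq_Ico, Finset.sum_bij (fun k _ => k - 1)]
    · intro k hk; rw [Finset.mem_Icc] at hk; rw [Finset.mem_Ico]; omega
    · intro a ha b hb h; rw [Finset.mem_Icc] at ha hb; omega
    · intro k hk
      rw [Finset.mem_Ico] at hk
      exact ⟨k + 1, by rw [Finset.mem_Icc]; omega, by omega⟩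
    · intro k hk
      rw [Finset.mem_Icc] at hk
      have hk0 : (0:ℝ) < k := by exact_mod_cast hk.1
      have e1 : ((k - 1 + 1 : ℕ) : ℝ) = k := by congr 1; omega
      rw [e1]
      unfold fw
      have e2 : √((k^2 : ℕ):ℝ) = k := by push_cast; exact Real.sqrt_sq hk0.le
      rw [e2]
      have e3 : (((k^2 : ℕ):ℝ)) ^ (-(3/2):ℝ) = (k:ℝ) ^ (-3:ℝ) := by
        push_cast
        rw [← Real.rpow_natCast (k:ℝ) 2, ← Real.rpow_mul hk0.le]; norm_num
      rw [e3]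
      have e4 : (k:ℝ) * (k:ℝ) ^ (-3:ℝ) = 1 / (k:ℝ)^2 := by
        nth_rewrite 1 [← Real.rpow_one (k:ℝ)]
        rw [← Real.rpow_add hk0, one_div, ← Real.rpow_natCast (k:ℝ) 2, ← Real.rpow_neg hk0.le]; norm_num
      calc 16 * L * (k:ℝ) * ((k:ℝ) ^ (-3:ℝ) * (1 - Real.cos (2 * Real.pi * (δ * k)))) =
            16 * L * (((k:ℝ) * (k:ℝ) ^ (-3:ℝ)) * (1 - Real.cos (2 * Real.pi * (δ * k)))) := by ring
        _ = _ := by rw [e4]
  rw [e, ← mul_sub, abs_mul, abs_of_nonneg (by positivity)]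
  have hser := cos_series hδ.le hδ1
  set g : ℕ → ℝ := fun k => 1 / (k:ℝ)^2 * (1 - Real.cos (2 * Real.pi * (δ * k))) with hg
  have hg0 : ∀ k, 0 ≤ g k := fun k => mul_nonneg (by positivity) (gcos_nonneg _)
  have h1 : ∑ k ∈ Finset.range (s+1), g k ≤ Real.pi^2 * (δ - δ^2) := by
    rw [← hser.tsum_eq]
    exact hser.summable.sum_le_tsum _ (fun k _ => hg0 k)
  have h2 : Real.pi^2 * (δ - δ^2) ≤ ∑ k ∈ Finset.range (s+1), g k + 2 * (1 / (s:ℝ)) := by
    rw [← hser.tsum_eq, ← hser.summable.sum_add_tsum_nat_add (s+1)]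
    gcongr
    apply Real.tsum_le_of_sum_range_le (fun n => hg0 _)
    intro n
    have h3 := tail_inv_sq hK n
    calc ∑ i ∈ Finset.range n, g (i + (s+1)) ≤ ∑ i ∈ Finset.range n, 2 * ((1:ℝ) / ((i + (s+1) : ℕ) : ℝ)^2) := by
          apply Finset.sum_le_sum
          intro i _
          simp only [hg]
          rw [mul_comm]
          exact mul_le_mul_of_nonneg_right (gcos_two _) (by positivity)
      _ = 2 * ∑ i ∈ Finset.range n, ((1:ℝ) / ((i + (s+1) : ℕ) : ℝ)^2) := by rw [Finset.mul_sum]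
      _ ≤ 2 * (1 / (s:ℝ)) := by
          have : 0 ≤ 1 / ((n + s : ℕ) : ℝ) := by positivity
          linarith
  have h3 : |∑ k ∈ Finset.range (s+1), g k - Real.pi^2 * (δ - δ^2)| ≤ 2 * (1 / (s:ℝ)) := by
    rw [abs_le]
    constructor
    · linarith
    · have : 0 ≤ 1 / (s:ℝ) := by positivity
      linarith
  calc 16 * L * |∑ k ∈ Finset.range (s+1), g k - Real.pi^2 * (δ - δ^2)| ≤ 16 * L * (2 * (1 / (s:ℝ))) := by gcongr
    _ = _ := by ring

theorem Wd_asymp : ∃ C : ℝ, 0 < C ∧ ∀ δ : ℝ, 0 < δ → δ ≤ 1/10 → ∀ A : ℝ, 1 ≤ A → ∀ K : ℕ, 2 * A / δ^2 ≤ K →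
    |Wd δ K - 16 * Real.pi^2 * (δ * Real.log (1/δ))| ≤ C * (δ * ((1 + Real.log A)^2 + Real.log (1/δ) / √A)) := by
  obtain ⟨C, hC, hH⟩ := head_part
  have hpi := Real.pi_gt_three
  have hpi2 := Real.pi_lt_d2
  refine ⟨C + 76000 * 4 + 160 + 64, by positivity, ?_⟩
  intro δ hδ hδ1 A hA K hK
  have hL := log_ge hδ hδ1
  set L := Real.log (1/δ) with hLdef
  have hlA : 0 ≤ Real.log A := Real.log_nonneg hA
  have hsA : 1 ≤ √A := by rw [Real.one_le_sqrt]; exact hA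
  have hδL : δ * L ≤ 1 := by
    have h1 := Real.log_le_sub_one_of_pos (show 0 < 1/δ by positivity)
    have h2 : δ * L ≤ δ * (1/δ - 1) := by gcongr
    have h3 : δ * (1/δ - 1) = 1 - δ := by field_simp
    linarith
  have hδδ : 100 ≤ 1/δ^2 := by rw [le_div_iff₀ (by positivity)]; nlinarith
  set K0 := ⌈A/δ^2⌉₊ with hK0
  have hK0l : A/δ^2 ≤ K0 := Nat.le_ceil _
  have hAδ : 100 ≤ A/δ^2 := by
    calc (100:ℝ) ≤ 1/δ^2 := hδδ
      _ ≤ A/δ^2 := by gcongr
  have hK0u : (K0:ℝ) ≤ 2 * A / δ^2 := by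
    have := Nat.ceil_lt_add_one (show 0 ≤ A/δ^2 by positivity)
    rw [← hK0] at this
    have e : 2 * A / δ^2 = A/δ^2 + A/δ^2 := by ring
    linarith
  have hK0K : K0 ≤ K := by
    have : (K0:ℝ) ≤ K := hK0u.trans hK
    exact_mod_cast this
  have hK0100 : (100:ℝ) ≤ K0 := hAδ.trans hK0l
  have hK01 : 1 ≤ K0 := by
    have : (1:ℝ) ≤ K0 := by linarith
    exact_mod_cast this
  have hK00 : (0:ℝ) < K0 := by linarith
  have hs1 : 1 ≤ Nat.sqrt K0 := Nat.sqrt_pos.mpr hK01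
  -- the three parts
  have h1 := hH δ hδ hδ1 A hA K0 hK0l hK0u
  have h2 := vv_head (L := L) (by linarith) hδ K0 hs1 (by linarith)
  have hsplit : Wd δ K = ∑ m ∈ Finset.Icc 1 K0, ((rA m)^2 - vv L m) * fw δ m + ∑ m ∈ Finset.Icc 1 K0, vv L m * fw δ m +
      ∑ m ∈ Finset.Ioc K0 K, (rA m)^2 * fw δ m := by
    have e1 : Wd δ K = ∑ m ∈ Finset.Icc 1 K0, (rA m)^2 * fw δ m + ∑ m ∈ Finset.Ioc K0 K, (rA m)^2 * fw δ m := by
      have : Wd δ K = ∑ m ∈ Finset.Icc 1 K, (rA m)^2 * fw δ m := rfl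
      rw [this, ← Finset.sum_union]
      · congr 1
        ext x; simp only [Finset.mem_union, Finset.mem_Icc, Finset.mem_Ioc]; omega
      · rw [Finset.disjoint_left]
        intro x hx hy
        rw [Finset.mem_Icc] at hx; rw [Finset.mem_Ioc] at hy; omega
    rw [e1, ← Finset.sum_add_distrib]
    congr 1
    apply Finset.sum_congr rfl
    intro m _; ring
  have hKhalf : (K0:ℝ) ^ (-(1/2):ℝ) ≤ δ / √A := by
    calc (K0:ℝ) ^ (-(1/2):ℝ) ≤ (A/δ^2) ^ (-(1/2):ℝ) := Real.rpow_le_rpow_of_nonpos (by positivity) hK0l (by norm_num)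
      _ = δ / √A := by
          rw [Real.rpow_neg (by positivity), ← Real.sqrt_eq_rpow, Real.sqrt_div (by positivity), Real.sqrt_sq hδ.le, inv_div]
  have htail : |∑ m ∈ Finset.Ioc K0 K, (rA m)^2 * fw δ m| ≤ 76000 * 4 * (δ * ((1 + Real.log A)^2 + L / √A)) := by
    rw [abs_of_nonneg (Finset.sum_nonneg (fun m _ => mul_nonneg (sq_nonneg _) (fw_nonneg δ m)))]
    have hu := u_tail (u := fun m => (rA m)^2) (fun m => sq_nonneg _) (C := 1000) (by norm_num) (by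
      intro X hX
      have := sum_r_sq X hX
      simp only [← rA_ZN] at this
      linarith) hK01 K
    calc ∑ m ∈ Finset.Ioc K0 K, (rA m)^2 * fw δ m ≤ ∑ m ∈ Finset.Ioc K0 K, 2 * ((rA m)^2 * (m:ℝ) ^ (-(3/2):ℝ)) := by
          apply Finset.sum_le_sum
          intro m _
          calc (rA m)^2 * fw δ m ≤ (rA m)^2 * (2 * (m:ℝ) ^ (-(3/2):ℝ)) := mul_le_mul_of_nonneg_left (fw_le δ m) (sq_nonneg _)
            _ = _ := by ring
      _ = 2 * ∑ m ∈ Finset.Ioc K0 K, (rA m)^2 * (m:ℝ) ^ (-(3/2):ℝ) := by rw [Finset.mul_sum]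
      _ ≤ 2 * (38 * 1000 * ((1 + Real.log K0) * (K0:ℝ) ^ (-(1/2):ℝ))) := by gcongr
      _ ≤ 2 * (38 * 1000 * ((2 + Real.log A + 2 * L) * (δ / √A))) := by
          have h3 : Real.log K0 ≤ 1 + Real.log A + 2 * L := by
            have h4 : Real.log K0 ≤ Real.log (2 * A / δ^2) := Real.log_le_log hK00 hK0u
            have h5 : Real.log (2 * A / δ^2) = Real.log 2 + Real.log A + 2 * L := by
              rw [Real.log_div (by positivity) (by positivity), Real.log_mul (by norm_num) (by positivity), Real.log_pow, hLdef,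
                one_div, Real.log_inv]
              push_cast; ring
            have := Real.log_two_lt_d9
            linarith
          have h6 : 0 ≤ Real.log K0 := Real.log_nonneg (by linarith)
          have h8 : (1 + Real.log K0) * (K0:ℝ) ^ (-(1/2):ℝ) ≤ (2 + Real.log A + 2 * L) * (δ / √A) :=
            mul_le_mul (by linarith) hKhalf (by positivity) (by positivity)
          linarith
      _ = 76000 * (δ * ((2 + Real.log A) / √A + 2 * (L / √A))) := by ring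
      _ ≤ 76000 * (δ * (4 * (1 + Real.log A)^2 + 4 * (L / √A))) := by
          have h7 : (2 + Real.log A) / √A ≤ 4 * (1 + Real.log A)^2 := by
            have h8 : (2 + Real.log A) / √A ≤ 2 + Real.log A := div_le_self (by linarith) hsA
            nlinarith
          have h9 : 0 ≤ L / √A := by positivity
          gcongr
          linarith
      _ = _ := by ring
  have hinv : 1 / (Nat.sqrt K0 : ℝ) ≤ 2 * (δ / √A) := by
    have hs0 : (0:ℝ) < Nat.sqrt K0 := by exact_mod_cast hs1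
    have h3 : √(K0:ℝ) ≤ 2 * (Nat.sqrt K0 : ℝ) := by
      have h4 := (Nat.lt_succ_sqrt' K0).le
      rw [Nat.succ_eq_add_one] at h4
      have h5 : (K0:ℝ) ≤ ((Nat.sqrt K0 : ℝ) + 1)^2 := by exact_mod_cast h4
      have h6 : √(K0:ℝ) ≤ (Nat.sqrt K0 : ℝ) + 1 := by
        rw [Real.sqrt_le_left (by positivity)]; exact h5
      have h7 : (1:ℝ) ≤ Nat.sqrt K0 := by exact_mod_cast hs1
      linarith
    have h4 : (K0:ℝ) ^ (-(1/2):ℝ) = 1 / √(K0:ℝ) := by
      rw [Real.rpow_neg hK00.le, ← Real.sqrt_eq_rpow, one_div]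
    have hsK : 0 < √(K0:ℝ) := Real.sqrt_pos.mpr hK00
    calc 1 / (Nat.sqrt K0 : ℝ) ≤ 2 * (1 / √(K0:ℝ)) := by
          rw [mul_one_div, div_le_div_iff₀ hs0 hsK]; linarith
      _ ≤ _ := by rw [← h4]; gcongr
  have h5 : |∑ m ∈ Finset.Icc 1 K0, vv L m * fw δ m - 16 * Real.pi^2 * (δ * L)| ≤ 160 * (δ * (1 + Real.log A)^2) + 64 * (δ * (L / √A)) := by
    have e : ∑ m ∈ Finset.Icc 1 K0, vv L m * fw δ m - 16 * Real.pi^2 * (δ * L) =
        (∑ m ∈ Finset.Icc 1 K0, vv L m * fw δ m - 16 * L * (Real.pi^2 * (δ - δ^2))) - 16 * Real.pi^2 * (δ * L) * δ := by ring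
    rw [e]
    refine (abs_sub _ _).trans ?_
    have h6 : |16 * Real.pi^2 * (δ * L) * δ| ≤ 160 * (δ * (1 + Real.log A)^2) := by
      rw [abs_of_nonneg (by positivity)]
      have h7 : Real.pi^2 ≤ 10 := by nlinarith
      have h8 : 1 ≤ (1 + Real.log A)^2 := by nlinarith
      calc 16 * Real.pi^2 * (δ * L) * δ ≤ 16 * 10 * 1 * δ := by gcongr
        _ = 160 * (δ * 1) := by ring
        _ ≤ _ := by gcongr
    have h9 : 32 * L * (1 / (Nat.sqrt K0 : ℝ)) ≤ 64 * (δ * (L / √A)) := by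
      calc 32 * L * (1 / (Nat.sqrt K0 : ℝ)) ≤ 32 * L * (2 * (δ / √A)) := by gcongr
        _ = _ := by ring
    linarith
  have e : Wd δ K - 16 * Real.pi^2 * (δ * L) = ∑ m ∈ Finset.Icc 1 K0, ((rA m)^2 - vv L m) * fw δ m +
      (∑ m ∈ Finset.Icc 1 K0, vv L m * fw δ m - 16 * Real.pi^2 * (δ * L)) + ∑ m ∈ Finset.Ioc K0 K, (rA m)^2 * fw δ m := by
    rw [hsplit]; ring
  rw [e]
  have h10 : 0 ≤ δ * (L / √A) := by positivity
  have h11 : 0 ≤ δ * (1 + Real.log A)^2 := by positivity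
  calc _ ≤ C * (δ * (1 + Real.log A)^2) + (160 * (δ * (1 + Real.log A)^2) + 64 * (δ * (L / √A))) + 76000 * 4 * (δ * ((1 + Real.log A)^2 + L / √A)) :=
        (abs_add_le _ _).trans (add_le_add ((abs_add_le _ _).trans (add_le_add h1 h5)) htail)
    _ ≤ _ := by nlinarith [mul_nonneg hC.le h10]

end Pool.Agent.W2helper20.GC
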