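import Mathlib
import Pool.Agent.N48.Ann.AN2
import Pool.Agent.W2helper20.GC.NTg
import Pool.Agent.W2helper20.GC.Model

open MeasureTheory Filter Topology
open Pool.Agent.H383 Pool.Agent.H383.AP Pool.Agent.H383.Gauss Pool.Agent.H383.Gen Pool.Agent.H383.GW
open Pool.Agent.N48.Ann

namespace Pool.Agent.W2helper20.GC

lemma Wd_neg (δ : ℝ) (K : ℕ) : Wd (-δ) K = Wd δ K := by
  unfold Wd
  apply Finset.sum_congr rfl
  intro m _
  rw [show 2 * Real.pi * (-δ * √(m:ℝ)) = -(2 * Real.pi * (δ * √(m:ℝ))) by ring, Real.cos_neg]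

lemma Wd_zero (K : ℕ) : Wd 0 K = 0 := by
  unfold Wd
  apply Finset.sum_eq_zero
  intro m _
  simp

lemma L_tend {ι : Type*} {l : Filter ι} {ρ : ι → ℝ} (hρ : Tendsto ρ l (𝓝[>] 0)) :
    Tendsto (fun j => Real.log (1/ρ j)) l atTop := by
  have h1 : Tendsto (fun j => 1/ρ j) l atTop := by
    simp only [one_div]
    exact tendsto_inv_nhdsGT_zero.comp hρ
  exact Real.tendsto_log_atTop.comp h1

lemma Linv_tend {ι : Type*} {l : Filter ι} {ρ : ι → ℝ} (hρ : Tendsto ρ l (𝓝[>] 0)) :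
    Tendsto (fun j => 1 / √(Real.log (1/ρ j))) l (𝓝 0) := by
  have h1 : Tendsto (fun j => √(Real.log (1/ρ j))) l atTop := by
    have := (tendsto_rpow_atTop (show (0:ℝ) < 1/2 by norm_num)).comp (L_tend hρ)
    refine this.congr (fun j => ?_)
    simp only [Function.comp_apply]
    rw [Real.sqrt_eq_rpow]
  simp only [one_div]
  exact tendsto_inv_atTop_zero.comp (by simpa only [one_div] using h1)

/-- one explicit bound -/
lemma Wd_bound {s : ℝ} (hs : 0 < s) : ∃ C : ℝ, 0 < C ∧ ∃ ρ0 : ℝ, 0 < ρ0 ∧ ∀ ρ : ℝ, 0 < ρ → ρ ≤ ρ0 → ∀ K : ℕ, 1/ρ^3 ≤ K →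
    |Wd (ρ * s) K / (ρ * Real.log (1/ρ)) - 16 * Real.pi^2 * s| ≤ C * (1 / √(Real.log (1/ρ))) := by
  obtain ⟨C, hC, h⟩ := Wd_asymp
  set B := |Real.log s| with hB
  have hB0 : 0 ≤ B := abs_nonneg _
  refine ⟨16 * Real.pi^2 * s * B + C * s * (26 + B), by positivity, min (Real.exp (-1)) (min (1/(10*s)) ((s^2/4)^2)), by positivity, ?_⟩
  intro ρ hρ hρ0 K hK
  have h1 : ρ ≤ Real.exp (-1) := hρ0.trans (min_le_left _ _)
  have h2 : ρ ≤ 1/(10*s) := hρ0.trans ((min_le_right _ _).trans (min_le_left _ _))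
  have h3 : ρ ≤ (s^2/4)^2 := hρ0.trans ((min_le_right _ _).trans (min_le_right _ _))
  set L := Real.log (1/ρ) with hL
  have hL1 : 1 ≤ L := by
    rw [hL, Real.le_log_iff_exp_le (by positivity), le_div_iff₀ hρ]
    calc Real.exp 1 * ρ ≤ Real.exp 1 * Real.exp (-1) := by gcongr
      _ = 1 := by rw [← Real.exp_add]; norm_num
  have hL0 : 0 < L := by linarith
  have hsL : 0 < √L := Real.sqrt_pos.mpr hL0
  have hsL1 : 1 ≤ √L := Real.one_le_sqrt.mpr hL1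
  have hsLL : √L * √L = L := Real.mul_self_sqrt hL0.le
  -- δ
  have hδ : 0 < ρ * s := by positivity
  have hδ1 : ρ * s ≤ 1/10 := by
    rw [le_div_iff₀ (by positivity)] at h2
    linarith
  have hρL : ρ * L ≤ 2 * √ρ := by
    have q1 := Real.log_le_rpow_div (show 0 ≤ 1/ρ by positivity) (show (0:ℝ) < 1/2 by norm_num)
    have q2 : (1/ρ) ^ (1/2:ℝ) = 1/√ρ := by
      rw [← Real.sqrt_eq_rpow, Real.sqrt_div zero_le_one, Real.sqrt_one]
    rw [q2] at q1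
    have q3 : 0 < √ρ := Real.sqrt_pos.mpr hρ
    have q4 : ρ = √ρ * √ρ := (Real.mul_self_sqrt hρ.le).symm
    calc ρ * L ≤ ρ * (1/√ρ/(1/2)) := by gcongr
      _ = 2 * √ρ := by
        nth_rewrite 1 [q4]
        field_simp
  have hKK : 2 * L / (ρ * s)^2 ≤ K := by
    refine le_trans ?_ hK
    rw [div_le_div_iff₀ (by positivity) (by positivity)]
    have q5 : √ρ ≤ s^2/4 := by
      rw [Real.sqrt_le_left (by positivity)]; exact h3
    calc 2 * L * ρ^3 = 2 * (ρ * L) * ρ^2 := by ring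
      _ ≤ 2 * (2 * √ρ) * ρ^2 := by gcongr
      _ ≤ 2 * (2 * (s^2/4)) * ρ^2 := by gcongr
      _ = 1 * (ρ * s)^2 := by ring
  have h4 := h (ρ * s) hδ hδ1 L hL1 K hKK
  have hlog : Real.log (1/(ρ*s)) = L - Real.log s := by
    rw [hL, one_div, one_div, Real.log_inv, Real.log_inv, Real.log_mul hρ.ne' hs.ne']; ring
  rw [hlog] at h4
  have hlL : (1 + Real.log L)^2 ≤ 25 * √L := by
    have q1 := Real.log_le_rpow_div hL0.le (show (0:ℝ) < 1/4 by norm_num)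
    have q2 : 0 ≤ Real.log L := Real.log_nonneg hL1
    have q3 : 1 ≤ L ^ (1/4:ℝ) := Real.one_le_rpow hL1 (by norm_num)
    have q4 : √L = (L ^ (1/4:ℝ))^2 := by
      rw [← Real.rpow_natCast, ← Real.rpow_mul hL0.le, Real.sqrt_eq_rpow]; norm_num
    rw [q4]
    have q5 : 1 + Real.log L ≤ 5 * L ^ (1/4:ℝ) := by
      have : L ^ (1/4:ℝ) / (1/4) = 4 * L ^ (1/4:ℝ) := by ring
      linarith
    calc (1 + Real.log L)^2 ≤ (5 * L ^ (1/4:ℝ))^2 := by gcongr
      _ = _ := by ring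
  have e : Wd (ρ * s) K / (ρ * L) - 16 * Real.pi^2 * s =
      (Wd (ρ * s) K - 16 * Real.pi^2 * (ρ * s * (L - Real.log s))) / (ρ * L) - 16 * Real.pi^2 * s * (Real.log s / L) := by
    field_simp; ring
  rw [e]
  refine (abs_sub _ _).trans ?_
  have hLs : L - Real.log s ≤ L + B := by
    have := neg_abs_le (Real.log s)
    linarith
  have b1 : |(Wd (ρ * s) K - 16 * Real.pi^2 * (ρ * s * (L - Real.log s))) / (ρ * L)| ≤ C * s * (26 + B) * (1/√L) := by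
    rw [abs_div, abs_of_pos (show 0 < ρ * L by positivity), div_le_iff₀ (by positivity)]
    refine h4.trans ?_
    have q6 : (1 + Real.log L)^2 + (L - Real.log s)/√L ≤ 25 * √L + (√L + B * √L) := by
      have : (L - Real.log s)/√L ≤ √L + B * √L := by
        rw [div_le_iff₀ hsL]
        have : (√L + B * √L) * √L = L + B * L := by rw [add_mul, mul_assoc, hsLL]
        rw [this]
        nlinarith
      linarith
    calc C * (ρ * s * ((1 + Real.log L)^2 + (L - Real.log s)/√L)) ≤ C * (ρ * s * (25 * √L + (√L + B * √L))) := by gcongr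
      _ = C * s * (26 + B) * (1/√L) * (ρ * (√L * √L)) := by
        field_simp
        ring
      _ = _ := by rw [hsLL]
  have b2 : |16 * Real.pi^2 * s * (Real.log s / L)| ≤ 16 * Real.pi^2 * s * B * (1/√L) := by
    rw [abs_mul, abs_of_nonneg (show 0 ≤ 16 * Real.pi^2 * s by positivity), abs_div, abs_of_pos hL0]
    have : |Real.log s| / L ≤ B * (1/√L) := by
      rw [← hB, mul_one_div]
      apply div_le_div_of_nonneg_left hB0 hsL
      nlinarith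
    calc 16 * Real.pi^2 * s * (|Real.log s| / L) ≤ 16 * Real.pi^2 * s * (B * (1/√L)) := by gcongr
      _ = _ := by ring
  linarith

/-- the limit of the variance -/
theorem Wd_tend {ι : Type*} {l : Filter ι} {ρ : ι → ℝ} {K : ι → ℕ} (hρ : Tendsto ρ l (𝓝[>] 0))
    (hK : ∀ᶠ j in l, 1/(ρ j)^3 ≤ K j) (s : ℝ) :
    Tendsto (fun j => Wd (ρ j * s) (K j) / (ρ j * Real.log (1/ρ j))) l (𝓝 (16 * Real.pi^2 * |s|)) := by
  have hpos : ∀ s : ℝ, 0 < s → Tendsto (fun j => Wd (ρ j * s) (K j) / (ρ j * Real.log (1/ρ j))) l (𝓝 (16 * Real.pi^2 * s)) := by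
    intro s hs
    obtain ⟨C, hC, ρ0, hρ0, h⟩ := Wd_bound hs
    have h0 : ∀ᶠ j in l, 0 < ρ j ∧ ρ j ≤ ρ0 := hρ.eventually (by
      have : Set.Ioc 0 ρ0 ∈ 𝓝[>] (0:ℝ) := Ioc_mem_nhdsGT hρ0
      exact this)
    rw [tendsto_iff_norm_sub_tendsto_zero]
    refine squeeze_zero' (Eventually.of_forall (fun _ => norm_nonneg _)) (g := fun j => C * (1 / √(Real.log (1/ρ j)))) ?_ ?_
    · filter_upwards [h0, hK] with j hj hj2
      rw [Real.norm_eq_abs]
      exact h (ρ j) hj.1 hj.2 (K j) hj2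
    · have := (Linv_tend hρ).const_mul C
      rwa [mul_zero] at this
  rcases lt_trichotomy s 0 with hs | hs | hs
  · have h1 := hpos (-s) (by linarith)
    rw [abs_of_neg hs]
    refine h1.congr (fun j => ?_)
    rw [mul_neg, Wd_neg]
  · subst hs
    simp only [mul_zero, Wd_zero, zero_div, abs_zero]
    exact tendsto_const_nhds
  · rw [abs_of_pos hs]
    exact hpos s hs

lemma sq_expand {ι : Type*} (I : Finset ι) (t θ : ι → ℝ) :
    ‖∑ i ∈ I, (t i : ℂ) * (Complex.exp ((θ i : ℂ) * Complex.I) - 1)‖^2 =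
      ∑ i ∈ I, ∑ j ∈ I, t i * t j * ((1 - Real.cos (θ i)) + (1 - Real.cos (θ j)) - (1 - Real.cos (θ i - θ j))) := by
  rw [← Complex.normSq_eq_norm_sq, Complex.normSq_apply, Complex.re_sum, Complex.im_sum]
  have e1 : ∀ i, ((t i : ℂ) * (Complex.exp ((θ i : ℂ) * Complex.I) - 1)).re = t i * (Real.cos (θ i) - 1) := by
    intro i
    rw [Complex.re_ofReal_mul, Complex.sub_re, Complex.exp_ofReal_mul_I_re, Complex.one_re]
  have e2 : ∀ i, ((t i : ℂ) * (Complex.exp ((θ i : ℂ) * Complex.I) - 1)).im = t i * Real.sin (θ i) := by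
    intro i
    rw [Complex.im_ofReal_mul, Complex.sub_im, Complex.exp_ofReal_mul_I_im, Complex.one_im, sub_zero]
  simp only [e1, e2]
  rw [Finset.sum_mul_sum, Finset.sum_mul_sum, ← Finset.sum_add_distrib]
  apply Finset.sum_congr rfl
  intro i _
  rw [← Finset.sum_add_distrib]
  apply Finset.sum_congr rfl
  intro j _
  rw [Real.cos_sub]; ring

/-- the phase -/
noncomputable def ph : ℝ := 3 * Real.pi / 4

/-- the coefficients of the normalised increments -/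
noncomputable def Bt {k : ℕ} (ρ : ℝ) (t s : Fin k → ℝ) (m : ℕ) : ℂ :=
  ((1 / (4 * √(ρ * Real.log (1/ρ))) : ℝ) : ℂ) * ∑ i, (t i : ℂ) * (ac Circ.ag ph (ρ * s i) m - ac Circ.ag ph 0 m)

lemma ac_sub (X : ℝ) (m : ℕ) : ac Circ.ag ph X m - ac Circ.ag ph 0 m =
    ac Circ.ag ph 0 m * (Complex.exp (((2 * Real.pi * (X * √(m:ℝ)) : ℝ) : ℂ) * Complex.I) - 1) := by
  unfold ac
  rw [mul_sub, mul_one, mul_assoc ((Circ.ag m : ℝ) : ℂ) (Complex.exp _) (Complex.exp _), ← Complex.exp_add]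
  congr 3
  push_cast; ring

lemma ag_sq' {m : ℕ} (hm : 1 ≤ m) : (Circ.ag m)^2 = (rA m)^2 * (m:ℝ) ^ (-(3/2):ℝ) / Real.pi ^ 2 := by
  have hm0 : (0:ℝ) < m := by exact_mod_cast hm
  unfold Circ.ag
  rw [mul_pow, div_pow, Real.sqrt_eq_rpow, ← Real.rpow_mul hm0.le, ← Real.rpow_natCast ((m:ℝ) ^ _), ← Real.rpow_mul hm0.le]
  norm_num
  ring

lemma Bt_sq {k : ℕ} {ρ : ℝ} (hρ : 0 ≤ ρ * Real.log (1/ρ)) (t s : Fin k → ℝ) {m : ℕ} (hm : 1 ≤ m) :
    ‖Bt ρ t s m‖^2 = (1 / (16 * Real.pi^2 * (ρ * Real.log (1/ρ)))) * ∑ i, ∑ j, t i * t j *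
      ((rA m)^2 * ((m:ℝ) ^ (-(3/2):ℝ) * (1 - Real.cos (2 * Real.pi * (ρ * s i * √(m:ℝ))))) +
       (rA m)^2 * ((m:ℝ) ^ (-(3/2):ℝ) * (1 - Real.cos (2 * Real.pi * (ρ * s j * √(m:ℝ))))) -
       (rA m)^2 * ((m:ℝ) ^ (-(3/2):ℝ) * (1 - Real.cos (2 * Real.pi * (ρ * (s i - s j) * √(m:ℝ)))))) := by
  unfold Bt
  simp only [ac_sub]
  have e0 : ∑ i, (t i : ℂ) * (ac Circ.ag ph 0 m * (Complex.exp (((2 * Real.pi * (ρ * s i * √(m:ℝ)) : ℝ) : ℂ) * Complex.I) - 1)) =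
      ac Circ.ag ph 0 m * ∑ i, (t i : ℂ) * (Complex.exp (((2 * Real.pi * (ρ * s i * √(m:ℝ)) : ℝ) : ℂ) * Complex.I) - 1) := by
    rw [Finset.mul_sum]
    apply Finset.sum_congr rfl
    intro i _; ring
  rw [e0, norm_mul, norm_mul, mul_pow, mul_pow, sq_expand Finset.univ t (fun i => 2 * Real.pi * (ρ * s i * √(m:ℝ))), norm_ac, sq_abs, ag_sq' hm,
    Complex.norm_real, Real.norm_eq_abs, sq_abs, div_pow, mul_pow, Real.sq_sqrt hρ, Finset.mul_sum, Finset.mul_sum, Finset.mul_sum]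
  apply Finset.sum_congr rfl
  intro i _
  rw [Finset.mul_sum, Finset.mul_sum, Finset.mul_sum]
  apply Finset.sum_congr rfl
  intro j _
  rw [show 2 * Real.pi * (ρ * s i * √(m:ℝ)) - 2 * Real.pi * (ρ * s j * √(m:ℝ)) = 2 * Real.pi * (ρ * (s i - s j) * √(m:ℝ)) by ring]
  have hpi := Real.pi_pos
  rcases eq_or_ne (ρ * Real.log (1/ρ)) 0 with h0 | h0
  · rw [h0]; simp
  · field_simp
    ring

/-- the quadratic form of two-sided Brownian motion -/
noncomputable def Qf {k : ℕ} (t s : Fin k → ℝ) : ℝ := (1/2) * ∑ i, ∑ j, t i * t j * (|s i| + |s j| - |s i - s j|)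

lemma Bt_vb {k : ℕ} {ρ : ℝ} (hρ : 0 ≤ ρ * Real.log (1/ρ)) (t s : Fin k → ℝ) (K : ℕ) :
    vb (Bt ρ t s) (Finset.Icc 1 K) = (1/2) * ∑ i, ∑ j, t i * t j * ((1 / (16 * Real.pi^2)) *
      (Wd (ρ * s i) K / (ρ * Real.log (1/ρ)) + Wd (ρ * s j) K / (ρ * Real.log (1/ρ)) - Wd (ρ * (s i - s j)) K / (ρ * Real.log (1/ρ)))) := by
  unfold vb
  congr 1
  rw [Finset.sum_congr rfl (fun m hm => Bt_sq hρ t s (Finset.mem_Icc.mp hm).1)]
  rw [← Finset.mul_sum, Finset.sum_comm, Finset.mul_sum]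
  apply Finset.sum_congr rfl
  intro i _
  rw [Finset.sum_comm, Finset.mul_sum]
  apply Finset.sum_congr rfl
  intro j _
  rw [← Finset.mul_sum, Finset.sum_sub_distrib, Finset.sum_add_distrib]
  unfold Wd
  have hpi := Real.pi_pos
  rcases eq_or_ne (ρ * Real.log (1/ρ)) 0 with h0 | h0
  · rw [h0]; simp
  · field_simp

theorem vb_tend {ι : Type*} {l : Filter ι} {ρ : ι → ℝ} {K : ι → ℕ} (hρ : Tendsto ρ l (𝓝[>] 0))
    (hK : ∀ᶠ j in l, 1/(ρ j)^3 ≤ K j) {k : ℕ} (t s : Fin k → ℝ) :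
    Tendsto (fun j => vb (Bt (ρ j) t s) (Finset.Icc 1 (K j))) l (𝓝 (Qf t s)) := by
  have h0 : ∀ᶠ j in l, 0 < ρ j ∧ ρ j ≤ 1 := hρ.eventually (by
      have : Set.Ioc 0 (1:ℝ) ∈ 𝓝[>] (0:ℝ) := Ioc_mem_nhdsGT one_pos
      exact this)
  have hpi := Real.pi_pos
  have h1 : Tendsto (fun j => (1/2) * ∑ i, ∑ i', t i * t i' * ((1 / (16 * Real.pi^2)) *
      (Wd (ρ j * s i) (K j) / (ρ j * Real.log (1/ρ j)) + Wd (ρ j * s i') (K j) / (ρ j * Real.log (1/ρ j)) -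
        Wd (ρ j * (s i - s i')) (K j) / (ρ j * Real.log (1/ρ j))))) l
      (𝓝 ((1/2) * ∑ i, ∑ i', t i * t i' * ((1 / (16 * Real.pi^2)) *
        (16 * Real.pi^2 * |s i| + 16 * Real.pi^2 * |s i'| - 16 * Real.pi^2 * |s i - s i'|)))) := by
    apply Tendsto.const_mul
    apply tendsto_finsetSum
    intro i _
    apply tendsto_finsetSum
    intro i' _
    exact ((((Wd_tend hρ hK (s i)).add (Wd_tend hρ hK (s i'))).sub (Wd_tend hρ hK (s i - s i'))).const_mul _).const_mul _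
  have e : (1/2) * ∑ i, ∑ i', t i * t i' * ((1 / (16 * Real.pi^2)) *
        (16 * Real.pi^2 * |s i| + 16 * Real.pi^2 * |s i'| - 16 * Real.pi^2 * |s i - s i'|)) = Qf t s := by
    unfold Qf
    congr 1
    apply Finset.sum_congr rfl
    intro i _
    apply Finset.sum_congr rfl
    intro i' _
    field_simp
  rw [← e]
  refine h1.congr' ?_
  filter_upwards [h0] with j hj
  rw [Bt_vb (mul_nonneg hj.1.le (Real.log_nonneg (by rw [one_le_div hj.1]; exact hj.2)))]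

lemma Qf_nonneg {k : ℕ} (t s : Fin k → ℝ) : 0 ≤ Qf t s := by
  have hK : ∀ᶠ n : ℕ in atTop, 1 / (1/((n:ℝ)+1))^3 ≤ (((n+1)^3 : ℕ):ℝ) := by
    filter_upwards with n
    push_cast
    rw [div_pow, one_pow, one_div_one_div]
  have hρ : Tendsto (fun n : ℕ => 1/((n:ℝ)+1)) atTop (𝓝[>] 0) := by
    rw [tendsto_nhdsWithin_iff]
    refine ⟨tendsto_one_div_add_atTop_nhds_zero_nat, ?_⟩
    filter_upwards with n
    exact Set.mem_Ioi.mpr (by positivity)
  exact ge_of_tendsto' (vb_tend hρ hK t s) (fun n => vb_nonneg _ _)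

end Pool.Agent.W2helper20.GC
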