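import Mathlib
import Pool.Agent.H383.IntRad
import Pool.Agent.W2helper20.GC.Vr

open MeasureTheory Filter Topology
open Pool.Agent.H383 Pool.Agent.H383.AP Pool.Agent.H383.Gauss Pool.Agent.H383.Gen Pool.Agent.H383.GW
open Pool.Agent.N48.Ann

namespace Pool.Agent.W2helper20.GC

/-! ### mean squares -/

lemma Fc_mul_mean_ns (b : ℕ → ℂ) {m m' : ℕ} (hm : 1 ≤ m) (hc : ¬ IsSquare m) (hm' : 1 ≤ m') (hc' : ¬ IsSquare m') :
    HasMean (Fc b m * Fc b m') (if m = m' then (((1/2) * ‖b m‖^2 : ℝ) : ℂ) else 0) := by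
  set A := b m with hA
  set A' := b m' with hA'
  have hexp : Fc b m * Fc b m' =
      ((A * A' / 4) • chr (√(m:ℝ) + √(m':ℝ)) +
      (A * (starRingEnd ℂ) A' / 4) • chr (√(m:ℝ) + -√(m':ℝ))) +
      (((starRingEnd ℂ) A * A' / 4) • chr (-√(m:ℝ) + √(m':ℝ)) +
      ((starRingEnd ℂ) A * (starRingEnd ℂ) A' / 4) • chr (-√(m:ℝ) + -√(m':ℝ))) := by
    unfold Fc
    rw [← chr_mul, ← chr_mul, ← chr_mul, ← chr_mul]
    funext n
    simp only [Pi.add_apply, Pi.mul_apply, Pi.smul_apply, smul_eq_mul]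
    ring
  rw [hexp]
  have c1 : mc (√(m:ℝ) + √(m':ℝ)) = 0 := mc_zero (fun h => sqrt_add_int hm hc' h)
  have c4 : mc (-√(m:ℝ) + -√(m':ℝ)) = 0 := by
    apply mc_zero
    rintro ⟨k, hk⟩
    exact sqrt_add_int hm hc' ⟨-k, by push_cast; linarith⟩
  have hlim := ((((chr_mean (√(m:ℝ) + √(m':ℝ))).smul (A * A' / 4)).add
    ((chr_mean (√(m:ℝ) + -√(m':ℝ))).smul (A * (starRingEnd ℂ) A' / 4)))).add
    (((chr_mean (-√(m:ℝ) + √(m':ℝ))).smul ((starRingEnd ℂ) A * A' / 4)).add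
    ((chr_mean (-√(m:ℝ) + -√(m':ℝ))).smul ((starRingEnd ℂ) A * (starRingEnd ℂ) A' / 4)))
  rw [c1, c4] at hlim
  by_cases hmm : m = m'
  · subst hmm
    rw [if_pos rfl]
    have c2 : mc (√(m:ℝ) + -√(m:ℝ)) = 1 := by
      rw [add_neg_cancel, ← mn_chr, chr_zero, mn_one]
    have c3 : mc (-√(m:ℝ) + √(m:ℝ)) = 1 := by
      rw [neg_add_cancel, ← mn_chr, chr_zero, mn_one]
    rw [c2, c3] at hlim
    have h5 : A * (starRingEnd ℂ) A = ((‖b m‖^2 : ℝ) : ℂ) := by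
      rw [Complex.mul_conj, Complex.normSq_eq_norm_sq, hA]
    have h6 : A * A' / 4 * 0 + A * (starRingEnd ℂ) A' / 4 * 1 +
        ((starRingEnd ℂ) A * A' / 4 * 1 + (starRingEnd ℂ) A * (starRingEnd ℂ) A' / 4 * 0) =
        (((1/2) * ‖b m‖^2 : ℝ) : ℂ) := by
      have : A' = A := rfl
      rw [this]
      have e1 : (starRingEnd ℂ) A * A = A * (starRingEnd ℂ) A := mul_comm _ _
      rw [mul_zero, mul_zero, zero_add, add_zero, mul_one, mul_one, e1, h5]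
      push_cast; ring
    rw [h6] at hlim
    exact hlim
  · rw [if_neg hmm]
    have c2 : mc (√(m:ℝ) + -√(m':ℝ)) = 0 := by
      apply mc_zero
      rintro ⟨k, hk⟩
      exact hmm (sqrt_sub_int hc' ⟨k, by linarith⟩)
    have c3 : mc (-√(m:ℝ) + √(m':ℝ)) = 0 := by
      apply mc_zero
      rintro ⟨k, hk⟩
      exact hmm (sqrt_sub_int hc' ⟨-k, by push_cast; linarith⟩)
    rw [c2, c3] at hlim
    simpa using hlim

lemma Zc_sq_mean_ns {b : ℕ → ℂ} {T : Finset ℕ} (hT : ∀ m ∈ T, 1 ≤ m ∧ ¬ IsSquare m) :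
    HasMean (fun n : ℕ => (((Zc b T n)^2 : ℝ) : ℂ)) ((vb b T : ℝ) : ℂ) := by
  classical
  have e0 : (fun n : ℕ => (((Zc b T n)^2 : ℝ) : ℂ)) = ∑ m ∈ T, ∑ m' ∈ T, Fc b m * Fc b m' := by
    have h1 := Zc_trig b T
    have h2 : (fun n : ℕ => (((Zc b T n)^2 : ℝ) : ℂ)) = (fun n : ℕ => ((Zc b T n : ℝ) : ℂ)) * (fun n : ℕ => ((Zc b T n : ℝ) : ℂ)) := by
      funext n
      simp only [Pi.mul_apply]
      push_cast; ring
    rw [h2, h1, Finset.sum_mul_sum]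
  rw [e0]
  have h3 : HasMean (∑ m ∈ T, ∑ m' ∈ T, Fc b m * Fc b m') (∑ m ∈ T, ∑ m' ∈ T, if m = m' then (((1/2) * ‖b m‖^2 : ℝ) : ℂ) else 0) := by
    apply HasMean.sum
    intro m hm
    apply HasMean.sum
    intro m' hm'
    exact Fc_mul_mean_ns b (hT m hm).1 (hT m hm).2 (hT m' hm').1 (hT m' hm').2
  have e1 : ∑ m ∈ T, ∑ m' ∈ T, (if m = m' then (((1/2) * ‖b m‖^2 : ℝ) : ℂ) else 0) = ((vb b T : ℝ) : ℂ) := by
    unfold vb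
    rw [Finset.mul_sum]
    push_cast
    apply Finset.sum_congr rfl
    intro m hm
    rw [Finset.sum_ite_eq, if_pos hm]
  rw [e1] at h3
  exact h3

/-- mean squares over blind sets -/
lemma ra_sq_le {S : Finset ℕ} (hS : S.Nonempty) {b : ℕ → ℂ} {T : Finset ℕ} (hT : ∀ m ∈ T, 1 ≤ m ∧ ¬ IsSquare m)
    {δ : ℝ} (hδ : 0 ≤ δ) (h : Blind S (Th (T : Set ℕ) 2) δ) : ra S (fun n => (Zc b T n)^2) ≤ vb b T + δ * (sB b T)^2 := by
  have h1 := pow_transfer (b := b) hS hδ h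
  have e : (fun n : ℕ => ((Zc b T n : ℝ) : ℂ)) ^ 2 = (fun n : ℕ => (((Zc b T n)^2 : ℝ) : ℂ)) := by
    funext n
    simp only [Pi.pow_apply]
    push_cast; ring
  rw [e, (Zc_sq_mean_ns (b := b) hT).mn_eq, av_ofReal, ← Complex.ofReal_sub, Complex.norm_real, Real.norm_eq_abs] at h1
  have := (abs_le.mp h1).2
  linarith

/-! ### classes -/

lemma class_sum {s0 : ℕ} (hs0 : 1 ≤ s0) {T : Finset ℕ} (hT : ∀ m ∈ T, 1 ≤ m ∧ InC s0 m) {g : ℕ → ℝ} (hg : ∀ m, 0 ≤ g m)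
    {Z : ℝ} (hZ : ∀ B : ℕ, ∑ k ∈ Finset.Icc 1 B, g (s0 * k^2) ≤ Z) : ∑ m ∈ T, g m ≤ Z := by
  classical
  have hsub : T ⊆ (Finset.Icc 1 (T.sup id)).image (fun k => s0 * k^2) := by
    intro m hm
    obtain ⟨hm1, k, hk⟩ := hT m hm
    rw [Finset.mem_image]
    refine ⟨k, ?_, hk.symm⟩
    rw [Finset.mem_Icc]
    have hk0 : k ≠ 0 := by rintro rfl; simp at hk; omega
    refine ⟨Nat.one_le_iff_ne_zero.mpr hk0, ?_⟩
    have h1 : m ≤ T.sup id := Finset.le_sup (f := id) hm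
    have h2 : k ≤ k^2 := Nat.le_self_pow (by norm_num) k
    have h3 : k^2 ≤ s0 * k^2 := Nat.le_mul_of_pos_left _ hs0
    omega
  refine (Finset.sum_le_sum_of_subset_of_nonneg hsub (fun _ _ _ => hg _)).trans ?_
  rw [Finset.sum_image]
  · exact hZ _
  · intro a _ c _ hac
    simp only at hac
    have h1 : a^2 = c^2 := Nat.eq_of_mul_eq_mul_left hs0 hac
    exact Nat.pow_left_injective (by norm_num) h1

/-- the convergent series -/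
noncomputable def Zs (a : ℝ) : ℝ := ∑' k : ℕ, (k:ℝ) ^ (-a)

lemma Zs_nonneg (a : ℝ) : 0 ≤ Zs a := tsum_nonneg (fun _ => by positivity)

lemma Zs_le {a : ℝ} (ha : 1 < a) (B : Finset ℕ) : ∑ k ∈ B, (k:ℝ) ^ (-a) ≤ Zs a :=
  Summable.sum_le_tsum B (fun _ _ => by positivity) (Real.summable_nat_rpow.mpr (by linarith))

lemma min_rpow {x a : ℝ} (hx : 0 < x) (ha : 0 ≤ a) (ha1 : a ≤ 1) : min 1 x ≤ x ^ a := by
  rcases le_total x 1 with h | h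
  · rw [min_eq_right h]
    calc x = x ^ (1:ℝ) := (Real.rpow_one x).symm
      _ ≤ x ^ a := Real.rpow_le_rpow_of_exponent_ge hx h ha1
  · rw [min_eq_left h]
    exact Real.one_le_rpow h ha

/-- pointwise bound for the coefficients -/
lemma Bt_le {k : ℕ} (t s : Fin k → ℝ) : ∃ C : ℝ, 0 < C ∧ ∀ ρ : ℝ, 0 < ρ → ρ ≤ Real.exp (-1) → ∀ m : ℕ, 1 ≤ m →
    ‖Bt ρ t s m‖ ≤ C * (ρ ^ (-(1/2):ℝ) * ((√(m:ℝ)) ^ (-(37/25):ℝ) * min 1 (ρ * √(m:ℝ)))) := by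
  obtain ⟨C0, hC0, h0⟩ := Circ.ag_Bd
  set D : ℝ := ∑ i, |t i| * (2 + 2 * Real.pi * |s i|) with hD
  have hpi := Real.pi_pos
  have hD0 : 0 ≤ D := Finset.sum_nonneg (fun i _ => by positivity)
  refine ⟨C0 * D + 1, by positivity, ?_⟩
  intro ρ hρ hρ1 m hm
  have hm0 : (0:ℝ) < m := by exact_mod_cast hm
  have hsm : 0 < √(m:ℝ) := Real.sqrt_pos.mpr hm0
  have hL1 : 1 ≤ Real.log (1/ρ) := by
    rw [Real.le_log_iff_exp_le (by positivity), le_div_iff₀ hρ]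
    calc Real.exp 1 * ρ ≤ Real.exp 1 * Real.exp (-1) := by gcongr
      _ = 1 := by rw [← Real.exp_add]; norm_num
  have hsr : 0 < √ρ := Real.sqrt_pos.mpr hρ
  have h1 : 1 / (4 * √(ρ * Real.log (1/ρ))) ≤ ρ ^ (-(1/2):ℝ) := by
    have e1 : ρ ^ (-(1/2):ℝ) = 1/√ρ := by rw [Real.rpow_neg hρ.le, ← Real.sqrt_eq_rpow, one_div]
    rw [e1]
    apply one_div_le_one_div_of_le hsr
    have : √ρ ≤ √(ρ * Real.log (1/ρ)) := Real.sqrt_le_sqrt (by nlinarith)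
    linarith
  set x := ρ * √(m:ℝ) with hx
  have hx0 : 0 < x := by positivity
  have h2 : ∀ i, ‖(t i : ℂ) * (ac Circ.ag ph (ρ * s i) m - ac Circ.ag ph 0 m)‖ ≤
      |t i| * (2 + 2 * Real.pi * |s i|) * (C0 * (√(m:ℝ)) ^ (-(37/25):ℝ) * min 1 x) := by
    intro i
    rw [norm_mul, Complex.norm_real, Real.norm_eq_abs]
    have h3 := ac_diff Circ.ag ph 0 (ρ * s i) m
    rw [sub_zero, abs_mul, abs_of_pos hρ] at h3
    have h4 : min 2 (2 * Real.pi * (ρ * |s i|) * √(m:ℝ)) ≤ (2 + 2 * Real.pi * |s i|) * min 1 x := by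
      have hps : 0 ≤ 2 * Real.pi * |s i| := by positivity
      rcases le_total 1 x with h | h
      · rw [min_eq_left h]
        refine (min_le_left _ _).trans ?_
        linarith
      · rw [min_eq_right h]
        refine (min_le_right _ _).trans ?_
        have : 2 * Real.pi * (ρ * |s i|) * √(m:ℝ) = 2 * Real.pi * |s i| * x := by rw [hx]; ring
        rw [this]
        nlinarith
    have h5 := h0 m hm
    calc |t i| * ‖ac Circ.ag ph (ρ * s i) m - ac Circ.ag ph 0 m‖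
        ≤ |t i| * (|Circ.ag m| * min 2 (2 * Real.pi * (ρ * |s i|) * √(m:ℝ))) := by gcongr
      _ ≤ |t i| * ((C0 * (√(m:ℝ)) ^ (-(37/25):ℝ)) * ((2 + 2 * Real.pi * |s i|) * min 1 x)) := by gcongr
      _ = _ := by ring
  unfold Bt
  rw [norm_mul, Complex.norm_real, Real.norm_eq_abs, abs_of_nonneg (by positivity)]
  have h6 : ‖∑ i, (t i : ℂ) * (ac Circ.ag ph (ρ * s i) m - ac Circ.ag ph 0 m)‖ ≤ D * (C0 * (√(m:ℝ)) ^ (-(37/25):ℝ) * min 1 x) := by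
    refine (norm_sum_le _ _).trans ?_
    rw [hD, Finset.sum_mul]
    exact Finset.sum_le_sum (fun i _ => h2 i)
  have hmin : 0 ≤ min 1 x := by positivity
  calc 1 / (4 * √(ρ * Real.log (1/ρ))) * ‖∑ i, (t i : ℂ) * (ac Circ.ag ph (ρ * s i) m - ac Circ.ag ph 0 m)‖
      ≤ ρ ^ (-(1/2):ℝ) * (D * (C0 * (√(m:ℝ)) ^ (-(37/25):ℝ) * min 1 x)) := by gcongr
    _ = (C0 * D) * (ρ ^ (-(1/2):ℝ) * ((√(m:ℝ)) ^ (-(37/25):ℝ) * min 1 x)) := by ring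
    _ ≤ (C0 * D + 1) * (ρ ^ (-(1/2):ℝ) * ((√(m:ℝ)) ^ (-(37/25):ℝ) * min 1 x)) := by gcongr; linarith

lemma sqrt_class {s0 k : ℕ} : √(((s0 * k^2 : ℕ)):ℝ) = √(s0:ℝ) * k := by
  push_cast
  rw [Real.sqrt_mul (Nat.cast_nonneg s0), Real.sqrt_sq (Nat.cast_nonneg k)]

/-- class sums of the coefficients -/
lemma Bt_class {k : ℕ} (t s : Fin k → ℝ) : ∃ C : ℝ, 0 < C ∧ ∀ ρ : ℝ, 0 < ρ → ρ ≤ Real.exp (-1) → ∀ s0 : ℕ, 1 ≤ s0 →
    ∀ T : Finset ℕ, (∀ m ∈ T, 1 ≤ m ∧ InC s0 m) → sB (Bt ρ t s) T ≤ C * (ρ ^ (-(1/4):ℝ) * (s0:ℝ) ^ (-(123/200):ℝ)) ∧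
      vb (Bt ρ t s) T ≤ C * (ρ ^ (1/2:ℝ) * (s0:ℝ) ^ (-(73/100):ℝ)) := by
  obtain ⟨C0, hC0, h0⟩ := Bt_le t s
  refine ⟨C0 * Zs (123/100) + C0^2 * Zs (146/100) + 1, by
    have := Zs_nonneg (123/100); have := Zs_nonneg (146/100); positivity, ?_⟩
  intro ρ hρ hρ1 s0 hs0 T hT
  have hs0' : (0:ℝ) < s0 := by exact_mod_cast hs0
  have hss : 0 < √(s0:ℝ) := Real.sqrt_pos.mpr hs0'
  have z1 := Zs_nonneg (123/100)
  have z2 := Zs_nonneg (146/100)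
  constructor
  · have h1 : sB (Bt ρ t s) T ≤ ∑ m ∈ T, C0 * (ρ ^ (-(1/4):ℝ) * (√(m:ℝ)) ^ (-(123/100):ℝ)) := by
      unfold sB
      apply Finset.sum_le_sum
      intro m hm
      have hm1 := (hT m hm).1
      have hm0 : (0:ℝ) < m := by exact_mod_cast hm1
      have hsm : 0 < √(m:ℝ) := Real.sqrt_pos.mpr hm0
      refine (h0 ρ hρ hρ1 m hm1).trans ?_
      have h2 := min_rpow (x := ρ * √(m:ℝ)) (a := 1/4) (by positivity) (by norm_num) (by norm_num)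
      calc C0 * (ρ ^ (-(1/2):ℝ) * ((√(m:ℝ)) ^ (-(37/25):ℝ) * min 1 (ρ * √(m:ℝ))))
          ≤ C0 * (ρ ^ (-(1/2):ℝ) * ((√(m:ℝ)) ^ (-(37/25):ℝ) * (ρ * √(m:ℝ)) ^ (1/4:ℝ))) := by gcongr
        _ = C0 * ((ρ ^ (-(1/2):ℝ) * ρ ^ (1/4:ℝ)) * ((√(m:ℝ)) ^ (-(37/25):ℝ) * (√(m:ℝ)) ^ (1/4:ℝ))) := by
            rw [Real.mul_rpow hρ.le hsm.le]; ring
        _ = _ := by
            rw [← Real.rpow_add hρ, ← Real.rpow_add hsm]; norm_num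
    refine h1.trans ?_
    have h3 : ∑ m ∈ T, C0 * (ρ ^ (-(1/4):ℝ) * (√(m:ℝ)) ^ (-(123/100):ℝ)) ≤
        C0 * (ρ ^ (-(1/4):ℝ) * ((s0:ℝ) ^ (-(123/200):ℝ) * Zs (123/100))) := by
      apply class_sum hs0 hT (fun m => by positivity)
      intro B
      rw [← Finset.mul_sum, ← Finset.mul_sum]
      have h4 : ∑ k ∈ Finset.Icc 1 B, (√(((s0 * k^2 : ℕ)):ℝ)) ^ (-(123/100):ℝ) = (s0:ℝ) ^ (-(123/200):ℝ) * ∑ k ∈ Finset.Icc 1 B, (k:ℝ) ^ (-(123/100):ℝ) := by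
        rw [Finset.mul_sum]
        apply Finset.sum_congr rfl
        intro k _
        rw [sqrt_class, Real.mul_rpow hss.le (Nat.cast_nonneg k), Real.sqrt_eq_rpow, ← Real.rpow_mul hs0'.le]
        norm_num
      rw [h4]
      have h5 := Zs_le (a := 123/100) (by norm_num) (Finset.Icc 1 B)
      gcongr
    refine h3.trans ?_
    have : C0 * (ρ ^ (-(1/4):ℝ) * ((s0:ℝ) ^ (-(123/200):ℝ) * Zs (123/100))) = (C0 * Zs (123/100)) * (ρ ^ (-(1/4):ℝ) * (s0:ℝ) ^ (-(123/200):ℝ)) := by ring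
    rw [this]
    apply mul_le_mul_of_nonneg_right _ (by positivity)
    nlinarith
  · have h1 : vb (Bt ρ t s) T ≤ ∑ m ∈ T, C0^2 * (ρ ^ (1/2:ℝ) * (√(m:ℝ)) ^ (-(146/100):ℝ)) := by
      have h1' : ∑ m ∈ T, ‖Bt ρ t s m‖^2 ≤ ∑ m ∈ T, C0^2 * (ρ ^ (1/2:ℝ) * (√(m:ℝ)) ^ (-(146/100):ℝ)) := by
        apply Finset.sum_le_sum
        intro m hm
        have hm1 := (hT m hm).1
        have hm0 : (0:ℝ) < m := by exact_mod_cast hm1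
        have hsm : 0 < √(m:ℝ) := Real.sqrt_pos.mpr hm0
        have h2 := min_rpow (x := ρ * √(m:ℝ)) (a := 3/4) (by positivity) (by norm_num) (by norm_num)
        have h3 : ‖Bt ρ t s m‖ ≤ C0 * (ρ ^ (1/4:ℝ) * (√(m:ℝ)) ^ (-(73/100):ℝ)) := by
          refine (h0 ρ hρ hρ1 m hm1).trans ?_
          calc C0 * (ρ ^ (-(1/2):ℝ) * ((√(m:ℝ)) ^ (-(37/25):ℝ) * min 1 (ρ * √(m:ℝ))))
              ≤ C0 * (ρ ^ (-(1/2):ℝ) * ((√(m:ℝ)) ^ (-(37/25):ℝ) * (ρ * √(m:ℝ)) ^ (3/4:ℝ))) := by gcongr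
            _ = C0 * ((ρ ^ (-(1/2):ℝ) * ρ ^ (3/4:ℝ)) * ((√(m:ℝ)) ^ (-(37/25):ℝ) * (√(m:ℝ)) ^ (3/4:ℝ))) := by
                rw [Real.mul_rpow hρ.le hsm.le]; ring
            _ = _ := by
                rw [← Real.rpow_add hρ, ← Real.rpow_add hsm]; norm_num
        calc ‖Bt ρ t s m‖^2 ≤ (C0 * (ρ ^ (1/4:ℝ) * (√(m:ℝ)) ^ (-(73/100):ℝ)))^2 := pow_le_pow_left₀ (norm_nonneg _) h3 2
          _ = C0^2 * ((ρ ^ (1/4:ℝ))^2 * ((√(m:ℝ)) ^ (-(73/100):ℝ))^2) := by ring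
          _ = _ := by
              rw [← Real.rpow_natCast (ρ ^ (1/4:ℝ)), ← Real.rpow_mul hρ.le, ← Real.rpow_natCast ((√(m:ℝ)) ^ _), ← Real.rpow_mul hsm.le]
              norm_num
      have h2' : 0 ≤ ∑ m ∈ T, ‖Bt ρ t s m‖^2 := Finset.sum_nonneg (fun _ _ => by positivity)
      unfold vb
      linarith
    refine h1.trans ?_
    have h3 : ∑ m ∈ T, C0^2 * (ρ ^ (1/2:ℝ) * (√(m:ℝ)) ^ (-(146/100):ℝ)) ≤
        C0^2 * (ρ ^ (1/2:ℝ) * ((s0:ℝ) ^ (-(73/100):ℝ) * Zs (146/100))) := by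
      apply class_sum hs0 hT (fun m => by positivity)
      intro B
      rw [← Finset.mul_sum, ← Finset.mul_sum]
      have h4 : ∑ k ∈ Finset.Icc 1 B, (√(((s0 * k^2 : ℕ)):ℝ)) ^ (-(146/100):ℝ) = (s0:ℝ) ^ (-(73/100):ℝ) * ∑ k ∈ Finset.Icc 1 B, (k:ℝ) ^ (-(146/100):ℝ) := by
        rw [Finset.mul_sum]
        apply Finset.sum_congr rfl
        intro k _
        rw [sqrt_class, Real.mul_rpow hss.le (Nat.cast_nonneg k), Real.sqrt_eq_rpow, ← Real.rpow_mul hs0'.le]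
        norm_num
      rw [h4]
      have h5 := Zs_le (a := 146/100) (by norm_num) (Finset.Icc 1 B)
      gcongr
    refine h3.trans ?_
    have : C0^2 * (ρ ^ (1/2:ℝ) * ((s0:ℝ) ^ (-(73/100):ℝ) * Zs (146/100))) = (C0^2 * Zs (146/100)) * (ρ ^ (1/2:ℝ) * (s0:ℝ) ^ (-(73/100):ℝ)) := by ring
    rw [this]
    apply mul_le_mul_of_nonneg_right _ (by positivity)
    nlinarith

lemma sf_pos (m : ℕ) : 1 ≤ sf m := Nat.one_le_iff_ne_zero.mpr (sf_spec m).1.ne_zero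

lemma sf_le {m : ℕ} (hm : 1 ≤ m) : sf m ≤ m := by
  obtain ⟨t, ht⟩ := (sf_spec m).2
  have ht0 : t ≠ 0 := by rintro rfl; simp at ht; omega
  have : 1 ≤ t^2 := Nat.one_le_pow _ _ (Nat.one_le_iff_ne_zero.mpr ht0)
  calc sf m ≤ sf m * t^2 := Nat.le_mul_of_pos_right _ this
    _ = m := ht.symm

lemma sf_sq {m : ℕ} (hm : 1 ≤ m) (h : IsSquare m) : sf m = 1 := by
  obtain ⟨r, hr⟩ := h
  exact sf_eq squarefree_one hm ⟨r, by rw [hr]; ring⟩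

open Classical in
/-- big classes -/
theorem big_class {k : ℕ} (t s : Fin k → ℝ) : ∃ C : ℝ, 0 < C ∧ ∀ ρ : ℝ, 0 < ρ → ρ ≤ Real.exp (-1) →
    ∀ T : Finset ℕ, (∀ m ∈ T, 1 ≤ m ∧ 1/ρ < sf m) → ∀ s0 ∈ T.image sf, sB (Bt ρ t s) (T.filter (InC s0)) ≤ C * ρ ^ (73/200:ℝ) := by
  obtain ⟨C, hC, h⟩ := Bt_class t s
  refine ⟨C, hC, ?_⟩
  intro ρ hρ hρ1 T hT s0 hs0
  rw [Finset.mem_image] at hs0
  obtain ⟨m, hm, hms⟩ := hs0
  have h1 : 1 ≤ s0 := by rw [← hms]; exact sf_pos m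
  have h2 : 1/ρ < s0 := by rw [← hms]; exact (hT m hm).2
  have h3 := (h ρ hρ hρ1 s0 h1 (T.filter (InC s0)) (fun m hm => by
    rw [Finset.mem_filter] at hm
    exact ⟨(hT m hm.1).1, hm.2⟩)).1
  refine h3.trans ?_
  have h4 : (s0:ℝ) ^ (-(123/200):ℝ) ≤ ρ ^ (123/200:ℝ) := by
    calc (s0:ℝ) ^ (-(123/200):ℝ) ≤ (1/ρ) ^ (-(123/200):ℝ) := Real.rpow_le_rpow_of_nonpos (by positivity) h2.le (by norm_num)
      _ = ρ ^ (123/200:ℝ) := by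
        rw [one_div, Real.inv_rpow hρ.le, Real.rpow_neg hρ.le, inv_inv]
  calc C * (ρ ^ (-(1/4):ℝ) * (s0:ℝ) ^ (-(123/200):ℝ)) ≤ C * (ρ ^ (-(1/4):ℝ) * ρ ^ (123/200:ℝ)) := by gcongr
    _ = C * ρ ^ (73/200:ℝ) := by rw [← Real.rpow_add hρ]; norm_num

open Classical in
/-- small classes -/
theorem small_class {k : ℕ} (t s : Fin k → ℝ) : ∃ C : ℝ, 0 < C ∧ ∀ ρ : ℝ, 0 < ρ → ρ ≤ Real.exp (-1) →
    ∀ T : Finset ℕ, (∀ m ∈ T, 1 ≤ m ∧ sf m ≤ 1/ρ) → vb (Bt ρ t s) T ≤ C * ρ ^ (22/100:ℝ) := by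
  obtain ⟨C, hC, h⟩ := Bt_class t s
  refine ⟨C * Zs (101/100) + 1, by have := Zs_nonneg (101/100); positivity, ?_⟩
  intro ρ hρ hρ1 T hT
  have z1 := Zs_nonneg (101/100)
  rw [← vb_sum (fun m hm => (hT m hm).1)]
  have h1 : ∀ s0 ∈ T.image sf, vb (Bt ρ t s) (T.filter (InC s0)) ≤ C * (ρ ^ (22/100:ℝ) * (s0:ℝ) ^ (-(101/100):ℝ)) := by
    intro s0 hs0
    rw [Finset.mem_image] at hs0
    obtain ⟨m, hm, hms⟩ := hs0
    have h1 : 1 ≤ s0 := by rw [← hms]; exact sf_pos m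
    have h1' : (0:ℝ) < s0 := by exact_mod_cast h1
    have h2 : s0 ≤ 1/ρ := by rw [← hms]; exact (hT m hm).2
    have h3 := (h ρ hρ hρ1 s0 h1 (T.filter (InC s0)) (fun m hm => by
      rw [Finset.mem_filter] at hm
      exact ⟨(hT m hm.1).1, hm.2⟩)).2
    refine h3.trans ?_
    have h4 : (s0:ℝ) ^ (28/100:ℝ) ≤ ρ ^ (-(28/100):ℝ) := by
      calc (s0:ℝ) ^ (28/100:ℝ) ≤ (1/ρ) ^ (28/100:ℝ) := Real.rpow_le_rpow h1'.le h2 (by norm_num)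
        _ = ρ ^ (-(28/100):ℝ) := by
          rw [one_div, Real.inv_rpow hρ.le, Real.rpow_neg hρ.le]
    have h5 : (s0:ℝ) ^ (-(73/100):ℝ) = (s0:ℝ) ^ (28/100:ℝ) * (s0:ℝ) ^ (-(101/100):ℝ) := by
      rw [← Real.rpow_add h1']; norm_num
    rw [h5]
    calc C * (ρ ^ (1/2:ℝ) * ((s0:ℝ) ^ (28/100:ℝ) * (s0:ℝ) ^ (-(101/100):ℝ)))
        ≤ C * (ρ ^ (1/2:ℝ) * (ρ ^ (-(28/100):ℝ) * (s0:ℝ) ^ (-(101/100):ℝ))) := by gcongr
      _ = C * ((ρ ^ (1/2:ℝ) * ρ ^ (-(28/100):ℝ)) * (s0:ℝ) ^ (-(101/100):ℝ)) := by ring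
      _ = _ := by rw [← Real.rpow_add hρ]; norm_num
  calc ∑ s0 ∈ T.image sf, vb (Bt ρ t s) (T.filter (InC s0)) ≤ ∑ s0 ∈ T.image sf, C * (ρ ^ (22/100:ℝ) * (s0:ℝ) ^ (-(101/100):ℝ)) :=
        Finset.sum_le_sum h1
    _ = C * (ρ ^ (22/100:ℝ) * ∑ s0 ∈ T.image sf, (s0:ℝ) ^ (-(101/100):ℝ)) := by rw [← Finset.mul_sum, ← Finset.mul_sum]
    _ ≤ C * (ρ ^ (22/100:ℝ) * Zs (101/100)) := by
        have := Zs_le (a := 101/100) (by norm_num) (T.image sf)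
        gcongr
    _ = (C * Zs (101/100)) * ρ ^ (22/100:ℝ) := by ring
    _ ≤ _ := by
        apply mul_le_mul_of_nonneg_right _ (by positivity)
        linarith

/-- total size of the coefficients -/
theorem Bt_total {k : ℕ} (t s : Fin k → ℝ) : ∃ C : ℝ, 0 < C ∧ ∀ ρ : ℝ, 0 < ρ → ρ ≤ Real.exp (-1) → ∀ M : ℕ, 1/ρ^3 ≤ M →
    ∀ T : Finset ℕ, T ⊆ Finset.Icc 1 (M^2) → sB (Bt ρ t s) T ≤ C * (M:ℝ)^3 := by
  obtain ⟨C, hC, h⟩ := Bt_le t s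
  refine ⟨C, hC, ?_⟩
  intro ρ hρ hρ1 M hM T hT
  have hρ1' : ρ ≤ 1 := hρ1.trans (by rw [Real.exp_le_one_iff]; norm_num)
  have h1 : ρ ^ (-(1/2):ℝ) ≤ M := by
    refine le_trans ?_ hM
    have : ρ ^ (-(1/2):ℝ) ≤ ρ ^ (-(3:ℝ)) := Real.rpow_le_rpow_of_exponent_ge hρ hρ1' (by norm_num)
    refine this.trans (le_of_eq ?_)
    rw [Real.rpow_neg hρ.le, one_div]
    congr 1
    exact_mod_cast Real.rpow_natCast ρ 3
  have hM0 : (0:ℝ) ≤ M := Nat.cast_nonneg M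
  calc sB (Bt ρ t s) T = ∑ m ∈ T, ‖Bt ρ t s m‖ := rfl
    _ ≤ ∑ m ∈ Finset.Icc 1 (M^2), ‖Bt ρ t s m‖ := Finset.sum_le_sum_of_subset_of_nonneg hT (fun _ _ _ => norm_nonneg _)
    _ ≤ ∑ m ∈ Finset.Icc 1 (M^2), C * (M:ℝ) := by
        apply Finset.sum_le_sum
        intro m hm
        have hm1 := (Finset.mem_Icc.mp hm).1
        have hm1' : (1:ℝ) ≤ m := by exact_mod_cast hm1
        have hsm : 1 ≤ √(m:ℝ) := Real.one_le_sqrt.mpr hm1'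
        refine (h ρ hρ hρ1 m hm1).trans ?_
        have h2 : (√(m:ℝ)) ^ (-(37/25):ℝ) ≤ 1 := Real.rpow_le_one_of_one_le_of_nonpos hsm (by norm_num)
        have h3 : min 1 (ρ * √(m:ℝ)) ≤ 1 := min_le_left _ _
        have h4 : 0 ≤ min 1 (ρ * √(m:ℝ)) := by positivity
        calc C * (ρ ^ (-(1/2):ℝ) * ((√(m:ℝ)) ^ (-(37/25):ℝ) * min 1 (ρ * √(m:ℝ)))) ≤ C * ((M:ℝ) * (1 * 1)) := by gcongr
          _ = _ := by ring
    _ = C * (M:ℝ)^3 := by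
        rw [Finset.sum_const, Nat.card_Icc, nsmul_eq_mul]
        push_cast
        ring

end Pool.Agent.W2helper20.GC
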