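import Mathlib
import Pool.Agent.W2helper20.GC.Poly

/-!
Intervals of integers are blind for short sums of square roots.
-/

open Filter Topology
open Pool.Agent.H383.AP

namespace Pool.Agent.W2helper20.GC

lemma jordan {x : ℝ} (hx : |x| ≤ 1/2) : 2 * |x| ≤ |Real.sin (Real.pi * x)| := by
  have hpi := Real.pi_pos
  have key : ∀ y : ℝ, 0 ≤ y → y ≤ 1/2 → 2 * y ≤ Real.sin (Real.pi * y) := by
    intro y hy hy2
    have h := Real.mul_le_sin (x := Real.pi * y) (by positivity) (by nlinarith)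
    calc 2 * y = 2 / Real.pi * (Real.pi * y) := by field_simp
      _ ≤ _ := h
  rcases le_total 0 x with h | h
  · rw [abs_of_nonneg h] at hx ⊢
    exact (key x h hx).trans (le_abs_self _)
  · rw [abs_of_nonpos h] at hx ⊢
    have h1 := key (-x) (by linarith) hx
    have h2 : Real.sin (Real.pi * -x) = - Real.sin (Real.pi * x) := by rw [mul_neg, Real.sin_neg]
    rw [h2] at h1
    exact h1.trans (neg_le_abs _)

lemma chr_one_sub (θ : ℝ) (a : ℤ) : ‖chr θ 1 - 1‖ = 2 * |Real.sin (Real.pi * (θ - a))| := by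
  have h1 : chr θ 1 = chr (θ - a) 1 := by
    have h2 : chr θ = chr (θ - a) * chr (a:ℝ) := by rw [chr_mul, sub_add_cancel]
    rw [h2, Pi.mul_apply, chr_int ⟨a, rfl⟩ 1, mul_one]
  rw [h1]
  unfold chr
  have e : ((2 * Real.pi * (((1:ℕ):ℝ) * (θ - a)) : ℝ) : ℂ) * Complex.I = Complex.I * ((2 * (Real.pi * (θ - a)) : ℝ) : ℂ) := by
    push_cast; ring
  rw [e, Complex.norm_exp_I_mul_ofReal_sub_one]
  rw [show 2 * (Real.pi * (θ - a)) / 2 = Real.pi * (θ - a) by ring]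
  rw [Real.norm_eq_abs, abs_mul, abs_of_pos (by norm_num : (0:ℝ) < 2)]

lemma chr_pow (θ : ℝ) (n : ℕ) : chr θ n = (chr θ 1) ^ n := by
  unfold chr
  rw [← Complex.exp_nat_mul]
  congr 1
  push_cast; ring

lemma chr_add (θ : ℝ) (m n : ℕ) : chr θ (m + n) = chr θ m * chr θ n := by
  rw [chr_pow θ (m+n), chr_pow θ m, chr_pow θ n, pow_add]

lemma geom_le {θ : ℝ} {a : ℤ} (h0 : 0 < |θ - a|) (h1 : |θ - a| ≤ 1/2) (k N : ℕ) :
    ‖∑ n ∈ Finset.Ioc k (k + N), chr θ n‖ ≤ 1 / (2 * |θ - a|) := by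
  have h2 := chr_one_sub θ a
  have h3 := jordan h1
  have h4 : 4 * |θ - a| ≤ ‖chr θ 1 - 1‖ := by rw [h2]; linarith
  have hne : chr θ 1 ≠ 1 := by
    intro h
    rw [h, sub_self, norm_zero] at h4
    linarith
  have e : ∑ n ∈ Finset.Ioc k (k + N), chr θ n = chr θ (k+1) * ∑ n ∈ Finset.range N, (chr θ 1) ^ n := by
    have h5 : Finset.Ioc k (k + N) = Finset.Ico (k + 1) (k + 1 + N) := by
      ext x; simp only [Finset.mem_Ioc, Finset.mem_Ico]; omega
    rw [h5, Finset.sum_Ico_eq_sum_range, show k + 1 + N - (k + 1) = N by omega, Finset.mul_sum]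
    apply Finset.sum_congr rfl
    intro n _
    rw [chr_add, chr_pow θ n]
  rw [e, geom_sum_eq hne, norm_mul, norm_chr, one_mul, norm_div]
  have h6 : ‖(chr θ 1) ^ N - 1‖ ≤ 2 := by
    refine (norm_sub_le _ _).trans ?_
    rw [← chr_pow, norm_chr, norm_one]; norm_num
  calc ‖(chr θ 1) ^ N - 1‖ / ‖chr θ 1 - 1‖ ≤ 2 / (4 * |θ - a|) := by gcongr
    _ = _ := by field_simp; norm_num

lemma Th_abs {T : Set ℕ} {D : ℝ} (hD : ∀ m ∈ T, √(m:ℝ) ≤ D) {k : ℕ} : ∀ θ ∈ Th T k, |θ| ≤ k * D := by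
  induction k with
  | zero =>
    intro θ hθ
    have h0 : θ = 0 := hθ
    simp [h0]
  | succ k ih =>
    rintro θ ⟨θ', hθ', m, hm, hθ⟩
    have h1 := ih θ' hθ'
    have h2 := hD m hm
    have h3 : 0 ≤ √(m:ℝ) := Real.sqrt_nonneg _
    obtain ⟨h4, h5⟩ := abs_le.mp h1
    push_cast
    rw [abs_le]
    rcases hθ with h | h
    · constructor <;> linarith
    · constructor <;> linarith

/-- distance to the integers -/
theorem Th_dist {T : Set ℕ} {D : ℝ} (hD0 : 0 ≤ D) (hD : ∀ m ∈ T, √(m:ℝ) ≤ D) {k : ℕ} {θ : ℝ} (hθ : θ ∈ Th T k)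
    (hne : ¬ ∃ a : ℤ, θ = a) : ∃ a : ℤ, |θ - a| ≤ 1/2 ∧ 1 ≤ |θ - a| * (2 * (k * D + 1)) ^ (2^k) := by
  refine ⟨round θ, abs_sub_round θ, ?_⟩
  have h1 := Th_abs hD θ hθ
  have h2 : |((-(round θ) : ℤ) : ℝ)| ≤ k * D + 1/2 := by
    push_cast
    rw [abs_neg]
    calc |((round θ : ℤ) : ℝ)| = |θ - (θ - (round θ : ℝ))| := by congr 1; ring
      _ ≤ |θ| + |θ - (round θ : ℝ)| := abs_sub _ _
      _ ≤ _ := add_le_add h1 (abs_sub_round θ)
  have hkD : 0 ≤ (k:ℝ) * D := by positivity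
  have h3 := Th_lower hD hθ (-(round θ)) (by
    intro h
    apply hne
    refine ⟨round θ, ?_⟩
    push_cast at h
    linarith) (B := 2 * (k * D + 1)) (by linarith) (by linarith)
  push_cast at h3
  rw [← sub_eq_add_neg] at h3
  exact h3

/-- intervals -/
theorem blind_win {T : Set ℕ} {D : ℝ} (hD0 : 0 ≤ D) (hD : ∀ m ∈ T, √(m:ℝ) ≤ D) (k K : ℕ) {N : ℕ} (hN : 1 ≤ N) :
    Blind (Finset.Ioc K (K + N)) (Th T k) ((2 * (k * D + 1)) ^ (2^k) / N) := by
  intro θ hθ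
  by_cases hi : ∃ a : ℤ, θ = a
  · left; exact hi
  · right
    obtain ⟨a, h1, h2⟩ := Th_dist hD0 hD hθ hi
    have h0 : 0 < |θ - a| := by
      rcases (abs_nonneg (θ - a)).lt_or_eq with h | h
      · exact h
      · rw [← h, zero_mul] at h2; linarith
    have h3 := geom_le h0 h1 K N
    unfold av
    rw [norm_div, Complex.norm_natCast, Nat.card_Ioc, Nat.add_sub_cancel_left]
    apply div_le_div_of_nonneg_right _ (Nat.cast_nonneg _)
    refine h3.trans ?_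
    rw [div_le_iff₀ (by positivity)]
    nlinarith

end Pool.Agent.W2helper20.GC
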