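import Mathlib
import Pool.Agent.W2helper20.GC.Cl
import Pool.Agent.W2helper20.GC.Win

open MeasureTheory Filter Topology
open Pool.Agent.H383 Pool.Agent.H383.AP Pool.Agent.H383.Gauss Pool.Agent.H383.Gen Pool.Agent.H383.GW
open Pool.Agent.N48.Ann

namespace Pool.Agent.W2helper20.GC

lemma Th_mono {T T' : Set ℕ} (h : T ⊆ T') (k : ℕ) : Th T k ⊆ Th T' k := by
  induction k with
  | zero => exact subset_rfl
  | succ k ih =>
    rintro θ ⟨θ', h1, m, hm, h2⟩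
    exact ⟨θ', ih h1, m, h hm, h2⟩

lemma Blind.mono {S : Finset ℕ} {T T' : Set ℕ} {k : ℕ} {δ δ' : ℝ} (h : Blind S (Th T' k) δ) (hT : T ⊆ T') (hδ : δ ≤ δ') :
    Blind S (Th T k) δ' := by
  intro θ hθ
  rcases h θ (Th_mono hT k hθ) with h1 | h1
  · exact Or.inl h1
  · exact Or.inr (h1.trans hδ)

/-- admissible families -/
structure AdmS {ι : Type*} (l : Filter ι) (ρ : ι → ℝ) (M : ι → ℕ) (S : ι → Finset ℕ) : Prop where
  rho : Tendsto ρ l (𝓝[>] 0)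
  MM : ∀ᶠ j in l, 1/(ρ j)^3 ≤ M j
  ne : ∀ᶠ j in l, (S j).Nonempty
  blind : ∀ k C : ℕ, ∀ᶠ j in l, Blind (S j) (Th ((Finset.Icc 1 ((M j)^2) : Finset ℕ) : Set ℕ) k) (1/(M j : ℝ)^C)

variable {ι : Type*} {l : Filter ι} {ρ : ι → ℝ} {M : ι → ℕ} {S : ι → Finset ℕ}

lemma AdmS.small (h : AdmS l ρ M S) {r : ℝ} (hr : 0 < r) : ∀ᶠ j in l, 0 < ρ j ∧ ρ j ≤ r := by
  exact h.rho (Ioc_mem_nhdsGT hr)

lemma AdmS.big (h : AdmS l ρ M S) (A : ℝ) : ∀ᶠ j in l, A ≤ M j := by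
  filter_upwards [h.small (r := min 1 (1/(|A|+1))) (by positivity), h.MM] with j hj hj2
  refine le_trans ?_ hj2
  have h1 : ρ j ≤ 1 := hj.2.trans (min_le_left _ _)
  have h2 : ρ j ≤ 1/(|A|+1) := hj.2.trans (min_le_right _ _)
  have h3 : (ρ j)^3 ≤ ρ j := by
    have := hj.1
    calc (ρ j)^3 = (ρ j) * (ρ j * ρ j) := by ring
      _ ≤ ρ j * (1 * 1) := by gcongr
      _ = ρ j := by ring
  rw [le_div_iff₀ (pow_pos hj.1 3)]
  rw [le_div_iff₀ (by positivity)] at h2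
  have h4 := le_abs_self A
  have h5 := hj.1
  have h6 := abs_nonneg A
  have h7 : 0 < (ρ j)^3 := pow_pos hj.1 3
  calc A * (ρ j)^3 ≤ |A| * (ρ j)^3 := by gcongr
    _ ≤ |A| * ρ j := by gcongr
    _ ≤ 1 := by nlinarith

lemma rho_pow_tend (h : AdmS l ρ M S) {a : ℝ} (ha : 0 < a) : Tendsto (fun j => (ρ j) ^ a) l (𝓝 0) := by
  have h1 : Tendsto ρ l (𝓝 0) := h.rho.mono_right nhdsWithin_le_nhds
  have h2 := h1.rpow_const (p := a) (Or.inr ha.le)
  rwa [Real.zero_rpow ha.ne'] at h2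

lemma M_inv_tend (h : AdmS l ρ M S) : Tendsto (fun j => 1/(M j : ℝ)) l (𝓝 0) := by
  have h1 : Tendsto (fun j => (M j : ℝ)) l atTop := tendsto_atTop.mpr (fun A => h.big A)
  simp only [one_div]
  exact tendsto_inv_atTop_zero.comp h1

open Classical in
/-- the big classes -/
noncomputable def T1 (ρ : ℝ) (M : ℕ) : Finset ℕ := (Finset.Icc 1 (M^2)).filter (fun m => 1/ρ < sf m)

lemma mem_T1 {ρ : ℝ} {M m : ℕ} : m ∈ T1 ρ M ↔ (1 ≤ m ∧ m ≤ M^2) ∧ 1/ρ < sf m := by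
  classical
  unfold T1
  rw [Finset.mem_filter, Finset.mem_Icc]

/-- coefficients -/
noncomputable def bj {k : ℕ} (t0 : ℝ) (M0 : ℕ) (ρ : ℝ) (t s : Fin k → ℝ) (m : ℕ) : ℂ :=
  if m ≤ M0^2 then (t0:ℂ) * ac Circ.ag ph 0 m else Bt ρ t s m

lemma Ez_congr {b b' : ℕ → ℂ} {T : Finset ℕ} (h : ∀ m ∈ T, b m = b' m) (z : ℂ) : Ez b z T = Ez b' z T := by
  funext n
  unfold Ez
  congr 3
  unfold Zc
  congr 1
  exact Finset.sum_congr rfl (fun m hm => by rw [h m hm])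

lemma mn_Ez_le (b : ℕ → ℂ) (l : ℝ) (T : Finset ℕ) : ‖mn (Ez b (l:ℂ) T)‖ ≤ Real.exp (|l| * sB b T) := by
  apply mn_norm_le (Ez_top b (l:ℂ) T) (Real.exp_pos _).le
  intro n
  unfold Ez
  rw [Complex.norm_exp]
  apply Real.exp_le_exp.mpr
  rw [← Complex.ofReal_mul, Complex.ofReal_re]
  calc l * Zc b T n ≤ |l * Zc b T n| := le_abs_self _
    _ = |l| * |Zc b T n| := abs_mul _ _
    _ ≤ |l| * sB b T := mul_le_mul_of_nonneg_left (abs_Zc_le b T n) (abs_nonneg _)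

/-- variance of the big classes -/
lemma vb_T1 (h : AdmS l ρ M S) {k : ℕ} (t s : Fin k → ℝ) : Tendsto (fun j => vb (Bt (ρ j) t s) (T1 (ρ j) (M j))) l (𝓝 (Qf t s)) := by
  classical
  obtain ⟨C, hC, hs⟩ := small_class t s
  have h1 := vb_tend h.rho (K := fun j => (M j)^2) (by
    filter_upwards [h.MM, h.big 1] with j hj hj1
    push_cast
    nlinarith) t s
  have h2 : Tendsto (fun j => vb (Bt (ρ j) t s) ((Finset.Icc 1 ((M j)^2)).filter (fun m => ¬ (1/ρ j < sf m)))) l (𝓝 0) := by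
    refine squeeze_zero' (Eventually.of_forall (fun _ => vb_nonneg _ _)) (g := fun j => C * (ρ j) ^ (22/100:ℝ)) ?_ ?_
    · filter_upwards [h.small (Real.exp_pos (-1))] with j hj
      apply hs (ρ j) hj.1 hj.2
      intro m hm
      rw [Finset.mem_filter, Finset.mem_Icc, not_lt] at hm
      exact ⟨hm.1.1, hm.2⟩
    · have := (rho_pow_tend h (a := 22/100) (by norm_num)).const_mul C
      rwa [mul_zero] at this
  have h3 := h1.sub h2
  rw [sub_zero] at h3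
  refine h3.congr (fun j => ?_)
  have e : vb (Bt (ρ j) t s) (Finset.Icc 1 ((M j)^2)) = vb (Bt (ρ j) t s) (T1 (ρ j) (M j)) +
      vb (Bt (ρ j) t s) ((Finset.Icc 1 ((M j)^2)).filter (fun m => ¬ (1/ρ j < sf m))) := by
    unfold vb T1
    rw [← mul_add, Finset.sum_filter_add_sum_filter_not]
  rw [e]; ring

/-- **the core limit theorem** -/
theorem core (h : AdmS l ρ M S) (t0 : ℝ) (M0 : ℕ) {k : ℕ} (t s : Fin k → ℝ) :
    Tendsto (fun j => av (S j) (Ez (bj t0 M0 (ρ j) t s) Complex.I (Finset.Icc 1 (M0^2) ∪ T1 (ρ j) (M j)))) l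
      (𝓝 (mn (Ez (fun m => (t0:ℂ) * ac Circ.ag ph 0 m) Complex.I (Finset.Icc 1 (M0^2))) * ((Real.exp (-(Qf t s / 2)) : ℝ) : ℂ))) := by
  classical
  set a0 : ℕ → ℂ := fun m => (t0:ℂ) * ac Circ.ag ph 0 m with ha0
  set T0 := Finset.Icc 1 (M0^2) with hT0
  set B0 := sB a0 T0 with hB0
  have hB00 : 0 ≤ B0 := sB_nonneg _ _
  obtain ⟨Cb, hCb, hbig⟩ := big_class t s
  obtain ⟨Ct, hCt, htot⟩ := Bt_total t s
  have hvb := vb_T1 h t s
  have hQ := Qf_nonneg t s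
  -- eventual facts
  have ev : ∀ᶠ j in l, (0 < ρ j ∧ ρ j ≤ Real.exp (-1)) ∧ ((M0:ℝ)^2 < 1/ρ j) ∧ ((1:ℝ) ≤ M j) ∧ (M0 ≤ M j) ∧ (S j).Nonempty ∧ 1/(ρ j)^3 ≤ M j := by
    have h1 : ∀ᶠ j in l, (M0:ℝ) ≤ M j := h.big _
    filter_upwards [h.small (Real.exp_pos (-1)), h.small (r := 1/((M0:ℝ)^2+1)) (by positivity), h.big 1, h1, h.ne, h.MM] with j a1 a2 a3 a4 a5 a6
    refine ⟨a1, ?_, a3, by exact_mod_cast a4, a5, a6⟩
    rw [lt_div_iff₀ a1.1]
    have := a2.2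
    rw [le_div_iff₀ (by positivity)] at this
    nlinarith [a1.1]
  have facts : ∀ j, ((0 < ρ j ∧ ρ j ≤ Real.exp (-1)) ∧ ((M0:ℝ)^2 < 1/ρ j) ∧ ((1:ℝ) ≤ M j) ∧ (M0 ≤ M j) ∧ (S j).Nonempty ∧ 1/(ρ j)^3 ≤ M j) →
      (∀ m ∈ T1 (ρ j) (M j), 1 ≤ m ∧ ¬ IsSquare m) ∧ (∀ m ∈ T1 (ρ j) (M j), ¬ m ≤ M0^2) ∧
      (∀ m ∈ T0, ∀ m' ∈ T1 (ρ j) (M j), sf m ≠ sf m') ∧ (T0 ∪ T1 (ρ j) (M j) ⊆ Finset.Icc 1 ((M j)^2)) := by
    rintro j ⟨⟨a1, a2⟩, a3, a4, a5, a6, a7⟩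
    have hρ1 : 1 < 1/ρ j := by
      rw [one_lt_div a1]
      refine lt_of_le_of_lt a2 ?_
      rw [Real.exp_lt_one_iff]; norm_num
    refine ⟨?_, ?_, ?_, ?_⟩
    · intro m hm
      rw [mem_T1] at hm
      refine ⟨hm.1.1, fun hsq => ?_⟩
      rw [sf_sq hm.1.1 hsq] at hm
      have := hm.2
      push_cast at this
      linarith
    · intro m hm hle
      rw [mem_T1] at hm
      have h1 : ((sf m : ℕ):ℝ) ≤ (M0:ℝ)^2 := by
        have : sf m ≤ M0^2 := (sf_le hm.1.1).trans hle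
        exact_mod_cast this
      linarith [hm.2]
    · intro m hm m' hm' he
      rw [mem_T1, ← he] at hm'
      rw [hT0, Finset.mem_Icc] at hm
      have h1 : ((sf m : ℕ):ℝ) ≤ (M0:ℝ)^2 := by
        have : sf m ≤ M0^2 := (sf_le hm.1).trans hm.2
        exact_mod_cast this
      linarith [hm'.2]
    · apply Finset.union_subset
      · rw [hT0]
        exact Finset.Icc_subset_Icc_right (Nat.pow_le_pow_left a5 2)
      · unfold T1
        exact Finset.filter_subset _ _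
  -- factorisation
  have fact : ∀ j, ((0 < ρ j ∧ ρ j ≤ Real.exp (-1)) ∧ ((M0:ℝ)^2 < 1/ρ j) ∧ ((1:ℝ) ≤ M j) ∧ (M0 ≤ M j) ∧ (S j).Nonempty ∧ 1/(ρ j)^3 ≤ M j) →
      ∀ z : ℂ, mn (Ez (bj t0 M0 (ρ j) t s) z (T0 ∪ T1 (ρ j) (M j))) = mn (Ez a0 z T0) * mn (Ez (Bt (ρ j) t s) z (T1 (ρ j) (M j))) := by
    intro j hj z
    obtain ⟨f1, f2, f3, f4⟩ := facts j hj
    rw [prod_two z (fun m hm => (Finset.mem_Icc.mp hm).1) f1 f3]
    congr 2
    · apply Ez_congr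
      intro m hm
      unfold bj
      rw [if_pos (Finset.mem_Icc.mp hm).2]
    · apply Ez_congr
      intro m hm
      unfold bj
      rw [if_neg (f2 m hm)]
  -- class sums
  have hcls : ∀ᶠ j in l, Cb * (ρ j) ^ (73/200:ℝ) ≤ 1/2 := by
    have h1 := (rho_pow_tend h (a := 73/200) (by norm_num)).const_mul Cb
    rw [mul_zero] at h1
    exact (h1.eventually (gt_mem_nhds (show (0:ℝ) < 1/2 by norm_num))).mono (fun _ hx => hx.le)
  have hvb1 : ∀ᶠ j in l, vb (Bt (ρ j) t s) (T1 (ρ j) (M j)) ≤ Qf t s + 1 :=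
    (hvb.eventually (gt_mem_nhds (show Qf t s < Qf t s + 1 by linarith))).mono (fun _ hx => hx.le)
  set G : ℝ := Real.exp (2 * B0) * Real.exp (4 * (Qf t s + 1)) with hG
  have hG0 : 0 < G := by positivity
  -- part one : the means
  have lim1 : Tendsto (fun j => mn (Ez (bj t0 M0 (ρ j) t s) Complex.I (T0 ∪ T1 (ρ j) (M j)))) l
      (𝓝 (mn (Ez a0 Complex.I T0) * ((Real.exp (-(Qf t s / 2)) : ℝ) : ℂ))) := by
    have h1 : Tendsto (fun j => mn (Ez (Bt (ρ j) t s) Complex.I (T1 (ρ j) (M j)))) l (𝓝 ((Real.exp (-(Qf t s / 2)) : ℝ) : ℂ)) := by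
      have h2 : Tendsto (fun j => ((Real.exp (-(vb (Bt (ρ j) t s) (T1 (ρ j) (M j)) / 2)) : ℝ) : ℂ)) l (𝓝 ((Real.exp (-(Qf t s / 2)) : ℝ) : ℂ)) := by
        have h3 : Tendsto (fun j => Real.exp (-(vb (Bt (ρ j) t s) (T1 (ρ j) (M j)) / 2))) l (𝓝 (Real.exp (-(Qf t s / 2)))) :=
          (Real.continuous_exp.tendsto _).comp ((hvb.div_const 2).neg)
        exact (Complex.continuous_ofReal.tendsto _).comp h3
      have h3 : Tendsto (fun j => mn (Ez (Bt (ρ j) t s) Complex.I (T1 (ρ j) (M j))) - ((Real.exp (-(vb (Bt (ρ j) t s) (T1 (ρ j) (M j)) / 2)) : ℝ) : ℂ)) l (𝓝 0) := by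
        rw [tendsto_zero_iff_norm_tendsto_zero]
        refine squeeze_zero' (Eventually.of_forall (fun _ => norm_nonneg _)) (g := fun j => (Cb * (ρ j) ^ (73/200:ℝ)) * (Qf t s + 1)) ?_ ?_
        · filter_upwards [ev, hcls, hvb1] with j hj hc hv
          obtain ⟨f1, f2, f3, f4⟩ := facts j hj
          have h5 := model_clt (b := Bt (ρ j) t s) f1 (η := Cb * (ρ j) ^ (73/200:ℝ)) (by linarith) (hbig (ρ j) hj.1.1 hj.1.2 _ (fun m hm => by
            rw [mem_T1] at hm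
            exact ⟨hm.1.1, hm.2⟩))
          refine h5.trans ?_
          have : 0 < (ρ j) ^ (73/200:ℝ) := Real.rpow_pos_of_pos hj.1.1 _
          gcongr
        · have h5 := ((rho_pow_tend h (a := 73/200) (by norm_num)).const_mul Cb).mul_const (Qf t s + 1)
          rwa [mul_zero, zero_mul] at h5
      have h4 := h3.add h2
      rw [zero_add] at h4
      refine h4.congr (fun j => by ring)
    have h2 := h1.const_mul (mn (Ez a0 Complex.I T0))
    refine h2.congr' ?_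
    filter_upwards [ev] with j hj
    rw [fact j hj]
  -- part two : transfer
  have lim2 : Tendsto (fun j => av (S j) (Ez (bj t0 M0 (ρ j) t s) Complex.I (T0 ∪ T1 (ρ j) (M j))) -
      mn (Ez (bj t0 M0 (ρ j) t s) Complex.I (T0 ∪ T1 (ρ j) (M j)))) l (𝓝 0) := by
    rw [tendsto_zero_iff_norm_tendsto_zero]
    rw [Metric.tendsto_nhds]
    intro ε hε
    obtain ⟨K, hK⟩ : ∃ K : ℕ, 2 * (G / 4^K) < ε/2 := by
      have h1 : Tendsto (fun K : ℕ => 2 * (G * (1/4:ℝ)^K)) atTop (𝓝 (2 * (G * 0))) :=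
        ((tendsto_pow_atTop_nhds_zero_of_lt_one (by norm_num) (by norm_num)).const_mul G).const_mul 2
      rw [mul_zero, mul_zero] at h1
      obtain ⟨K, hK⟩ := (h1.eventually (gt_mem_nhds (show (0:ℝ) < ε/2 by positivity))).exists
      refine ⟨K, ?_⟩
      refine lt_of_eq_of_lt ?_ hK
      rw [one_div, inv_pow]; ring
    set D := 1 + B0 + Ct with hD
    have hD0 : 0 < D := by positivity
    have hbl : ∀ᶠ j in l, ∀ k : ℕ, k ≤ 2 * K → Blind (S j) (Th ((Finset.Icc 1 ((M j)^2) : Finset ℕ) : Set ℕ) k) (1/(M j : ℝ)^(6*K+1)) := by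
      have h1 : ∀ k ∈ Finset.range (2*K+1), ∀ᶠ j in l, Blind (S j) (Th ((Finset.Icc 1 ((M j)^2) : Finset ℕ) : Set ℕ) k) (1/(M j : ℝ)^(6*K+1)) :=
        fun k _ => h.blind k (6*K+1)
      have h2 := (Filter.eventually_all_finset (Finset.range (2*K+1))).mpr h1
      filter_upwards [h2] with j hj k hk
      exact hj k (Finset.mem_range.mpr (by omega))
    have hsm : ∀ᶠ j in l, (2*K+1) * D^(2*K) * (1/(M j:ℝ)) < ε/2 := by
      have h1 := (M_inv_tend h).const_mul (((2*K+1) * D^(2*K) : ℝ))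
      rw [mul_zero] at h1
      exact h1.eventually (gt_mem_nhds (by positivity))
    filter_upwards [ev, hcls, hvb1, hbl, hsm] with j hj hc hv hb hs
    obtain ⟨f1, f2, f3, f4⟩ := facts j hj
    rw [dist_zero_right, norm_norm]
    have hM1 : (1:ℝ) ≤ M j := hj.2.2.1
    have hM0 : (0:ℝ) < M j := by linarith
    set δ : ℝ := 1/(M j : ℝ)^(6*K+1) with hδ
    have hδ0 : 0 ≤ δ := by positivity
    have hGz : ∀ z : ℝ, |z| = 2 → (mn (Ez (bj t0 M0 (ρ j) t s) (z:ℂ) (T0 ∪ T1 (ρ j) (M j)))).re ≤ G := by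
      intro z hz
      refine (Complex.re_le_norm _).trans ?_
      rw [fact j hj, norm_mul, hG]
      have g1 := mn_Ez_le a0 z T0
      rw [hz] at g1
      have g2 := model_mgf (b := Bt (ρ j) t s) f1 (l := z) (by
        intro s0 hs0
        have := hbig (ρ j) hj.1.1 hj.1.2 (T1 (ρ j) (M j)) (fun m hm => by
            rw [mem_T1] at hm
            exact ⟨hm.1.1, hm.2⟩) s0 hs0
        rw [hz]
        linarith)
      have g3 : z^2 = 4 := by rw [← sq_abs, hz]; norm_num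
      rw [g3] at g2
      have g4 : Real.exp (4 * vb (Bt (ρ j) t s) (T1 (ρ j) (M j))) ≤ Real.exp (4 * (Qf t s + 1)) := Real.exp_le_exp.mpr (by linarith)
      exact mul_le_mul g1 (g2.trans g4) (norm_nonneg _) (by positivity)
    have hst : sB (bj t0 M0 (ρ j) t s) (T0 ∪ T1 (ρ j) (M j)) ≤ B0 + Ct * (M j:ℝ)^3 := by
      have e1 : sB (bj t0 M0 (ρ j) t s) (T0 ∪ T1 (ρ j) (M j)) ≤ sB (bj t0 M0 (ρ j) t s) T0 + sB (bj t0 M0 (ρ j) t s) (T1 (ρ j) (M j)) := by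
        unfold sB
        have := Finset.sum_union_inter (s₁ := T0) (s₂ := T1 (ρ j) (M j)) (f := fun m => ‖bj t0 M0 (ρ j) t s m‖)
        have h0 : 0 ≤ ∑ m ∈ T0 ∩ T1 (ρ j) (M j), ‖bj t0 M0 (ρ j) t s m‖ := Finset.sum_nonneg (fun _ _ => norm_nonneg _)
        linarith
      have e2 : sB (bj t0 M0 (ρ j) t s) T0 = B0 := by
        rw [hB0]
        unfold sB
        apply Finset.sum_congr rfl
        intro m hm
        unfold bj
        rw [if_pos (Finset.mem_Icc.mp hm).2]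
      have e3 : sB (bj t0 M0 (ρ j) t s) (T1 (ρ j) (M j)) = sB (Bt (ρ j) t s) (T1 (ρ j) (M j)) := by
        unfold sB
        apply Finset.sum_congr rfl
        intro m hm
        unfold bj
        rw [if_neg (f2 m hm)]
      have e4 := htot (ρ j) hj.1.1 hj.1.2 (M j) hj.2.2.2.2.2 (T1 (ρ j) (M j)) (by
        unfold T1; exact Finset.filter_subset _ _)
      rw [e2, e3] at e1
      linarith
    have h5 := exp_transfer hj.2.2.2.2.1 (b := bj t0 M0 (ρ j) t s) (T := T0 ∪ T1 (ρ j) (M j)) hδ0 K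
      (fun k hk => (hb k hk).mono (by
        intro x hx
        exact f4 hx) le_rfl) (by
        have := hGz 2 (by norm_num)
        exact_mod_cast this) (by
        have := hGz (-2) (by norm_num)
        exact_mod_cast this)
    refine lt_of_le_of_lt h5 ?_
    have h6 : 1 + sB (bj t0 M0 (ρ j) t s) (T0 ∪ T1 (ρ j) (M j)) ≤ D * (M j:ℝ)^3 := by
      have h7 : (1:ℝ) ≤ (M j:ℝ)^3 := one_le_pow₀ hM1
      rw [hD]
      nlinarith
    have h7 : δ * ((2 * K + 1) * (1 + sB (bj t0 M0 (ρ j) t s) (T0 ∪ T1 (ρ j) (M j))) ^ (2 * K)) ≤ (2*K+1) * D^(2*K) * (1/(M j:ℝ)) := by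
      have h8 : 0 ≤ 1 + sB (bj t0 M0 (ρ j) t s) (T0 ∪ T1 (ρ j) (M j)) := by
        have := sB_nonneg (bj t0 M0 (ρ j) t s) (T0 ∪ T1 (ρ j) (M j))
        linarith
      calc δ * ((2 * K + 1) * (1 + sB (bj t0 M0 (ρ j) t s) (T0 ∪ T1 (ρ j) (M j))) ^ (2 * K))
          ≤ δ * ((2 * K + 1) * (D * (M j:ℝ)^3) ^ (2 * K)) := by gcongr
        _ = (2*K+1) * D^(2*K) * (δ * (M j:ℝ)^(6*K)) := by
            rw [mul_pow, ← pow_mul]
            rw [show 3 * (2*K) = 6*K by ring]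
            ring
        _ = _ := by
            rw [hδ, pow_succ]
            field_simp
    linarith
  have h9 := lim2.add lim1
  rw [zero_add] at h9
  exact h9.congr (fun j => by ring)

end Pool.Agent.W2helper20.GC
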