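import Mathlib
import Pool.Agent.N48.Ann.AN4
import Pool.Agent.W2helper20.GC.Lim
import Pool.Agent.W2helper20.GC.BMs

open MeasureTheory Filter Topology
open Pool.Agent.H383 Pool.Agent.H383.AP Pool.Agent.H383.Gauss Pool.Agent.H383.Gen Pool.Agent.H383.GW
open Pool.Agent.N48.Ann

namespace Pool.Agent.W2helper20.GC

/-! ### averages -/

lemma ra_nonneg {S : Finset ℕ} {f : ℕ → ℝ} (h : ∀ n, 0 ≤ f n) : 0 ≤ ra S f := by
  unfold ra
  exact div_nonneg (Finset.sum_nonneg (fun n _ => h n)) (Nat.cast_nonneg _)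

lemma ra_cs (S : Finset ℕ) (f : ℕ → ℝ) : ra S (fun n => |f n|) ≤ √(ra S (fun n => (f n)^2)) := by
  apply Real.le_sqrt_of_sq_le
  unfold ra
  rcases Nat.eq_zero_or_pos S.card with h | h
  · rw [h]; simp
  · have h1 := sq_sum_le_card_mul_sum_sq (s := S) (f := fun n => |f n|)
    simp only [sq_abs] at h1
    have h0 : (0:ℝ) < S.card := by exact_mod_cast h
    rw [div_pow, div_le_div_iff₀ (by positivity) h0]
    nlinarith

lemma ra_add (S : Finset ℕ) (f g : ℕ → ℝ) : ra S (fun n => f n + g n) = ra S f + ra S g := by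
  unfold ra
  rw [Finset.sum_add_distrib, add_div]

lemma ra_smul (S : Finset ℕ) (c : ℝ) (f : ℕ → ℝ) : ra S (fun n => c * f n) = c * ra S f := by
  unfold ra
  rw [← Finset.mul_sum, mul_div_assoc]

lemma ra_sum {ι : Type*} (S : Finset ℕ) (I : Finset ι) (f : ι → ℕ → ℝ) : ra S (fun n => ∑ i ∈ I, f i n) = ∑ i ∈ I, ra S (f i) := by
  unfold ra
  rw [Finset.sum_comm, Finset.sum_div]

lemma ra_const {S : Finset ℕ} (hS : S.Nonempty) (c : ℝ) : ra S (fun _ => c) = c := by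
  unfold ra
  rw [Finset.sum_const, nsmul_eq_mul]
  have : (0:ℝ) < S.card := by exact_mod_cast hS.card_pos
  field_simp

lemma ra_const_le {S : Finset ℕ} {c : ℝ} (hc : 0 ≤ c) : ra S (fun _ => c) ≤ c := by
  rcases S.eq_empty_or_nonempty with h | h
  · unfold ra; rw [h]; simpa using hc
  · rw [ra_const h]

lemma exp_diff (x y : ℝ) : ‖Complex.exp (Complex.I * (x:ℂ)) - Complex.exp (Complex.I * (y:ℂ))‖ ≤ |x - y| := by
  have h := Real.norm_exp_I_mul_ofReal_sub_one_le (x := x - y)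
  have e : Complex.exp (Complex.I * (x:ℂ)) - Complex.exp (Complex.I * (y:ℂ)) =
      Complex.exp (Complex.I * (y:ℂ)) * (Complex.exp (Complex.I * ((x - y : ℝ) : ℂ)) - 1) := by
    rw [mul_sub, ← Complex.exp_add, mul_one]
    congr 2
    push_cast; ring
  rw [e, norm_mul, mul_comm Complex.I (y:ℂ), Complex.norm_exp_ofReal_mul_I, one_mul]
  rw [Real.norm_eq_abs] at h
  exact h

lemma norm_exp_I (x : ℝ) : ‖Complex.exp (Complex.I * (x:ℂ))‖ = 1 := by
  rw [mul_comm, Complex.norm_exp_ofReal_mul_I]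

/-- comparison of characteristic functions, on all of `S` -/
lemma av_cmp (S : Finset ℕ) (x y : ℕ → ℝ) :
    ‖av S (fun n => Complex.exp (Complex.I * (x n : ℂ))) - av S (fun n => Complex.exp (Complex.I * (y n : ℂ)))‖ ≤
      √(ra S (fun n => (x n - y n)^2)) := by
  rw [av_sub]
  refine (norm_av_le _ _).trans ((ra_mono (fun n => ?_)).trans (ra_cs S (fun n => x n - y n)))
  exact exp_diff _ _

/-- comparison of characteristic functions, away from small integers -/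
lemma av_cmp5 (S : Finset ℕ) (x y : ℕ → ℝ) :
    ‖av S (fun n => Complex.exp (Complex.I * (x n : ℂ))) - av S (fun n => Complex.exp (Complex.I * (y n : ℂ)))‖ ≤
      ra S (fun n => if 5 ≤ n then |x n - y n| else 0) + 10 / S.card := by
  rw [av_sub]
  refine (norm_av_le _ _).trans ?_
  have h1 : ∀ n, ‖((fun n => Complex.exp (Complex.I * (x n : ℂ))) - (fun n => Complex.exp (Complex.I * (y n : ℂ)))) n‖ ≤
      (if 5 ≤ n then |x n - y n| else 0) + (if n < 5 then 2 else 0) := by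
    intro n
    simp only [Pi.sub_apply]
    by_cases hn : 5 ≤ n
    · rw [if_pos hn, if_neg (by omega), add_zero]
      exact exp_diff _ _
    · rw [if_neg hn, if_pos (by omega), zero_add]
      refine (norm_sub_le _ _).trans ?_
      rw [norm_exp_I, norm_exp_I]; norm_num
  refine (ra_mono h1).trans ?_
  rw [ra_add]
  have h2 : ra S (fun n => if n < 5 then (2:ℝ) else 0) ≤ 10 / S.card := by
    unfold ra
    apply div_le_div_of_nonneg_right _ (Nat.cast_nonneg _)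
    rw [← Finset.sum_filter, Finset.sum_const, nsmul_eq_mul]
    have h3 : (S.filter (fun n => n < 5)).card ≤ 5 := by
      calc (S.filter (fun n => n < 5)).card ≤ (Finset.range 5).card := by
            apply Finset.card_le_card
            intro n hn
            rw [Finset.mem_filter] at hn
            exact Finset.mem_range.mpr hn.2
        _ = 5 := Finset.card_range 5
    have h4 : ((S.filter (fun n => n < 5)).card : ℝ) ≤ 5 := by exact_mod_cast h3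
    linarith
  linarith

/-! ### tails -/

lemma tail_ag : ∃ C : ℝ, 0 < C ∧ ∀ M0 : ℕ, 1 ≤ M0 → ∀ T : Finset ℕ, (∀ m ∈ T, M0^2 < m) →
    ((∀ m ∈ T, IsSquare m) → ∑ m ∈ T, |Circ.ag m| ≤ C * (M0:ℝ) ^ (-(1/25):ℝ)) ∧
    ∑ m ∈ T, |Circ.ag m|^2 ≤ C * (M0:ℝ) ^ (-(1/25):ℝ) := by
  obtain ⟨C0, hC0, h0⟩ := Circ.ag_Bd
  refine ⟨C0 * Zs (36/25) + C0^2 * Zs (73/50) + 1, by
    have := Zs_nonneg (36/25); have := Zs_nonneg (73/50); positivity, ?_⟩
  intro M0 hM0 T hT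
  have hM0' : (0:ℝ) < M0 := by exact_mod_cast hM0
  have z1 := Zs_nonneg (36/25)
  have z2 := Zs_nonneg (73/50)
  have hpt : ∀ m ∈ T, 1 ≤ m ∧ (M0:ℝ) ≤ √(m:ℝ) := by
    intro m hm
    have h1 := hT m hm
    have h2 : 1 ≤ M0^2 := Nat.one_le_pow _ _ hM0
    refine ⟨by omega, ?_⟩
    apply Real.le_sqrt_of_sq_le
    exact_mod_cast h1.le
  have hM25 : 0 ≤ (M0:ℝ) ^ (-(1/25):ℝ) := by positivity
  constructor
  · intro hsq
    have h1 : ∑ m ∈ T, |Circ.ag m| ≤ ∑ m ∈ T, C0 * ((M0:ℝ) ^ (-(1/25):ℝ) * (√(m:ℝ)) ^ (-(36/25):ℝ)) := by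
      apply Finset.sum_le_sum
      intro m hm
      obtain ⟨hm1, hm2⟩ := hpt m hm
      have hm0 : (0:ℝ) < m := by exact_mod_cast hm1
      have hsm : 0 < √(m:ℝ) := Real.sqrt_pos.mpr hm0
      refine (h0 m hm1).trans ?_
      have h2 : (√(m:ℝ)) ^ (-(37/25):ℝ) = (√(m:ℝ)) ^ (-(1/25):ℝ) * (√(m:ℝ)) ^ (-(36/25):ℝ) := by
        rw [← Real.rpow_add hsm]; norm_num
      have h3 : (√(m:ℝ)) ^ (-(1/25):ℝ) ≤ (M0:ℝ) ^ (-(1/25):ℝ) := Real.rpow_le_rpow_of_nonpos hM0' hm2 (by norm_num)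
      rw [h2]
      gcongr
    refine h1.trans ?_
    have h2 : ∑ m ∈ T, C0 * ((M0:ℝ) ^ (-(1/25):ℝ) * (√(m:ℝ)) ^ (-(36/25):ℝ)) ≤ C0 * ((M0:ℝ) ^ (-(1/25):ℝ) * Zs (36/25)) := by
      apply class_sum (s0 := 1) le_rfl (fun m hm => ⟨(hpt m hm).1, by
        obtain ⟨r, hr⟩ := hsq m hm
        exact ⟨r, by rw [hr]; ring⟩⟩) (fun m => by positivity)
      intro B
      rw [← Finset.mul_sum, ← Finset.mul_sum]
      have h4 : ∑ k ∈ Finset.Icc 1 B, (√(((1 * k^2 : ℕ)):ℝ)) ^ (-(36/25):ℝ) = ∑ k ∈ Finset.Icc 1 B, (k:ℝ) ^ (-(36/25):ℝ) := by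
        apply Finset.sum_congr rfl
        intro k _
        rw [sqrt_class, Nat.cast_one, Real.sqrt_one, one_mul]
      rw [h4]
      have h5 := Zs_le (a := 36/25) (by norm_num) (Finset.Icc 1 B)
      gcongr
    refine h2.trans ?_
    have : C0 * ((M0:ℝ) ^ (-(1/25):ℝ) * Zs (36/25)) = (C0 * Zs (36/25)) * (M0:ℝ) ^ (-(1/25):ℝ) := by ring
    rw [this]
    apply mul_le_mul_of_nonneg_right _ hM25
    nlinarith
  · have h1 : ∑ m ∈ T, |Circ.ag m|^2 ≤ ∑ m ∈ T, C0^2 * ((M0:ℝ) ^ (-(1/25):ℝ) * (m:ℝ) ^ (-(73/50):ℝ)) := by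
      apply Finset.sum_le_sum
      intro m hm
      obtain ⟨hm1, hm2⟩ := hpt m hm
      have hm0 : (0:ℝ) < m := by exact_mod_cast hm1
      have hsm : 0 < √(m:ℝ) := Real.sqrt_pos.mpr hm0
      have h2 : ((√(m:ℝ)) ^ (-(37/25):ℝ))^2 = (√(m:ℝ)) ^ (-(1/25):ℝ) * (m:ℝ) ^ (-(73/50):ℝ) := by
        have e1 : (m:ℝ) ^ (-(73/50):ℝ) = (√(m:ℝ)) ^ (-(73/25):ℝ) := by
          rw [Real.sqrt_eq_rpow, ← Real.rpow_mul hm0.le]; norm_num
        rw [e1, ← Real.rpow_add hsm, ← Real.rpow_natCast, ← Real.rpow_mul hsm.le]; norm_num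
      have h3 : (√(m:ℝ)) ^ (-(1/25):ℝ) ≤ (M0:ℝ) ^ (-(1/25):ℝ) := Real.rpow_le_rpow_of_nonpos hM0' hm2 (by norm_num)
      calc |Circ.ag m|^2 ≤ (C0 * (√(m:ℝ)) ^ (-(37/25):ℝ))^2 := pow_le_pow_left₀ (abs_nonneg _) (h0 m hm1) 2
        _ = C0^2 * ((√(m:ℝ)) ^ (-(1/25):ℝ) * (m:ℝ) ^ (-(73/50):ℝ)) := by rw [mul_pow, h2]
        _ ≤ _ := by gcongr
    refine h1.trans ?_
    rw [← Finset.mul_sum, ← Finset.mul_sum]
    have h5 := Zs_le (a := 73/50) (by norm_num) T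
    calc C0^2 * ((M0:ℝ) ^ (-(1/25):ℝ) * ∑ m ∈ T, (m:ℝ) ^ (-(73/50):ℝ)) ≤ C0^2 * ((M0:ℝ) ^ (-(1/25):ℝ) * Zs (73/50)) := by gcongr
      _ = (C0^2 * Zs (73/50)) * (M0:ℝ) ^ (-(1/25):ℝ) := by ring
      _ ≤ _ := by
          apply mul_le_mul_of_nonneg_right _ hM25
          nlinarith

lemma ac_total : ∃ C : ℝ, 0 < C ∧ ∀ M : ℕ, ∀ T : Finset ℕ, T ⊆ Finset.Icc 1 (M^2) → sB (ac Circ.ag ph 0) T ≤ C * (M:ℝ)^2 := by
  obtain ⟨C0, hC0, h0⟩ := Circ.ag_Bd
  refine ⟨C0, hC0, ?_⟩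
  intro M T hT
  calc sB (ac Circ.ag ph 0) T ≤ ∑ m ∈ Finset.Icc 1 (M^2), ‖ac Circ.ag ph 0 m‖ :=
        Finset.sum_le_sum_of_subset_of_nonneg hT (fun _ _ _ => norm_nonneg _)
    _ ≤ ∑ m ∈ Finset.Icc 1 (M^2), C0 := by
        apply Finset.sum_le_sum
        intro m hm
        have hm1 := (Finset.mem_Icc.mp hm).1
        have hm1' : (1:ℝ) ≤ m := by exact_mod_cast hm1
        have hsm : 1 ≤ √(m:ℝ) := Real.one_le_sqrt.mpr hm1'
        rw [norm_ac]
        refine (h0 m hm1).trans ?_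
        have h2 : (√(m:ℝ)) ^ (-(37/25):ℝ) ≤ 1 := Real.rpow_le_one_of_one_le_of_nonpos hsm (by norm_num)
        nlinarith
    _ = C0 * (M:ℝ)^2 := by
        rw [Finset.sum_const, Nat.card_Icc, nsmul_eq_mul]
        push_cast
        ring

lemma U_Zc (M n : ℕ) : U Circ.ag ph n M = Zc (ac Circ.ag ph 0) (Finset.Icc 1 (M^2)) n := by
  have h := U_eq_re Circ.ag ph 0 1 M n
  rw [zero_add, mul_one] at h
  rw [h]
  unfold Zc
  simp only [one_mul]

lemma Zc_add_of {b : ℕ → ℂ} {T T' : Finset ℕ} (h : Disjoint T T') (n : ℕ) : Zc b (T ∪ T') n = Zc b T n + Zc b T' n := by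
  unfold Zc
  rw [Finset.sum_union h, Complex.add_re]

variable {ι : Type*} {l : Filter ι} {ρ : ι → ℝ} {M : ι → ℕ} {S : ι → Finset ℕ}

/-- the model -/
noncomputable def Vm {k : ℕ} (t0 : ℝ) (M : ℕ) (ρ : ℝ) (t s : Fin k → ℝ) (n : ℕ) : ℝ :=
  t0 * U Circ.ag ph n M + Zc (Bt ρ t s) (NS M) n

/-- **limit of the model, up to a truncation** -/
theorem model_lim (h : AdmS l ρ M S) (t0 : ℝ) {k : ℕ} (t s : Fin k → ℝ) :
    ∃ C : ℝ, 0 < C ∧ ∀ M0 : ℕ, 1 ≤ M0 → ∀ η : ℝ, 0 < η → ∀ᶠ j in l,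
    ‖av (S j) (fun n => Complex.exp (Complex.I * (Vm t0 (M j) (ρ j) t s n : ℂ))) -
      mn (Ez (fun m => (t0:ℂ) * ac Circ.ag ph 0 m) Complex.I (Finset.Icc 1 (M0^2))) * ((Real.exp (-(Qf t s / 2)) : ℝ) : ℂ)‖ ≤
      √(C * (M0:ℝ) ^ (-(1/25):ℝ) + η) + η := by
  classical
  obtain ⟨Ca, hCa, htail⟩ := tail_ag
  obtain ⟨Cc, hCc, hctot⟩ := ac_total
  obtain ⟨Ct, hCt, htot⟩ := Bt_total t s
  obtain ⟨Cs, hCs, hsm⟩ := small_class t s
  refine ⟨3 * t0^2 * (Ca^2 + Ca) + 1, by positivity, ?_⟩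
  intro M0 hM0 η hη
  have hM01 : (1:ℝ) ≤ M0 := by exact_mod_cast hM0
  have hcore := core h t0 M0 t s
  have ev1 := (tendsto_iff_norm_sub_tendsto_zero.mp hcore).eventually (gt_mem_nhds (show (0:ℝ) < η from hη))
  -- the error terms
  have ev2 : ∀ᶠ j in l, 3 * t0^2 * (Cc^2 * (1/(M j:ℝ))) + 3 * (Cs * (ρ j) ^ (22/100:ℝ) + Ct^2 * (1/(M j:ℝ))) < η := by
    have h1 := ((M_inv_tend h).const_mul (Cc^2)).const_mul (3 * t0^2)
    have h2 := (((rho_pow_tend h (a := 22/100) (by norm_num)).const_mul Cs).add ((M_inv_tend h).const_mul (Ct^2))).const_mul 3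
    have h3 := h1.add h2
    simp only [mul_zero, add_zero] at h3
    exact h3.eventually (gt_mem_nhds hη)
  filter_upwards [ev1, ev2, h.small (Real.exp_pos (-1)), h.small (r := 1/((M0:ℝ)^2+1)) (by positivity), h.big 1, h.big (M0:ℝ), h.ne, h.MM, h.blind 2 7]
    with j e1 e2 a1 a2 a3 a4 a5 a6 a7
  have hM1 : (1:ℝ) ≤ M j := a3
  have hMpos : (0:ℝ) < M j := by linarith
  have hMM0 : M0 ≤ M j := by exact_mod_cast a4
  have hM0ρ : (M0:ℝ)^2 < 1/ρ j := by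
    rw [lt_div_iff₀ a1.1]
    have := a2.2
    rw [le_div_iff₀ (by positivity)] at this
    nlinarith [a1.1]
  have hρ1 : 1 < 1/ρ j := by
    rw [one_lt_div a1.1]
    refine lt_of_le_of_lt a1.2 ?_
    rw [Real.exp_lt_one_iff]; norm_num
  -- decomposition
  set T0 := Finset.Icc 1 (M0^2) with hT0
  set TT := T1 (ρ j) (M j) with hTT
  set TN := (Finset.Ioc (M0^2) ((M j)^2)).filter (fun m => ¬ IsSquare m) with hTN
  set TS := (Finset.Ioc (M0^2) ((M j)^2)).filter (fun m => IsSquare m) with hTS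
  set TB := (NS (M j)).filter (fun m => ¬ (1/ρ j < sf m)) with hTB
  have hTT_ns : ∀ m ∈ TT, 1 ≤ m ∧ ¬ IsSquare m ∧ M0^2 < m ∧ m ≤ (M j)^2 := by
    intro m hm
    rw [hTT, mem_T1] at hm
    refine ⟨hm.1.1, fun hsq => ?_, ?_, hm.1.2⟩
    · rw [sf_sq hm.1.1 hsq] at hm
      have := hm.2
      push_cast at this
      linarith
    · by_contra hle
      rw [not_lt] at hle
      have h1 : ((sf m : ℕ):ℝ) ≤ (M0:ℝ)^2 := by
        have : sf m ≤ M0^2 := (sf_le hm.1.1).trans hle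
        exact_mod_cast this
      linarith [hm.2]
  have d1 : ∀ n, Zc (ac Circ.ag ph 0) (Finset.Icc 1 ((M j)^2)) n = Zc (ac Circ.ag ph 0) T0 n + (Zc (ac Circ.ag ph 0) TS n + Zc (ac Circ.ag ph 0) TN n) := by
    intro n
    have u1 : Finset.Icc 1 ((M j)^2) = T0 ∪ (TS ∪ TN) := by
      rw [hTS, hTN, Finset.filter_union_filter_not_eq, hT0]
      ext x
      rw [Finset.mem_union, Finset.mem_Icc, Finset.mem_Icc, Finset.mem_Ioc]
      have : M0^2 ≤ (M j)^2 := Nat.pow_le_pow_left hMM0 2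
      omega
    have u2 : Disjoint T0 (TS ∪ TN) := by
      rw [hTS, hTN, Finset.filter_union_filter_not_eq, hT0, Finset.disjoint_left]
      intro x hx hx'
      rw [Finset.mem_Icc] at hx
      rw [Finset.mem_Ioc] at hx'
      omega
    rw [u1, Zc_add_of u2, Zc_add_of (Finset.disjoint_filter_filter_not _ _ _)]
  have d2 : ∀ n, Zc (Bt (ρ j) t s) (NS (M j)) n = Zc (Bt (ρ j) t s) TT n + Zc (Bt (ρ j) t s) TB n := by
    intro n
    have u1 : NS (M j) = TT ∪ TB := by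
      have : TT = (NS (M j)).filter (fun m => 1/ρ j < sf m) := by
        ext m
        constructor
        · intro hm
          have := hTT_ns m hm
          rw [hTT, mem_T1] at hm
          unfold NS
          rw [Finset.mem_filter, Finset.mem_filter, Finset.mem_Icc]
          exact ⟨⟨hm.1, this.2.1⟩, hm.2⟩
        · intro hm
          unfold NS at hm
          rw [Finset.mem_filter, Finset.mem_filter, Finset.mem_Icc] at hm
          rw [hTT, mem_T1]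
          exact ⟨hm.1.1, hm.2⟩
      rw [this, hTB, Finset.filter_union_filter_not_eq]
    have u2 : Disjoint TT TB := by
      rw [Finset.disjoint_left]
      intro x hx hx'
      rw [hTT, mem_T1] at hx
      rw [hTB, Finset.mem_filter] at hx'
      exact hx'.2 hx.2
    rw [u1, Zc_add_of u2]
  have d3 : ∀ n, Zc (bj t0 M0 (ρ j) t s) (T0 ∪ TT) n = t0 * Zc (ac Circ.ag ph 0) T0 n + Zc (Bt (ρ j) t s) TT n := by
    intro n
    have u2 : Disjoint T0 TT := by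
      rw [Finset.disjoint_left]
      intro x hx hx'
      rw [hT0, Finset.mem_Icc] at hx
      have := hTT_ns x hx'
      omega
    rw [Zc_add_of u2]
    congr 1
    · unfold Zc
      rw [← Complex.re_ofReal_mul, Finset.mul_sum]
      congr 1
      apply Finset.sum_congr rfl
      intro m hm
      unfold bj
      rw [if_pos (Finset.mem_Icc.mp hm).2]; ring
    · unfold Zc
      congr 1
      apply Finset.sum_congr rfl
      intro m hm
      unfold bj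
      rw [if_neg (by have := hTT_ns m hm; omega)]
  have hdiff : ∀ n, Vm t0 (M j) (ρ j) t s n - Zc (bj t0 M0 (ρ j) t s) (T0 ∪ TT) n =
      t0 * Zc (ac Circ.ag ph 0) TS n + t0 * Zc (ac Circ.ag ph 0) TN n + Zc (Bt (ρ j) t s) TB n := by
    intro n
    unfold Vm
    rw [U_Zc, d1, d2, d3]; ring
  -- mean squares
  set δ : ℝ := 1/(M j : ℝ)^7 with hδ
  have hδ0 : 0 ≤ δ := by positivity
  have m1 : ∀ n, (Zc (ac Circ.ag ph 0) TS n)^2 ≤ (Ca * (M0:ℝ) ^ (-(1/25):ℝ))^2 := by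
    intro n
    rw [← sq_abs]
    apply pow_le_pow_left₀ (abs_nonneg _)
    refine (abs_Zc_le _ _ _).trans ?_
    unfold sB
    simp only [norm_ac]
    exact (htail M0 hM0 TS (by
      intro m hm
      rw [hTS, Finset.mem_filter, Finset.mem_Ioc] at hm
      exact hm.1.1)).1 (by
      intro m hm
      rw [hTS, Finset.mem_filter] at hm
      exact hm.2)
  have m2 : ra (S j) (fun n => (Zc (ac Circ.ag ph 0) TN n)^2) ≤ Ca * (M0:ℝ) ^ (-(1/25):ℝ) + Cc^2 * (1/(M j:ℝ)) := by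
    have q1 := ra_sq_le a5 (b := ac Circ.ag ph 0) (T := TN) (by
      intro m hm
      rw [hTN, Finset.mem_filter, Finset.mem_Ioc] at hm
      exact ⟨by omega, hm.2⟩) hδ0 (a7.mono (by
      intro m hm
      have hm' : m ∈ TN := hm
      rw [hTN, Finset.mem_filter, Finset.mem_Ioc] at hm'
      have : m ∈ Finset.Icc 1 ((M j)^2) := Finset.mem_Icc.mpr ⟨by omega, hm'.1.2⟩
      exact this) le_rfl)
    have q2 : vb (ac Circ.ag ph 0) TN ≤ Ca * (M0:ℝ) ^ (-(1/25):ℝ) := by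
      have q3 := (htail M0 hM0 TN (by
        intro m hm
        rw [hTN, Finset.mem_filter, Finset.mem_Ioc] at hm
        exact hm.1.1)).2
      unfold vb
      simp only [norm_ac]
      have : 0 ≤ ∑ m ∈ TN, |Circ.ag m|^2 := Finset.sum_nonneg (fun _ _ => by positivity)
      linarith
    have q4 := hctot (M j) TN (by
      intro m hm
      rw [hTN, Finset.mem_filter, Finset.mem_Ioc] at hm
      exact Finset.mem_Icc.mpr ⟨by omega, hm.1.2⟩)
    have q5 : δ * (sB (ac Circ.ag ph 0) TN)^2 ≤ Cc^2 * (1/(M j:ℝ)) := by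
      calc δ * (sB (ac Circ.ag ph 0) TN)^2 ≤ δ * (Cc * (M j:ℝ)^2)^2 := by
            have := sB_nonneg (ac Circ.ag ph 0) TN
            gcongr
        _ = Cc^2 * (1/(M j:ℝ)^3) := by rw [hδ]; field_simp
        _ ≤ Cc^2 * (1/(M j:ℝ)) := by
            have : (M j:ℝ) ≤ (M j:ℝ)^3 := le_self_pow₀ hM1 (by norm_num)
            gcongr
    linarith
  have m3 : ra (S j) (fun n => (Zc (Bt (ρ j) t s) TB n)^2) ≤ Cs * (ρ j) ^ (22/100:ℝ) + Ct^2 * (1/(M j:ℝ)) := by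
    have hsub : ∀ m ∈ TB, (1 ≤ m ∧ m ≤ (M j)^2) ∧ ¬ IsSquare m := by
      intro m hm
      rw [hTB, Finset.mem_filter] at hm
      unfold NS at hm
      rw [Finset.mem_filter, Finset.mem_Icc] at hm
      exact hm.1
    have q1 := ra_sq_le a5 (b := Bt (ρ j) t s) (T := TB) (by
      intro m hm
      exact ⟨(hsub m hm).1.1, (hsub m hm).2⟩) hδ0 (a7.mono (by
      intro m hm
      have : m ∈ Finset.Icc 1 ((M j)^2) := Finset.mem_Icc.mpr (hsub m hm).1
      exact this) le_rfl)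
    have q2 := hsm (ρ j) a1.1 a1.2 TB (by
      intro m hm
      refine ⟨(hsub m hm).1.1, ?_⟩
      rw [hTB, Finset.mem_filter, not_lt] at hm
      exact hm.2)
    have q4 := htot (ρ j) a1.1 a1.2 (M j) a6 TB (by
      intro m hm
      exact Finset.mem_Icc.mpr (hsub m hm).1)
    have q5 : δ * (sB (Bt (ρ j) t s) TB)^2 ≤ Ct^2 * (1/(M j:ℝ)) := by
      calc δ * (sB (Bt (ρ j) t s) TB)^2 ≤ δ * (Ct * (M j:ℝ)^3)^2 := by
            have := sB_nonneg (Bt (ρ j) t s) TB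
            gcongr
        _ = Ct^2 * (1/(M j:ℝ)) := by rw [hδ]; field_simp
    linarith
  have m4 : ra (S j) (fun n => (Vm t0 (M j) (ρ j) t s n - Zc (bj t0 M0 (ρ j) t s) (T0 ∪ TT) n)^2) ≤
      (3 * t0^2 * (Ca^2 + Ca) + 1) * (M0:ℝ) ^ (-(1/25):ℝ) + η := by
    have hx : (M0:ℝ) ^ (-(1/25):ℝ) ≤ 1 := Real.rpow_le_one_of_one_le_of_nonpos hM01 (by norm_num)
    have hx0 : 0 ≤ (M0:ℝ) ^ (-(1/25):ℝ) := by positivity
    calc ra (S j) (fun n => (Vm t0 (M j) (ρ j) t s n - Zc (bj t0 M0 (ρ j) t s) (T0 ∪ TT) n)^2)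
        ≤ ra (S j) (fun n => 3 * (t0^2 * (Ca * (M0:ℝ) ^ (-(1/25):ℝ))^2) + (3 * t0^2 * (Zc (ac Circ.ag ph 0) TN n)^2 + 3 * (Zc (Bt (ρ j) t s) TB n)^2)) := by
          apply ra_mono
          intro n
          rw [hdiff n]
          refine (sq3 _ _ _).trans ?_
          have := mul_le_mul_of_nonneg_left (m1 n) (sq_nonneg t0)
          rw [mul_pow, mul_pow]
          linarith
      _ = ra (S j) (fun _ => 3 * (t0^2 * (Ca * (M0:ℝ) ^ (-(1/25):ℝ))^2)) + (3 * t0^2 * ra (S j) (fun n => (Zc (ac Circ.ag ph 0) TN n)^2) +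
          3 * ra (S j) (fun n => (Zc (Bt (ρ j) t s) TB n)^2)) := by
          rw [ra_add, ra_add, ra_smul (S j) (3 * t0^2) (fun n => (Zc (ac Circ.ag ph 0) TN n)^2),
            ra_smul (S j) 3 (fun n => (Zc (Bt (ρ j) t s) TB n)^2)]
      _ ≤ 3 * (t0^2 * (Ca * (M0:ℝ) ^ (-(1/25):ℝ))^2) + (3 * t0^2 * (Ca * (M0:ℝ) ^ (-(1/25):ℝ) + Cc^2 * (1/(M j:ℝ))) +
          3 * (Cs * (ρ j) ^ (22/100:ℝ) + Ct^2 * (1/(M j:ℝ)))) := by
          have := ra_const_le (S := S j) (c := 3 * (t0^2 * (Ca * (M0:ℝ) ^ (-(1/25):ℝ))^2)) (by positivity)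
          gcongr
      _ ≤ _ := by
          have q6 : (Ca * (M0:ℝ) ^ (-(1/25):ℝ))^2 ≤ Ca^2 * (M0:ℝ) ^ (-(1/25):ℝ) := by
            rw [mul_pow]
            apply mul_le_mul_of_nonneg_left _ (by positivity)
            nlinarith
          have q7 : 3 * (t0^2 * (Ca * (M0:ℝ) ^ (-(1/25):ℝ))^2) ≤ 3 * (t0^2 * (Ca^2 * (M0:ℝ) ^ (-(1/25):ℝ))) := by gcongr
          nlinarith
  have m5 := av_cmp (S j) (fun n => Vm t0 (M j) (ρ j) t s n) (fun n => Zc (bj t0 M0 (ρ j) t s) (T0 ∪ TT) n)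
  have m6 : √(ra (S j) (fun n => (Vm t0 (M j) (ρ j) t s n - Zc (bj t0 M0 (ρ j) t s) (T0 ∪ TT) n)^2)) ≤
      √((3 * t0^2 * (Ca^2 + Ca) + 1) * (M0:ℝ) ^ (-(1/25):ℝ) + η) := Real.sqrt_le_sqrt m4
  calc _ ≤ ‖av (S j) (fun n => Complex.exp (Complex.I * (Vm t0 (M j) (ρ j) t s n : ℂ))) -
          av (S j) (fun n => Complex.exp (Complex.I * (Zc (bj t0 M0 (ρ j) t s) (T0 ∪ TT) n : ℂ)))‖ +
        ‖av (S j) (Ez (bj t0 M0 (ρ j) t s) Complex.I (T0 ∪ TT)) -
          mn (Ez (fun m => (t0:ℂ) * ac Circ.ag ph 0 m) Complex.I T0) * ((Real.exp (-(Qf t s / 2)) : ℝ) : ℂ)‖ :=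
        norm_sub_le_norm_sub_add_norm_sub _ _ _
    _ ≤ _ := by linarith

end Pool.Agent.W2helper20.GC
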