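import Mathlib
import Pool.Agent.W2helper20.GC.Apx

open MeasureTheory Filter Topology
open Pool.Agent.H383 Pool.Agent.H383.AP Pool.Agent.H383.Gauss Pool.Agent.H383.Gen Pool.Agent.H383.GW
open Pool.Agent.N48.Ann

namespace Pool.Agent.W2helper20.GC

/-- the error term of the circle problem -/
noncomputable def PG (R : ℝ) : ℝ :=
  (Nat.card {p : ℤ × ℤ // (p.1 : ℝ) ^ 2 + (p.2 : ℝ) ^ 2 ≤ R ^ 2} : ℝ) - Real.pi * R ^ 2

/-- the normalised increments -/
noncomputable def Yn (ρ s : ℝ) (n : ℕ) : ℝ :=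
  (PG (n + ρ * s) - PG n - 8 * √2 / Real.pi * √(n * ρ * max s 0) * Real.log (1 / ρ)) / (4 * √(n * ρ * Real.log (1 / ρ)))

lemma PG_En (n : ℕ) : PG n / √(n:ℝ) = En n := rfl

lemma PG_diff : ∃ C : ℝ, 0 < C ∧ ∀ n x : ℝ, 5 ≤ n → |x| ≤ 1 → |(PG (n + x) - PG n) / √n - (En (n + x) - En n)| ≤ C * |x| := by
  obtain ⟨C1, hC1, h1⟩ := sur_outer
  obtain ⟨C2, hC2, h2⟩ := sur_inner
  refine ⟨C1 + C2, by positivity, ?_⟩
  intro n x hn hx
  rcases le_total 0 x with hx0 | hx0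
  · rw [abs_of_nonneg hx0] at hx ⊢
    have h3 := h1 n x (by linarith) hx0 hx
    rw [sur_eq (by linarith) (by linarith)] at h3
    have : C1 * x ≤ (C1 + C2) * x := by nlinarith
    exact h3.trans this
  · rw [abs_of_nonpos hx0] at hx ⊢
    have h3 := h2 n (-x) hn (by linarith) hx
    rw [sur_eq (by linarith) (by linarith), show n - -x = n + x by ring] at h3
    have e : (PG (n + x) - PG n) / √n - (En (n + x) - En n) =
        -(((F n - Real.pi * n^2) - (F (n+x) - Real.pi * (n+x)^2)) / √n - (En n - En (n + x))) := by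
      unfold PG F; ring
    rw [e, abs_neg]
    refine h3.trans ?_
    nlinarith

lemma Yn_eq : ∃ C : ℝ, 0 < C ∧ ∀ (n : ℕ) (ρ s : ℝ), 5 ≤ n → 0 < ρ → ρ ≤ Real.exp (-1) → |ρ * s| ≤ 1 →
    |Yn ρ s n - 1 / (4 * √(ρ * Real.log (1/ρ))) * ((En (n + ρ * s) - En n) - bias ρ s)| ≤ 1 / (4 * √(ρ * Real.log (1/ρ))) * (C * (ρ * |s|)) := by
  obtain ⟨C, hC, h⟩ := PG_diff
  refine ⟨C, hC, ?_⟩
  intro n ρ s hn hρ hρ1 hx
  have hL1 : 1 ≤ Real.log (1/ρ) := by
    rw [Real.le_log_iff_exp_le (by positivity), le_div_iff₀ hρ]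
    calc Real.exp 1 * ρ ≤ Real.exp 1 * Real.exp (-1) := by gcongr
      _ = 1 := by rw [← Real.exp_add]; norm_num
  have hn' : (5:ℝ) ≤ n := by exact_mod_cast hn
  have hn0 : (0:ℝ) < n := by linarith
  have hsn : 0 < √(n:ℝ) := Real.sqrt_pos.mpr hn0
  have hrL : 0 < ρ * Real.log (1/ρ) := by positivity
  have hsr : 0 < √(ρ * Real.log (1/ρ)) := Real.sqrt_pos.mpr hrL
  have h1 := h n (ρ * s) hn' hx
  rw [abs_mul, abs_of_pos hρ] at h1
  have e : Yn ρ s n - 1 / (4 * √(ρ * Real.log (1/ρ))) * ((En (n + ρ * s) - En n) - bias ρ s) =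
      1 / (4 * √(ρ * Real.log (1/ρ))) * ((PG (n + ρ * s) - PG n) / √n - (En (n + ρ * s) - En n)) := by
    unfold Yn bias
    rw [mul_assoc (n:ℝ) ρ (max s 0), Real.sqrt_mul hn0.le, mul_assoc (n:ℝ) ρ (Real.log (1/ρ)), Real.sqrt_mul hn0.le]
    field_simp
    ring
  rw [e, abs_mul, abs_of_pos (show 0 < 1 / (4 * √(ρ * Real.log (1/ρ))) by positivity)]
  gcongr

lemma Zc_Bt {k : ℕ} (ρ : ℝ) (t s : Fin k → ℝ) (T : Finset ℕ) (n : ℕ) : Zc (Bt ρ t s) T n =
    1 / (4 * √(ρ * Real.log (1/ρ))) * ∑ i, t i * Zc (fun m => ac Circ.ag ph (ρ * s i) m - ac Circ.ag ph 0 m) T n := by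
  unfold Zc Bt
  have e : ∑ m ∈ T, ((1 / (4 * √(ρ * Real.log (1/ρ))) : ℝ) : ℂ) * (∑ i, (t i : ℂ) * (ac Circ.ag ph (ρ * s i) m - ac Circ.ag ph 0 m)) * chr (√(m:ℝ)) n =
      ((1 / (4 * √(ρ * Real.log (1/ρ))) : ℝ) : ℂ) * ∑ i, (t i : ℂ) * ∑ m ∈ T, (ac Circ.ag ph (ρ * s i) m - ac Circ.ag ph 0 m) * chr (√(m:ℝ)) n := by
    simp only [Finset.mul_sum, Finset.sum_mul]
    rw [Finset.sum_comm]
    apply Finset.sum_congr rfl
    intro i _
    apply Finset.sum_congr rfl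
    intro m _
    ring
  rw [e, Complex.re_ofReal_mul, Complex.re_sum]
  congr 1
  apply Finset.sum_congr rfl
  intro i _
  rw [Complex.re_ofReal_mul]

lemma Zc_U (X : ℝ) (M n : ℕ) : Zc (fun m => ac Circ.ag ph X m - ac Circ.ag ph 0 m) (NS M) n =
    U Circ.ag ph (n + X) M - U Circ.ag ph n M - BM Circ.ag ph 0 X M := by
  have h := U_split Circ.ag ph 0 X M n
  rw [zero_add, add_comm X (n:ℝ)] at h
  rw [h]
  unfold Zc chr
  rfl

variable {ι : Type*} {l : Filter ι} {ρ : ι → ℝ} {M : ι → ℕ} {S : ι → Finset ℕ}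

/-- families for which the truncated series approximates the error term -/
structure AppS {ι : Type*} (l : Filter ι) (ρ : ι → ℝ) (M : ι → ℕ) (S : ι → Finset ℕ) : Prop where
  adm : AdmS l ρ M S
  card : Tendsto (fun j => ((S j).card : ℝ)) l atTop
  app : ∀ s : ℝ, Tendsto (fun j => ra (S j) (fun n => if 5 ≤ n then
    (En (n + ρ j * s) - U Circ.ag ph (n + ρ j * s) (M j))^2 else 0) / (ρ j * Real.log (1/ρ j))) l (𝓝 0)

/-- mean absolute errors -/
noncomputable def ea (S : Finset ℕ) (X : ℝ) (M : ℕ) : ℝ :=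
  ra S (fun n => if 5 ≤ n then |En (n + X) - U Circ.ag ph (n + X) M| else 0)

lemma ea_nonneg (S : Finset ℕ) (X : ℝ) (M : ℕ) : 0 ≤ ea S X M := by
  unfold ea
  apply ra_nonneg
  intro n
  split_ifs <;> positivity

lemma ea_tend (h : AppS l ρ M S) (s : ℝ) : Tendsto (fun j => 1 / (4 * √(ρ j * Real.log (1/ρ j))) * ea (S j) (ρ j * s) (M j)) l (𝓝 0) := by
  have h1 := (h.app s).sqrt
  rw [Real.sqrt_zero] at h1
  refine squeeze_zero' (Eventually.of_forall (fun j => ?_)) ?_ h1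
  · exact mul_nonneg (by positivity) (ea_nonneg _ _ _)
  · filter_upwards [h.adm.small (Real.exp_pos (-1))] with j hj
    have hL1 : 1 ≤ Real.log (1/ρ j) := by
      rw [Real.le_log_iff_exp_le (by have := hj.1; positivity), le_div_iff₀ hj.1]
      calc Real.exp 1 * ρ j ≤ Real.exp 1 * Real.exp (-1) := by have := hj.2; gcongr
        _ = 1 := by rw [← Real.exp_add]; norm_num
    have hrL : 0 < ρ j * Real.log (1/ρ j) := mul_pos hj.1 (by linarith)
    have hsr : 0 < √(ρ j * Real.log (1/ρ j)) := Real.sqrt_pos.mpr hrL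
    have h2 := ra_cs (S j) (fun n => if 5 ≤ n then (En (n + ρ j * s) - U Circ.ag ph (n + ρ j * s) (M j)) else 0)
    have e1 : (fun n : ℕ => |if 5 ≤ n then (En (n + ρ j * s) - U Circ.ag ph (n + ρ j * s) (M j)) else 0|) =
        (fun n : ℕ => if 5 ≤ n then |En (n + ρ j * s) - U Circ.ag ph (n + ρ j * s) (M j)| else 0) := by
      funext n; split_ifs <;> simp
    have e2 : (fun n : ℕ => (if 5 ≤ n then (En (n + ρ j * s) - U Circ.ag ph (n + ρ j * s) (M j)) else 0)^2) =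
        (fun n : ℕ => if 5 ≤ n then (En (n + ρ j * s) - U Circ.ag ph (n + ρ j * s) (M j))^2 else 0) := by
      funext n; split_ifs <;> simp
    rw [e1, e2] at h2
    unfold ea
    rw [Real.sqrt_div' _ hrL.le]
    have h3 : 1 / (4 * √(ρ j * Real.log (1/ρ j))) ≤ 1 / √(ρ j * Real.log (1/ρ j)) := by
      apply one_div_le_one_div_of_le hsr
      linarith
    calc _ ≤ 1 / √(ρ j * Real.log (1/ρ j)) * √(ra (S j) (fun n : ℕ => if 5 ≤ n then (En (n + ρ j * s) - U Circ.ag ph (n + ρ j * s) (M j))^2 else 0)) :=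
          mul_le_mul h3 h2 (ra_nonneg (fun n => by split_ifs <;> positivity)) (by positivity)
      _ = _ := by ring

lemma sig_tend (h : AdmS l ρ M S) (C : ℝ) : Tendsto (fun j => 1 / (4 * √(ρ j * Real.log (1/ρ j))) * (C * √(ρ j))) l (𝓝 0) := by
  have h1 := (Linv_tend h.rho).const_mul (C / 4)
  rw [mul_zero] at h1
  refine h1.congr' ?_
  filter_upwards [h.small (Real.exp_pos (-1))] with j hj
  have hL1 : 1 ≤ Real.log (1/ρ j) := by
    rw [Real.le_log_iff_exp_le (by have := hj.1; positivity), le_div_iff₀ hj.1]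
    calc Real.exp 1 * ρ j ≤ Real.exp 1 * Real.exp (-1) := by have := hj.2; gcongr
      _ = 1 := by rw [← Real.exp_add]; norm_num
  have h2 : 0 < √(ρ j) := Real.sqrt_pos.mpr hj.1
  have h3 : 0 < √(Real.log (1/ρ j)) := Real.sqrt_pos.mpr (by linarith)
  rw [Real.sqrt_mul hj.1.le]
  field_simp

/-- the linear combination -/
noncomputable def Xn {k : ℕ} (t0 ρ : ℝ) (t s : Fin k → ℝ) (n : ℕ) : ℝ := t0 * (PG n / √(n:ℝ)) + ∑ i, t i * Yn ρ (s i) n

/-- comparison of the increments with the model -/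
theorem full_cmp (h : AppS l ρ M S) (t0 : ℝ) {k : ℕ} (t s : Fin k → ℝ) :
    Tendsto (fun j => ‖av (S j) (fun n => Complex.exp (Complex.I * (Xn t0 (ρ j) t s n : ℂ))) -
      av (S j) (fun n => Complex.exp (Complex.I * (Vm t0 (M j) (ρ j) t s n : ℂ)))‖) l (𝓝 0) := by
  obtain ⟨C1, hC1, hY⟩ := Yn_eq
  choose C2 hC2 r0 hr0 hB using BM_fix
  have hea := ea_tend h
  set σi : ι → ℝ := fun j => 1 / (4 * √(ρ j * Real.log (1/ρ j))) with hσ
  -- the bound
  set Bd : ι → ℝ := fun j => (|t0| * (ea (S j) (ρ j * 0) (M j)) + ∑ i, |t i| * (σi j * ea (S j) (ρ j * s i) (M j) + σi j * ea (S j) (ρ j * 0) (M j) +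
    σi j * (C1 * |s i| * √(ρ j)) + σi j * (C2 (s i) * √(ρ j)))) + 10 / ((S j).card : ℝ) with hBd
  have hlim : Tendsto Bd l (𝓝 0) := by
    have h0 : Tendsto (fun j => ea (S j) (ρ j * 0) (M j)) l (𝓝 0) := by
      refine squeeze_zero' (Eventually.of_forall (fun j => ea_nonneg _ _ _)) ?_ (hea 0)
      have hs : Tendsto (fun j => √(ρ j * Real.log (1/ρ j))) l (𝓝 0) := by
        have h1 : Tendsto (fun j => 2 * (ρ j) ^ (1/2:ℝ)) l (𝓝 0) := by
          have := (rho_pow_tend h.adm (a := 1/2) (by norm_num)).const_mul 2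
          rwa [mul_zero] at this
        have h2 : Tendsto (fun j => ρ j * Real.log (1/ρ j)) l (𝓝 0) := by
          refine squeeze_zero' ?_ ?_ h1
          · filter_upwards [h.adm.small one_pos] with j hj
            exact mul_nonneg hj.1.le (Real.log_nonneg (by rw [one_le_div hj.1]; exact hj.2))
          · filter_upwards [h.adm.small one_pos] with j hj
            have q := sqrt_log_le hj.1
            have q1 : 0 < √(ρ j) := Real.sqrt_pos.mpr hj.1
            calc ρ j * Real.log (1/ρ j) = √(ρ j) * (√(ρ j) * Real.log (1/ρ j)) := by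
                  rw [← mul_assoc, Real.mul_self_sqrt hj.1.le]
              _ ≤ √(ρ j) * 2 := by gcongr
              _ = _ := by rw [Real.sqrt_eq_rpow]; ring
        have h3 := h2.sqrt
        rwa [Real.sqrt_zero] at h3
      have hs1 := hs.eventually (gt_mem_nhds (show (0:ℝ) < 1/4 by norm_num))
      filter_upwards [hs1, h.adm.small (Real.exp_pos (-1))] with j hj hj2
      have hL1 : 1 ≤ Real.log (1/ρ j) := by
        rw [Real.le_log_iff_exp_le (by have := hj2.1; positivity), le_div_iff₀ hj2.1]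
        calc Real.exp 1 * ρ j ≤ Real.exp 1 * Real.exp (-1) := by have := hj2.2; gcongr
          _ = 1 := by rw [← Real.exp_add]; norm_num
      have hrL : 0 < ρ j * Real.log (1/ρ j) := mul_pos hj2.1 (by linarith)
      have hsr : 0 < √(ρ j * Real.log (1/ρ j)) := Real.sqrt_pos.mpr hrL
      have : 1 ≤ 1 / (4 * √(ρ j * Real.log (1/ρ j))) := by
        rw [one_le_div (by positivity)]; linarith
      have h5 := ea_nonneg (S j) (ρ j * 0) (M j)
      nlinarith
    have h1 : Tendsto (fun j => 10 / ((S j).card : ℝ)) l (𝓝 0) := by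
      have := (tendsto_inv_atTop_zero.comp h.card).const_mul 10
      rw [mul_zero] at this
      exact this.congr (fun j => by rw [Function.comp_apply, div_eq_mul_inv])
    have h2 : Tendsto (fun j => ∑ i, |t i| * (σi j * ea (S j) (ρ j * s i) (M j) + σi j * ea (S j) (ρ j * 0) (M j) +
      σi j * (C1 * |s i| * √(ρ j)) + σi j * (C2 (s i) * √(ρ j)))) l (𝓝 (∑ i : Fin k, |t i| * (0 + 0 + 0 + 0))) := by
      apply tendsto_finsetSum
      intro i _
      exact ((((hea (s i)).add (hea 0)).add (sig_tend h.adm (C1 * |s i|))).add (sig_tend h.adm (C2 (s i)))).const_mul _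
    have h3 := ((h0.const_mul |t0|).add h2).add h1
    have e : |t0| * 0 + ∑ i : Fin k, |t i| * (0 + 0 + 0 + 0) + 0 = 0 := by simp
    rw [e] at h3
    exact h3
  refine squeeze_zero' (Eventually.of_forall (fun _ => norm_nonneg _)) ?_ hlim
  have hev : ∀ᶠ j in l, ∀ i : Fin k, ρ j ≤ r0 (s i) ∧ |ρ j * s i| ≤ 1 := by
    rw [Filter.eventually_all]
    intro i
    filter_upwards [h.adm.small (hr0 (s i)), h.adm.small (r := 1/(|s i|+1)) (by positivity)] with j h1 h2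
    refine ⟨h1.2, ?_⟩
    have h3 := h2.2
    rw [le_div_iff₀ (by positivity)] at h3
    rw [abs_mul, abs_of_pos h2.1]
    nlinarith [h2.1]
  filter_upwards [hev, h.adm.small (Real.exp_pos (-1)), h.adm.MM] with j hj hρ hM
  have hρ1 : ρ j ≤ 1 := hρ.2.trans (by rw [Real.exp_le_one_iff]; norm_num)
  have hσ0 : 0 ≤ σi j := by rw [hσ]; positivity
  refine (av_cmp5 (S j) (Xn t0 (ρ j) t s) (Vm t0 (M j) (ρ j) t s)).trans ?_
  rw [hBd]
  simp only
  apply add_le_add_left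
  have hρs : ρ j ≤ √(ρ j) := by
    have q0 : √(ρ j) ≤ 1 := by rw [Real.sqrt_le_left (by norm_num)]; simpa using hρ1
    calc ρ j = √(ρ j) * √(ρ j) := (Real.mul_self_sqrt hρ.1.le).symm
      _ ≤ √(ρ j) * 1 := by gcongr
      _ = _ := mul_one _
  -- pointwise
  set e0 : ℕ → ℝ := fun n => if 5 ≤ n then |En (n + ρ j * 0) - U Circ.ag ph (n + ρ j * 0) (M j)| else 0 with he0
  set es : Fin k → ℕ → ℝ := fun i n => if 5 ≤ n then |En (n + ρ j * s i) - U Circ.ag ph (n + ρ j * s i) (M j)| else 0 with hes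
  set κ : Fin k → ℝ := fun i => σi j * (C1 * |s i| * √(ρ j)) + σi j * (C2 (s i) * √(ρ j)) with hκ
  have hκ0 : ∀ i, 0 ≤ κ i := by
    intro i
    rw [hκ]
    have := hC2 (s i)
    positivity
  have hpt : ∀ n : ℕ, (if 5 ≤ n then |Xn t0 (ρ j) t s n - Vm t0 (M j) (ρ j) t s n| else 0) ≤
      |t0| * e0 n + ∑ i, |t i| * (σi j * es i n + σi j * e0 n + κ i) := by
    intro n
    by_cases hn : 5 ≤ n
    · rw [if_pos hn]
      have he0' : e0 n = |En n - U Circ.ag ph n (M j)| := by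
        rw [he0]; simp only [if_pos hn, mul_zero, add_zero]
      have hes' : ∀ i, es i n = |En (n + ρ j * s i) - U Circ.ag ph (n + ρ j * s i) (M j)| := by
        intro i
        rw [hes]; simp only [if_pos hn]
      have e1 : Xn t0 (ρ j) t s n - Vm t0 (M j) (ρ j) t s n = t0 * (En n - U Circ.ag ph n (M j)) +
          ∑ i, t i * (Yn (ρ j) (s i) n - σi j * (U Circ.ag ph (n + ρ j * s i) (M j) - U Circ.ag ph n (M j) - BM Circ.ag ph 0 (ρ j * s i) (M j))) := by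
        unfold Xn Vm
        rw [Zc_Bt, PG_En]
        simp only [Zc_U, mul_sub, Finset.sum_sub_distrib, Finset.mul_sum]
        have : ∀ x : ℕ → ℝ, ∀ y : ℝ, y = y := fun _ _ => rfl
        simp only [hσ]
        have e2 : ∀ i : Fin k, ∀ c : ℝ, t i * (1 / (4 * √(ρ j * Real.log (1 / ρ j))) * c) = 1 / (4 * √(ρ j * Real.log (1 / ρ j))) * (t i * c) := by
          intro i c; ring
        simp only [e2]
        ring
      rw [e1]
      refine (abs_add_le _ _).trans (add_le_add ?_ ((Finset.abs_sum_le_sum_abs _ _).trans (Finset.sum_le_sum (fun i _ => ?_))))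
      · rw [abs_mul, he0']
      · rw [abs_mul]
        apply mul_le_mul_of_nonneg_left _ (abs_nonneg _)
        have q1 := hY n (ρ j) (s i) hn hρ.1 hρ.2 (hj i).2
        have q2 := hB (s i) (ρ j) hρ.1 (hj i).1 (M j) hM
        have q2' : |BM Circ.ag ph 0 (ρ j * s i) (M j) - bias (ρ j) (s i)| ≤ C2 (s i) * √(ρ j) := q2
        have e3 : Yn (ρ j) (s i) n - σi j * (U Circ.ag ph (n + ρ j * s i) (M j) - U Circ.ag ph n (M j) - BM Circ.ag ph 0 (ρ j * s i) (M j)) =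
            (Yn (ρ j) (s i) n - σi j * ((En (n + ρ j * s i) - En n) - bias (ρ j) (s i))) +
            σi j * (En (n + ρ j * s i) - U Circ.ag ph (n + ρ j * s i) (M j)) - σi j * (En n - U Circ.ag ph n (M j)) +
            σi j * (BM Circ.ag ph 0 (ρ j * s i) (M j) - bias (ρ j) (s i)) := by ring
        rw [e3]
        refine (abs_add_le _ _).trans ?_
        have q3 : |σi j * (BM Circ.ag ph 0 (ρ j * s i) (M j) - bias (ρ j) (s i))| ≤ σi j * (C2 (s i) * √(ρ j)) := by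
          rw [abs_mul, abs_of_nonneg hσ0]; gcongr
        have q4 : |(Yn (ρ j) (s i) n - σi j * ((En (n + ρ j * s i) - En n) - bias (ρ j) (s i))) +
            σi j * (En (n + ρ j * s i) - U Circ.ag ph (n + ρ j * s i) (M j)) - σi j * (En n - U Circ.ag ph n (M j))| ≤
            σi j * (C1 * |s i| * √(ρ j)) + σi j * es i n + σi j * e0 n := by
          refine (abs_sub _ _).trans (add_le_add ((abs_add_le _ _).trans (add_le_add ?_ ?_)) ?_)
          · refine q1.trans ?_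
            have : C1 * (ρ j * |s i|) ≤ C1 * |s i| * √(ρ j) := by
              calc C1 * (ρ j * |s i|) ≤ C1 * (√(ρ j) * |s i|) := by gcongr
                _ = _ := by ring
            exact mul_le_mul_of_nonneg_left this hσ0
          · rw [abs_mul, abs_of_nonneg hσ0, hes']
          · rw [abs_mul, abs_of_nonneg hσ0, he0']
        rw [hκ]
        simp only
        linarith
    · rw [if_neg hn]
      have he0' : e0 n = 0 := by rw [he0]; simp only [if_neg hn]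
      have hes' : ∀ i, es i n = 0 := by
        intro i
        rw [hes]; simp only [if_neg hn]
      rw [he0', mul_zero, zero_add]
      apply Finset.sum_nonneg
      intro i _
      rw [hes' i]
      have := hκ0 i
      simp only [mul_zero, zero_add]
      positivity
  refine (ra_mono hpt).trans ?_
  rw [ra_add, ra_smul, ra_sum]
  have e5 : ra (S j) e0 = ea (S j) (ρ j * 0) (M j) := rfl
  rw [e5]
  apply add_le_add_right
  apply Finset.sum_le_sum
  intro i _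
  rw [ra_smul]
  apply mul_le_mul_of_nonneg_left _ (abs_nonneg _)
  rw [ra_add, ra_add, ra_smul, ra_smul]
  have e6 : ra (S j) (es i) = ea (S j) (ρ j * s i) (M j) := rfl
  rw [e5, e6]
  have := ra_const_le (S := S j) (hκ0 i)
  rw [hκ] at this ⊢
  simp only at this ⊢
  linarith

/-- **the increments, up to a truncation** -/
theorem full_lim (h : AppS l ρ M S) (t0 : ℝ) {k : ℕ} (t s : Fin k → ℝ) :
    ∃ C : ℝ, 0 < C ∧ ∀ M0 : ℕ, 1 ≤ M0 → ∀ η : ℝ, 0 < η → ∀ᶠ j in l,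
    ‖av (S j) (fun n => Complex.exp (Complex.I * (Xn t0 (ρ j) t s n : ℂ))) -
      mn (Ez (fun m => (t0:ℂ) * ac Circ.ag ph 0 m) Complex.I (Finset.Icc 1 (M0^2))) * ((Real.exp (-(Qf t s / 2)) : ℝ) : ℂ)‖ ≤
      √(C * (M0:ℝ) ^ (-(1/25):ℝ) + η) + 2 * η := by
  obtain ⟨C, hC, hm⟩ := model_lim h.adm t0 t s
  refine ⟨C, hC, ?_⟩
  intro M0 hM0 η hη
  filter_upwards [hm M0 hM0 η hη, (full_cmp h t0 t s).eventually (gt_mem_nhds hη)] with j h1 h2
  calc _ ≤ _ := norm_sub_le_norm_sub_add_norm_sub _ (av (S j) (fun n => Complex.exp (Complex.I * (Vm t0 (M j) (ρ j) t s n : ℂ)))) _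
    _ ≤ η + (√(C * (M0:ℝ) ^ (-(1/25):ℝ) + η) + η) := add_le_add h2.le h1
    _ = _ := by ring

/-- the constants of the law -/
def LawC (t0 : ℝ) (φ0 : ℂ) : Prop := ∃ C : ℝ, 0 < C ∧ ∀ M0 : ℕ, 1 ≤ M0 →
  ‖φ0 - mn (Ez (fun m => (t0:ℂ) * ac Circ.ag ph 0 m) Complex.I (Finset.Icc 1 (M0^2)))‖ ≤ √(C * (M0:ℝ) ^ (-(1/25):ℝ))

/-- identification of the first marginal -/
theorem lawC_of [l.NeBot] (h : AppS l ρ M S) {t0 : ℝ} {φ0 : ℂ}
    (hφ : Tendsto (fun j => av (S j) (fun n => Complex.exp (Complex.I * ((t0 * (PG n / √(n:ℝ)) : ℝ) : ℂ)))) l (𝓝 φ0)) : LawC t0 φ0 := by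
  obtain ⟨C, hC, hf⟩ := full_lim h t0 (k := 0) (fun _ => 0) (fun _ => 0)
  refine ⟨C, hC, ?_⟩
  intro M0 hM0
  have hQ : Qf (k := 0) (fun _ => 0) (fun _ => 0) = 0 := by unfold Qf; simp
  rw [hQ] at hf
  simp only [zero_div, neg_zero, Real.exp_zero, Complex.ofReal_one, mul_one] at hf
  have h1 : ∀ η : ℝ, 0 < η → ‖φ0 - mn (Ez (fun m => (t0:ℂ) * ac Circ.ag ph 0 m) Complex.I (Finset.Icc 1 (M0^2)))‖ ≤
      √(C * (M0:ℝ) ^ (-(1/25):ℝ) + η) + 2 * η := by
    intro η hη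
    have h2 : Tendsto (fun j => ‖av (S j) (fun n => Complex.exp (Complex.I * ((t0 * (PG n / √(n:ℝ)) : ℝ) : ℂ))) -
      mn (Ez (fun m => (t0:ℂ) * ac Circ.ag ph 0 m) Complex.I (Finset.Icc 1 (M0^2)))‖) l
      (𝓝 ‖φ0 - mn (Ez (fun m => (t0:ℂ) * ac Circ.ag ph 0 m) Complex.I (Finset.Icc 1 (M0^2)))‖) := (hφ.sub_const _).norm
    refine le_of_tendsto h2 ?_
    filter_upwards [hf M0 hM0 η hη] with j hj
    have e : ∀ n, Xn t0 (ρ j) (k := 0) (fun _ => 0) (fun _ => 0) n = t0 * (PG n / √(n:ℝ)) := by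
      intro n; unfold Xn; simp
    simp only [e] at hj
    exact hj
  have h3 : Tendsto (fun η : ℝ => √(C * (M0:ℝ) ^ (-(1/25):ℝ) + η) + 2 * η) (𝓝[>] 0) (𝓝 (√(C * (M0:ℝ) ^ (-(1/25):ℝ)))) := by
    have h4 : Continuous (fun η : ℝ => √(C * (M0:ℝ) ^ (-(1/25):ℝ) + η) + 2 * η) := by fun_prop
    have h5 := (h4.tendsto 0).mono_left (nhdsWithin_le_nhds (s := Set.Ioi 0))
    simpa using h5
  refine ge_of_tendsto h3 ?_
  filter_upwards [self_mem_nhdsWithin] with η hη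
  exact h1 η hη

/-- **the joint characteristic function** -/
theorem joint_cf (h : AppS l ρ M S) {t0 : ℝ} {φ0 : ℂ} (hφ : LawC t0 φ0) {k : ℕ} (t s : Fin k → ℝ) :
    Tendsto (fun j => av (S j) (fun n => Complex.exp (Complex.I * (Xn t0 (ρ j) t s n : ℂ)))) l
      (𝓝 (φ0 * ((Real.exp (-(Qf t s / 2)) : ℝ) : ℂ))) := by
  obtain ⟨C, hC, hf⟩ := full_lim h t0 t s
  obtain ⟨C', hC', hφ'⟩ := hφ
  rw [Metric.tendsto_nhds]
  intro ε hε
  have hQ := Qf_nonneg t s
  have hex : Real.exp (-(Qf t s / 2)) ≤ 1 := by rw [Real.exp_le_one_iff]; linarith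
  -- choose M0
  obtain ⟨M0, hM0, hM1, hM2⟩ : ∃ M0 : ℕ, 1 ≤ M0 ∧ √(C' * (M0:ℝ) ^ (-(1/25):ℝ)) < ε/4 ∧ C * (M0:ℝ) ^ (-(1/25):ℝ) < (ε/8)^2 / 2 := by
    have g1 : Tendsto (fun M0 : ℕ => (M0:ℝ) ^ (-(1/25):ℝ)) atTop (𝓝 0) :=
      (tendsto_rpow_neg_atTop (by norm_num : (0:ℝ) < 1/25)).comp tendsto_natCast_atTop_atTop
    have g2 : Tendsto (fun M0 : ℕ => √(C' * (M0:ℝ) ^ (-(1/25):ℝ))) atTop (𝓝 0) := by
      have := (g1.const_mul C').sqrt
      rwa [mul_zero, Real.sqrt_zero] at this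
    have g3 : Tendsto (fun M0 : ℕ => C * (M0:ℝ) ^ (-(1/25):ℝ)) atTop (𝓝 0) := by
      have := g1.const_mul C
      rwa [mul_zero] at this
    have e1 := g2.eventually (gt_mem_nhds (show (0:ℝ) < ε/4 by positivity))
    have e2 := g3.eventually (gt_mem_nhds (show (0:ℝ) < (ε/8)^2/2 by positivity))
    obtain ⟨M0, h1, h2, h3⟩ := (e1.and (e2.and (eventually_ge_atTop 1))).exists
    exact ⟨M0, h3, h1, h2⟩
  set η := min ((ε/8)^2/2) (ε/16) with hη
  have hη0 : 0 < η := by positivity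
  have hη1 : η ≤ (ε/8)^2/2 := min_le_left _ _
  have hη2 : η ≤ ε/16 := min_le_right _ _
  filter_upwards [hf M0 hM0 η hη0] with j hj
  rw [dist_eq_norm]
  have h1 : √(C * (M0:ℝ) ^ (-(1/25):ℝ) + η) ≤ ε/8 := by
    rw [Real.sqrt_le_left (by positivity)]
    linarith
  set m0 := mn (Ez (fun m => (t0:ℂ) * ac Circ.ag ph 0 m) Complex.I (Finset.Icc 1 (M0^2))) with hm0
  have h2 : ‖m0 * ((Real.exp (-(Qf t s / 2)) : ℝ) : ℂ) - φ0 * ((Real.exp (-(Qf t s / 2)) : ℝ) : ℂ)‖ < ε/4 := by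
    rw [← sub_mul, norm_mul, norm_sub_rev, Complex.norm_real, Real.norm_eq_abs, abs_of_pos (Real.exp_pos _)]
    calc ‖φ0 - m0‖ * Real.exp (-(Qf t s / 2)) ≤ ‖φ0 - m0‖ * 1 := by gcongr
      _ = ‖φ0 - m0‖ := mul_one _
      _ ≤ _ := hφ' M0 hM0
      _ < ε/4 := hM1
  calc _ ≤ _ := norm_sub_le_norm_sub_add_norm_sub _ (m0 * ((Real.exp (-(Qf t s / 2)) : ℝ) : ℂ)) _
    _ < ε := by linarith

end Pool.Agent.W2helper20.GC
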