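import Mathlib
import Pool.Agent.W2helper20.GC.Full

open MeasureTheory Filter Topology ProbabilityTheory
open Pool.Agent.H383.AP
open scoped ENNReal RealInnerProductSpace

namespace Pool.Agent.W2helper20.GC

/-- covariance matrix of two-sided Brownian motion at the times `s i` -/
noncomputable def covB {k : ℕ} (s : Fin k → ℝ) : Matrix (Fin k) (Fin k) ℝ :=
  .of fun i j => (|s i| + |s j| - |s i - s j|) / 2

lemma covB_form {k : ℕ} (s t : Fin k → ℝ) : t ⬝ᵥ (covB s).mulVec t = Qf t s := by
  unfold Qf covB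
  simp only [dotProduct, Matrix.mulVec, Matrix.of_apply, Finset.mul_sum]
  apply Finset.sum_congr rfl
  intro i _
  apply Finset.sum_congr rfl
  intro j _
  ring

theorem covB_psd {k : ℕ} (s : Fin k → ℝ) : (covB s).PosSemidef := by
  rw [Matrix.posSemidef_iff_dotProduct_mulVec]
  refine ⟨?_, ?_⟩
  · ext i j
    unfold covB
    simp only [Matrix.conjTranspose_apply, Matrix.of_apply, star_trivial]
    rw [abs_sub_comm]; ring
  · intro t
    rw [star_trivial, covB_form]
    exact Qf_nonneg t s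

/-- the law of two-sided Brownian motion at the times `s i` -/
noncomputable def gB {k : ℕ} (s : Fin k → ℝ) : Measure (Fin k → ℝ) :=
  (multivariateGaussian 0 (covB s)).map (MeasurableEquiv.toLp 2 (Fin k → ℝ)).symm

/-- the space -/
abbrev EE (k : ℕ) := WithLp 2 (ℝ × EuclideanSpace ℝ (Fin k))

/-- empirical measures -/
noncomputable def emp {k : ℕ} (S : Finset ℕ) (z : ℕ → EE k) : Measure (EE k) :=
  (S.card : ℝ≥0∞)⁻¹ • ∑ n ∈ S, Measure.dirac (z n)

lemma emp_prob {k : ℕ} {S : Finset ℕ} (hS : S.Nonempty) (z : ℕ → EE k) : IsProbabilityMeasure (emp S z) := by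
  constructor
  unfold emp
  rw [Measure.smul_apply, Measure.finsetSum_apply]
  simp only [measure_univ, Finset.sum_const, nsmul_eq_mul, mul_one, smul_eq_mul]
  apply ENNReal.inv_mul_cancel
  · simpa using hS.ne_empty
  · exact ENNReal.natCast_ne_top _

lemma emp_int {k : ℕ} (S : Finset ℕ) (z : ℕ → EE k) {F : Type*} [NormedAddCommGroup F] [NormedSpace ℝ F] [CompleteSpace F]
    {f : EE k → F} (hf : StronglyMeasurable f) : ∫ x, f x ∂(emp S z) = (S.card : ℝ)⁻¹ • ∑ n ∈ S, f (z n) := by
  unfold emp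
  rw [integral_smul_measure, integral_finsetSum_measure]
  · congr 1
    · simp
    · apply Finset.sum_congr rfl
      intro n _
      exact integral_dirac' f (z n) hf
  · intro n _
    exact (integrable_dirac' hf (by simp))

open Classical in
/-- as probability measures -/
noncomputable def empP {k : ℕ} (S : Finset ℕ) (z : ℕ → EE k) : ProbabilityMeasure (EE k) :=
  if h : S.Nonempty then ⟨emp S z, emp_prob h z⟩ else ⟨Measure.dirac 0, inferInstance⟩

lemma empP_coe {k : ℕ} {S : Finset ℕ} (hS : S.Nonempty) (z : ℕ → EE k) : (empP S z : Measure (EE k)) = emp S z := by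
  unfold empP
  rw [dif_pos hS]; rfl

/-- the limit -/
noncomputable def limE {k : ℕ} (μ : ProbabilityMeasure ℝ) (s : Fin k → ℝ) : ProbabilityMeasure (EE k) :=
  ⟨((μ : Measure ℝ).prod (multivariateGaussian 0 (covB s))).map (WithLp.toLp 2), Measure.isProbabilityMeasure_map (by fun_prop)⟩

lemma limE_cf {k : ℕ} (μ : ProbabilityMeasure ℝ) (s : Fin k → ℝ) (t : EE k) :
    charFun (limE μ s : Measure (EE k)) t = charFun (μ : Measure ℝ) t.fst * ((Real.exp (-(Qf (fun i => t.snd i) s / 2)) : ℝ) : ℂ) := by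
  unfold limE
  simp only [ProbabilityMeasure.coe_mk]
  rw [charFun_prod, charFun_multivariateGaussian (covB_psd s)]
  congr 1
  rw [inner_zero_right]
  have e := covB_form s (fun i => t.snd i)
  push_cast
  have e2 : (t.ofLp.2 : EuclideanSpace ℝ (Fin k)).ofLp ⬝ᵥ (covB s).mulVec (t.ofLp.2 : EuclideanSpace ℝ (Fin k)).ofLp = Qf (fun i => t.snd i) s := e
  rw [e2]
  push_cast
  ring_nf

/-- the point -/
noncomputable def zp {k : ℕ} (ρ : ℝ) (s : Fin k → ℝ) (n : ℕ) : EE k :=
  WithLp.toLp 2 (PG n / √(n:ℝ), WithLp.toLp 2 (fun i => Yn ρ (s i) n))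

lemma inner_zp {k : ℕ} (ρ : ℝ) (s : Fin k → ℝ) (n : ℕ) (t : EE k) : ⟪zp ρ s n, t⟫ = Xn t.fst ρ (fun i => t.snd i) s n := by
  unfold zp Xn
  rw [WithLp.prod_inner_apply, PiLp.inner_apply]
  simp only [RCLike.inner_apply, conj_trivial]
  rfl

/-- **convergence of the joint laws** -/
theorem levy {ρ : ℕ → ℝ} {S : ℕ → Finset ℕ} (hS : ∀ᶠ j in atTop, (S j).Nonempty) {μ : ProbabilityMeasure ℝ} {k : ℕ} (s : Fin k → ℝ)
    (h : ∀ (t0 : ℝ) (t : Fin k → ℝ), Tendsto (fun j => av (S j) (fun n => Complex.exp (Complex.I * (Xn t0 (ρ j) t s n : ℂ)))) atTop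
      (𝓝 (charFun (μ : Measure ℝ) t0 * ((Real.exp (-(Qf t s / 2)) : ℝ) : ℂ))))
    {f : ℝ × (Fin k → ℝ) → ℝ} (hf : Continuous f) (hb : ∃ C : ℝ, ∀ x, |f x| ≤ C) :
    Tendsto (fun j => (∑ n ∈ S j, f (PG n / √(n:ℝ), fun i => Yn (ρ j) (s i) n)) / (S j).card) atTop
      (𝓝 (∫ x, f x ∂((μ : Measure ℝ).prod (gB s)))) := by
  have h1 : Tendsto (fun j => empP (S j) (zp (ρ j) s)) atTop (𝓝 (limE μ s)) := by
    apply ProbabilityMeasure.tendsto_of_tendsto_charFun
    intro t
    rw [limE_cf]
    refine (h t.fst (fun i => t.snd i)).congr' ?_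
    filter_upwards [hS] with j hj
    rw [empP_coe hj]
    unfold charFun
    rw [emp_int (S j) (zp (ρ j) s) (by
      apply Continuous.stronglyMeasurable
      fun_prop)]
    unfold av
    rw [div_eq_inv_mul, Complex.real_smul]
    congr 1
    · push_cast; rfl
    · apply Finset.sum_congr rfl
      intro n _
      rw [inner_zp, mul_comm]
  rw [ProbabilityMeasure.tendsto_iff_forall_integral_tendsto] at h1
  obtain ⟨C, hC⟩ := hb
  set g : EE k → ℝ := fun z => f (z.fst, z.snd.ofLp) with hg
  have hgc : Continuous g := by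
    rw [hg]
    apply hf.comp
    fun_prop
  set G : BoundedContinuousFunction (EE k) ℝ := BoundedContinuousFunction.ofNormedAddCommGroup g hgc C (fun z => by
    rw [Real.norm_eq_abs]; exact hC _) with hG
  have h2 := h1 G
  have e1 : ∫ z, G z ∂(limE μ s : Measure (EE k)) = ∫ x, f x ∂((μ : Measure ℝ).prod (gB s)) := by
    unfold limE
    simp only [ProbabilityMeasure.coe_mk]
    rw [integral_map (by fun_prop) (G.continuous.aestronglyMeasurable)]
    have e2 : (μ : Measure ℝ).prod (gB s) = ((μ : Measure ℝ).prod (multivariateGaussian 0 (covB s))).map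
        (Prod.map id (MeasurableEquiv.toLp 2 (Fin k → ℝ)).symm) := by
      unfold gB
      rw [← Measure.map_prod_map _ _ measurable_id (MeasurableEquiv.measurable _), Measure.map_id]
    rw [e2, integral_map (by
      apply Measurable.aemeasurable
      exact measurable_id.prodMap (MeasurableEquiv.measurable _)) hf.aestronglyMeasurable]
    rfl
  rw [e1] at h2
  refine h2.congr' ?_
  filter_upwards [hS] with j hj
  rw [empP_coe hj, emp_int (S j) (zp (ρ j) s) G.continuous.stronglyMeasurable, div_eq_inv_mul, smul_eq_mul]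
  rfl

end Pool.Agent.W2helper20.GC
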