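import Mathlib
import Pool.Agent.W2helper20.GC.Full

open MeasureTheory Filter Topology
open Pool.Agent.H383 Pool.Agent.H383.AP Pool.Agent.H383.Gauss Pool.Agent.H383.Gen Pool.Agent.H383.GW
open Pool.Agent.N48.Ann

namespace Pool.Agent.W2helper20.GC

/-- mean squares on windows -/
theorem win_ms {ε : ℝ} (hε : 0 < ε) : ∃ ω : ℝ, 0 < ω ∧ ω ≤ 1 ∧ ∃ C : ℝ, 0 < C ∧ ∃ N0 : ℕ, ∀ N : ℕ, N0 ≤ N →
    ∀ k : ℕ, (k:ℝ) ^ (1/2 + ε) ≤ N → ∀ x : ℝ, |x| ≤ 1 → ∀ M : ℕ, 1 ≤ M → 2 * ((M:ℝ) + 1) ≤ N →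
    ∑ n ∈ Finset.Ioc k (k + N), (if 5 ≤ n then (En (n + x) - U Circ.ag ph (n + x) M)^2 else 0) ≤
      C * ((M:ℝ) ^ (-ω) + (M:ℝ)^4 * (N:ℝ) ^ (-ω)) * N := by
  obtain ⟨ω0, hω0, C, hC, N1, hA⟩ := Pool.Agent.N48.AnnW.ap_quantW (E := En) Pool.Agent.H452R2.Win.ag_Bdw Circ.ag_zero Circ.wg_Wt
    Pool.Agent.H452R2.Win.En_SandW (α := 1) one_pos (half_pos hε)
  obtain ⟨N2, hw⟩ := win_exp hε
  set ω : ℝ := min ω0 1 with hω
  have hωω : ω ≤ ω0 := min_le_left _ _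
  refine ⟨ω, by positivity, min_le_right _ _, C, hC, max (max N1 N2) 1, ?_⟩
  intro N hN k hk x hx M hM hMN
  have hNN1 : N1 ≤ N := by omega
  have hNN2 : N2 ≤ N := by omega
  have hN1 : 1 ≤ N := by omega
  have hN1' : (1:ℝ) ≤ N := by exact_mod_cast hN1
  have hM1' : (1:ℝ) ≤ M := by exact_mod_cast hM
  have h1 := hw N hNN2 k hk
  obtain ⟨hx1, hx2⟩ := abs_le.mp hx
  set K := max k 4 with hK
  have hK4 : 4 ≤ K := le_max_right _ _
  have hK4' : (4:ℝ) ≤ K := by exact_mod_cast hK4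
  have h2 := hA M hM N hNN1 (by rw [min_self, one_mul]; exact hMN) ((K:ℝ) + 1 + x) (by linarith)
    ((Real.rpow_le_rpow (by linarith) (by linarith) (by positivity)).trans h1)
  simp only [mul_one] at h2
  have hshift : ∀ f : ℕ → ℝ, ∑ n ∈ Finset.Ioc K (K + N), f n = ∑ n ∈ Finset.range N, f (K + 1 + n) := by
    intro f
    have h2 : Finset.Ioc K (K + N) = Finset.Ico (K + 1) (K + 1 + N) := by
      ext x; simp only [Finset.mem_Ioc, Finset.mem_Ico]; omega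
    rw [h2, Finset.sum_Ico_eq_sum_range, show K + 1 + N - (K + 1) = N by omega]
  have h3 : ∑ n ∈ Finset.Ioc k (k + N), (if 5 ≤ n then (En (n + x) - U Circ.ag ph (n + x) M)^2 else 0) ≤
      ∑ n ∈ Finset.Ioc K (K + N), (En (n + x) - U Circ.ag ph (n + x) M)^2 := by
    rw [← Finset.sum_filter]
    apply Finset.sum_le_sum_of_subset_of_nonneg
    · intro n hn
      rw [Finset.mem_filter, Finset.mem_Ioc] at hn
      rw [Finset.mem_Ioc]
      omega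
    · intro _ _ _; positivity
  refine h3.trans ?_
  rw [hshift]
  have h4 : ∑ n ∈ Finset.range N, (En (((K + 1 + n : ℕ):ℝ) + x) - U Circ.ag ph (((K + 1 + n : ℕ):ℝ) + x) M)^2 =
      ∑ n ∈ Finset.range N, (En ((K:ℝ) + 1 + x + n) - U Circ.ag (3 * Real.pi/4) ((K:ℝ) + 1 + x + n) M)^2 := by
    apply Finset.sum_congr rfl
    intro n _
    rw [show (((K + 1 + n : ℕ):ℝ) + x) = (K:ℝ) + 1 + x + n by push_cast; ring]
    rfl
  rw [h4]
  refine h2.trans ?_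
  have h5 : (M:ℝ) ^ (-ω0) ≤ (M:ℝ) ^ (-ω) := Real.rpow_le_rpow_of_exponent_le hM1' (by linarith)
  have h6 : (N:ℝ) ^ (-ω0) ≤ (N:ℝ) ^ (-ω) := Real.rpow_le_rpow_of_exponent_le hN1' (by linarith)
  gcongr

variable {ι : Type*} {l : Filter ι}

/-- negligible powers -/
lemma pow_negl {ρ : ι → ℝ} {N : ι → ℕ} (hρ : Tendsto ρ l (𝓝[>] 0)) (hN : Tendsto N l atTop)
    (hlog : Tendsto (fun j => Real.log (1/ρ j) / Real.log (N j)) l (𝓝 0)) {c : ℝ} (hc : 0 < c) (B : ℝ) :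
    ∀ᶠ j in l, (ρ j) ^ (-B) ≤ (N j : ℝ) ^ c := by
  have h1 := (hlog.const_mul B)
  rw [mul_zero] at h1
  have h2 := h1.eventually (gt_mem_nhds hc)
  have h3 : ∀ᶠ j in l, 2 ≤ N j := hN.eventually_ge_atTop 2
  have h4 : ∀ᶠ j in l, 0 < ρ j := by
    have : ∀ᶠ j in l, ρ j ∈ Set.Ioi (0:ℝ) := hρ.eventually self_mem_nhdsWithin
    exact this
  filter_upwards [h2, h3, h4] with j a1 a2 a3
  have hN0 : (0:ℝ) < N j := by exact_mod_cast (by omega : 0 < N j)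
  have hlN : 0 < Real.log (N j) := Real.log_pos (by exact_mod_cast (by omega : 1 < N j))
  rw [Real.rpow_def_of_pos a3, Real.rpow_def_of_pos hN0]
  apply Real.exp_le_exp.mpr
  have e : Real.log (1/ρ j) = - Real.log (ρ j) := by rw [one_div, Real.log_inv]
  rw [e, ← mul_div_assoc, div_lt_iff₀ hlN] at a1
  nlinarith

/-- **integer windows** -/
theorem app_win {K N : ι → ℕ} {ρ : ι → ℝ} (hρ : Tendsto ρ l (𝓝[>] 0)) (hN : Tendsto N l atTop) {ε : ℝ} (hε : 0 < ε)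
    (hK : ∀ᶠ j in l, (K j:ℝ) ^ (1/2 + ε) ≤ N j) (hlog : Tendsto (fun j => Real.log (1/ρ j) / Real.log (N j)) l (𝓝 0)) :
    ∃ M : ι → ℕ, AppS l ρ M (fun j => Finset.Ioc (K j) (K j + N j)) := by
  obtain ⟨ω, hω, hω1, C, hC, N0, hms⟩ := win_ms hε
  set A : ℝ := 3 + 4/ω with hA
  have hA3 : 3 ≤ A := by rw [hA]; have : 0 ≤ 4/ω := by positivity
                         linarith
  have hAω : 4 ≤ A * ω := by
    rw [hA, add_mul, div_mul_cancel₀ _ hω.ne']; nlinarith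
  have hsmall : ∀ r : ℝ, 0 < r → ∀ᶠ j in l, 0 < ρ j ∧ ρ j ≤ r := fun r hr => hρ (Ioc_mem_nhdsGT hr)
  set M : ι → ℕ := fun j => ⌈(ρ j) ^ (-A)⌉₊ with hM
  -- basic facts
  have basic : ∀ᶠ j in l, (0 < ρ j ∧ ρ j ≤ 1) ∧ 1 ≤ (M j:ℝ) ∧ (ρ j) ^ (-A) ≤ M j ∧ (M j : ℝ) ≤ 2 * (ρ j) ^ (-A) := by
    filter_upwards [hsmall 1 one_pos] with j hj
    have h1 : 1 ≤ (ρ j) ^ (-A) := Real.one_le_rpow_of_pos_of_le_one_of_nonpos hj.1 hj.2 (by linarith)
    have h2 : (ρ j) ^ (-A) ≤ M j := Nat.le_ceil _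
    have h3 : (M j : ℝ) < (ρ j) ^ (-A) + 1 := Nat.ceil_lt_add_one (by linarith)
    exact ⟨hj, by linarith, h2, by linarith⟩
  have hN1 : ∀ᶠ j in l, 1 ≤ N j := hN.eventually_ge_atTop 1
  have hNr : Tendsto (fun j => (N j : ℝ)) l atTop := tendsto_natCast_atTop_atTop.comp hN
  -- powers of M are negligible
  have Mneg : ∀ (n : ℕ) (c : ℝ), 0 < c → ∀ a : ℝ, 0 < a → ∀ᶠ j in l, a * (M j:ℝ)^n ≤ (N j:ℝ) ^ c := by
    intro n c hc a ha
    filter_upwards [basic, pow_negl hρ hN hlog hc (A * n + 1), hsmall (1/(a * 2^n)) (by positivity)] with j h1 h2 h3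
    obtain ⟨⟨h4, h5⟩, h6, h7, h8⟩ := h1
    refine le_trans ?_ h2
    have h9 : (ρ j) ^ (-(A * n + 1)) = ((ρ j) ^ (-A))^n * (ρ j)⁻¹ := by
      rw [← Real.rpow_natCast, ← Real.rpow_mul h4.le, ← Real.rpow_neg_one, ← Real.rpow_add h4]
      congr 1; ring
    rw [h9]
    have h10 : a * 2^n ≤ (ρ j)⁻¹ := by
      rw [le_inv_comm₀ (by positivity) h4, ← one_div]
      exact h3.2
    calc a * (M j:ℝ)^n ≤ a * (2 * (ρ j) ^ (-A))^n := by gcongr
      _ = ((ρ j) ^ (-A))^n * (a * 2^n) := by rw [mul_pow]; ring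
      _ ≤ _ := by gcongr
  refine ⟨M, ⟨hρ, ?_, ?_, ?_⟩, ?_, ?_⟩
  · filter_upwards [basic] with j h1
    obtain ⟨⟨h4, h5⟩, h6, h7, h8⟩ := h1
    refine le_trans ?_ h7
    have : 1/(ρ j)^3 = (ρ j) ^ (-(3:ℝ)) := by
      rw [Real.rpow_neg h4.le, one_div]
      congr 1
      exact_mod_cast (Real.rpow_natCast (ρ j) 3).symm
    rw [this]
    exact Real.rpow_le_rpow_of_exponent_ge h4 h5 (by linarith)
  · filter_upwards [hN1] with j hj
    rw [Finset.nonempty_Ioc]; omega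
  · intro k Ce
    filter_upwards [basic, hN1, Mneg (2^k + Ce) 1 one_pos ((2*((k:ℝ)+1))^(2^k)) (by positivity)] with j h1 h2 h3
    obtain ⟨⟨h4, h5⟩, h6, h7, h8⟩ := h1
    have hN0 : (0:ℝ) < N j := by exact_mod_cast h2
    have hM0 : (0:ℝ) < M j := by linarith
    have hb := blind_win (T := ((Finset.Icc 1 ((M j)^2) : Finset ℕ) : Set ℕ)) (D := (M j:ℝ)) (by linarith) (by
      intro m hm
      have hm' := (Finset.mem_Icc.mp (Finset.mem_coe.mp hm)).2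
      rw [Real.sqrt_le_left (by linarith)]
      exact_mod_cast hm') k (K j) h2
    refine hb.mono subset_rfl ?_
    rw [div_le_div_iff₀ hN0 (by positivity), one_mul]
    rw [Real.rpow_one] at h3
    refine le_trans ?_ h3
    have h9 : 2 * ((k:ℝ) * M j + 1) ≤ 2 * ((k:ℝ)+1) * M j := by nlinarith
    calc (2 * ((k:ℝ) * M j + 1))^(2^k) * (M j:ℝ)^Ce ≤ (2 * ((k:ℝ)+1) * M j)^(2^k) * (M j:ℝ)^Ce := by gcongr
      _ = _ := by rw [mul_pow, pow_add]; ring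
  · refine hNr.congr (fun j => ?_)
    rw [Nat.card_Ioc]; congr 1; omega
  · intro s
    have hlim : Tendsto (fun j => C * 2 * (ρ j)) l (𝓝 0) := by
      have := (hρ.mono_right nhdsWithin_le_nhds).const_mul (C * 2)
      rwa [mul_zero] at this
    refine squeeze_zero' ?_ ?_ hlim
    · filter_upwards [basic] with j h1
      obtain ⟨⟨h4, h5⟩, h6, h7, h8⟩ := h1
      apply div_nonneg (ra_nonneg (fun n => by split_ifs <;> positivity))
      exact mul_nonneg h4.le (Real.log_nonneg (by rw [one_le_div h4]; exact h5))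
    · have hNN0 : ∀ᶠ j in l, N0 ≤ N j := hN.eventually_ge_atTop N0
      filter_upwards [basic, hN1, hNN0, hK, hsmall (Real.exp (-1)) (Real.exp_pos _), hsmall (1/(|s|+1)) (by positivity),
        Mneg 1 1 one_pos 4 (by norm_num), Mneg 5 ω hω 1 one_pos] with j h1 h2 h2' h3 g1 g2 g3 g4
      obtain ⟨⟨h4, h5⟩, h6, h7, h8⟩ := h1
      have hN0 : (0:ℝ) < N j := by exact_mod_cast h2
      have hM0 : (0:ℝ) < M j := by linarith
      have hL1 : 1 ≤ Real.log (1/ρ j) := by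
        rw [Real.le_log_iff_exp_le (by positivity), le_div_iff₀ h4]
        calc Real.exp 1 * ρ j ≤ Real.exp 1 * Real.exp (-1) := by have := g1.2; gcongr
          _ = 1 := by rw [← Real.exp_add]; norm_num
      have hρs : |ρ j * s| ≤ 1 := by
        have g5 := g2.2
        rw [le_div_iff₀ (by positivity)] at g5
        rw [abs_mul, abs_of_pos h4]
        nlinarith
      rw [Real.rpow_one, pow_one] at g3
      have h10 := hms (N j) h2' (K j) h3 (ρ j * s) hρs (M j) (by exact_mod_cast h6) (by linarith)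
      have h11 : (M j:ℝ) ^ (-ω) ≤ (ρ j)^2 := by
        calc (M j:ℝ) ^ (-ω) ≤ ((ρ j) ^ (-A)) ^ (-ω) := Real.rpow_le_rpow_of_nonpos (by positivity) h7 (by linarith)
          _ = (ρ j) ^ (A * ω) := by rw [← Real.rpow_mul h4.le]; congr 1; ring
          _ ≤ (ρ j) ^ (2:ℝ) := Real.rpow_le_rpow_of_exponent_ge h4 h5 (by linarith)
          _ = (ρ j)^2 := by exact_mod_cast Real.rpow_natCast (ρ j) 2
      have h12 : (M j:ℝ)^4 * (N j:ℝ) ^ (-ω) ≤ (ρ j)^2 := by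
        rw [one_mul] at g4
        have h13 : (N j:ℝ) ^ (-ω) ≤ 1 / (M j:ℝ)^5 := by
          rw [Real.rpow_neg hN0.le, ← one_div]
          apply one_div_le_one_div_of_le (by positivity) g4
        have h14 : 1/(M j:ℝ) ≤ (ρ j)^2 := by
          have h15 : 1/(M j:ℝ) ≤ 1/((ρ j) ^ (-A)) := one_div_le_one_div_of_le (by positivity) h7
          have h16 : 1/((ρ j) ^ (-A)) = (ρ j) ^ A := by rw [Real.rpow_neg h4.le, one_div, inv_inv]
          have h17 : (ρ j) ^ A ≤ (ρ j) ^ (2:ℝ) := Real.rpow_le_rpow_of_exponent_ge h4 h5 (by linarith)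
          have h18 : (ρ j) ^ (2:ℝ) = (ρ j)^2 := by exact_mod_cast Real.rpow_natCast (ρ j) 2
          exact h15.trans (h16.le.trans (h17.trans h18.le))
        calc (M j:ℝ)^4 * (N j:ℝ) ^ (-ω) ≤ (M j:ℝ)^4 * (1 / (M j:ℝ)^5) := by gcongr
          _ = 1/(M j:ℝ) := by field_simp
          _ ≤ _ := h14
      rw [div_le_iff₀ (by positivity)]
      unfold ra
      rw [Nat.card_Ioc, show K j + N j - K j = N j by omega, div_le_iff₀ hN0]
      refine h10.trans ?_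
      have h13 : C * ((M j:ℝ) ^ (-ω) + (M j:ℝ)^4 * (N j:ℝ) ^ (-ω)) ≤ C * ((ρ j)^2 + (ρ j)^2) := by gcongr
      have h14 : C * ((ρ j)^2 + (ρ j)^2) ≤ C * 2 * ρ j * (ρ j * Real.log (1/ρ j)) := by
        have : (ρ j)^2 ≤ (ρ j)^2 * Real.log (1/ρ j) := le_mul_of_one_le_right (by positivity) hL1
        nlinarith
      exact mul_le_mul_of_nonneg_right (h13.trans h14) hN0.le

end Pool.Agent.W2helper20.GC
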