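import Mathlib
import Pool.Agent.H425R3.JL.P1
import Pool.Agent.W2helper20.GC.Wnd

open MeasureTheory Filter Topology
open Pool.Agent.H383 Pool.Agent.H383.AP Pool.Agent.H383.Gauss Pool.Agent.H383.Gen Pool.Agent.H383.GW
open Pool.Agent.N48.Ann
open Pool.Agent.H425R3.JL (log_pow_small minor_use PR prime_of pi_low log_three GI GI_int_or_irr sqrt_GI)

namespace Pool.Agent.W2helper20.GC

lemma Th_GI {T : Set ℕ} (k : ℕ) : ∀ θ ∈ Th T k, θ ∈ GI := by
  induction k with
  | zero =>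
    intro θ hθ
    have : θ = 0 := hθ
    rw [this]; exact GI.zero_mem
  | succ k ih =>
    rintro θ ⟨θ', h1, m, hm, h2⟩
    rcases h2 with rfl | rfl
    · exact GI.add_mem (ih θ' h1) (sqrt_GI m)
    · exact GI.sub_mem (ih θ' h1) (sqrt_GI m)

lemma Th_scale {T : Set ℕ} (q k : ℕ) : ∀ θ ∈ Th T k, (q:ℝ) * θ ∈ Th ((fun m => q^2 * m) '' T) k := by
  induction k with
  | zero =>
    intro θ hθ
    have : θ = 0 := hθ
    rw [this, mul_zero]; rfl
  | succ k ih =>
    rintro θ ⟨θ', h1, m, hm, h2⟩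
    refine ⟨q * θ', ih θ' h1, q^2 * m, ⟨m, hm, rfl⟩, ?_⟩
    have e : √(((q^2 * m : ℕ)):ℝ) = q * √(m:ℝ) := by
      push_cast
      rw [Real.sqrt_mul (by positivity), Real.sqrt_sq (Nat.cast_nonneg q)]
    rw [e]
    rcases h2 with rfl | rfl
    · left; ring
    · right; ring

/-- exponential sums over primes at sums of square roots -/
theorem minor_Th (k K U : ℕ) : ∃ N0 : ℕ, ∀ N : ℕ, N0 ≤ N → ∀ T : Set ℕ, (∀ m ∈ T, √(m:ℝ) ≤ Real.log N ^ K) →
    ∀ θ ∈ Th T k, (¬ ∃ a : ℤ, θ = a) →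
    ‖∑ n ∈ Finset.Icc 1 N, ((ArithmeticFunction.vonMangoldt n : ℝ) : ℂ) * chr θ n‖ ≤ N / Real.log N ^ U := by
  obtain ⟨D, N1, h⟩ := minor_use U
  obtain ⟨N2, hN2, h2⟩ := log_pow_small (D + (D + K) * 2^k + 1) ((2 * (k:ℝ) + 1)^(2^k) + 1)
  obtain ⟨N3, hN3, h3⟩ := log_pow_small (D + 1) 1
  refine ⟨max N1 (max N2 N3), fun N hN T hT θ hθ hne => h N (by omega) _ ?_⟩
  intro q hq hqB p
  obtain ⟨hl, hlB⟩ := h2 N (by omega)
  obtain ⟨-, hlB'⟩ := h3 N (by omega)
  have hN0 : (0:ℝ) < N := by exact_mod_cast (by omega : 0 < N)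
  have hq0 : (0:ℝ) < q := by exact_mod_cast hq
  have hq1 : (1:ℝ) ≤ q := by exact_mod_cast hq
  set ℓ := Real.log N with hℓ
  have hl0 : 0 < ℓ := by linarith
  have hirr : Irrational θ := by
    rcases GI_int_or_irr (Th_GI k θ hθ) with h | h
    · exact absurd h hne
    · exact h
  have hnz : (q:ℝ) * θ + ((-p : ℤ):ℝ) ≠ 0 := by
    intro h0
    apply hirr
    refine ⟨(p:ℚ)/q, ?_⟩
    push_cast at h0 ⊢
    rw [div_eq_iff hq0.ne']
    linarith
  have e1 : |θ - p/q| = |(q:ℝ) * θ + ((-p : ℤ):ℝ)| / q := by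
    rw [← abs_of_pos hq0, ← abs_div, abs_of_pos hq0]
    congr 1
    push_cast
    field_simp
    ring
  rw [e1, div_lt_div_iff₀ (by positivity) hq0]
  set Δ := |(q:ℝ) * θ + ((-p : ℤ):ℝ)| with hΔ
  have hΔ0 : 0 ≤ Δ := abs_nonneg _
  -- it is enough that ℓ^D < Δ N
  have key : ℓ^D < Δ * N := by
    have e0 : ℓ^D < N := by
      have : ℓ^D < ℓ^(D+1) ∨ ℓ^D = ℓ^(D+1) := (pow_le_pow_right₀ hl (by omega)).lt_or_eq
      rw [one_mul] at hlB'
      rcases this with h | h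
      · linarith
      · -- ℓ = 1 case: use the other bound
        have hh : 1 ≤ ℓ ^ (D + (D + K) * 2^k + 1) := one_le_pow₀ hl
        have hh2 : ℓ^D ≤ ℓ ^ (D + (D + K) * 2^k + 1) := pow_le_pow_right₀ hl (by omega)
        have hh3 : 0 < (2 * (k:ℝ) + 1)^(2^k) := by positivity
        nlinarith
    by_cases hbig : 1 < Δ
    · nlinarith
    · rw [not_lt] at hbig
      set Dq : ℝ := ℓ^(D + K) with hDq
      have hDq1 : 1 ≤ Dq := one_le_pow₀ hl
      have hT' : ∀ m' : ℕ, m' ∈ (fun m : ℕ => q^2 * m) '' T → √(m':ℝ) ≤ Dq := by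
        rintro _ ⟨m, hm, rfl⟩
        show √(((q^2 * m : ℕ)):ℝ) ≤ Dq
        have e : √(((q^2 * m : ℕ)):ℝ) = q * √(m:ℝ) := by
          push_cast
          rw [Real.sqrt_mul (by positivity), Real.sqrt_sq (Nat.cast_nonneg q)]
        rw [e, hDq, pow_add]
        exact mul_le_mul hqB.le (hT m hm) (Real.sqrt_nonneg _) (by positivity)
      have hqθ := Th_scale q k θ hθ
      have habs := Th_abs hT' _ hqθ
      have hp : |(((-p : ℤ)):ℝ)| ≤ k * Dq + 1 := by
        have : (((-p : ℤ)):ℝ) = ((q:ℝ) * θ + ((-p : ℤ):ℝ)) - (q:ℝ) * θ := by ring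
        rw [this]
        refine (abs_sub _ _).trans ?_
        linarith
      set B : ℝ := (2 * (k:ℝ) + 1) * Dq with hB
      have hk0 : (0:ℝ) ≤ k := Nat.cast_nonneg k
      have hB1 : 1 ≤ B := by
        rw [hB]; nlinarith
      have hB2 : (k:ℝ) * Dq + |(((-p : ℤ)):ℝ)| ≤ B := by
        rw [hB]; nlinarith
      have h4 := Th_lower hT' hqθ (-p) hnz hB1 hB2
      have e2 : B^(2^k) = (2 * (k:ℝ) + 1)^(2^k) * ℓ^((D+K) * 2^k) := by
        rw [hB, hDq, mul_pow, ← pow_mul]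
      have h5 : ℓ^D * B^(2^k) < N := by
        have e3 : ℓ ^ (D + (D + K) * 2^k + 1) = ℓ^D * ℓ^((D+K)*2^k) * ℓ := by rw [pow_succ, pow_add]
        rw [e3] at hlB
        have e4 : 0 < ℓ^D * ℓ^((D+K)*2^k) := by positivity
        have e5 : ℓ^D * ℓ^((D+K)*2^k) ≤ ℓ^D * ℓ^((D+K)*2^k) * ℓ := le_mul_of_one_le_right e4.le hl
        have e6 : 0 < (2 * (k:ℝ) + 1)^(2^k) := by positivity
        rw [e2]
        calc ℓ^D * ((2 * (k:ℝ) + 1)^(2^k) * ℓ^((D+K) * 2^k)) = (2 * (k:ℝ) + 1)^(2^k) * (ℓ^D * ℓ^((D+K)*2^k)) := by ring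
          _ < ((2 * (k:ℝ) + 1)^(2^k) + 1) * (ℓ^D * ℓ^((D+K)*2^k)) := by nlinarith
          _ ≤ ((2 * (k:ℝ) + 1)^(2^k) + 1) * (ℓ^D * ℓ^((D+K)*2^k) * ℓ) := by gcongr
          _ ≤ N := hlB
      have hBp : 0 < B^(2^k) := by positivity
      have h4' : 1 ≤ Δ * B^(2^k) := h4
      by_contra hcon
      rw [not_lt] at hcon
      have h6 : (1:ℝ) * N ≤ ℓ^D * B^(2^k) := by
        calc (1:ℝ) * N ≤ (Δ * B^(2^k)) * N := by gcongr
          _ = (Δ * N) * B^(2^k) := by ring
          _ ≤ ℓ^D * B^(2^k) := by gcongr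
      linarith
  nlinarith

/-- averages over primes -/
theorem blind_PR (k K C : ℕ) : ∃ N0 : ℕ, ∀ N : ℕ, N0 ≤ N → ∀ M : ℕ, 1 ≤ M → (M:ℝ) ≤ 2^K * Real.log N ^ K →
    Blind (PR N) (Th ((Finset.Icc 1 (M^2) : Finset ℕ) : Set ℕ) k) (1/(M:ℝ)^C) := by
  set U := K * C + 1 with hU
  obtain ⟨N1, h1⟩ := minor_Th k (2*K) U
  obtain ⟨N2, h2⟩ := pi_low
  obtain ⟨N3, hN3, h3⟩ := log_pow_small 1 1
  -- asymptotic smallness
  have hlim : Tendsto (fun N : ℕ => (18 * (2:ℝ)^(K*C)) * (Real.log N ^ (K*C+1) / √(N:ℝ)) + (8 * 3^U * (2:ℝ)^(K*C)) * (1/Real.log N)) atTop (𝓝 0) := by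
    have h6 : Tendsto (fun x : ℝ => Real.log x ^ (K*C+1) / √x) atTop (𝓝 0) := by
      have := (isLittleO_log_rpow_rpow_atTop ((K*C+1 : ℕ):ℝ) (by norm_num : (0:ℝ) < 1/2)).tendsto_div_nhds_zero
      refine this.congr (fun x => ?_)
      rw [Real.sqrt_eq_rpow, Real.rpow_natCast]
    have h7 : Tendsto (fun N : ℕ => Real.log N ^ (K*C+1) / √(N:ℝ)) atTop (𝓝 0) := h6.comp tendsto_natCast_atTop_atTop
    have h8 : Tendsto (fun N : ℕ => 1 / Real.log (N:ℝ)) atTop (𝓝 0) := by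
      have := tendsto_inv_atTop_zero.comp (Real.tendsto_log_atTop.comp tendsto_natCast_atTop_atTop)
      exact this.congr (fun N => by simp [one_div])
    have h9 := (h7.const_mul (18 * (2:ℝ)^(K*C))).add (h8.const_mul (8 * 3^U * (2:ℝ)^(K*C)))
    simpa using h9
  obtain ⟨N4, h4⟩ := eventually_atTop.mp (hlim.eventually (gt_mem_nhds one_pos))
  obtain ⟨N5, hN5, h5⟩ := log_pow_small 1 0
  -- for t with log t ≥ 6
  obtain ⟨N6, h6⟩ : ∃ N6 : ℕ, ∀ t : ℕ, N6 ≤ t → 6 ≤ Real.log t := by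
    have : Tendsto (fun t : ℕ => Real.log (t:ℝ)) atTop atTop := Real.tendsto_log_atTop.comp tendsto_natCast_atTop_atTop
    exact eventually_atTop.mp (this.eventually_ge_atTop 6)
  refine ⟨max (max (N1^2 + 9) N2) (max (max ((N3+1)^2) N4) (N6^2+9)), ?_⟩
  intro N hN M hM hMN
  have n1 : N1^2 + 9 ≤ N := le_trans (le_max_left _ _) (le_trans (le_max_left _ _) hN)
  have n2 : N2 ≤ N := le_trans (le_max_right _ _) (le_trans (le_max_left _ _) hN)
  have n3 : (N3+1)^2 ≤ N := le_trans (le_max_left _ _) (le_trans (le_max_left _ _) (le_trans (le_max_right _ _) hN))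
  have n4 : N4 ≤ N := le_trans (le_max_right _ _) (le_trans (le_max_left _ _) (le_trans (le_max_right _ _) hN))
  have n6 : N6^2 + 9 ≤ N := le_trans (le_max_right _ _) (le_trans (le_max_right _ _) hN)
  have hN9 : 9 ≤ N := by omega
  have hN0 : (0:ℝ) < N := by exact_mod_cast (by omega : 0 < N)
  have hN31 : N3 ≤ N := by nlinarith
  obtain ⟨hl, -⟩ := h3 N hN31
  have hl0 : 0 < Real.log N := by linarith
  have hM0 : (0:ℝ) < M := by exact_mod_cast hM
  intro θ hθ
  by_cases hint : ∃ a : ℤ, θ = a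
  · exact Or.inl hint
  · right
    have g4 := prime_of U (g := chr θ) (fun n => (norm_chr θ n).le) hN9 (by
      intro t ht htN
      have ht1 : N1 ≤ t := by
        refine le_trans ?_ ht
        rw [Nat.le_sqrt]; nlinarith
      have ht6 : N6 ≤ t := by
        refine le_trans ?_ ht
        rw [Nat.le_sqrt]; nlinarith
      apply h1 t ht1 _ _ θ hθ hint
      intro m hm
      have hm' := (Finset.mem_Icc.mp (Finset.mem_coe.mp hm)).2
      have hsm : √(m:ℝ) ≤ M := by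
        rw [Real.sqrt_le_left (by linarith)]
        exact_mod_cast hm'
      refine hsm.trans (hMN.trans ?_)
      obtain ⟨ht3, hlog⟩ := log_three hN9 ht
      have hlt := h6 t ht6
      calc (2:ℝ)^K * Real.log N ^ K = (2 * Real.log N)^K := by rw [mul_pow]
        _ ≤ (2 * (3 * Real.log t))^K := by gcongr
        _ ≤ (Real.log t * Real.log t)^K := by
            apply pow_le_pow_left₀ (by positivity)
            nlinarith
        _ = Real.log t ^ (2*K) := by rw [← sq, ← pow_mul])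
    have g5 := h2 N n2
    have g6 : 0 < (N:ℝ) / (2 * Real.log N) := by positivity
    unfold av
    rw [norm_div, Complex.norm_natCast]
    have hs : 0 < √(N:ℝ) := Real.sqrt_pos.mpr hN0
    have g7 : ‖∑ p ∈ PR N, chr θ p‖ / ((PR N).card : ℝ) ≤ 18 * Real.log N / √(N:ℝ) + 8 * 3^U / Real.log N ^ U := by
      calc ‖∑ p ∈ PR N, chr θ p‖ / ((PR N).card : ℝ) ≤ (9 * √(N:ℝ) + 4 * 3^U * N / Real.log N ^ (U+1)) / ((N:ℝ) / (2 * Real.log N)) := by
            gcongr
        _ = 18 * Real.log N / √(N:ℝ) + 8 * 3^U / Real.log N ^ U := by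
            have e1 : (N:ℝ) = √(N:ℝ) * √(N:ℝ) := (Real.mul_self_sqrt hN0.le).symm
            rw [add_div]
            congr 1
            · nth_rewrite 2 [e1]
              field_simp
              norm_num
            · rw [pow_succ]
              field_simp
              norm_num
              ring
    refine g7.trans ?_
    have g8 := h4 N n4
    rw [le_div_iff₀ (by positivity)]
    have g9 : (M:ℝ)^C ≤ (2:ℝ)^(K*C) * Real.log N ^ (K*C) := by
      calc (M:ℝ)^C ≤ (2^K * Real.log N ^ K)^C := by gcongr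
        _ = _ := by rw [mul_pow, ← pow_mul, ← pow_mul]
    calc (18 * Real.log N / √(N:ℝ) + 8 * 3^U / Real.log N ^ U) * (M:ℝ)^C
        ≤ (18 * Real.log N / √(N:ℝ) + 8 * 3^U / Real.log N ^ U) * ((2:ℝ)^(K*C) * Real.log N ^ (K*C)) := by gcongr
      _ = (18 * (2:ℝ)^(K*C)) * (Real.log N ^ (K*C+1) / √(N:ℝ)) + (8 * 3^U * (2:ℝ)^(K*C)) * (1/Real.log N) := by
          rw [hU, pow_succ, pow_succ]
          field_simp
      _ ≤ 1 := g8.le

/-- **primes** -/
theorem app_PR {ρ : ℕ → ℝ} (hρ : Tendsto ρ atTop (𝓝[>] 0)) (A : ℕ) (hA : ∀ᶠ N : ℕ in atTop, 1 / Real.log N ^ A ≤ ρ N) :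
    ∃ M : ℕ → ℕ, AppS atTop ρ M PR := by
  obtain ⟨ω, hω, hω1, C, hC, N0, hms⟩ := win_ms (ε := 1) one_pos
  obtain ⟨A', hA'1, hA'2⟩ : ∃ A' : ℕ, 3 * A ≤ A' ∧ (A:ℝ) + 2 ≤ A' * ω := by
    obtain ⟨n, hn⟩ := exists_nat_ge (((A:ℝ) + 2)/ω)
    refine ⟨max (3*A) n, le_max_left _ _, ?_⟩
    rw [div_le_iff₀ hω] at hn
    have : (n:ℝ) ≤ ((max (3*A) n : ℕ):ℝ) := by exact_mod_cast le_max_right _ _
    nlinarith
  have hsmall : ∀ r : ℝ, 0 < r → ∀ᶠ j in atTop, 0 < ρ j ∧ ρ j ≤ r := fun r hr => hρ (Ioc_mem_nhdsGT hr)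
  have hlogt : Tendsto (fun t : ℕ => Real.log (t:ℝ)) atTop atTop := Real.tendsto_log_atTop.comp tendsto_natCast_atTop_atTop
  set M : ℕ → ℕ := fun N => (⌈Real.log N⌉₊)^A' with hM
  have basic : ∀ᶠ N : ℕ in atTop, 1 ≤ Real.log N ∧ Real.log N ^ A' ≤ M N ∧ (M N : ℝ) ≤ 2^A' * Real.log N ^ A' ∧ 1 ≤ M N := by
    filter_upwards [hlogt.eventually_ge_atTop 1] with N h1
    have h2 : Real.log N ≤ ⌈Real.log N⌉₊ := Nat.le_ceil _
    have h3 : (⌈Real.log N⌉₊ : ℝ) < Real.log N + 1 := Nat.ceil_lt_add_one (by linarith)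
    have h4 : Real.log N ^ A' ≤ M N := by
      rw [hM]; push_cast
      exact pow_le_pow_left₀ (by linarith) h2 _
    refine ⟨h1, h4, ?_, ?_⟩
    · rw [hM]; push_cast
      rw [← mul_pow]
      exact pow_le_pow_left₀ (by linarith) (by linarith) _
    · have : (1:ℝ) ≤ M N := (one_le_pow₀ h1).trans h4
      exact_mod_cast this
  obtain ⟨N2, hpi⟩ := pi_low
  have ev2 : ∀ᶠ N : ℕ in atTop, N2 ≤ N := eventually_ge_atTop N2
  refine ⟨M, ⟨hρ, ?_, ?_, ?_⟩, ?_, ?_⟩
  · filter_upwards [basic, hA] with N h1 h2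
    obtain ⟨b1, b2, b3, b4⟩ := h1
    have hl : 0 < Real.log N := by linarith
    refine le_trans ?_ b2
    have h3 : 0 < 1 / Real.log N ^ A := by positivity
    have h4 : 1/(ρ N)^3 ≤ 1/(1 / Real.log N ^ A)^3 := one_div_le_one_div_of_le (by positivity) (pow_le_pow_left₀ h3.le h2 3)
    refine h4.trans ?_
    rw [div_pow, one_pow, one_div_one_div, ← pow_mul]
    exact pow_le_pow_right₀ b1 (by omega)
  · filter_upwards [basic, ev2, eventually_ge_atTop 2] with N h1 h2 h3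
    refine ⟨2, ?_⟩
    unfold PR
    rw [Finset.mem_filter, Finset.mem_Icc]
    exact ⟨⟨by omega, by omega⟩, Nat.prime_two⟩
  · intro k Ce
    obtain ⟨N3, h3⟩ := blind_PR k A' Ce
    filter_upwards [basic, eventually_ge_atTop N3] with N h1 h2
    obtain ⟨b1, b2, b3, b4⟩ := h1
    exact h3 N h2 (M N) b4 b3
  · have h1 : Tendsto (fun N : ℕ => √(N:ℝ) / 2) atTop atTop := by
      have h2 : Tendsto (fun N : ℕ => (N:ℝ) ^ (1/2:ℝ)) atTop atTop :=
        (tendsto_rpow_atTop (by norm_num)).comp tendsto_natCast_atTop_atTop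
      have h3 := h2.atTop_div_const (show (0:ℝ) < 2 by norm_num)
      refine h3.congr (fun N => ?_)
      rw [Real.sqrt_eq_rpow]
    obtain ⟨N3, hN3, h3⟩ := log_pow_small 2 1
    refine tendsto_atTop_mono' atTop ?_ h1
    filter_upwards [basic, ev2, eventually_ge_atTop N3] with N h1 h2 h4
    obtain ⟨b1, b2, b3, b4⟩ := h1
    refine le_trans ?_ (hpi N h2)
    have h5 := (h3 N h4).2
    rw [one_mul] at h5
    have hl : 0 < Real.log N := by linarith
    have h6 : Real.log N ≤ √(N:ℝ) := Real.le_sqrt_of_sq_le h5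
    have hN0 : (0:ℝ) < N := by
      have : (0:ℝ) < Real.log N ^ 2 := by positivity
      linarith
    have hs : 0 < √(N:ℝ) := Real.sqrt_pos.mpr hN0
    rw [div_le_div_iff₀ (by norm_num) (by positivity)]
    calc √(N:ℝ) * (2 * Real.log N) ≤ √(N:ℝ) * (2 * √(N:ℝ)) := by gcongr
      _ = (√(N:ℝ) * √(N:ℝ)) * 2 := by ring
      _ = N * 2 := by rw [Real.mul_self_sqrt hN0.le]
  · intro s
    -- the bound
    have hlim : Tendsto (fun N : ℕ => 2 * C * (1/Real.log N) + (2 * C * 2^(4 * A')) * (Real.log N ^ (4 * A' + A + 1) / (N:ℝ) ^ ω)) atTop (𝓝 0) := by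
      have h6 : Tendsto (fun x : ℝ => Real.log x ^ (4 * A' + A + 1) / x ^ ω) atTop (𝓝 0) := by
        have := (isLittleO_log_rpow_rpow_atTop ((4 * A' + A + 1 : ℕ):ℝ) hω).tendsto_div_nhds_zero
        refine this.congr (fun x => ?_)
        rw [Real.rpow_natCast]
      have h7 : Tendsto (fun N : ℕ => Real.log N ^ (4 * A' + A + 1) / (N:ℝ) ^ ω) atTop (𝓝 0) := h6.comp tendsto_natCast_atTop_atTop
      have h8 : Tendsto (fun N : ℕ => 1 / Real.log (N:ℝ)) atTop (𝓝 0) := by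
        have := tendsto_inv_atTop_zero.comp hlogt
        exact this.congr (fun N => by simp [one_div])
      have h9 := (h8.const_mul (2 * C)).add (h7.const_mul (2 * C * 2^(4 * A')))
      simpa using h9
    refine squeeze_zero' ?_ ?_ hlim
    · filter_upwards [hsmall 1 one_pos] with j h1
      apply div_nonneg (ra_nonneg (fun n => by split_ifs <;> positivity))
      exact mul_nonneg h1.1.le (Real.log_nonneg (by rw [one_le_div h1.1]; exact h1.2))
    · obtain ⟨N3, hN3, h3⟩ := log_pow_small (A' + 1) (4 * 2^A')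
      filter_upwards [basic, ev2, hA, eventually_ge_atTop (max N0 8), eventually_ge_atTop N3, hsmall (Real.exp (-1)) (Real.exp_pos _),
        hsmall (1/(|s|+1)) (by positivity)] with N h1 h2 hA1 h4 h4' g1 g2
      obtain ⟨b1, b2, b3, b4⟩ := h1
      have hl : 0 < Real.log N := by linarith
      have hρ0 := g1.1
      have hN8 : 8 ≤ N := by omega
      have hN0 : (0:ℝ) < N := by exact_mod_cast (by omega : 0 < N)
      have hL1 : 1 ≤ Real.log (1/ρ N) := by
        rw [Real.le_log_iff_exp_le (by positivity), le_div_iff₀ hρ0]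
        calc Real.exp 1 * ρ N ≤ Real.exp 1 * Real.exp (-1) := by have := g1.2; gcongr
          _ = 1 := by rw [← Real.exp_add]; norm_num
      have hρs : |ρ N * s| ≤ 1 := by
        have g5 := g2.2
        rw [le_div_iff₀ (by positivity)] at g5
        rw [abs_mul, abs_of_pos hρ0]
        nlinarith
      have hMpos : (1:ℝ) ≤ M N := by exact_mod_cast b4
      have hMN : 2 * ((M N:ℝ) + 1) ≤ N := by
        have h5 := (h3 N h4').2
        have h6 : Real.log N ^ A' ≤ Real.log N ^ (A' + 1) := pow_le_pow_right₀ b1 (by omega)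
        have h7 : 4 * (M N:ℝ) ≤ N := by
          calc 4 * (M N:ℝ) ≤ 4 * (2^A' * Real.log N ^ A') := by gcongr
            _ ≤ 4 * (2^A' * Real.log N ^ (A' + 1)) := by gcongr
            _ = 4 * 2^A' * Real.log N ^ (A'+1) := by ring
            _ ≤ N := h5
        linarith
      have h10 := hms N (by omega) 4 (by
        have e1 : ((4:ℕ):ℝ) ^ ((1:ℝ)/2 + 1) = 8 := by
          have : ((4:ℕ):ℝ) = (2:ℝ)^(2:ℝ) := by norm_num
          rw [this, ← Real.rpow_mul (by norm_num)]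
          norm_num
        rw [e1]; exact_mod_cast hN8) (ρ N * s) hρs (M N) b4 hMN
      -- primes inside the window
      have h11 : ∑ n ∈ PR N, (if 5 ≤ n then (En (n + ρ N * s) - U Circ.ag ph (n + ρ N * s) (M N))^2 else 0) ≤
          ∑ n ∈ Finset.Ioc 4 (4 + N), (if 5 ≤ n then (En (n + ρ N * s) - U Circ.ag ph (n + ρ N * s) (M N))^2 else 0) := by
        rw [← Finset.sum_filter, ← Finset.sum_filter]
        apply Finset.sum_le_sum_of_subset_of_nonneg
        · intro n hn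
          unfold PR at hn
          rw [Finset.mem_filter, Finset.mem_filter, Finset.mem_Icc] at hn
          rw [Finset.mem_filter, Finset.mem_Ioc]
          omega
        · intro _ _ _; positivity
      have h12 : (M N:ℝ) ^ (-ω) ≤ 1 / Real.log N ^ (A+2) := by
        have q1 : (Real.log N ^ A') ^ (-ω) = (Real.log N) ^ (-(A' * ω)) := by
          rw [← Real.rpow_natCast, ← Real.rpow_mul hl.le]; congr 1; ring
        have q2 : (Real.log N) ^ (-(A' * ω)) ≤ (Real.log N) ^ (-((A:ℝ) + 2)) := Real.rpow_le_rpow_of_exponent_le b1 (by linarith)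
        have q3 : (Real.log N) ^ (-((A:ℝ) + 2)) = 1 / Real.log N ^ (A+2) := by
          rw [Real.rpow_neg hl.le, one_div]
          congr 1
          exact_mod_cast Real.rpow_natCast (Real.log N) (A+2)
        calc (M N:ℝ) ^ (-ω) ≤ (Real.log N ^ A') ^ (-ω) := Real.rpow_le_rpow_of_nonpos (by positivity) b2 (by linarith)
          _ = _ := q1
          _ ≤ _ := q2
          _ = _ := q3
      have h13 : (M N:ℝ)^4 * (N:ℝ) ^ (-ω) ≤ 2^(4*A') * Real.log N ^ (4 * A') * (1/(N:ℝ) ^ ω) := by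
        rw [Real.rpow_neg hN0.le, one_div]
        have : (M N:ℝ)^4 ≤ 2^(4*A') * Real.log N ^ (4 * A') := by
          calc (M N:ℝ)^4 ≤ (2^A' * Real.log N ^ A')^4 := by gcongr
            _ = _ := by rw [mul_pow, ← pow_mul, ← pow_mul, mul_comm A' 4]
        gcongr
      have h14 := hpi N h2
      have h15 : 0 < (N:ℝ) / (2 * Real.log N) := by positivity
      have h16 : 1 / Real.log N ^ A ≤ ρ N * Real.log (1/ρ N) := hA1.trans (le_mul_of_one_le_right hρ0.le hL1)
      have h17 : 0 < 1 / Real.log N ^ A := by positivity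
      unfold ra
      set Sm := ∑ n ∈ PR N, (if 5 ≤ n then (En (n + ρ N * s) - U Circ.ag ph (n + ρ N * s) (M N))^2 else 0) with hSm
      have hSm0 : 0 ≤ Sm := Finset.sum_nonneg (fun n _ => by split_ifs <;> positivity)
      have h18 : Sm ≤ C * (1 / Real.log N ^ (A+2) + 2^(4*A') * Real.log N ^ (4 * A') * (1/(N:ℝ) ^ ω)) * N := by
        refine h11.trans (h10.trans ?_)
        gcongr
      calc Sm / ((PR N).card : ℝ) / (ρ N * Real.log (1/ρ N))
          ≤ (C * (1 / Real.log N ^ (A+2) + 2^(4*A') * Real.log N ^ (4 * A') * (1/(N:ℝ) ^ ω)) * N) / ((N:ℝ) / (2 * Real.log N)) / (1 / Real.log N ^ A) := by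
            gcongr
        _ = 2 * C * (1/Real.log N) + (2 * C * 2^(4 * A')) * (Real.log N ^ (4 * A' + A + 1) / (N:ℝ) ^ ω) := by
            rw [pow_add (Real.log N) A 2, pow_add (Real.log N) (4 * A' + A) 1, pow_add (Real.log N) (4 * A') A]
            field_simp

end Pool.Agent.W2helper20.GC
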