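import Mathlib
import Pool.Agent.H383.FullC
import Pool.Agent.W2helper20.GC.Prm

open MeasureTheory Filter Topology
open Pool.Agent.H383 Pool.Agent.H383.AP Pool.Agent.H383.Gauss Pool.Agent.H383.Gen Pool.Agent.H383.GW
open Pool.Agent.N48.Ann

namespace Pool.Agent.W2helper20.GC

/-- the limit law of the normalised error term at the integers -/
theorem exists_law : ∃ μ : ProbabilityMeasure ℝ, (∀ f : ℝ → ℝ, Continuous f → (∃ C : ℝ, ∀ x, |f x| ≤ C) →
      Tendsto (fun N : ℕ => (∑ n ∈ Finset.Icc 1 N, f (PG n / √(n:ℝ))) / N) atTop (𝓝 (∫ x, f x ∂(μ : Measure ℝ)))) ∧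
    ∀ t0 : ℝ, LawC t0 (charFun (μ : Measure ℝ) t0) := by
  have hP : ∀ n : ℕ, 0 < (1:ℝ) * n^2 + 2 * n + 1 := fun n => by positivity
  have ha : (0:ℝ) < 1 := one_pos
  have hAp := Circ.quad_Ap ha (fun n => (hP n).le)
  obtain ⟨μ, hμ2, hμ⟩ := hAp.b2.limit
  have hμL : Law2 (fun n : ℕ => En √((1:ℝ) * n^2 + 2 * n + 1)) μ := hμ
  refine ⟨μ, ?_, fun t0 => ?_⟩
  · intro f hf hb
    refine (hμL.law f hf hb).congr (fun N => ?_)
    unfold rm
    congr 1
    have hshift : ∀ g : ℕ → ℝ, ∑ n ∈ Finset.Icc 1 N, g n = ∑ n ∈ Finset.range N, g (n + 1) := by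
      intro g
      have h2 : Finset.Icc 1 N = Finset.Ico 1 (N + 1) := by
        ext x; simp only [Finset.mem_Icc, Finset.mem_Ico]; omega
      rw [h2, Finset.sum_Ico_eq_sum_range, show N + 1 - 1 = N by omega]
      apply Finset.sum_congr rfl
      intro n _
      rw [add_comm]
    rw [hshift]
    apply Finset.sum_congr rfl
    intro n _
    have e : √((1:ℝ) * n^2 + 2 * n + 1) = ((n + 1 : ℕ) : ℝ) := by
      have : (1:ℝ) * n^2 + 2 * n + 1 = (((n + 1 : ℕ)) : ℝ)^2 := by push_cast; ring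
      rw [this, Real.sqrt_sq (by positivity)]
    beta_reduce
    rw [e, PG_En]
  have h1 := hμL.law.char t0
  -- the family
  set ρ : ℕ → ℝ := fun N => 1 / Real.log N with hρ
  have hlogt : Tendsto (fun t : ℕ => Real.log (t:ℝ)) atTop atTop := Real.tendsto_log_atTop.comp tendsto_natCast_atTop_atTop
  have hρt : Tendsto ρ atTop (𝓝[>] 0) := by
    rw [tendsto_nhdsWithin_iff]
    refine ⟨?_, ?_⟩
    · have := tendsto_inv_atTop_zero.comp hlogt
      exact this.congr (fun N => by rw [hρ]; simp [one_div])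
    · filter_upwards [hlogt.eventually_gt_atTop 0] with N hN
      rw [hρ, Set.mem_Ioi]
      positivity
  have hlog : Tendsto (fun N : ℕ => Real.log (1/ρ N) / Real.log N) atTop (𝓝 0) := by
    have h2 : Tendsto (fun x : ℝ => Real.log x / x) atTop (𝓝 0) := by
      have := (isLittleO_log_rpow_atTop (by norm_num : (0:ℝ) < 1)).tendsto_div_nhds_zero
      refine this.congr (fun x => ?_)
      rw [Real.rpow_one]
    refine (h2.comp hlogt).congr (fun N => ?_)
    rw [hρ, Function.comp_apply]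
    simp
  obtain ⟨M, hM⟩ := app_win (K := fun _ => 0) (N := fun N => N) hρt tendsto_id (ε := 1) one_pos (by
    filter_upwards with N
    rw [Nat.cast_zero, Real.zero_rpow (by norm_num)]
    positivity) hlog
  apply lawC_of hM
  unfold HasMean at h1
  refine h1.congr (fun N => ?_)
  unfold cm av
  rw [Nat.card_Ioc, show 0 + N - 0 = N by omega]
  congr 1
  have hshift : ∀ f : ℕ → ℂ, ∑ n ∈ Finset.Ioc 0 (0 + N), f n = ∑ n ∈ Finset.range N, f (n + 1) := by
    intro f
    have h2 : Finset.Ioc 0 (0 + N) = Finset.Ico 1 (N + 1) := by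
      ext x; simp only [Finset.mem_Ioc, Finset.mem_Ico]; omega
    rw [h2, Finset.sum_Ico_eq_sum_range, show N + 1 - 1 = N by omega]
    apply Finset.sum_congr rfl
    intro n _
    rw [add_comm]
  rw [hshift]
  apply Finset.sum_congr rfl
  intro n _
  have e : √((1:ℝ) * n^2 + 2 * n + 1) = ((n + 1 : ℕ) : ℝ) := by
    have : (1:ℝ) * n^2 + 2 * n + 1 = (((n + 1 : ℕ)) : ℝ)^2 := by push_cast; ring
    rw [this, Real.sqrt_sq (by positivity)]
  beta_reduce
  rw [e, PG_En, mul_comm Complex.I]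

end Pool.Agent.W2helper20.GC
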